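import Pool.Agent.EVA.Defs

/-!
# [EVA-N2a] Brandt semigroups and a subsemigroup of a product of three of them
-/

set_option autoImplicit false

namespace EVS

/-- the Brandt semigroup on `X`: pairs, with `(i, j) (j, k) = (i, k)`, and a zero -/
def Bd (X : Type) : Type := Option (X × X)

instance (X : Type) [DecidableEq X] : DecidableEq (Bd X) := inferInstanceAs (DecidableEq (Option (X × X)))

/-- a nonzero element -/
def Bd.pr {X : Type} (i j : X) : Bd X := some (i, j)

/-- multiplication -/
def Bd.mul {X : Type} [DecidableEq X] : Bd X → Bd X → Bd X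
  | some (i, j), some (j', k) => if j = j' then some (i, k) else none
  | _, _ => none

instance (X : Type) [DecidableEq X] : Semigroup (Bd X) where
  mul := Bd.mul
  mul_assoc x y z := by
    show Bd.mul (Bd.mul x y) z = Bd.mul x (Bd.mul y z)
    rcases x with _ | ⟨i, j⟩
    · rfl
    · rcases y with _ | ⟨j', k⟩
      · rfl
      · rcases z with _ | ⟨k', l⟩
        · simp only [Bd.mul]
          split_ifs <;> rfl
        · simp only [Bd.mul]
          by_cases h1 : j = j'
          · by_cases h2 : k = k' <;> simp [h1, h2]
          · by_cases h2 : k = k' <;> simp [h1, h2]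

theorem Bd.mul_def {X : Type} [DecidableEq X] (x y : Bd X) : x * y = Bd.mul x y := rfl

/-- the elements of `BT`: `e p q`, `a p q`, `b p q` are the pairs of the code words `p` and `q`, restricted to all
coordinates, to the coordinates `0, 1` and to the coordinates `1, 2`; `f t` is the idempotent of the code word
`3 + t`, `d k u v` is the pair of the values `u` and `v` at the coordinate `k`, `o` is zero -/
inductive BT : Type
  | e (p q : Fin 3)
  | a (p q : Fin 3)
  | b (p q : Fin 3)
  | f (t : Fin 3)
  | d (k u v : Fin 3)
  | o
  deriving DecidableEq, Fintype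

/-- the first three code words -/
def cE : Fin 3 → Fin 3 → Fin 3 := ![![0, 0, 0], ![0, 1, 1], ![1, 0, 1]]

/-- the last three code words -/
def cF : Fin 3 → Fin 3 → Fin 3 := ![![1, 2, 0], ![2, 1, 0], ![1, 1, 2]]

/-- the coordinates -/
def BT.co : BT → Fin 3 → Bd (Fin 3)
  | .e p q, k => some (cE p k, cE q k)
  | .a p q, k => if k = 2 then none else some (cE p k, cE q k)
  | .b p q, k => if k = 0 then none else some (cE p k, cE q k)
  | .f t, k => some (cF t k, cF t k)
  | .d k u v, k' => if k' = k then some (u, v) else none
  | .o, _ => none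

/-- the index of a code word with given coordinates 0, 1 -/
def ix01 (u v : Fin 3) : Fin 3 := if u = 1 then 2 else if v = 1 then 1 else 0

/-- the index of a code word with given coordinates 1, 2 -/
def ix12 (u v : Fin 3) : Fin 3 := if u = 1 then 1 else if v = 1 then 2 else 0

/-- the element with given coordinates -/
def BT.of : Bd (Fin 3) → Bd (Fin 3) → Bd (Fin 3) → BT
  | none, none, none => .o
  | some (u, v), none, none => .d 0 u v
  | none, some (u, v), none => .d 1 u v
  | none, none, some (u, v) => .d 2 u v
  | some (u, v), some (u', v'), none => .a (ix01 u u') (ix01 v v')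
  | none, some (u, v), some (u', v') => .b (ix12 u u') (ix12 v v')
  | some _, none, some _ => .o
  | some (u, v), some (u', v'), some (u'', _) =>
    if u = 1 ∧ u' = 2 then .f 0 else if u = 2 then .f 1 else if u'' = 2 then .f 2
    else .e (ix01 u u') (ix01 v v')

/-- multiplication -/
def BT.mul (x y : BT) : BT := BT.of (x.co 0 * y.co 0) (x.co 1 * y.co 1) (x.co 2 * y.co 2)

theorem BT.of_co : ∀ x : BT, BT.of (x.co 0) (x.co 1) (x.co 2) = x := by decide +kernel

theorem BT.co_inj {x y : BT} (h : ∀ k, x.co k = y.co k) : x = y := by
  rw [← BT.of_co x, ← BT.of_co y, h, h, h]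

theorem BT.co_mul : ∀ (x y : BT) (k : Fin 3), (x.mul y).co k = x.co k * y.co k := by decide +kernel

instance : Semigroup BT where
  mul := BT.mul
  mul_assoc x y z := by
    apply BT.co_inj
    intro k
    show (BT.mul (BT.mul x y) z).co k = (BT.mul x (BT.mul y z)).co k
    rw [BT.co_mul, BT.co_mul, BT.co_mul, BT.co_mul, mul_assoc]

theorem BT.mul_def (x y : BT) : x * y = x.mul y := rfl

theorem BT.co_mul' (x y : BT) (k : Fin 3) : (x * y).co k = x.co k * y.co k := BT.co_mul x y k

/-- all elements are regular -/
theorem BT.reg : ∀ x : BT, ∃ y : BT, x * y * x = x := by decide +kernel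

end EVS
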