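import Pool.Agent.EVA.BT

/-!
# [EVA-N2b] the semigroups `BX m`
-/

set_option autoImplicit false

namespace EVS

/-- the elements of `BX m`: `BT`, edges `x i p` (`0 ≤ i ≤ 2 m`) and vertices `al j p`, `be j p`.  The edges
`2 j + 1` and `2 j + 2` share the vertex `al j`, the edges `2 j` and `2 j + 1` share the vertex `be j`. -/
inductive BX (m : ℕ) : Type
  | g (s : BT)
  | x (i : Fin (2 * m + 1)) (p : Fin 3)
  | al (j : Fin m) (p : Fin 3)
  | be (j : Fin m) (p : Fin 3)
  deriving DecidableEq, Fintype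

/-- the values at the two additional coordinates -/
abbrev BV : Type := (Fin 3 × Fin 3) ⊕ ℕ

/-- a product of five Brandt semigroups -/
abbrev BM : Type := Bd (Fin 3) × Bd (Fin 3) × Bd (Fin 3) × Bd BV × Bd BV

/-- the pair of pairs -/
def Bd.two : Bd (Fin 3) → Bd (Fin 3) → Bd BV
  | some (u, v), some (u', v') => some (.inl (u, u'), .inl (v, v'))
  | _, _ => none

/-- the elements of `BT` in `BM` -/
def BT.io (s : BT) : BM :=
  (s.co 0, s.co 1, s.co 2, Bd.two (s.co 0) (s.co 1), Bd.two (s.co 1) (s.co 2))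

/-- the coordinates in `BM` -/
def BX.io {m : ℕ} : BX m → BM
  | .g s => s.io
  | .x i p => (Bd.pr (cE p 0) 2, none, Bd.pr (cE p 2) 2,
      if i.val = 0 then none else Bd.pr (.inl (cE p 0, cE p 1)) (.inr ((i.val + 1) / 2)),
      if i.val = 2 * m then none else Bd.pr (.inl (cE p 1, cE p 2)) (.inr (i.val / 2)))
  | .al j p => (Bd.pr (cE p 0) 2, none, none, Bd.pr (.inl (cE p 0, cE p 1)) (.inr (j.val + 1)), none)
  | .be j p => (none, none, Bd.pr (cE p 2) 2, none, Bd.pr (.inl (cE p 1, cE p 2)) (.inr j.val))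

/-- the vertex of `x i` under `a` -/
def BX.va (m : ℕ) (i : ℕ) (q : Fin 3) : BX m :=
  if h : 1 ≤ i ∧ i ≤ 2 * m then .al ⟨(i + 1) / 2 - 1, by omega⟩ q else .g (.d 0 (cE q 0) 2)

/-- the vertex of `x i` under `b` -/
def BX.vb (m : ℕ) (i : ℕ) (q : Fin 3) : BX m :=
  if h : i < 2 * m then .be ⟨i / 2, by omega⟩ q else .g (.d 2 (cE q 2) 2)

/-- the product of `s` and the shadow of `x i p` -/
def BT.shx (s : BT) (p : Fin 3) : BT :=
  BT.of (s.co 0 * Bd.pr (cE p 0) 2) none (s.co 2 * Bd.pr (cE p 2) 2)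

/-- the product of `s` and the shadow of `al j p` -/
def BT.sha (s : BT) (p : Fin 3) : BT := BT.of (s.co 0 * Bd.pr (cE p 0) 2) none none

/-- the product of `s` and the shadow of `be j p` -/
def BT.shb (s : BT) (p : Fin 3) : BT := BT.of none none (s.co 2 * Bd.pr (cE p 2) 2)

/-- the product of the shadow of `x i p` and `s` -/
def BT.rx (p : Fin 3) (s : BT) : BT :=
  BT.of (Bd.pr (cE p 0) 2 * s.co 0) none (Bd.pr (cE p 2) 2 * s.co 2)

/-- the product of the shadow of `al j p` and `s` -/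
def BT.ra (p : Fin 3) (s : BT) : BT := BT.of (Bd.pr (cE p 0) 2 * s.co 0) none none

/-- the product of the shadow of `be j p` and `s` -/
def BT.rb (p : Fin 3) (s : BT) : BT := BT.of none none (Bd.pr (cE p 2) 2 * s.co 2)

/-- multiplication -/
def BX.mul {m : ℕ} : BX m → BX m → BX m
  | .g s, .g s' => .g (s * s')
  | .g (.e q p'), .x i p => if p' = p then .x i q else .g ((BT.e q p').shx p)
  | .g (.a q p'), .x i p => if p' = p then BX.va m i.val q else .g ((BT.a q p').shx p)
  | .g (.b q p'), .x i p => if p' = p then BX.vb m i.val q else .g ((BT.b q p').shx p)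
  | .g s, .x _ p => .g (s.shx p)
  | .g (.e q p'), .al j p => if p' = p then .al j q else .g ((BT.e q p').sha p)
  | .g (.a q p'), .al j p => if p' = p then .al j q else .g ((BT.a q p').sha p)
  | .g s, .al _ p => .g (s.sha p)
  | .g (.e q p'), .be j p => if p' = p then .be j q else .g ((BT.e q p').shb p)
  | .g (.b q p'), .be j p => if p' = p then .be j q else .g ((BT.b q p').shb p)
  | .g s, .be _ p => .g (s.shb p)
  | .x _ p, .g s => .g (BT.rx p s)
  | .al _ p, .g s => .g (BT.ra p s)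
  | .be _ p, .g s => .g (BT.rb p s)
  | _, _ => .g .o

theorem BT.io_inj : ∀ s s' : BT, s.io = s'.io → s = s' := by
  intro s s' h
  apply BT.co_inj
  have h0 : s.co 0 = s'.co 0 := congrArg (fun y : BM => y.1) h
  have h1 : s.co 1 = s'.co 1 := congrArg (fun y : BM => y.2.1) h
  have h2 : s.co 2 = s'.co 2 := congrArg (fun y : BM => y.2.2.1) h
  intro k
  match k with
  | 0 => exact h0
  | 1 => exact h1
  | 2 => exact h2

theorem BT.io_mul : ∀ s s' : BT, (s * s').io = s.io * s'.io := by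
  have h1 : ∀ s s' : BT, Bd.two ((s * s').co 0) ((s * s').co 1) =
      Bd.two (s.co 0) (s.co 1) * Bd.two (s'.co 0) (s'.co 1) := by decide +kernel
  have h2 : ∀ s s' : BT, Bd.two ((s * s').co 1) ((s * s').co 2) =
      Bd.two (s.co 1) (s.co 2) * Bd.two (s'.co 1) (s'.co 2) := by decide +kernel
  intro s s'
  exact Prod.ext (BT.co_mul' s s' 0) (Prod.ext (BT.co_mul' s s' 1) (Prod.ext (BT.co_mul' s s' 2)
    (Prod.ext (h1 s s') (h2 s s'))))

/-- zero -/
def bx_n (X : Type) : Bd X := none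

theorem bx_mul_none {X : Type} [DecidableEq X] (x : Bd X) : x * bx_n X = none := by
  rcases x with _ | ⟨a, b⟩ <;> rfl

theorem bx_none_mul {X : Type} [DecidableEq X] (x : Bd X) : bx_n X * x = none := rfl

theorem bx_pr_mul {X : Type} [DecidableEq X] (a b c d : X) :
    (Bd.pr a b : Bd X) * Bd.pr c d = if b = c then Bd.pr a d else none := rfl

theorem bx_two_none (x : Bd (Fin 3)) : Bd.two x none = none := by
  rcases x with _ | ⟨a, b⟩ <;> rfl

theorem bx_none_two (x : Bd (Fin 3)) : Bd.two none x = none := rfl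

theorem bx_io_none {s : BT} (h : s.co 1 = none) : s.io = (s.co 0, none, s.co 2, none, none) := by
  unfold BT.io
  rw [h, bx_two_none, bx_none_two]
  rfl

theorem bx_pr_ne {X : Type} (a b : X) : (Bd.pr a b : Bd X) ≠ none := fun h => by cases h

theorem bx_pr_inj {X : Type} {a b c d : X} (h : (Bd.pr a b : Bd X) = Bd.pr c d) : a = c ∧ b = d := by
  cases h
  exact ⟨rfl, rfl⟩

theorem bx_ne : ∀ s : BT, s.co 0 ≠ none → s.co 1 = none → s.co 2 ≠ none → False := by decide +kernel

theorem bx_c01 : ∀ p q : Fin 3, (cE p 0, cE p 1) = (cE q 0, cE q 1) → p = q := by decide +kernel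

theorem bx_c12 : ∀ p q : Fin 3, (cE p 1, cE p 2) = (cE q 1, cE q 2) → p = q := by decide +kernel

theorem bx_c02 : ∀ p q : Fin 3, cE p 0 = cE q 0 → cE p 2 = cE q 2 → p = q := by decide +kernel

theorem bx_c2 : ∀ (p k : Fin 3), (2 : Fin 3) ≠ cE p k := by decide +kernel

theorem bx_shx : ∀ (s : BT) (p : Fin 3), (∀ q, s ≠ .e q p) → (s.shx p).co 0 = s.co 0 * Bd.pr (cE p 0) 2 ∧
    (s.shx p).co 1 = none ∧ (s.shx p).co 2 = s.co 2 * Bd.pr (cE p 2) 2 := by decide +kernel

theorem bx_sha : ∀ (s : BT) (p : Fin 3), (s.sha p).co 0 = s.co 0 * Bd.pr (cE p 0) 2 ∧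
    (s.sha p).co 1 = none ∧ (s.sha p).co 2 = none := by decide +kernel

theorem bx_shb : ∀ (s : BT) (p : Fin 3), (s.shb p).co 0 = none ∧
    (s.shb p).co 1 = none ∧ (s.shb p).co 2 = s.co 2 * Bd.pr (cE p 2) 2 := by decide +kernel

theorem bx_rx : ∀ (s : BT) (p : Fin 3), (BT.rx p s).co 0 = Bd.pr (cE p 0) 2 * s.co 0 ∧
    (BT.rx p s).co 1 = none ∧ (BT.rx p s).co 2 = Bd.pr (cE p 2) 2 * s.co 2 := by decide +kernel

theorem bx_ra : ∀ (s : BT) (p : Fin 3), (BT.ra p s).co 0 = Bd.pr (cE p 0) 2 * s.co 0 ∧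
    (BT.ra p s).co 1 = none ∧ (BT.ra p s).co 2 = none := by decide +kernel

theorem bx_rb : ∀ (s : BT) (p : Fin 3), (BT.rb p s).co 0 = none ∧
    (BT.rb p s).co 1 = none ∧ (BT.rb p s).co 2 = Bd.pr (cE p 2) 2 * s.co 2 := by decide +kernel

/-- the second component -/
def bx_snd {X : Type} : Bd X → Option X
  | none => none
  | some (_, b) => some b

theorem bx_mul_pr {X : Type} [DecidableEq X] {z : Bd X} {v : X} (h : bx_snd z ≠ some v) (w : X) :
    z * Bd.pr v w = none := by
  rcases z with _ | ⟨a, b⟩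
  · rfl
  · show (if b = v then _ else none) = none
    rw [if_neg]
    intro hb
    exact h (congrArg some hb)

theorem bx_two01 : ∀ (s : BT) (p : Fin 3), (∀ q, s ≠ .e q p) → (∀ q, s ≠ .a q p) →
    bx_snd (Bd.two (s.co 0) (s.co 1)) ≠ some (.inl (cE p 0, cE p 1)) := by decide +kernel

theorem bx_two12 : ∀ (s : BT) (p : Fin 3), (∀ q, s ≠ .e q p) → (∀ q, s ≠ .b q p) →
    bx_snd (Bd.two (s.co 1) (s.co 2)) ≠ some (.inl (cE p 1, cE p 2)) := by decide +kernel

theorem bx_inr_two (v : BV) (k : ℕ) (x y : Bd (Fin 3)) : (Bd.pr v (.inr k) : Bd BV) * Bd.two x y = none := by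
  rcases x with _ | ⟨a, b⟩
  · rfl
  · rcases y with _ | ⟨c, d⟩
    · rfl
    · rfl

/-- PROOF: cases for `x`, `y` (16 cases); compare the coordinates (`Bd.pr` and `some` are the same).  For `x i p` the last two coordinates:
`(i + 1) / 2` and `i / 2` determine `i`. -/
theorem BX.io_inj {m : ℕ} : Function.Injective (BX.io : BX m → BM) := by
  have hgx : ∀ (s : BT) (i : Fin (2 * m + 1)) (p : Fin 3), (BX.g s : BX m).io ≠ (BX.x i p : BX m).io := by
    intro s i p h
    have h0 : s.co 0 = Bd.pr (cE p 0) 2 := congrArg (fun y : BM => y.1) h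
    have h1 : s.co 1 = none := congrArg (fun y : BM => y.2.1) h
    have h2 : s.co 2 = Bd.pr (cE p 2) 2 := congrArg (fun y : BM => y.2.2.1) h
    exact bx_ne s (by rw [h0]; exact bx_pr_ne _ _) h1 (by rw [h2]; exact bx_pr_ne _ _)
  have hga : ∀ (s : BT) (j : Fin m) (p : Fin 3), (BX.g s : BX m).io ≠ (BX.al j p : BX m).io := by
    intro s j p h
    have h1 : s.co 1 = none := congrArg (fun y : BM => y.2.1) h
    have h3 : Bd.two (s.co 0) (s.co 1) = Bd.pr (.inl (cE p 0, cE p 1)) (.inr (j.val + 1)) :=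
      congrArg (fun y : BM => y.2.2.2.1) h
    rw [h1, bx_two_none] at h3
    exact bx_pr_ne _ _ h3.symm
  have hgb : ∀ (s : BT) (j : Fin m) (p : Fin 3), (BX.g s : BX m).io ≠ (BX.be j p : BX m).io := by
    intro s j p h
    have h1 : s.co 1 = none := congrArg (fun y : BM => y.2.1) h
    have h3 : Bd.two (s.co 1) (s.co 2) = Bd.pr (.inl (cE p 1, cE p 2)) (.inr j.val) :=
      congrArg (fun y : BM => y.2.2.2.2) h
    rw [h1, bx_none_two] at h3
    exact bx_pr_ne _ _ h3.symm
  have hxa : ∀ (i : Fin (2 * m + 1)) (p : Fin 3) (j : Fin m) (q : Fin 3),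
      (BX.x i p : BX m).io ≠ (BX.al j q : BX m).io := by
    intro i p j q h
    have h2 : Bd.pr (cE p 2) 2 = none := congrArg (fun y : BM => y.2.2.1) h
    exact bx_pr_ne _ _ h2
  have hxb : ∀ (i : Fin (2 * m + 1)) (p : Fin 3) (j : Fin m) (q : Fin 3),
      (BX.x i p : BX m).io ≠ (BX.be j q : BX m).io := by
    intro i p j q h
    have h2 : Bd.pr (cE p 0) 2 = none := congrArg (fun y : BM => y.1) h
    exact bx_pr_ne _ _ h2
  have hab : ∀ (i : Fin m) (p : Fin 3) (j : Fin m) (q : Fin 3),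
      (BX.al i p : BX m).io ≠ (BX.be j q : BX m).io := by
    intro i p j q h
    have h2 : Bd.pr (cE p 0) 2 = none := congrArg (fun y : BM => y.1) h
    exact bx_pr_ne _ _ h2
  intro x y h
  rcases x with s | ⟨i, p⟩ | ⟨j, p⟩ | ⟨j, p⟩ <;> rcases y with s' | ⟨i', p'⟩ | ⟨j', p'⟩ | ⟨j', p'⟩
  · rw [BT.io_inj s s' h]
  · exact (hgx _ _ _ h).elim
  · exact (hga _ _ _ h).elim
  · exact (hgb _ _ _ h).elim
  · exact (hgx _ _ _ h.symm).elim
  · have h0 : (Bd.pr (cE p 0) 2 : Bd (Fin 3)) = Bd.pr (cE p' 0) 2 := congrArg (fun y : BM => y.1) h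
    have h2 : (Bd.pr (cE p 2) 2 : Bd (Fin 3)) = Bd.pr (cE p' 2) 2 := congrArg (fun y : BM => y.2.2.1) h
    obtain rfl := bx_c02 p p' (bx_pr_inj h0).1 (bx_pr_inj h2).1
    have h3 : (if i.val = 0 then none else Bd.pr (.inl (cE p 0, cE p 1)) (.inr ((i.val + 1) / 2)) : Bd BV) =
        if i'.val = 0 then none else Bd.pr (.inl (cE p 0, cE p 1)) (.inr ((i'.val + 1) / 2)) :=
      congrArg (fun y : BM => y.2.2.2.1) h
    have h4 : (if i.val = 2 * m then none else Bd.pr (.inl (cE p 1, cE p 2)) (.inr (i.val / 2)) : Bd BV) =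
        if i'.val = 2 * m then none else Bd.pr (.inl (cE p 1, cE p 2)) (.inr (i'.val / 2)) :=
      congrArg (fun y : BM => y.2.2.2.2) h
    have h5 : (i.val = 0 ↔ i'.val = 0) ∧ (i.val ≠ 0 → (i.val + 1) / 2 = (i'.val + 1) / 2) := by
      by_cases c1 : i.val = 0 <;> by_cases c2 : i'.val = 0
      · exact ⟨⟨fun _ => c2, fun _ => c1⟩, fun c => absurd c1 c⟩
      · rw [if_pos c1, if_neg c2] at h3
        exact absurd h3.symm (bx_pr_ne _ _)
      · rw [if_neg c1, if_pos c2] at h3
        exact absurd h3 (bx_pr_ne _ _)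
      · rw [if_neg c1, if_neg c2] at h3
        exact ⟨⟨fun c => absurd c c1, fun c => absurd c c2⟩, fun _ => Sum.inr.inj (bx_pr_inj h3).2⟩
    have h6 : (i.val = 2 * m ↔ i'.val = 2 * m) ∧ (i.val ≠ 2 * m → i.val / 2 = i'.val / 2) := by
      by_cases c1 : i.val = 2 * m <;> by_cases c2 : i'.val = 2 * m
      · exact ⟨⟨fun _ => c2, fun _ => c1⟩, fun c => absurd c1 c⟩
      · rw [if_pos c1, if_neg c2] at h4
        exact absurd h4.symm (bx_pr_ne _ _)
      · rw [if_neg c1, if_pos c2] at h4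
        exact absurd h4 (bx_pr_ne _ _)
      · rw [if_neg c1, if_neg c2] at h4
        exact ⟨⟨fun c => absurd c c1, fun c => absurd c c2⟩, fun _ => Sum.inr.inj (bx_pr_inj h4).2⟩
    have h7 : i.val = i'.val := by omega
    rw [Fin.ext h7]
  · exact (hxa _ _ _ _ h).elim
  · exact (hxb _ _ _ _ h).elim
  · exact (hga _ _ _ h.symm).elim
  · exact (hxa _ _ _ _ h.symm).elim
  · have h3 : (Bd.pr (.inl (cE p 0, cE p 1)) (.inr (j.val + 1)) : Bd BV) =
        Bd.pr (.inl (cE p' 0, cE p' 1)) (.inr (j'.val + 1)) := congrArg (fun y : BM => y.2.2.2.1) h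
    obtain rfl := bx_c01 p p' (Sum.inl.inj (bx_pr_inj h3).1)
    have h4 : j.val + 1 = j'.val + 1 := Sum.inr.inj (bx_pr_inj h3).2
    have h7 : j.val = j'.val := by omega
    rw [Fin.ext h7]
  · exact (hab _ _ _ _ h).elim
  · exact (hgb _ _ _ h.symm).elim
  · exact (hxb _ _ _ _ h.symm).elim
  · exact (hab _ _ _ _ h.symm).elim
  · have h3 : (Bd.pr (.inl (cE p 1, cE p 2)) (.inr j.val) : Bd BV) =
        Bd.pr (.inl (cE p' 1, cE p' 2)) (.inr j'.val) := congrArg (fun y : BM => y.2.2.2.2) h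
    obtain rfl := bx_c12 p p' (Sum.inl.inj (bx_pr_inj h3).1)
    have h7 : j.val = j'.val := Sum.inr.inj (bx_pr_inj h3).2
    rw [Fin.ext h7]

/-- PROOF: cases for `x`, `y`, and for `g s` the cases for `s`.  The finite statements about the coordinates of elements of `BT` by
`decide +kernel`.  (The statement for `m = 2` has been checked by `decide +kernel`.) -/
theorem BX.io_mul {m : ℕ} (x y : BX m) : (BX.mul x y).io = x.io * y.io := by
  -- the general case on the left
  have hgx : ∀ (s : BT) (i : Fin (2 * m + 1)) (p : Fin 3), (∀ q, s ≠ .e q p) → (∀ q, s ≠ .a q p) →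
      (∀ q, s ≠ .b q p) → (BX.g (s.shx p) : BX m).io = (BX.g s : BX m).io * (BX.x i p).io := by
    intro s i p h1 h2 h3
    obtain ⟨c0, c1, c2⟩ := bx_shx s p h1
    show (s.shx p).io = s.io * _
    rw [bx_io_none c1, c0, c2]
    refine Prod.ext rfl (Prod.ext (bx_mul_none _).symm (Prod.ext rfl (Prod.ext ?_ ?_)))
    · show none = Bd.two (s.co 0) (s.co 1) * (if i.val = 0 then none else
        Bd.pr (.inl (cE p 0, cE p 1)) (.inr ((i.val + 1) / 2)) : Bd BV)
      split_ifs with hi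
      · exact (bx_mul_none _).symm
      · exact (bx_mul_pr (bx_two01 s p h1 h2) _).symm
    · show none = Bd.two (s.co 1) (s.co 2) * (if i.val = 2 * m then none else
        Bd.pr (.inl (cE p 1, cE p 2)) (.inr (i.val / 2)) : Bd BV)
      split_ifs with hi
      · exact (bx_mul_none _).symm
      · exact (bx_mul_pr (bx_two12 s p h1 h3) _).symm
  have hga : ∀ (s : BT) (j : Fin m) (p : Fin 3), (∀ q, s ≠ .e q p) → (∀ q, s ≠ .a q p) →
      (BX.g (s.sha p) : BX m).io = (BX.g s : BX m).io * (BX.al j p).io := by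
    intro s j p h1 h2
    obtain ⟨c0, c1, c2⟩ := bx_sha s p
    show (s.sha p).io = s.io * _
    rw [bx_io_none c1, c0, c2]
    refine Prod.ext rfl (Prod.ext (bx_mul_none _).symm (Prod.ext (bx_mul_none _).symm
      (Prod.ext ?_ (bx_mul_none _).symm)))
    exact (bx_mul_pr (bx_two01 s p h1 h2) _).symm
  have hgb : ∀ (s : BT) (j : Fin m) (p : Fin 3), (∀ q, s ≠ .e q p) → (∀ q, s ≠ .b q p) →
      (BX.g (s.shb p) : BX m).io = (BX.g s : BX m).io * (BX.be j p).io := by
    intro s j p h1 h2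
    obtain ⟨c0, c1, c2⟩ := bx_shb s p
    show (s.shb p).io = s.io * _
    rw [bx_io_none c1, c0, c2]
    refine Prod.ext (bx_mul_none _).symm (Prod.ext (bx_mul_none _).symm (Prod.ext rfl
      (Prod.ext (bx_mul_none _).symm ?_)))
    exact (bx_mul_pr (bx_two12 s p h1 h2) _).symm
  -- the general case on the right
  have hxg : ∀ (s : BT) (i : Fin (2 * m + 1)) (p : Fin 3),
      (BX.g (BT.rx p s) : BX m).io = (BX.x i p : BX m).io * (BX.g s : BX m).io := by
    intro s i p
    obtain ⟨c0, c1, c2⟩ := bx_rx s p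
    show (BT.rx p s).io = _ * s.io
    rw [bx_io_none c1, c0, c2]
    refine Prod.ext rfl (Prod.ext rfl (Prod.ext rfl (Prod.ext ?_ ?_)))
    · show none = (if i.val = 0 then none else
        Bd.pr (.inl (cE p 0, cE p 1)) (.inr ((i.val + 1) / 2)) : Bd BV) * Bd.two (s.co 0) (s.co 1)
      split_ifs with hi
      · rfl
      · exact (bx_inr_two _ _ _ _).symm
    · show none = (if i.val = 2 * m then none else
        Bd.pr (.inl (cE p 1, cE p 2)) (.inr (i.val / 2)) : Bd BV) * Bd.two (s.co 1) (s.co 2)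
      split_ifs with hi
      · rfl
      · exact (bx_inr_two _ _ _ _).symm
  have hag : ∀ (s : BT) (j : Fin m) (p : Fin 3),
      (BX.g (BT.ra p s) : BX m).io = (BX.al j p : BX m).io * (BX.g s : BX m).io := by
    intro s j p
    obtain ⟨c0, c1, c2⟩ := bx_ra s p
    show (BT.ra p s).io = _ * s.io
    rw [bx_io_none c1, c0, c2]
    exact Prod.ext rfl (Prod.ext rfl (Prod.ext rfl (Prod.ext (bx_inr_two _ _ _ _).symm rfl)))
  have hbg : ∀ (s : BT) (j : Fin m) (p : Fin 3),
      (BX.g (BT.rb p s) : BX m).io = (BX.be j p : BX m).io * (BX.g s : BX m).io := by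
    intro s j p
    obtain ⟨c0, c1, c2⟩ := bx_rb s p
    show (BT.rb p s).io = _ * s.io
    rw [bx_io_none c1, c0, c2]
    exact Prod.ext rfl (Prod.ext rfl (Prod.ext rfl (Prod.ext rfl (bx_inr_two _ _ _ _).symm)))
  -- the cases with a match
  have hex : ∀ (q p : Fin 3) (i : Fin (2 * m + 1)),
      (BX.x i q : BX m).io = (BX.g (.e q p) : BX m).io * (BX.x i p).io := by
    intro q p i
    refine Prod.ext ?_ (Prod.ext rfl (Prod.ext ?_ (Prod.ext ?_ ?_)))
    · show (Bd.pr (cE q 0) 2 : Bd (Fin 3)) = Bd.pr (cE q 0) (cE p 0) * Bd.pr (cE p 0) 2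
      rw [bx_pr_mul, if_pos rfl]
    · show (Bd.pr (cE q 2) 2 : Bd (Fin 3)) = Bd.pr (cE q 2) (cE p 2) * Bd.pr (cE p 2) 2
      rw [bx_pr_mul, if_pos rfl]
    · show (if i.val = 0 then none else
        Bd.pr (.inl (cE q 0, cE q 1)) (.inr ((i.val + 1) / 2)) : Bd BV) =
        Bd.pr (.inl (cE q 0, cE q 1)) (.inl (cE p 0, cE p 1)) * (if i.val = 0 then none else
        Bd.pr (.inl (cE p 0, cE p 1)) (.inr ((i.val + 1) / 2)) : Bd BV)
      split_ifs with hi
      · rfl
      · rw [bx_pr_mul, if_pos rfl]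
    · show (if i.val = 2 * m then none else
        Bd.pr (.inl (cE q 1, cE q 2)) (.inr (i.val / 2)) : Bd BV) =
        Bd.pr (.inl (cE q 1, cE q 2)) (.inl (cE p 1, cE p 2)) * (if i.val = 2 * m then none else
        Bd.pr (.inl (cE p 1, cE p 2)) (.inr (i.val / 2)) : Bd BV)
      split_ifs with hi
      · rfl
      · rw [bx_pr_mul, if_pos rfl]
  have hax : ∀ (q p : Fin 3) (i : Fin (2 * m + 1)),
      (BX.va m i.val q : BX m).io = (BX.g (.a q p) : BX m).io * (BX.x i p).io := by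
    intro q p i
    have hi2 := i.2
    by_cases hi : i.val = 0
    · have e1 : BX.va m i.val q = .g (.d 0 (cE q 0) 2) := dif_neg (by omega)
      rw [e1]
      refine Prod.ext ?_ (Prod.ext rfl (Prod.ext rfl (Prod.ext ?_ ?_)))
      · show (Bd.pr (cE q 0) 2 : Bd (Fin 3)) = Bd.pr (cE q 0) (cE p 0) * Bd.pr (cE p 0) 2
        rw [bx_pr_mul, if_pos rfl]
      · show (none : Bd BV) =
          Bd.pr (.inl (cE q 0, cE q 1)) (.inl (cE p 0, cE p 1)) * (if i.val = 0 then none else
          Bd.pr (.inl (cE p 0, cE p 1)) (.inr ((i.val + 1) / 2)) : Bd BV)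
        rw [if_pos hi]
        rfl
      · rfl
    · have e1 : BX.va m i.val q = .al ⟨(i.val + 1) / 2 - 1, by omega⟩ q := dif_pos (by omega)
      rw [e1]
      refine Prod.ext ?_ (Prod.ext rfl (Prod.ext rfl (Prod.ext ?_ ?_)))
      · show (Bd.pr (cE q 0) 2 : Bd (Fin 3)) = Bd.pr (cE q 0) (cE p 0) * Bd.pr (cE p 0) 2
        rw [bx_pr_mul, if_pos rfl]
      · show (Bd.pr (.inl (cE q 0, cE q 1)) (.inr ((i.val + 1) / 2 - 1 + 1)) : Bd BV) =
          Bd.pr (.inl (cE q 0, cE q 1)) (.inl (cE p 0, cE p 1)) * (if i.val = 0 then none else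
          Bd.pr (.inl (cE p 0, cE p 1)) (.inr ((i.val + 1) / 2)) : Bd BV)
        rw [if_neg hi, bx_pr_mul, if_pos rfl, Nat.sub_add_cancel (by omega)]
      · rfl
  have hbx : ∀ (q p : Fin 3) (i : Fin (2 * m + 1)),
      (BX.vb m i.val q : BX m).io = (BX.g (.b q p) : BX m).io * (BX.x i p).io := by
    intro q p i
    have hi2 := i.2
    by_cases hi : i.val = 2 * m
    · have e1 : BX.vb m i.val q = .g (.d 2 (cE q 2) 2) := dif_neg (by omega)
      rw [e1]
      refine Prod.ext rfl (Prod.ext rfl (Prod.ext ?_ (Prod.ext rfl ?_)))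
      · show (Bd.pr (cE q 2) 2 : Bd (Fin 3)) = Bd.pr (cE q 2) (cE p 2) * Bd.pr (cE p 2) 2
        rw [bx_pr_mul, if_pos rfl]
      · show (none : Bd BV) =
          Bd.pr (.inl (cE q 1, cE q 2)) (.inl (cE p 1, cE p 2)) * (if i.val = 2 * m then none else
          Bd.pr (.inl (cE p 1, cE p 2)) (.inr (i.val / 2)) : Bd BV)
        rw [if_pos hi]
        rfl
    · have e1 : BX.vb m i.val q = .be ⟨i.val / 2, by omega⟩ q := dif_pos (by omega)
      rw [e1]
      refine Prod.ext rfl (Prod.ext rfl (Prod.ext ?_ (Prod.ext rfl ?_)))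
      · show (Bd.pr (cE q 2) 2 : Bd (Fin 3)) = Bd.pr (cE q 2) (cE p 2) * Bd.pr (cE p 2) 2
        rw [bx_pr_mul, if_pos rfl]
      · show (Bd.pr (.inl (cE q 1, cE q 2)) (.inr (i.val / 2)) : Bd BV) =
          Bd.pr (.inl (cE q 1, cE q 2)) (.inl (cE p 1, cE p 2)) * (if i.val = 2 * m then none else
          Bd.pr (.inl (cE p 1, cE p 2)) (.inr (i.val / 2)) : Bd BV)
        rw [if_neg hi, bx_pr_mul, if_pos rfl]
  have hea : ∀ (q p : Fin 3) (j : Fin m),
      (BX.al j q : BX m).io = (BX.g (.e q p) : BX m).io * (BX.al j p).io := by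
    intro q p j
    refine Prod.ext ?_ (Prod.ext rfl (Prod.ext rfl (Prod.ext ?_ rfl)))
    · show (Bd.pr (cE q 0) 2 : Bd (Fin 3)) = Bd.pr (cE q 0) (cE p 0) * Bd.pr (cE p 0) 2
      rw [bx_pr_mul, if_pos rfl]
    · show (Bd.pr (.inl (cE q 0, cE q 1)) (.inr (j.val + 1)) : Bd BV) =
        Bd.pr (.inl (cE q 0, cE q 1)) (.inl (cE p 0, cE p 1)) *
        Bd.pr (.inl (cE p 0, cE p 1)) (.inr (j.val + 1))
      rw [bx_pr_mul, if_pos rfl]
  have haa : ∀ (q p : Fin 3) (j : Fin m),
      (BX.al j q : BX m).io = (BX.g (.a q p) : BX m).io * (BX.al j p).io := by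
    intro q p j
    refine Prod.ext ?_ (Prod.ext rfl (Prod.ext rfl (Prod.ext ?_ rfl)))
    · show (Bd.pr (cE q 0) 2 : Bd (Fin 3)) = Bd.pr (cE q 0) (cE p 0) * Bd.pr (cE p 0) 2
      rw [bx_pr_mul, if_pos rfl]
    · show (Bd.pr (.inl (cE q 0, cE q 1)) (.inr (j.val + 1)) : Bd BV) =
        Bd.pr (.inl (cE q 0, cE q 1)) (.inl (cE p 0, cE p 1)) *
        Bd.pr (.inl (cE p 0, cE p 1)) (.inr (j.val + 1))
      rw [bx_pr_mul, if_pos rfl]
  have heb : ∀ (q p : Fin 3) (j : Fin m),
      (BX.be j q : BX m).io = (BX.g (.e q p) : BX m).io * (BX.be j p).io := by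
    intro q p j
    refine Prod.ext rfl (Prod.ext rfl (Prod.ext ?_ (Prod.ext rfl ?_)))
    · show (Bd.pr (cE q 2) 2 : Bd (Fin 3)) = Bd.pr (cE q 2) (cE p 2) * Bd.pr (cE p 2) 2
      rw [bx_pr_mul, if_pos rfl]
    · show (Bd.pr (.inl (cE q 1, cE q 2)) (.inr j.val) : Bd BV) =
        Bd.pr (.inl (cE q 1, cE q 2)) (.inl (cE p 1, cE p 2)) *
        Bd.pr (.inl (cE p 1, cE p 2)) (.inr j.val)
      rw [bx_pr_mul, if_pos rfl]
  have hbb : ∀ (q p : Fin 3) (j : Fin m),
      (BX.be j q : BX m).io = (BX.g (.b q p) : BX m).io * (BX.be j p).io := by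
    intro q p j
    refine Prod.ext rfl (Prod.ext rfl (Prod.ext ?_ (Prod.ext rfl ?_)))
    · show (Bd.pr (cE q 2) 2 : Bd (Fin 3)) = Bd.pr (cE q 2) (cE p 2) * Bd.pr (cE p 2) 2
      rw [bx_pr_mul, if_pos rfl]
    · show (Bd.pr (.inl (cE q 1, cE q 2)) (.inr j.val) : Bd BV) =
        Bd.pr (.inl (cE q 1, cE q 2)) (.inl (cE p 1, cE p 2)) *
        Bd.pr (.inl (cE p 1, cE p 2)) (.inr j.val)
      rw [bx_pr_mul, if_pos rfl]
  -- products of two new elements
  have h2 : ∀ (u v : Bd (Fin 3)) (p k : Fin 3), (v = none ∨ v = Bd.pr (cE p k) 2) →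
      (u = none ∨ ∃ a, u = Bd.pr a 2) → u * v = none := by
    rintro u v p k (rfl | rfl) (rfl | ⟨a, rfl⟩)
    · rfl
    · rfl
    · rfl
    · rw [bx_pr_mul, if_neg (bx_c2 p k)]
  have h3 : ∀ (u v : Bd BV), (u = none ∨ ∃ a k, u = Bd.pr a (.inr k)) →
      (v = none ∨ ∃ a w, v = Bd.pr (.inl a) w) → u * v = none := by
    rintro u v (rfl | ⟨a, k, rfl⟩) (rfl | ⟨b, w, rfl⟩)
    · rfl
    · rfl
    · rfl
    · rfl
  have hL : ∀ x : BX m, (∀ s, x ≠ .g s) →
      (x.io.1 = none ∨ ∃ a, x.io.1 = Bd.pr a 2) ∧ x.io.2.1 = none ∧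
      (x.io.2.2.1 = none ∨ ∃ a, x.io.2.2.1 = Bd.pr a 2) ∧
      (x.io.2.2.2.1 = none ∨ ∃ a k, x.io.2.2.2.1 = Bd.pr a (.inr k)) ∧
      (x.io.2.2.2.2 = none ∨ ∃ a k, x.io.2.2.2.2 = Bd.pr a (.inr k)) := by
    intro x hx
    rcases x with s | ⟨i, p⟩ | ⟨j, p⟩ | ⟨j, p⟩
    · exact absurd rfl (hx s)
    · refine ⟨Or.inr ⟨_, rfl⟩, rfl, Or.inr ⟨_, rfl⟩, ?_, ?_⟩
      · by_cases hi : i.val = 0
        · exact Or.inl (if_pos hi)
        · exact Or.inr ⟨_, _, if_neg hi⟩
      · by_cases hi : i.val = 2 * m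
        · exact Or.inl (if_pos hi)
        · exact Or.inr ⟨_, _, if_neg hi⟩
    · exact ⟨Or.inr ⟨_, rfl⟩, rfl, Or.inl rfl, Or.inr ⟨_, _, rfl⟩, Or.inl rfl⟩
    · exact ⟨Or.inl rfl, rfl, Or.inr ⟨_, rfl⟩, Or.inl rfl, Or.inr ⟨_, _, rfl⟩⟩
  have hR : ∀ x : BX m, (∀ s, x ≠ .g s) → ∃ p : Fin 3,
      (x.io.1 = none ∨ x.io.1 = Bd.pr (cE p 0) 2) ∧
      (x.io.2.2.1 = none ∨ x.io.2.2.1 = Bd.pr (cE p 2) 2) ∧
      (x.io.2.2.2.1 = none ∨ ∃ a w, x.io.2.2.2.1 = Bd.pr (.inl a) w) ∧
      (x.io.2.2.2.2 = none ∨ ∃ a w, x.io.2.2.2.2 = Bd.pr (.inl a) w) := by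
    intro x hx
    rcases x with s | ⟨i, p⟩ | ⟨j, p⟩ | ⟨j, p⟩
    · exact absurd rfl (hx s)
    · refine ⟨p, Or.inr rfl, Or.inr rfl, ?_, ?_⟩
      · by_cases hi : i.val = 0
        · exact Or.inl (if_pos hi)
        · exact Or.inr ⟨_, _, if_neg hi⟩
      · by_cases hi : i.val = 2 * m
        · exact Or.inl (if_pos hi)
        · exact Or.inr ⟨_, _, if_neg hi⟩
    · exact ⟨p, Or.inr rfl, Or.inl rfl, Or.inr ⟨_, _, rfl⟩, Or.inl rfl⟩
    · exact ⟨p, Or.inl rfl, Or.inr rfl, Or.inl rfl, Or.inr ⟨_, _, rfl⟩⟩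
  have hnew : ∀ x y : BX m, (∀ s, x ≠ .g s) → (∀ s, y ≠ .g s) →
      (BX.g .o : BX m).io = x.io * y.io := by
    intro x y hx hy
    obtain ⟨u0, u1, u2, u3, u4⟩ := hL x hx
    obtain ⟨p, v0, v2, v3, v4⟩ := hR y hy
    refine Prod.ext (h2 _ _ p 0 v0 u0).symm (Prod.ext ?_ (Prod.ext (h2 _ _ p 2 v2 u2).symm
      (Prod.ext (h3 _ _ u3 v3).symm (h3 _ _ u4 v4).symm)))
    show none = x.io.2.1 * y.io.2.1
    rw [u1]
    rfl
  have ga : ∀ (j : Fin m) (p : Fin 3) (s : BT), (BX.al j p : BX m) ≠ .g s := by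
    intro j p s h
    cases h
  have gb : ∀ (j : Fin m) (p : Fin 3) (s : BT), (BX.be j p : BX m) ≠ .g s := by
    intro j p s h
    cases h
  have gx : ∀ (j : Fin (2 * m + 1)) (p : Fin 3) (s : BT), (BX.x j p : BX m) ≠ .g s := by
    intro j p s h
    cases h
  rcases x with s | ⟨i, p⟩ | ⟨j, p⟩ | ⟨j, p⟩
  · rcases y with s' | ⟨i', p'⟩ | ⟨j', p'⟩ | ⟨j', p'⟩
    · exact BT.io_mul s s'
    · rcases s with ⟨q, p⟩ | ⟨q, p⟩ | ⟨q, p⟩ | t | ⟨k, u, v⟩ | _
      · show (if p = p' then BX.x i' q else BX.g ((BT.e q p).shx p')).io = _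
        split_ifs with hp
        · subst hp
          exact hex q p i'
        · refine hgx _ i' p' ?_ ?_ ?_
          · rintro q' h
            injection h with _ h'
            exact hp h'
          · rintro q' h
            cases h
          · rintro q' h
            cases h
      · show (if p = p' then BX.va m i'.val q else BX.g ((BT.a q p).shx p')).io = _
        split_ifs with hp
        · subst hp
          exact hax q p i'
        · refine hgx _ i' p' ?_ ?_ ?_
          · rintro q' h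
            cases h
          · rintro q' h
            injection h with _ h'
            exact hp h'
          · rintro q' h
            cases h
      · show (if p = p' then BX.vb m i'.val q else BX.g ((BT.b q p).shx p')).io = _
        split_ifs with hp
        · subst hp
          exact hbx q p i'
        · refine hgx _ i' p' ?_ ?_ ?_
          · rintro q' h
            cases h
          · rintro q' h
            cases h
          · rintro q' h
            injection h with _ h'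
            exact hp h'
      · exact hgx _ i' p' (fun q h => by cases h) (fun q h => by cases h) (fun q h => by cases h)
      · exact hgx _ i' p' (fun q h => by cases h) (fun q h => by cases h) (fun q h => by cases h)
      · exact hgx _ i' p' (fun q h => by cases h) (fun q h => by cases h) (fun q h => by cases h)
    · rcases s with ⟨q, p⟩ | ⟨q, p⟩ | ⟨q, p⟩ | t | ⟨k, u, v⟩ | _
      · show (if p = p' then BX.al j' q else BX.g ((BT.e q p).sha p')).io = _
        split_ifs with hp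
        · subst hp
          exact hea q p j'
        · refine hga _ j' p' ?_ ?_
          · rintro q' h
            injection h with _ h'
            exact hp h'
          · rintro q' h
            cases h
      · show (if p = p' then BX.al j' q else BX.g ((BT.a q p).sha p')).io = _
        split_ifs with hp
        · subst hp
          exact haa q p j'
        · refine hga _ j' p' ?_ ?_
          · rintro q' h
            cases h
          · rintro q' h
            injection h with _ h'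
            exact hp h'
      · exact hga _ j' p' (fun q h => by cases h) (fun q h => by cases h)
      · exact hga _ j' p' (fun q h => by cases h) (fun q h => by cases h)
      · exact hga _ j' p' (fun q h => by cases h) (fun q h => by cases h)
      · exact hga _ j' p' (fun q h => by cases h) (fun q h => by cases h)
    · rcases s with ⟨q, p⟩ | ⟨q, p⟩ | ⟨q, p⟩ | t | ⟨k, u, v⟩ | _
      · show (if p = p' then BX.be j' q else BX.g ((BT.e q p).shb p')).io = _
        split_ifs with hp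
        · subst hp
          exact heb q p j'
        · refine hgb _ j' p' ?_ ?_
          · rintro q' h
            injection h with _ h'
            exact hp h'
          · rintro q' h
            cases h
      · exact hgb _ j' p' (fun q h => by cases h) (fun q h => by cases h)
      · show (if p = p' then BX.be j' q else BX.g ((BT.b q p).shb p')).io = _
        split_ifs with hp
        · subst hp
          exact hbb q p j'
        · refine hgb _ j' p' ?_ ?_
          · rintro q' h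
            cases h
          · rintro q' h
            injection h with _ h'
            exact hp h'
      · exact hgb _ j' p' (fun q h => by cases h) (fun q h => by cases h)
      · exact hgb _ j' p' (fun q h => by cases h) (fun q h => by cases h)
      · exact hgb _ j' p' (fun q h => by cases h) (fun q h => by cases h)
  · rcases y with s' | ⟨i', p'⟩ | ⟨j', p'⟩ | ⟨j', p'⟩
    · exact hxg s' i p
    · exact hnew _ _ (gx i p) (gx i' p')
    · exact hnew _ _ (gx i p) (ga j' p')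
    · exact hnew _ _ (gx i p) (gb j' p')
  · rcases y with s' | ⟨i', p'⟩ | ⟨j', p'⟩ | ⟨j', p'⟩
    · exact hag s' j p
    · exact hnew _ _ (ga j p) (gx i' p')
    · exact hnew _ _ (ga j p) (ga j' p')
    · exact hnew _ _ (ga j p) (gb j' p')
  · rcases y with s' | ⟨i', p'⟩ | ⟨j', p'⟩ | ⟨j', p'⟩
    · exact hbg s' j p
    · exact hnew _ _ (gb j p) (gx i' p')
    · exact hnew _ _ (gb j p) (ga j' p')
    · exact hnew _ _ (gb j p) (gb j' p')

instance (m : ℕ) : Semigroup (BX m) where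
  mul := BX.mul
  mul_assoc x y z := by
    apply BX.io_inj
    show (BX.mul (BX.mul x y) z).io = (BX.mul x (BX.mul y z)).io
    rw [BX.io_mul, BX.io_mul, BX.io_mul, BX.io_mul, mul_assoc]

theorem BX.card (m : ℕ) : m ≤ Nat.card (BX m) := by
  have hinj : Function.Injective (fun i : Fin m => (BX.al i 0 : BX m)) := by
    intro i j h
    injection h
  have h := Nat.card_le_card_of_injective _ hinj
  rwa [Nat.card_eq_fintype_card, Fintype.card_fin] at h

theorem BX.mul_def {m : ℕ} (x y : BX m) : x * y = x.mul y := rfl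

end EVS
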