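import Pool.Agent.EVA.R0

/-!
# [EVA-C1] sources
-/

set_option autoImplicit false

namespace EVS

variable {S : Type} [Semigroup S] [Finite S]

omit [Semigroup S] [Finite S] in
private theorem c1_cases (c : WithOne S) : c = 1 ∨ ∃ s : S, c = (s : WithOne S) := by
  by_cases hc : c = 1
  · exact Or.inl hc
  · obtain ⟨s, hs⟩ := WithOne.ne_one_iff_exists.1 hc
    exact Or.inr ⟨s, hs.symm⟩

omit [Finite S] in
private theorem c1_coe (y : S) (c : WithOne S) : ∃ y' : S, (y' : WithOne S) = (y : WithOne S) * c := by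
  obtain rfl | ⟨c, rfl⟩ := c1_cases c
  · exact ⟨y, by rw [mul_one]⟩
  · exact ⟨y * c, WithOne.coe_mul y c⟩

omit [Finite S] in
private theorem c1_coe' (y : S) (c : WithOne S) : ∃ y' : S, (y' : WithOne S) = c * (y : WithOne S) := by
  obtain rfl | ⟨c, rfl⟩ := c1_cases c
  · exact ⟨y, by rw [one_mul]⟩
  · exact ⟨c * y, WithOne.coe_mul c y⟩

private theorem c1_lt {s t : S} (h1 : JLe s t) (h2 : ¬ JE t s) :
    Nat.card S - Nat.card {r // JLe r t} < Nat.card S - Nat.card {r // JLe r s} := by
  have h3 : Nat.card {r // JLe r t} ≤ Nat.card S := Finite.card_subtype_le _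
  have h4 : Nat.card {r // JLe r s} < Nat.card {r // JLe r t} := by
    have h5 : {r | JLe r s} ⊂ {r | JLe r t} := by
      refine ⟨fun r hr => JLe.trans' hr h1, fun h6 => h2 ⟨?_, h1⟩⟩
      exact h6 (show JLe t t from (JE.refl' t).1)
    have h7 := Set.ncard_lt_ncard h5 (Set.toFinite _)
    rw [Set.ncard, Set.ncard] at h7
    exact h7
  omega

/-- PROOF: `JE u x`, `x = u y`, `JE y x` imply that `x` is idempotent: `JLe u (u * y)`, so `u = u y c` (`stab_right`), and `y c = y'` is in
`S`, so `u * om y' = u` (`fix_right` with `u = 1`).  `k = om y'` satisfies `JLe u k` (`u = u k`) and `JLe k y` (`k` is a power of `y c`), so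
`JLe x k` and `JLe k x`: `JE x k`, so `x` is regular (`reg_of_JE`), so idempotent (`rgi`). -/
theorem idem_of_JE (h : A1 S) {x u y : S} (hx : x = u * y) (hu : JE u x) (hy : JE y x) : x * x = x := by
  have h1 : JLe u (u * y) := by
    rw [← hx]
    exact hu.1
  obtain ⟨c, hc⟩ := stab_right h1
  obtain ⟨y', hy'⟩ := c1_coe y c
  have h2 : (u : WithOne S) = 1 * (u : WithOne S) * (y' : WithOne S) := by
    rw [hy', one_mul, ← mul_assoc, ← WithOne.coe_mul]
    exact hc
  have h3 : u * om y' = u := fix_right 1 h2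
  have h4 : JLe u (om y') := ⟨(u : WithOne S), 1, by rw [mul_one, ← WithOne.coe_mul, h3]⟩
  have h5 : JLe y' y := ⟨1, c, by rw [one_mul, hy']⟩
  have h6 : JLe (om y') y' := by
    obtain ⟨n, hn⟩ := om_eq_pw y'
    rw [hn]
    rcases n with _ | n
    · exact ⟨1, 1, by rw [pw_zero, one_mul, mul_one]⟩
    · exact ⟨(pw y' n : S), 1, by rw [pw_succ, mul_one, WithOne.coe_mul]⟩
  have h7 : JE x (om y') := ⟨hu.2.trans' h4, (h6.trans' h5).trans' hy.1⟩
  obtain ⟨z, hz⟩ := reg_of_JE (om_idem y') h7
  exact h.rgi x z hz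

/-- Every element is a product of idempotents and sources.
PROOF: induction on `Nat.card S - Nat.card {t // JLe t s}`.  If `s` is idempotent or a source take `[s]`.  Otherwise there are `p`, `q` with
`JE (p * q) s`, `¬ JE p s`, `¬ JE q s`; `s = u (p q) v` in `WithOne S`.  If `u` is in `S` then `¬ JE u s`: otherwise with `y = p q v`
(in `S`), `s = u y`, `JLe s y`, `JLe y (p * q)`, so `JE y s`, and `s` is idempotent by `idem_of_JE`.  In the same way `¬ JE v s`.
So `s` is the product of `u, p, q, v` (without those which are `1`), and for each of these, `t`: `JLe s t` and `¬ JE t s`, so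
`{r | JLe r s}` is a proper subset of `{r | JLe r t}`; use the induction hypothesis for each of them and append the lists. -/
theorem gen_src (h : A1 S) (s : S) : ∃ l : List S, prd l = (s : WithOne S) ∧ ∀ a ∈ l, a * a = a ∨ Sr a := by
  obtain ⟨n, hn⟩ : ∃ n, n = Nat.card S - Nat.card {t // JLe t s} := ⟨_, rfl⟩
  induction n using Nat.strong_induction_on generalizing s with
  | _ n ih =>
    subst hn
    by_cases hs : s * s = s
    · refine ⟨[s], prd_singleton s, fun a ha => Or.inl ?_⟩
      rw [List.mem_singleton] at ha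
      rw [ha, hs]
    by_cases hs2 : Sr s
    · refine ⟨[s], prd_singleton s, fun a ha => Or.inr ?_⟩
      rw [List.mem_singleton] at ha
      rw [ha]
      exact hs2
    obtain ⟨p, q, h1, h2, h3⟩ : ∃ p q : S, JE (p * q) s ∧ ¬ JE p s ∧ ¬ JE q s := by
      by_contra hcon
      apply hs2
      refine ⟨hs, fun p q hpq => ?_⟩
      by_contra h4
      rw [not_or] at h4
      exact hcon ⟨p, q, hpq, h4.1, h4.2⟩
    have key : ∀ t : S, JLe s t → ¬ JE t s → ∃ l : List S, prd l = (t : WithOne S) ∧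
        ∀ a ∈ l, a * a = a ∨ Sr a := fun t h4 h5 => ih _ (c1_lt h4 h5) t rfl
    obtain ⟨u, v, huv⟩ := h1.2
    rw [WithOne.coe_mul] at huv
    obtain ⟨lp, hp1, hp2⟩ := key p ⟨u, q * v, by rw [huv]; simp only [mul_assoc]⟩ h2
    obtain ⟨lq, hq1, hq2⟩ := key q ⟨u * p, v, by rw [huv]; simp only [mul_assoc]⟩ h3
    have hu : ∃ l : List S, prd l = u ∧ ∀ a ∈ l, a * a = a ∨ Sr a := by
      obtain rfl | ⟨u, rfl⟩ := c1_cases u
      · exact ⟨[], prd_nil, fun a ha => absurd ha (List.not_mem_nil)⟩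
      · refine key u ⟨1, p * q * v, by rw [huv, one_mul, mul_assoc, mul_assoc]⟩ fun h4 => hs ?_
        obtain ⟨y, hy⟩ := c1_coe (p * q) v
        rw [WithOne.coe_mul] at hy
        have h5 : s = u * y := by
          rw [← WithOne.coe_inj, WithOne.coe_mul, huv, hy]
          simp only [mul_assoc]
        refine idem_of_JE h h5 h4 ⟨JLe.trans' ?_ h1.1, ?_⟩
        · exact ⟨1, v, by rw [hy, one_mul, WithOne.coe_mul]⟩
        · exact ⟨u, 1, by rw [mul_one, ← WithOne.coe_mul, h5]⟩
    have hv : ∃ l : List S, prd l = v ∧ ∀ a ∈ l, a * a = a ∨ Sr a := by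
      obtain rfl | ⟨v, rfl⟩ := c1_cases v
      · exact ⟨[], prd_nil, fun a ha => absurd ha (List.not_mem_nil)⟩
      · refine key v ⟨u * (p * q), 1, by rw [huv, mul_one]⟩ fun h4 => hs ?_
        obtain ⟨y, hy⟩ := c1_coe' (p * q) u
        rw [WithOne.coe_mul] at hy
        have h5 : s = y * v := by
          rw [← WithOne.coe_inj, WithOne.coe_mul, huv, hy]
        refine idem_of_JE h h5 ⟨JLe.trans' ?_ h1.1, ?_⟩ h4
        · exact ⟨u, 1, by rw [hy, mul_one, WithOne.coe_mul]⟩
        · exact ⟨1, v, by rw [one_mul, ← WithOne.coe_mul, h5]⟩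
    obtain ⟨lu, hu1, hu2⟩ := hu
    obtain ⟨lv, hv1, hv2⟩ := hv
    refine ⟨lu ++ (lp ++ (lq ++ lv)), ?_, ?_⟩
    · rw [prd_append, prd_append, prd_append, hu1, hp1, hq1, hv1, huv]
      simp only [mul_assoc]
    · intro a ha
      rw [List.mem_append, List.mem_append, List.mem_append] at ha
      rcases ha with ha | ha | ha | ha
      · exact hu2 a ha
      · exact hp2 a ha
      · exact hq2 a ha
      · exact hv2 a ha

end EVS
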