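import Pool.Agent.EVA.R0

/-!
# [EVA-C1b] one-sided sources]
-/

set_option autoImplicit false

namespace EVS

variable {S : Type} [Semigroup S] [Finite S]

private theorem c1b_cases {T : Type} (c : WithOne T) : c = 1 ∨ ∃ b : T, c = b := by
  rcases c with _ | b
  · exact Or.inl rfl
  · exact Or.inr ⟨b, rfl⟩

omit [Finite S] in
private theorem c1b_right (c : WithOne S) (a : S) : ∃ b : S, (b : WithOne S) = c * a := by
  rcases c1b_cases c with rfl | ⟨c, rfl⟩
  · exact ⟨a, by rw [one_mul]⟩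
  · exact ⟨c * a, by rw [WithOne.coe_mul]⟩

omit [Finite S] in
private theorem c1b_left (c : WithOne S) (a : S) : ∃ b : S, (b : WithOne S) = a * c := by
  rcases c1b_cases c with rfl | ⟨c, rfl⟩
  · exact ⟨a, by rw [mul_one]⟩
  · exact ⟨a * c, by rw [WithOne.coe_mul]⟩

private theorem c1b_rfix {x u w : S} (h1 : x = u * w) (h2 : JLe u x) : RFix x := by
  rw [h1] at h2
  obtain ⟨c, hc⟩ := stab_right h2
  rw [← h1] at hc
  obtain ⟨b, hb⟩ := c1b_right c w
  refine ⟨om b, om_idem b, fix_right 1 ?_⟩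
  rw [one_mul, hb, ← mul_assoc, ← hc, ← WithOne.coe_mul, ← h1]

private theorem c1b_lfix {x u w : S} (h1 : x = w * u) (h2 : JLe u x) :
    ∃ c : WithOne S, (u : WithOne S) = c * x ∧ ∀ b : S, (b : WithOne S) = w * c → om b * x = x := by
  rw [h1] at h2
  obtain ⟨c, hc⟩ := stab_left h2
  rw [← h1] at hc
  refine ⟨c, hc, fun b hb => fix_left 1 ?_⟩
  rw [mul_one, hb, mul_assoc, ← hc, ← WithOne.coe_mul, ← h1]

/-- PROOF: `x = p k r` (`mid`), so `JE p x` or `JE (k * r) x` (`Sr` for `p` and `k * r`).  If `JE p x` then `JLe p (p * (k * r))`, so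
`p = x c` (`stab_right`) and `x = x (c k r)` with `c k r` in `S`, `x * om (c k r) = x` (`fix_right`): `RFix x`.  If `JE (k * r) x` then
`JLe (k * r) (p * (k * r))`, so `k r = c x` (`stab_left`), `x = (p c) x`, `LFix x` (`fix_left`). -/
theorem fix_of_src (h : A1 S) {x : S} (hs : Sr x) : LFix x ∨ RFix x := by
  obtain ⟨p, k, r, hk, hx⟩ := h.mid x
  have hx' : x = p * (k * r) := by rw [hx, mul_assoc]
  have h1 : JE (p * (k * r)) x := by
    rw [← hx']
    exact JE.refl' x
  rcases hs.2 p (k * r) h1 with h2 | h2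
  · exact Or.inr (c1b_rfix hx' h2.1)
  · obtain ⟨c, _, h3⟩ := c1b_lfix hx' h2.1
    obtain ⟨b, hb⟩ := c1b_left c p
    exact Or.inl ⟨om b, om_idem b, h3 b hb⟩

/-- PROOF: `H1`: let `e s t = x`.  `JE (e * s) x` or `JE t x` (`Sr`).  In the first case `JLe (e * s) ((e * s) * t)`, so `e s = x c`
(`stab_right`), `x = x (c t)`, `RFix x`, a contradiction.  So `JE t x`, `JLe t ((e * s) * t)`, so `t = c x` for some `c : WithOne S`
(`stab_left`), `x = (e s c) x`, so `om (e s c) * x = x` (`fix_left`), so `Ge (om (e s c)) e` (`LMin`), so `Ge (e s c) e` (`ge_pw`), so `Ge s e`, and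
`Ge c e` if `c` is in `S` (`ge_mul`).  `e t = e c x = e c e x = e x = x` (clear if `c = 1`).
`H2`: let `Ge s e`, `e t = x`.  `JE e x` or `JE t x`.  In the first case `x` is regular (`reg_of_JE`), so idempotent, a contradiction.
So `t = c x` (`stab_left`), `x = (e c) x`, so `Ge (e c) e` as above (clear if `c = 1`), `e s t = e (s c) e x = e x = x`, as `Ge (s c) e`
(if `c = 1`: `e s x = e s e x = x`). -/
theorem rx_of_src (h : A1 S) {e x : S} (hs : Sr x) (he : LMin e x) (hf : ¬ RFix x) : RX e x := by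
  obtain ⟨he1, he2, he3⟩ := he
  have key : ∀ y : S, om y * x = x → Ge y e := by
    intro y hy
    have h1 := he3 (om y) (om_idem y) hy
    obtain ⟨n, hn⟩ := om_eq_pw y
    rw [hn] at h1
    exact (ge_pw h he1 n).1 h1
  refine ⟨he1, he2, hs.1, ?_, ?_⟩
  · intro s t hst
    have h1 : JE (e * s * t) x := by
      rw [hst]
      exact JE.refl' x
    rcases hs.2 (e * s) t h1 with h2 | h2
    · exact absurd (c1b_rfix hst.symm h2.1) hf
    · obtain ⟨c, hc, h3⟩ := c1b_lfix hst.symm h2.1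
      rcases c1b_cases c with rfl | ⟨c, rfl⟩
      · rw [one_mul, WithOne.coe_inj] at hc
        have h4 := key _ (h3 (e * s) (by rw [mul_one]))
        refine ⟨((ge_mul h he1).1 h4).2, ?_⟩
        rw [hc, he2]
      · rw [← WithOne.coe_mul, WithOne.coe_inj] at hc
        have h4 := key _ (h3 (e * s * c) (by rw [WithOne.coe_mul]))
        have h5 := (ge_mul h he1).1 h4
        have h6 : e * c * e = e := h5.2
        refine ⟨((ge_mul h he1).1 h5.1).2, ?_⟩
        calc e * t = e * (c * (e * x)) := by rw [hc, he2]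
          _ = e * c * e * x := by simp only [mul_assoc]
          _ = x := by rw [h6, he2]
  · intro s t hs1 het
    have h1 : JE (e * t) x := by
      rw [het]
      exact JE.refl' x
    rcases hs.2 e t h1 with h2 | h2
    · obtain ⟨y, hy⟩ := reg_of_JE he1 h2.symm'
      exact absurd (h.rgi x y hy) hs.1
    · obtain ⟨c, hc, h3⟩ := c1b_lfix het.symm h2.1
      rcases c1b_cases c with rfl | ⟨c, rfl⟩
      · rw [one_mul, WithOne.coe_inj] at hc
        have h6 : e * s * e = e := hs1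
        calc e * s * t = e * s * (e * x) := by rw [hc, he2]
          _ = e * s * e * x := by simp only [mul_assoc]
          _ = x := by rw [h6, he2]
      · rw [← WithOne.coe_mul, WithOne.coe_inj] at hc
        have h4 := key _ (h3 (e * c) (by rw [WithOne.coe_mul]))
        have h5 := ((ge_mul h he1).1 h4).2
        have h6 : e * (s * c) * e = e := (ge_mul h he1).2 ⟨hs1, h5⟩
        calc e * s * t = e * s * (c * (e * x)) := by rw [hc, he2]
          _ = e * (s * c) * e * x := by simp only [mul_assoc]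
          _ = x := by rw [h6, he2]

/-! ## the opposite semigroup -/

private theorem c1b_jle {T : Type} [Semigroup T] {a b : T} : JLe a b ↔
    a = b ∨ (∃ y, a = b * y) ∨ (∃ x, a = x * b) ∨ ∃ x y, a = x * b * y := by
  constructor
  · rintro ⟨x, y, h⟩
    rcases c1b_cases x with rfl | ⟨x, rfl⟩
    · rcases c1b_cases y with rfl | ⟨y, rfl⟩
      · rw [one_mul, mul_one, WithOne.coe_inj] at h
        exact Or.inl h
      · rw [one_mul, ← WithOne.coe_mul, WithOne.coe_inj] at h
        exact Or.inr (Or.inl ⟨y, h⟩)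
    · rcases c1b_cases y with rfl | ⟨y, rfl⟩
      · rw [mul_one, ← WithOne.coe_mul, WithOne.coe_inj] at h
        exact Or.inr (Or.inr (Or.inl ⟨x, h⟩))
      · rw [← WithOne.coe_mul, ← WithOne.coe_mul, WithOne.coe_inj] at h
        exact Or.inr (Or.inr (Or.inr ⟨x, y, h⟩))
  · rintro (h | ⟨y, h⟩ | ⟨x, h⟩ | ⟨x, y, h⟩)
    · exact ⟨1, 1, by rw [h, one_mul, mul_one]⟩
    · exact ⟨1, y, by rw [h, one_mul, WithOne.coe_mul]⟩
    · exact ⟨x, 1, by rw [h, mul_one, WithOne.coe_mul]⟩
    · exact ⟨x, y, by rw [h, WithOne.coe_mul, WithOne.coe_mul]⟩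

omit [Finite S] in
theorem jle_op {a b : S} : JLe (MulOpposite.op a) (MulOpposite.op b) ↔ JLe a b := by
  rw [c1b_jle, c1b_jle]
  constructor
  · rintro (h | ⟨y, h⟩ | ⟨x, h⟩ | ⟨x, y, h⟩)
    · exact Or.inl (MulOpposite.op_injective h)
    · exact Or.inr (Or.inr (Or.inl ⟨y.unop, MulOpposite.op_injective h⟩))
    · exact Or.inr (Or.inl ⟨x.unop, MulOpposite.op_injective h⟩)
    · refine Or.inr (Or.inr (Or.inr ⟨y.unop, x.unop, ?_⟩))
      rw [mul_assoc]
      exact MulOpposite.op_injective h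
  · rintro (h | ⟨y, h⟩ | ⟨x, h⟩ | ⟨x, y, h⟩)
    · exact Or.inl (by rw [h])
    · exact Or.inr (Or.inr (Or.inl ⟨MulOpposite.op y, by rw [h, MulOpposite.op_mul]⟩))
    · exact Or.inr (Or.inl ⟨MulOpposite.op x, by rw [h, MulOpposite.op_mul]⟩)
    · refine Or.inr (Or.inr (Or.inr ⟨MulOpposite.op y, MulOpposite.op x, ?_⟩))
      rw [h, MulOpposite.op_mul, MulOpposite.op_mul, mul_assoc]

omit [Finite S] in
theorem Sr.op {x : S} (h : Sr x) : Sr (MulOpposite.op x) := by
  refine ⟨fun h1 => h.1 ?_, fun s t hst => ?_⟩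
  · exact MulOpposite.op_injective (by rw [MulOpposite.op_mul, h1])
  · have h2 : JE (t.unop * s.unop) x := ⟨jle_op.1 hst.1, jle_op.1 hst.2⟩
    rcases h.2 t.unop s.unop h2 with h3 | h3
    · exact Or.inr ⟨jle_op.2 h3.1, jle_op.2 h3.2⟩
    · exact Or.inl ⟨jle_op.2 h3.1, jle_op.2 h3.2⟩

omit [Finite S] in
theorem lfix_op {x : S} : LFix (MulOpposite.op x) ↔ RFix x := by
  constructor
  · rintro ⟨e, h1, h2⟩
    exact ⟨e.unop, congrArg MulOpposite.unop h1, congrArg MulOpposite.unop h2⟩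
  · rintro ⟨e, h1, h2⟩
    refine ⟨MulOpposite.op e, ?_, ?_⟩
    · rw [← MulOpposite.op_mul, h1]
    · rw [← MulOpposite.op_mul, h2]

omit [Finite S] in
theorem rfix_op {x : S} : RFix (MulOpposite.op x) ↔ LFix x := by
  constructor
  · rintro ⟨e, h1, h2⟩
    exact ⟨e.unop, congrArg MulOpposite.unop h1, congrArg MulOpposite.unop h2⟩
  · rintro ⟨e, h1, h2⟩
    refine ⟨MulOpposite.op e, ?_, ?_⟩
    · rw [← MulOpposite.op_mul, h1]
    · rw [← MulOpposite.op_mul, h2]

end EVS
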