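import Pool.Agent.EVA.C1b

/-!
# [EVA-C2] sources with a left and a right identity
-/

set_option autoImplicit false

namespace EVS

/-- a source `x` with smallest left identity `e` and smallest right identity `f` -/
structure EX {S : Type} [Semigroup S] (e f x : S) : Prop where
  le : LMin e x
  rf : RMin f x
  src : Sr x

variable {S : Type} [Semigroup S] [Finite S]

omit [Finite S] in
/-- PROOF: `ge_op`, `Sr.op`. -/
theorem EX.op {e f x : S} (r : EX e f x) : EX (MulOpposite.op f) (MulOpposite.op e) (MulOpposite.op x) := by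
  refine ⟨⟨?_, ?_, ?_⟩, ⟨?_, ?_, ?_⟩, r.src.op⟩
  · show MulOpposite.op (f * f) = MulOpposite.op f
    rw [r.rf.1]
  · show MulOpposite.op (x * f) = MulOpposite.op x
    rw [r.rf.2.1]
  · intro k hk hx
    have h1 := r.rf.2.2 k.unop (congrArg MulOpposite.unop hk) (congrArg MulOpposite.unop hx)
    exact ge_op.2 h1
  · show MulOpposite.op (e * e) = MulOpposite.op e
    rw [r.le.1]
  · show MulOpposite.op (e * x) = MulOpposite.op x
    rw [r.le.2.1]
  · intro k hk hx
    have h1 := r.le.2.2 k.unop (congrArg MulOpposite.unop hk) (congrArg MulOpposite.unop hx)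
    exact ge_op.2 h1

/-- PROOF: let `g = om s`: `Ge g e`, `Ge g f` (`ge_pw`).  `g x g` is idempotent (`loc`), so `e (g x g) f` is idempotent (`idc` twice).
`e g x g f = (e g e) x (f g f) = e x f = x`.  So `x` is idempotent, a contradiction. -/
theorem EX.incomp (h : A1 S) {e f x : S} (r : EX e f x) (s : S) : ¬ (Ge s e ∧ Ge s f) := by
  rintro ⟨h1, h2⟩
  obtain ⟨n, hn⟩ := om_eq_pw s
  have g1 : Ge (om s) e := by rw [hn]; exact (ge_pw h r.le.1 n).2 h1
  have g2 : Ge (om s) f := by rw [hn]; exact (ge_pw h r.rf.1 n).2 h2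
  have gg := om_idem s
  generalize om s = g at g1 g2 gg
  have hi := h.loc g x gg
  have hi1 := h.idc e (g * x * g) r.le.1 hi
  have hi2 := h.idc (e * (g * x * g)) f hi1 r.rf.1
  have hx : e * (g * x * g) * f = x := by
    calc e * (g * x * g) * f = e * (g * (e * x * f) * g) * f := by rw [r.le.2.1, r.rf.2.1]
      _ = (e * g * e) * x * (f * g * f) := by simp only [mul_assoc]
      _ = e * x * f := by
        have h3 : e * g * e = e := g1
        have h4 : f * g * f = f := g2
        rw [h3, h4]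
      _ = x := by rw [r.le.2.1, r.rf.2.1]
  rw [hx] at hi2
  exact r.src.1 hi2

omit [Finite S] in
private theorem c2_mul_coe (c : WithOne S) (s : S) : ∃ d : S, c * (s : WithOne S) = d := by
  induction c using WithOne.recOneCoe with
  | one => exact ⟨s, by rw [one_mul]⟩
  | coe c => exact ⟨c * s, by rw [WithOne.coe_mul]⟩

omit [Finite S] in
private theorem c2_coe_mul (c : WithOne S) (s : S) : ∃ d : S, (s : WithOne S) * c = d := by
  induction c using WithOne.recOneCoe with
  | one => exact ⟨s, by rw [mul_one]⟩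
  | coe c => exact ⟨s * c, by rw [WithOne.coe_mul]⟩

omit [Finite S] in
private theorem jle_mul_right' (a b : S) : JLe (a * b) b := ⟨a, 1, by rw [mul_one, WithOne.coe_mul]⟩

private theorem c2_left (h : A1 S) {e x : S} (hl : LMin e x) {z w y : WithOne S}
    (hx : (x : WithOne S) = (z * w) * x * y) :
    ∃ u : S, u * u = u ∧ Ge u e ∧ Ge e u ∧ ((u * x : S) : WithOne S) = w * x := by
  induction w using WithOne.recOneCoe with
  | one => exact ⟨e, hl.1, ge_self hl.1, ge_self hl.1, by rw [hl.2.1, one_mul]⟩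
  | coe w =>
    obtain ⟨d, hd⟩ := c2_mul_coe z w
    rw [hd] at hx
    have h1 := hl.2.2 _ (om_idem d) (fix_left y hx)
    obtain ⟨n, hn⟩ := om_eq_pw d
    rw [hn] at h1
    have h2 : e * d * e = e := (ge_pw h hl.1 n).1 h1
    have h3 : Ge w e := by
      apply ge_of h hl.1 (e * z) e
      rw [mul_assoc (e : WithOne S) z w, hd, ← WithOne.coe_mul, ← WithOne.coe_mul, h2]
    have h4 : e * w * e = e := h3
    refine ⟨w * e, ge_right h3, ?_, ?_, ?_⟩
    · show e * (w * e) * e = e
      rw [← mul_assoc, h4, hl.1]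
    · show (w * e) * e * (w * e) = w * e
      rw [mul_assoc w e e, hl.1]
      exact ge_right h3
    · rw [mul_assoc, hl.2.1, WithOne.coe_mul]

private theorem c2_right (h : A1 S) {f x : S} (hl : RMin f x) {z w y : WithOne S}
    (hx : (x : WithOne S) = y * x * (w * z)) :
    ∃ v : S, v * v = v ∧ Ge v f ∧ Ge f v ∧ ((x * v : S) : WithOne S) = x * w := by
  induction w using WithOne.recOneCoe with
  | one => exact ⟨f, hl.1, ge_self hl.1, ge_self hl.1, by rw [hl.2.1, mul_one]⟩
  | coe w =>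
    obtain ⟨d, hd⟩ := c2_coe_mul z w
    rw [hd] at hx
    have h1 := hl.2.2 _ (om_idem d) (fix_right y hx)
    obtain ⟨n, hn⟩ := om_eq_pw d
    rw [hn] at h1
    have h2 : f * d * f = f := (ge_pw h hl.1 n).1 h1
    have h3 : Ge w f := by
      apply ge_of h hl.1 f (z * f)
      rw [mul_assoc, ← mul_assoc (w : WithOne S) z f, hd, ← mul_assoc, ← WithOne.coe_mul,
        ← WithOne.coe_mul, h2]
    have h4 : f * w * f = f := h3
    refine ⟨f * w, ge_left h3, ?_, ?_, ?_⟩
    · show f * (f * w) * f = f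
      rw [← mul_assoc f f w, hl.1, h4]
    · show (f * w) * f * (f * w) = f * w
      rw [h4, ← mul_assoc, hl.1]
    · rw [← mul_assoc, hl.2.1, WithOne.coe_mul]

/-- PROOF: `s = w x w'`, `x = z s z'` in `WithOne S`, so `x = (z w) x (w' z')`.  If `w` is in `S` then `z w` is in `S`,
`om (z w) * x = x` (`fix_left`), `Ge (om (z w)) e` (`LMin`), so `Ge w e` (`ge_pw`, `ge_mul`); let `u = w e` (and `u = e` if `w = 1`).  `u` is
idempotent (`ge_right`), `u e = u`, `Ge u e` (`e w e e = e`), `Ge e u` (`w e e w e = w e`).  In the same way `v = f w'`.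
`s = w e x f w' = u x v`. -/
theorem EX.form (h : A1 S) {e f x s : S} (r : EX e f x) (hs : JE s x) :
    ∃ u v : S, u * u = u ∧ v * v = v ∧ Ge u e ∧ Ge e u ∧ Ge v f ∧ Ge f v ∧ s = u * x * v := by
  obtain ⟨⟨w, w', hw⟩, ⟨z, z', hz⟩⟩ := hs
  have hx : (x : WithOne S) = (z * w) * x * (w' * z') := by
    conv_lhs => rw [hz, hw]
    simp only [mul_assoc]
  obtain ⟨u, u1, u2, u3, u4⟩ := c2_left h r.le hx
  obtain ⟨v, v1, v2, v3, v4⟩ := c2_right h r.rf hx
  refine ⟨u, v, u1, v1, u2, u3, v2, v3, ?_⟩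
  rw [← coe_inj, hw, WithOne.coe_mul, u4, mul_assoc, mul_assoc, ← v4, WithOne.coe_mul]

/-- PROOF: `t = u x v` (`EX.form`).  If `JE (s * t) x` then `JLe t (s * t)`, so `t = (c s) t` (`stab_left`) and `k t = t` for
`k = om (c s)` (`fix_left`).  `e t f = e u x v f = (e u e) x (f v f) = x` (`x = e x f`).  So `x = e k t f = (e k u) x (v f)`, so
`om (e k u) * x = x` (`fix_left`), `Ge (om (e k u)) e`, `Ge k e`, `Ge (c s) e`, `Ge s e` (`ge_pw`, `ge_mul`).
Conversely, if `Ge s e` then `Ge (s * u) e` and `e (s t) f = e s u e x v f = e x (v f) = x (f v f) = x`, so `JLe x (s * t)`;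
`JLe (s * t) t`. -/
theorem EX.left_iff (h : A1 S) {e f x s t : S} (r : EX e f x) (ht : JE t x) : JE (s * t) x ↔ Ge s e := by
  obtain ⟨u, v, u1, v1, u2, u3, v2, v3, rfl⟩ := r.form h ht
  have hu : e * u * e = e := u2
  have hv : f * v * f = f := v2
  have hx0 : e * (u * x * v) * f = x := by
    calc e * (u * x * v) * f = e * (u * (e * x * f) * v) * f := by rw [r.le.2.1, r.rf.2.1]
      _ = (e * u * e) * x * (f * v * f) := by simp only [mul_assoc]
      _ = x := by rw [hu, hv, r.le.2.1, r.rf.2.1]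
  constructor
  · intro h1
    have h2 : JLe (u * x * v) (s * (u * x * v)) := (ht.trans' h1.symm').1
    obtain ⟨c, hc⟩ := stab_left h2
    obtain ⟨d, hd⟩ := c2_mul_coe c s
    have h3 : ((u * x * v : S) : WithOne S) = d * (u * x * v : S) * 1 := by
      rw [mul_one, ← hd, mul_assoc c, ← WithOne.coe_mul]
      exact hc
    have h4 := fix_left 1 h3
    obtain ⟨n, hn⟩ := om_eq_pw d
    have h5 : x = (e * om d * u) * x * (v * f) := by
      calc x = e * (u * x * v) * f := hx0.symm
        _ = e * (om d * (u * x * v)) * f := by rw [h4]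
        _ = _ := by simp only [mul_assoc]
    have h6 : (x : WithOne S) = (e * om d * u : S) * x * ((v * f : S) : WithOne S) := by
      rw [← WithOne.coe_mul, ← WithOne.coe_mul, coe_inj]
      exact h5
    have h7 := fix_left _ h6
    have h8 := r.le.2.2 _ (om_idem _) h7
    obtain ⟨m, hm⟩ := om_eq_pw (e * om d * u)
    rw [hm] at h8
    have h9 := (ge_pw h r.le.1 m).1 h8
    have h10 := ((ge_mul h r.le.1).1 ((ge_mul h r.le.1).1 h9).1).2
    rw [hn] at h10
    have h11 : e * d * e = e := (ge_pw h r.le.1 n).1 h10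
    apply ge_of h r.le.1 (e * c) e
    rw [mul_assoc (e : WithOne S) c s, hd, ← WithOne.coe_mul, ← WithOne.coe_mul, h11]
  · intro h1
    have h2 : e * (s * u) * e = e := (ge_mul h r.le.1).2 ⟨h1, u2⟩
    have h3 : x = e * (s * (u * x * v)) * f := by
      calc x = e * x * f := by rw [r.le.2.1, r.rf.2.1]
        _ = (e * (s * u) * e) * x * (f * v * f) := by rw [h2, hv]
        _ = e * (s * (u * (e * x * f) * v)) * f := by simp only [mul_assoc]
        _ = _ := by rw [r.le.2.1, r.rf.2.1]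
    refine ⟨JLe.trans' (jle_mul_right' s _) ht.1, ⟨e, f, ?_⟩⟩
    rw [← WithOne.coe_mul, ← WithOne.coe_mul, ← h3]

/-- PROOF: dual (`EX.op`, `A1.op`, `jle_op`, `ge_op`). -/
theorem EX.right_iff (h : A1 S) {e f x s t : S} (r : EX e f x) (ht : JE t x) : JE (t * s) x ↔ Ge s f := by
  have h1 := r.op.left_iff (s := MulOpposite.op s) (t := MulOpposite.op t) h.op
    ⟨jle_op.2 ht.1, jle_op.2 ht.2⟩
  rw [ge_op] at h1
  rw [← h1]
  constructor
  · intro h2
    exact ⟨(jle_op (a := t * s) (b := x)).2 h2.1, (jle_op (a := x) (b := t * s)).2 h2.2⟩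
  · intro h2
    exact ⟨(jle_op (a := t * s) (b := x)).1 h2.1, (jle_op (a := x) (b := t * s)).1 h2.2⟩

/-- Facts on `b = x x`.  PROOF: `x x x = x x` (`left_facts`), so `b b = b`.  `b x b = b`: `Ge x b`; `b e b = x x (e x) x = b`:
`Ge e b`, `Ge f b` dually, so `Ge (e * f) b`. -/
theorem EX.b_facts (h : A1 S) {e f x : S} (r : EX e f x) :
    (x * x) * (x * x) = x * x ∧ Ge x (x * x) ∧ Ge e (x * x) ∧ Ge f (x * x) ∧ Ge (e * f) (x * x) := by
  obtain ⟨_, h2, _⟩ := left_facts h.loc r.le.1 r.le.2.1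
  have hbb : (x * x) * (x * x) = x * x := by rw [← mul_assoc, h2, h2]
  have hx : Ge x (x * x) := by
    show (x * x) * x * (x * x) = x * x
    rw [h2, hbb]
  have he : Ge e (x * x) := by
    show (x * x) * e * (x * x) = x * x
    rw [mul_assoc, ← mul_assoc e x x, r.le.2.1, hbb]
  have hf : Ge f (x * x) := by
    show (x * x) * f * (x * x) = x * x
    rw [mul_assoc x x f, r.rf.2.1, hbb]
  exact ⟨hbb, hx, he, hf, (ge_mul h hbb).2 ⟨he, hf⟩⟩

/-- PROOF: let `b = x x`.  `Ge s b` by `ge_JE` (`Ge x b`).  `¬ Ge s e`: otherwise `Ge x e` (`ge_JE`), `e x e = e`, so `x e = e` and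
`x x = x e x = e x = x`.  Dually `¬ Ge s f`.  `s = u x v` (`EX.form`): `u s = s`, so `s s s = s s`, `s s` is idempotent
(`left_facts`).  `Ge (s * s) b` (`ge_mul`).  `Ge s (s * s)` (`s s s s s = s s`), so `Ge x (s * s)` (`ge_JE`), `Ge (x * x) (s * s)`. -/
theorem EX.facts (h : A1 S) {e f x s : S} (r : EX e f x) (hs : JE s x) :
    Ge s (x * x) ∧ ¬ Ge s e ∧ ¬ Ge s f ∧ (s * s) * (s * s) = s * s ∧ Ge (s * s) (x * x) ∧ Ge (x * x) (s * s) := by
  obtain ⟨hbb, hxb, _, _, _⟩ := r.b_facts h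
  have h1 : Ge s (x * x) := ge_JE h hbb hs.2 hxb
  obtain ⟨u, v, u1, v1, u2, u3, v2, v3, hsu⟩ := r.form h hs
  have hus : u * s = s := by rw [hsu, ← mul_assoc, ← mul_assoc, u1]
  obtain ⟨_, h3, _⟩ := left_facts h.loc u1 hus
  have hss : (s * s) * (s * s) = s * s := by rw [← mul_assoc, h3, h3]
  refine ⟨h1, ?_, ?_, hss, (ge_mul h hbb).2 ⟨h1, h1⟩, ?_⟩
  · intro h4
    have h5 : e * x * e = e := ge_JE h r.le.1 hs.1 h4
    apply r.src.1
    rw [r.le.2.1] at h5
    calc x * x = x * (e * x) := by rw [r.le.2.1]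
      _ = x * e * x := by rw [mul_assoc]
      _ = x := by rw [h5, r.le.2.1]
  · intro h4
    have h5 : f * x * f = f := ge_JE h r.rf.1 hs.1 h4
    apply r.src.1
    rw [mul_assoc, r.rf.2.1] at h5
    calc x * x = (x * f) * x := by rw [r.rf.2.1]
      _ = x * (f * x) := by rw [mul_assoc]
      _ = x := by rw [h5, r.rf.2.1]
  · have h4 : Ge s (s * s) := by
      show (s * s) * s * (s * s) = s * s
      rw [h3, hss]
    have h5 : Ge x (s * s) := ge_JE h hss hs.1 h4
    exact (ge_mul h hss).2 ⟨h5, h5⟩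

end EVS
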