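import Pool.Agent.EVA.C2

/-!
# [EVA-C3] sources with a left and a right identity: multiplication with idempotents
-/

set_option autoImplicit false

namespace EVS

variable {S : Type} [Semigroup S] [Finite S]

/-- PROOF: `(s t) c (s t) = s (t c s) t`.  `u = t c s` is idempotent: `t c s t c s = t (c (s t) c) s = t c s` (`Ge (s * t) c` by `ge_mul`).
`Ge c u`: `u c u = t c s c t c s = t c t c s = t c s` (`c s c = c`, `c t c = c`).  `Ge u c`: `c t c s c = c s c = c`.  `lemP`. -/
theorem lemQ (h : A1 S) (hr : LocR S) (hl : LocL S) {c s t : S} (hc : c * c = c) (hs : Ge s c) (ht : Ge t c) :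
    (s * t) * c * (s * t) = s * c * t := by
  have hs' : c * s * c = c := hs
  have ht' : c * t * c = c := ht
  have hst : c * (s * t) * c = c := (ge_mul h hc).2 ⟨hs, ht⟩
  have hu : (t * c * s) * (t * c * s) = t * c * s := by
    calc (t * c * s) * (t * c * s) = t * (c * (s * t) * c) * s := by simp only [mul_assoc]
      _ = t * c * s := by rw [hst]
  have h1 : Ge c (t * c * s) := by
    show (t * c * s) * c * (t * c * s) = t * c * s
    calc (t * c * s) * c * (t * c * s) = t * (c * s * c) * (t * c * s) := by simp only [mul_assoc]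
      _ = t * (c * t * c) * s := by rw [hs']; simp only [mul_assoc]
      _ = t * c * s := by rw [ht']
  have h2 : Ge (t * c * s) c := by
    show c * (t * c * s) * c = c
    calc c * (t * c * s) * c = (c * t * c) * s * c := by simp only [mul_assoc]
      _ = c := by rw [ht', hs']
  rw [← lemP h hr hl hc hu h1 h2 hs ht]
  simp only [mul_assoc]

/-- PROOF: `Ge s v`: `(s v)(s v) = s v` (`ge_right`), `u = s v` is equivalent to `v`: `Ge v u` (`u v u = u u = u`), `Ge u v`
(`v s v v = v`).  `lemP` with `b = v`, `t = v`: `s u v = s v v`, that is `s s v = s v`. -/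
theorem low_mul (h : A1 S) (hr : LocR S) (hl : LocL S) {s v : S} (hv : v * v = v) (hs : Ge s v) :
    s * v = s * s * v := by
  have hs' : v * s * v = v := hs
  have hu := ge_right hs
  have h1 : Ge v (s * v) := by
    show (s * v) * v * (s * v) = s * v
    rw [mul_assoc s v v, hv, hu]
  have h2 : Ge (s * v) v := by
    show v * (s * v) * v = v
    rw [← mul_assoc v s v, hs', hv]
  have h3 := lemP h hr hl hv hu h1 h2 hs (ge_self hv)
  rw [mul_assoc s (s * v) v, mul_assoc s v v, hv, ← mul_assoc] at h3
  exact h3.symm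

/-- PROOF: `s = u x w` with `u`, `w` idempotent, `u` equivalent to `e` and `w` equivalent to `f` (`EX.form`); `u s = s = s w`.
(1) `s v` is idempotent: `s v u = u s v u` is idempotent (`loc`), `v u v = v` (`Ge u v` from `Ge u e`, `Ge e v`), so
`s v = s v u v = (s v u) v` is a product of two idempotents (`idc`).
(2) `w v u = w u`: `y = w v u` is idempotent (`idc`), `Ge w y` (`w y = y`), `Ge u y` (`y u = y`), so `Ge (w * u) y`.
`Ge w (w * u)` and `Ge u (w * u)` (`w u w u = w u`); so `Ge f (w * u)`, `Ge e (w * u)`, `Ge (e * f) (w * u)`, so `Ge v (w * u)`, so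
`Ge y (w * u)`.  `lemP` with `b = w u`: `w y u = w (w u) u`, that is `y = w u`.
(3) `s v s = s w v u s = s w u s = s s`, so `s v = s v s v = s s v`. -/
theorem EX.mul_idem (h : A1 S) (hr : LocR S) (hl : LocL S) {e f x s v : S} (r : EX e f x) (hs : JE s x)
    (hv : v * v = v) (h1 : Ge e v) (h2 : Ge v (e * f)) : s * v = s * s * v := by
  obtain ⟨u, w, u1, w1, u2, u3, w2, w3, hsu⟩ := r.form h hs
  have hus : u * s = s := by rw [hsu, ← mul_assoc, ← mul_assoc, u1]
  have hsw : s * w = s := by rw [hsu, mul_assoc, w1]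
  -- (1) `s v` is idempotent
  have huv : v * u * v = v := ge_trans h hv u2 h1
  have i1 := h.loc u (s * v) u1
  have i2 : u * (s * v) * u = s * v * u := by rw [← mul_assoc u s v, hus]
  rw [i2] at i1
  have i3 := h.idc (s * v * u) v i1 hv
  have i4 : s * v * u * v = s * v := by
    calc s * v * u * v = s * (v * u * v) := by simp only [mul_assoc]
      _ = s * v := by rw [huv]
  rw [i4] at i3
  -- (2) `w v u = w u`
  have y1 := h.idc w v w1 hv
  have y2 := h.idc (w * v) u y1 u1
  have z1 := h.idc w u w1 u1
  have g1 : Ge w (w * v * u) := by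
    show (w * v * u) * w * (w * v * u) = w * v * u
    calc (w * v * u) * w * (w * v * u) = (w * v * u) * ((w * w) * v * u) := by
          simp only [mul_assoc]
      _ = w * v * u := by rw [w1, y2]
  have g2 : Ge u (w * v * u) := by
    show (w * v * u) * u * (w * v * u) = w * v * u
    rw [mul_assoc (w * v) u u, u1, y2]
  have g3 : Ge (w * u) (w * v * u) := (ge_mul h y2).2 ⟨g1, g2⟩
  have g4 : Ge w (w * u) := by
    show (w * u) * w * (w * u) = w * u
    rw [mul_assoc (w * u) w, ← mul_assoc w w u, w1, z1]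
  have g5 : Ge u (w * u) := by
    show (w * u) * u * (w * u) = w * u
    rw [mul_assoc w u u, u1, z1]
  have g6 : Ge v (w * u) := by
    apply ge_trans h z1 h2
    exact (ge_mul h z1).2 ⟨ge_trans h z1 u3 g5, ge_trans h z1 w3 g4⟩
  have g7 : Ge (w * v * u) (w * u) := (ge_mul h z1).2 ⟨(ge_mul h z1).2 ⟨g4, g6⟩, g5⟩
  have p1 := lemP h hr hl z1 y2 g3 g7 g4 g5
  have p2 : w * v * u = w * u := by
    calc w * v * u = (w * w) * v * (u * u) := by rw [w1, u1]
      _ = w * (w * v * u) * u := by simp only [mul_assoc]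
      _ = w * (w * u) * u := p1
      _ = (w * w) * (u * u) := by simp only [mul_assoc]
      _ = w * u := by rw [w1, u1]
  -- (3)
  have q1 : s * v * s = s * s := by
    calc s * v * s = (s * w) * v * (u * s) := by rw [hsw, hus]
      _ = s * (w * v * u) * s := by simp only [mul_assoc]
      _ = s * (w * u) * s := by rw [p2]
      _ = (s * w) * (u * s) := by simp only [mul_assoc]
      _ = s * s := by rw [hsw, hus]
  calc s * v = (s * v) * (s * v) := i3.symm
    _ = (s * v * s) * v := by simp only [mul_assoc]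
    _ = s * s * v := by rw [q1]

/-- PROOF: dual: `EX.mul_idem` in `Sᵐᵒᵖ` for `EX.op` (with `op f`, `op e` in place of `e`, `f`; `op f * op e = op (e * f)`). -/
theorem EX.idem_mul (h : A1 S) (hr : LocR S) (hl : LocL S) {e f x s v : S} (r : EX e f x) (hs : JE s x)
    (hv : v * v = v) (h1 : Ge f v) (h2 : Ge v (e * f)) : v * s = v * (s * s) := by
  have h3 := EX.mul_idem h.op hl.op hr.op r.op (s := MulOpposite.op s) (v := MulOpposite.op v)
    ⟨jle_op.2 hs.1, jle_op.2 hs.2⟩ (congrArg MulOpposite.op hv) (ge_op.2 h1)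
    (ge_op (s := v) (e := e * f).2 h2)
  exact congrArg MulOpposite.unop h3

end EVS
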