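import Pool.Agent.EVA.C3

/-!
# [EVA-C4] levels
-/

set_option autoImplicit false

namespace EVS

open Classical in
/-- the level of `s` -/
noncomputable def lev {S : Type} [Semigroup S] (e f x k0 s : S) : S :=
  if Ge s e then e else if Ge s f then f else if Ge s (e * f) then e * f else
    if Ge s (x * x) then x * x else k0

variable {S : Type} [Semigroup S] [Finite S]

omit [Finite S] in
theorem lev_cases (e f x k0 s : S) : lev e f x k0 s = e ∨ lev e f x k0 s = f ∨ lev e f x k0 s = e * f ∨
    lev e f x k0 s = x * x ∨ lev e f x k0 s = k0 := by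
  unfold lev
  split_ifs <;> simp

omit [Finite S] in
private theorem c4_1 {e f : S} (he : e * e = e) (hef : (e * f) * (e * f) = e * f) : Ge e (e * f) := by
  change e * f * e * (e * f) = e * f
  rw [mul_assoc (e * f) e, ← mul_assoc e e f, he, hef]

omit [Finite S] in
private theorem c4_2 {e f : S} (hf : f * f = f) (hef : (e * f) * (e * f) = e * f) : Ge f (e * f) := by
  change e * f * f * (e * f) = e * f
  rw [mul_assoc e f f, hf, hef]

omit [Finite S] in
private theorem c4_3 {e f : S} (he : e * e = e) (hf : f * f = f) (hfe : (f * e) * (f * e) = f * e) :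
    Ge (e * f) (f * e) := by
  change f * e * (e * f) * (f * e) = f * e
  calc f * e * (e * f) * (f * e) = f * (e * e) * (f * f) * e := by simp only [mul_assoc]
    _ = (f * e) * (f * e) := by rw [he, hf]; simp only [mul_assoc]
    _ = f * e := hfe

/-- PROOF: `lev_cases`, `idc`, `EX.b_facts`. -/
theorem lev_idem (h : A1 S) {e f x k0 : S} (r : EX e f x) (hk : k0 * k0 = k0) (s : S) :
    lev e f x k0 s * lev e f x k0 s = lev e f x k0 s := by
  rcases lev_cases e f x k0 s with h1 | h1 | h1 | h1 | h1 <;> rw [h1]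
  · exact r.le.1
  · exact r.rf.1
  · exact h.idc e f r.le.1 r.rf.1
  · exact (r.b_facts h).1
  · exact hk

/-- PROOF: `split_ifs`. -/
theorem ge_lev {e f x k0 : S} (hk0 : ∀ s : S, Ge s k0) (s : S) : Ge s (lev e f x k0 s) := by
  unfold lev
  split_ifs with h1 h2 h3 h4
  · exact h1
  · exact h2
  · exact h3
  · exact h4
  · exact hk0 s

/-- PROOF: `EX.incomp` excludes `Ge s e ∧ Ge s f`.  The levels: `Ge e (e * f)`, `Ge f (e * f)` (`(e f) e (e f) = (e f)(e f)`),
`Ge e (x * x)`, `Ge f (x * x)`, `Ge (e * f) (x * x)` (`EX.b_facts`), `Ge y k0` for all `y`. -/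
theorem lev_max (h : A1 S) {e f x k0 : S} (r : EX e f x) (hk : k0 * k0 = k0) (hk0 : ∀ s : S, Ge s k0)
    {s y : S} (hy : y = e ∨ y = f ∨ y = e * f ∨ y = x * x ∨ y = k0) (hs : Ge s y) : Ge (lev e f x k0 s) y := by
  obtain ⟨b1, b2, b3, b4, b5⟩ := r.b_facts h
  have he := r.le.1
  have hf := r.rf.1
  have hef := h.idc e f he hf
  unfold lev
  split_ifs with h1 h2 h3 h4
  · rcases hy with rfl | rfl | rfl | rfl | rfl
    · exact ge_self he
    · exact absurd ⟨h1, hs⟩ (r.incomp h s)
    · exact c4_1 he hef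
    · exact b3
    · exact hk0 e
  · rcases hy with rfl | rfl | rfl | rfl | rfl
    · exact absurd hs h1
    · exact ge_self hf
    · exact c4_2 hf hef
    · exact b4
    · exact hk0 f
  · rcases hy with rfl | rfl | rfl | rfl | rfl
    · exact absurd hs h1
    · exact absurd hs h2
    · exact ge_self hef
    · exact b5
    · exact hk0 _
  · rcases hy with rfl | rfl | rfl | rfl | rfl
    · exact absurd hs h1
    · exact absurd hs h2
    · exact absurd hs h3
    · exact ge_self b1
    · exact hk0 _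
  · rcases hy with rfl | rfl | rfl | rfl | rfl
    · exact absurd hs h1
    · exact absurd hs h2
    · exact absurd hs h3
    · exact absurd hs h4
    · exact ge_self hk

/-- PROOF: let `g = lev s`, `g' = lev t`, `c = lev (s t)`.  `Ge (s * t) c` (`ge_lev`), so `Ge s c`, `Ge t c` (`ge_mul`), so `Ge g c`,
`Ge g' c` (`lev_max`), so `Ge (g * g') c`.
Conversely: there is `y` in `{e, f, e f, x x, k0}` equivalent to `g g'` (`Ge y (g * g')`, `Ge (g * g') y`): `y = g'` if `Ge g g'`, `y = g` if `Ge g' g`
(`g g'` is equivalent to `g'` if `Ge g g'`: `(g g') g' (g g') = (g g')(g g') = g g'`, `g' (g g') g' = g' g g' = g'`; in the same way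
in the other case), and `y = e f` if `{g, g'} = {e, f}` (`e f` and `f e` are equivalent).  All other pairs are comparable (`e`, `f` above
`e f` above `x x` above `k0`).  `Ge s (g * g')` and `Ge t (g * g')` (`Ge s g`, `Ge g (g * g')`: `(g g') g (g g') = g g'`), so
`Ge (s * t) (g * g')`, so `Ge (s * t) y`, so `Ge c y` (`lev_max`), so `Ge c (g * g')` (`ge_trans`). -/
theorem lev_mul (h : A1 S) {e f x k0 : S} (r : EX e f x) (hk : k0 * k0 = k0) (hk0 : ∀ s : S, Ge s k0)
    (s t : S) : Ge (lev e f x k0 s * lev e f x k0 t) (lev e f x k0 (s * t)) ∧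
      Ge (lev e f x k0 (s * t)) (lev e f x k0 s * lev e f x k0 t) := by
  obtain ⟨b1, b2, b3, b4, b5⟩ := r.b_facts h
  have he := r.le.1
  have hf := r.rf.1
  have hef := h.idc e f he hf
  have hfe := h.idc f e hf he
  have hg1 := ge_lev (e := e) (f := f) (x := x) hk0 s
  have hg2 := ge_lev (e := e) (f := f) (x := x) hk0 t
  have hg3 := ge_lev (e := e) (f := f) (x := x) hk0 (s * t)
  have i1 := lev_idem h r hk s
  have i2 := lev_idem h r hk t
  have i3 := lev_idem h r hk (s * t)
  have c1 := lev_cases e f x k0 s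
  have c2 := lev_cases e f x k0 t
  have c3 := lev_cases e f x k0 (s * t)
  have m1 : ∀ y, (y = e ∨ y = f ∨ y = e * f ∨ y = x * x ∨ y = k0) → Ge s y → Ge (lev e f x k0 s) y :=
    fun y hy hs => lev_max h r hk hk0 hy hs
  have m2 : ∀ y, (y = e ∨ y = f ∨ y = e * f ∨ y = x * x ∨ y = k0) → Ge t y → Ge (lev e f x k0 t) y :=
    fun y hy hs => lev_max h r hk hk0 hy hs
  have m3 : ∀ y, (y = e ∨ y = f ∨ y = e * f ∨ y = x * x ∨ y = k0) → Ge (s * t) y →
      Ge (lev e f x k0 (s * t)) y := fun y hy hs => lev_max h r hk hk0 hy hs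
  generalize lev e f x k0 s = g at *
  generalize lev e f x k0 t = g' at *
  generalize lev e f x k0 (s * t) = c at *
  have hgg := h.idc g g' i1 i2
  constructor
  · have h1 := (ge_mul h i3).1 hg3
    exact (ge_mul h i3).2 ⟨m1 c c3 h1.1, m2 c c3 h1.2⟩
  · have hy : ∃ y, (y = e ∨ y = f ∨ y = e * f ∨ y = x * x ∨ y = k0) ∧ y * y = y ∧
        Ge y (g * g') ∧ Ge (g * g') y := by
      have hcmp : Ge g g' ∨ Ge g' g ∨ (g = e ∧ g' = f) ∨ (g = f ∧ g' = e) := by
        rcases c1 with c1 | c1 | c1 | c1 | c1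
        · rcases c2 with c2 | c2 | c2 | c2 | c2
          · left; rw [c1, c2]; exact ge_self he
          · exact Or.inr (Or.inr (Or.inl ⟨c1, c2⟩))
          · left; rw [c1, c2]; exact c4_1 he hef
          · left; rw [c1, c2]; exact b3
          · left; rw [c2]; exact hk0 g
        · rcases c2 with c2 | c2 | c2 | c2 | c2
          · exact Or.inr (Or.inr (Or.inr ⟨c1, c2⟩))
          · left; rw [c1, c2]; exact ge_self hf
          · left; rw [c1, c2]; exact c4_2 hf hef
          · left; rw [c1, c2]; exact b4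
          · left; rw [c2]; exact hk0 g
        · rcases c2 with c2 | c2 | c2 | c2 | c2
          · right; left; rw [c1, c2]; exact c4_1 he hef
          · right; left; rw [c1, c2]; exact c4_2 hf hef
          · left; rw [c1, c2]; exact ge_self hef
          · left; rw [c1, c2]; exact b5
          · left; rw [c2]; exact hk0 g
        · rcases c2 with c2 | c2 | c2 | c2 | c2
          · right; left; rw [c1, c2]; exact b3
          · right; left; rw [c1, c2]; exact b4
          · right; left; rw [c1, c2]; exact b5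
          · left; rw [c1, c2]; exact ge_self b1
          · left; rw [c2]; exact hk0 g
        · right; left; rw [c1]; exact hk0 g'
      rcases hcmp with hc | hc | ⟨rfl, rfl⟩ | ⟨rfl, rfl⟩
      · obtain ⟨d1, d2, _, _⟩ := ge_mul_idem i2 hc
        exact ⟨g', c2, i2, d1, d2⟩
      · obtain ⟨_, _, d1, d2⟩ := ge_mul_idem i1 hc
        exact ⟨g, c1, i1, d1, d2⟩
      · exact ⟨_, Or.inr (Or.inr (Or.inl rfl)), hef, ge_self hef, ge_self hef⟩
      · exact ⟨_, Or.inr (Or.inr (Or.inl rfl)), hef, c4_3 he hf hfe, c4_3 hf he hef⟩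
    obtain ⟨y, y1, y2, y3, y4⟩ := hy
    have d1 : Ge s (g * g') := ge_trans h hgg hg1 (c4_1 i1 hgg)
    have d2 : Ge t (g * g') := ge_trans h hgg hg2 (c4_2 i2 hgg)
    have d3 : Ge (s * t) (g * g') := (ge_mul h hgg).2 ⟨d1, d2⟩
    exact ge_trans h hgg (m3 y y1 (ge_trans h y2 d3 y4)) y3

end EVS
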