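import Pool.Agent.EVA.C4

/-!
# [EVA-C5b] products, case 4]
-/

set_option autoImplicit false

namespace EVS

variable {S : Type} [Semigroup S] [Finite S]

/-- PROOF: `¬ Ge t f` (`EX.right_iff`), so `g' = lev t` is `e`, `e f`, `x x` or `k0`.  `v = t g'` is idempotent (`ge_right`) and equivalent to
`g'` (`Ge v g'`: `g' t g' g' = g'`; `Ge g' v`: `v g' v = v v`).  `s v = s s v`: if `g'` is `e` or `e f`: `EX.mul_idem`
(`Ge e v`, `Ge v (e * f)` by `ge_trans`); if `g'` is `x x` or `k0`: `Ge s v` (`EX.facts`, `ge_trans`), `low_mul`.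
`u = s v` is idempotent (`s s` and `v` are: `EX.facts`, `idc`) and `u = s s v = s u`.  So `s (t g' t) = u t = s u t`.
Let `c = lev (s t)`, `g = lev s`.  `Ge u c`: `Ge s c`, `Ge t c` (`ge_lev`, `ge_mul`), `Ge g' c` (`lev_mul`).  `Ge c u`: `Ge g' u`
(`u g' u = u u`), `Ge (s * s) u` (`u (s s) u = u u`, as `s s u = u`), `Ge (x * x) (s * s)` (`EX.facts`), `Ge g (x * x)` (`lev_max`,
`EX.facts`), so `Ge g u`, `Ge (g * g') u`, and `Ge c (g * g')` (`lev_mul`).  `lemP`: `s u t = s c t`; `lemQ`. -/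
theorem ef_case4 (h : A1 S) (hr : LocR S) (hl : LocL S) {e f x k0 : S} (r : EX e f x) (hk : k0 * k0 = k0)
    (hk0 : ∀ s : S, Ge s k0) {s t : S} (hs : JE s x) (hst : ¬ JE (s * t) x) :
    (s * t) * lev e f x k0 (s * t) * (s * t) = s * (t * lev e f x k0 t * t) := by
  have hntf : ¬ Ge t f := fun hc => hst ((r.right_iff h hs).2 hc)
  obtain ⟨b1, b2, b3, b4, b5⟩ := r.b_facts h
  obtain ⟨f1, f2, f3, f4, f5, f6⟩ := r.facts h hs
  have he := r.le.1
  have hf := r.rf.1
  have hef := h.idc e f he hf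
  have hg1 := ge_lev (e := e) (f := f) (x := x) hk0 s
  have hg2 := ge_lev (e := e) (f := f) (x := x) hk0 t
  have hg3 := ge_lev (e := e) (f := f) (x := x) hk0 (s * t)
  have i1 := lev_idem h r hk s
  have i2 := lev_idem h r hk t
  have i3 := lev_idem h r hk (s * t)
  have hm := lev_mul h r hk hk0 s t
  have hc2 := lev_cases e f x k0 t
  have hgb : Ge (lev e f x k0 s) (x * x) :=
    lev_max h r hk hk0 (Or.inr (Or.inr (Or.inr (Or.inl rfl)))) f1
  generalize lev e f x k0 s = g at *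
  generalize lev e f x k0 t = g' at *
  generalize lev e f x k0 (s * t) = c at *
  obtain ⟨v, hv⟩ : ∃ v, v = t * g' := ⟨_, rfl⟩
  have hvv : v * v = v := by
    rw [hv]
    exact ge_right hg2
  have hvg : v * g' = v := by
    rw [hv, mul_assoc, i2]
  have hg2' : g' * t * g' = g' := hg2
  have v1 : Ge v g' := by
    change g' * v * g' = g'
    rw [mul_assoc, hvg, hv, ← mul_assoc, hg2']
  have v2 : Ge g' v := by
    change v * g' * v = v
    rw [hvg, hvv]
  have e1 : Ge e (e * f) := by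
    change e * f * e * (e * f) = e * f
    rw [mul_assoc (e * f) e, ← mul_assoc e e f, he, hef]
  have key : s * v = s * s * v := by
    rcases hc2 with hc | hc | hc | hc | hc
    · rw [hc] at v1 v2
      exact r.mul_idem h hr hl hs hvv v2 (ge_trans h hef v1 e1)
    · rw [hc] at hg2
      exact absurd hg2 hntf
    · rw [hc] at v1 v2
      exact r.mul_idem h hr hl hs hvv (ge_trans h hvv e1 v2) v1
    · rw [hc] at v2
      exact low_mul h hr hl hvv (ge_trans h hvv f1 v2)
    · rw [hc] at v2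
      exact low_mul h hr hl hvv (ge_trans h hvv (hk0 s) v2)
  obtain ⟨u, hu⟩ : ∃ u, u = s * v := ⟨_, rfl⟩
  have huu : u * u = u := by
    rw [hu, key]
    exact h.idc _ _ f4 hvv
  have hsu : s * u = u := by
    rw [hu, ← mul_assoc, ← key]
  have hug : u * g' = u := by
    rw [hu, mul_assoc, hvg]
  have hst' := (ge_mul h i3).1 hg3
  have hgg := (ge_mul h i3).1 hm.1
  have u1 : Ge u c := by
    rw [hu, hv]
    exact (ge_mul h i3).2 ⟨hst'.1, (ge_mul h i3).2 ⟨hst'.2, hgg.2⟩⟩
  have w1 : Ge g' u := by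
    change u * g' * u = u
    rw [hug, huu]
  have w2 : Ge (s * s) u := by
    change u * (s * s) * u = u
    rw [mul_assoc, mul_assoc s s u, hsu, hsu, huu]
  have w3 : Ge g u := ge_trans h huu (ge_trans h f4 hgb f6) w2
  have u2 : Ge c u := ge_trans h huu hm.2 ((ge_mul h huu).2 ⟨w3, w1⟩)
  have h4 : s * u * t = s * c * t := lemP h hr hl i3 huu u2 u1 hst'.1 hst'.2
  rw [lemQ h hr hl i3 hst'.1 hst'.2, ← h4, hsu, hu, hv]
  simp only [mul_assoc]

end EVS
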