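import Pool.Agent.EVA.C4

/-!
# [EVA-C5c] products, cases 5, 6]
-/

set_option autoImplicit false

namespace EVS

variable {S : Type} [Semigroup S] [Finite S]

omit [Finite S] in
private theorem c5c_ge_ef (h : A1 S) {e f x : S} (r : EX e f x) : Ge e (e * f) ∧ Ge f (e * f) := by
  have hef := h.idc e f r.le.1 r.rf.1
  constructor
  · show (e * f) * e * (e * f) = e * f
    rw [mul_assoc (e * f) e, ← mul_assoc e e f, r.le.1, hef]
  · show (e * f) * f * (e * f) = e * f
    rw [mul_assoc e f f, r.rf.1, hef]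

private theorem c5c_idem (h : A1 S) {e f x s v : S} (r : EX e f x) (hs : JE s x)
    (hv : v * v = v) (h1 : Ge e v) : (s * v) * (s * v) = s * v := by
  obtain ⟨u, w, u1, w1, u2, u3, w2, w3, hsu⟩ := r.form h hs
  have hus : u * s = s := by rw [hsu, ← mul_assoc, ← mul_assoc, u1]
  have huv : v * u * v = v := ge_trans h hv u2 h1
  have h2 := h.loc u (s * v) u1
  have h3 : u * (s * v) * u = s * v * u := by rw [← mul_assoc u s v, hus]
  rw [h3] at h2
  have h4 := h.idc (s * v * u) v h2 hv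
  have h5 : s * v * u * v = s * v := by
    calc s * v * u * v = s * (v * u * v) := by simp only [mul_assoc]
      _ = s * v := by rw [huv]
  rwa [h5] at h4

private theorem c5c_idem' (h : A1 S) {e f x s v : S} (r : EX e f x) (hs : JE s x)
    (hv : v * v = v) (h1 : Ge f v) : (v * s) * (v * s) = v * s := by
  have h2 := c5c_idem h.op r.op (s := MulOpposite.op s) (v := MulOpposite.op v)
    ⟨jle_op.2 hs.1, jle_op.2 hs.2⟩ (congrArg MulOpposite.op hv) (ge_op.2 h1)
  exact congrArg MulOpposite.unop h2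

/-- PROOF: `t = v x w`, `v` idempotent, equivalent to `e` (`EX.form`), `v t = t`.  `s v = s s v` (`EX.mul_idem`), `u = s v` is idempotent and
`u = s u`; `s t = s v t = u t = s u t`.  `c = lev (s t)`: `Ge u c`: `Ge s c`, `Ge t c`, so `Ge (lev t) c` (`lev_max`), and `Ge e (lev t)`, as
`lev t` is neither `e` nor `f` (`EX.facts`: `¬ Ge t e`, `¬ Ge t f`) so `Ge e c`, `Ge v c`.  `Ge c u`: `Ge (s * s) u`, `Ge (x * x) (s * s)`, so
`Ge (x * x) u`, `Ge (lev s) (x * x)` and `Ge (lev t) (x * x)` (`lev_max`, `EX.facts`), `lev_mul`.  `lemP`: `s u t = s c t`; `lemQ`. -/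
theorem ef_case6 (h : A1 S) (hr : LocR S) (hl : LocL S) {e f x k0 : S} (r : EX e f x) (hk : k0 * k0 = k0)
    (hk0 : ∀ s : S, Ge s k0) {s t : S} (hs : JE s x) (ht : JE t x) :
    (s * t) * lev e f x k0 (s * t) * (s * t) = s * t := by
  obtain ⟨hs1, hs2, hs3, hs4, hs5, hs6⟩ := r.facts h hs
  obtain ⟨ht1, ht2, ht3, ht4, ht5, ht6⟩ := r.facts h ht
  obtain ⟨hbb, hxb, heb, hfb, hefb⟩ := r.b_facts h
  have hc : lev e f x k0 (s * t) * lev e f x k0 (s * t) = lev e f x k0 (s * t) := lev_idem h r hk _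
  have hstc : Ge (s * t) (lev e f x k0 (s * t)) := ge_lev hk0 _
  obtain ⟨hsc, htc⟩ := (ge_mul h hc).1 hstc
  rw [lemQ h hr hl hc hsc htc]
  obtain ⟨v, w, v1, w1, v2, v3, w2, w3, htv⟩ := r.form h ht
  have hvt : v * t = t := by rw [htv, ← mul_assoc, ← mul_assoc, v1]
  have hef := h.idc e f r.le.1 r.rf.1
  have he_ef := (c5c_ge_ef h r).1
  have hvef : Ge v (e * f) := ge_trans h hef v2 he_ef
  have hsv : s * v = s * s * v := r.mul_idem h hr hl hs v1 v3 hvef
  have huu : (s * v) * (s * v) = s * v := c5c_idem h r hs v1 v3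
  have hsu : s * (s * v) = s * v := by rw [← mul_assoc, ← hsv]
  have hst : s * t = s * (s * v) * t := by
    rw [hsu, mul_assoc, hvt]
  have hlc : Ge (lev e f x k0 t) (lev e f x k0 (s * t)) := lev_max h r hk hk0 (lev_cases e f x k0 (s * t)) htc
  have hel : Ge e (lev e f x k0 t) := by
    have hl0 := ge_lev (e := e) (f := f) (x := x) hk0 t
    rcases lev_cases e f x k0 t with h1 | h1 | h1 | h1 | h1
    · rw [h1] at hl0; exact absurd hl0 ht2
    · rw [h1] at hl0; exact absurd hl0 ht3
    · rw [h1]; exact he_ef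
    · rw [h1]; exact heb
    · rw [h1]; exact hk0 e
  have hec : Ge e (lev e f x k0 (s * t)) := ge_trans h hc hel hlc
  have huc : Ge (s * v) (lev e f x k0 (s * t)) := (ge_mul h hc).2 ⟨hsc, ge_trans h hc v2 hec⟩
  have hssu : Ge (s * s) (s * v) := by
    show (s * v) * (s * s) * (s * v) = s * v
    rw [mul_assoc (s * v), mul_assoc s s, hsu, hsu, huu]
  have hcx : Ge (lev e f x k0 (s * t)) (x * x) := by
    apply ge_trans h hbb (lev_mul h r hk hk0 s t).2
    exact (ge_mul h hbb).2 ⟨lev_max h r hk hk0 (Or.inr (Or.inr (Or.inr (Or.inl rfl)))) hs1,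
      lev_max h r hk hk0 (Or.inr (Or.inr (Or.inr (Or.inl rfl)))) ht1⟩
  have hcu : Ge (lev e f x k0 (s * t)) (s * v) :=
    ge_trans h huu hcx (ge_trans h huu hs6 hssu)
  conv_rhs => rw [hst]
  exact (lemP h hr hl hc huu hcu huc hsc htc).symm

/-- The dual of `ef_case4`.  PROOF: `¬ Ge s e` (`EX.left_iff`), so `g = lev s` is `f`, `e f`, `x x` or `k0`.  `v = g s` is idempotent
(`ge_left`), equivalent to `g`.  `v t = v (t t)`: by `EX.idem_mul` if `g` is `f` or `e f`; otherwise `Ge t v` and the dual of `low_mul`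
(`low_mul` in `Sᵐᵒᵖ`).  `u = v t` is idempotent, `u = u t`.  `(s g s) t = s u = s u t`.
As before `Ge u c`, `Ge c u` for `c = lev (s t)`, so `s u t = s c t` (`lemP`), `lemQ`. -/
theorem ef_case5 (h : A1 S) (hr : LocR S) (hl : LocL S) {e f x k0 : S} (r : EX e f x) (hk : k0 * k0 = k0)
    (hk0 : ∀ s : S, Ge s k0) {s t : S} (ht : JE t x) (hst : ¬ JE (s * t) x) :
    (s * t) * lev e f x k0 (s * t) * (s * t) = (s * lev e f x k0 s * s) * t := by
  obtain ⟨ht1, ht2, ht3, ht4, ht5, ht6⟩ := r.facts h ht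
  obtain ⟨hbb, hxb, heb, hfb, hefb⟩ := r.b_facts h
  have hc : lev e f x k0 (s * t) * lev e f x k0 (s * t) = lev e f x k0 (s * t) := lev_idem h r hk _
  have hstc : Ge (s * t) (lev e f x k0 (s * t)) := ge_lev hk0 _
  obtain ⟨hsc, htc⟩ := (ge_mul h hc).1 hstc
  rw [lemQ h hr hl hc hsc htc]
  have hse : ¬ Ge s e := fun h1 => hst ((r.left_iff h ht).2 h1)
  have hg : lev e f x k0 s * lev e f x k0 s = lev e f x k0 s := lev_idem h r hk _
  have hsg : Ge s (lev e f x k0 s) := ge_lev hk0 _
  have hgc : Ge (lev e f x k0 s) (lev e f x k0 (s * t)) := lev_max h r hk hk0 (lev_cases e f x k0 (s * t)) hsc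
  have hgcases := lev_cases e f x k0 s
  have hlm := (lev_mul h r hk hk0 s t).2
  generalize lev e f x k0 s = g at *
  generalize lev e f x k0 (s * t) = c at *
  have hgsg : g * s * g = g := hsg
  have hef := h.idc e f r.le.1 r.rf.1
  obtain ⟨he_ef, hf_ef⟩ := c5c_ge_ef h r
  have hvv : (g * s) * (g * s) = g * s := ge_left hsg
  have hvg : Ge (g * s) g := by
    show g * (g * s) * g = g
    rw [← mul_assoc, hg, hgsg]
  have hgv : Ge g (g * s) := by
    show (g * s) * g * (g * s) = g * s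
    rw [hgsg, ← mul_assoc, hg]
  have key : (g * s) * t = (g * s) * (t * t) ∧ (g * s * t) * (g * s * t) = g * s * t := by
    have hlow : Ge t (g * s) → (g * s) * t = (g * s) * (t * t) ∧ (g * s * t) * (g * s * t) = g * s * t := by
      intro h1
      refine ⟨?_, ge_left h1⟩
      have h2 := low_mul h.op hl.op hr.op (s := MulOpposite.op t) (v := MulOpposite.op (g * s))
        (congrArg MulOpposite.op hvv) (ge_op.2 h1)
      exact congrArg MulOpposite.unop h2
    have hup : Ge f (g * s) → Ge (g * s) (e * f) →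
        (g * s) * t = (g * s) * (t * t) ∧ (g * s * t) * (g * s * t) = g * s * t := by
      intro h1 h2
      exact ⟨r.idem_mul h hr hl ht hvv h1 h2, c5c_idem' h r ht hvv h1⟩
    rcases hgcases with h1 | h1 | h1 | h1 | h1
    · rw [h1] at hsg; exact absurd hsg hse
    · apply hup
      · rw [← h1]; exact hgv
      · rw [h1] at hvg ⊢
        exact ge_trans h hef hvg hf_ef
    · apply hup
      · rw [← h1] at hf_ef
        exact ge_trans h hvv hf_ef hgv
      · rw [← h1]; exact hvg
    · apply hlow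
      rw [← h1] at ht1
      exact ge_trans h hvv ht1 hgv
    · apply hlow
      have := hk0 t
      rw [← h1] at this
      exact ge_trans h hvv this hgv
  obtain ⟨k1, huu⟩ := key
  have hut : (g * s * t) * t = g * s * t := by rw [mul_assoc, ← k1]
  have huc : Ge (g * s * t) c := (ge_mul h hc).2 ⟨ge_trans h hc hvg hgc, htc⟩
  have hvu : Ge (g * s) (g * s * t) := by
    show (g * s * t) * (g * s) * (g * s * t) = g * s * t
    rw [mul_assoc (g * s * t), ← mul_assoc (g * s) (g * s) t, hvv, huu]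
  have hgu : Ge g (g * s * t) := ge_trans h huu hgv hvu
  have httu : Ge (t * t) (g * s * t) := by
    show (g * s * t) * (t * t) * (g * s * t) = g * s * t
    rw [← mul_assoc (g * s * t) t t, hut, hut, huu]
  have hltu : Ge (lev e f x k0 t) (g * s * t) :=
    ge_trans h huu (lev_max h r hk hk0 (Or.inr (Or.inr (Or.inr (Or.inl rfl)))) ht1)
      (ge_trans h huu ht6 httu)
  have hcu : Ge c (g * s * t) := ge_trans h huu hlm ((ge_mul h huu).2 ⟨hgu, hltu⟩)
  have h1 := lemP h hr hl hc huu hcu huc hsc htc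
  rw [← h1]
  calc s * (g * s * t) * t = s * ((g * s * t) * t) := by rw [mul_assoc]
    _ = s * (g * s * t) := by rw [hut]
    _ = s * g * s * t := by simp only [mul_assoc]

end EVS
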