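import Pool.Agent.EVA.C5a
import Pool.Agent.EVA.C5b
import Pool.Agent.EVA.C5c

/-!
# [EVA-C5] the endomorphism for a source with a left and a right identity]
-/

set_option autoImplicit false

namespace EVS

variable {S : Type} [Semigroup S] [Finite S]

open Classical in
/-- PROOF: `k0` from `exists_k0`; `φ s = s` if `JE s x` and `φ s = s * lev s * s` otherwise.  If `JE (s * t) x` then `JE s x` or `JE t x` (`Sr`), not
both (`EX.left_iff` and `EX.facts`): `ef_case2`, `ef_case3`.  If not: `ef_case1`, `ef_case4`, `ef_case5`, `ef_case6`.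
`s * lev s * s` is idempotent: `s g s s g s = s (g (s s) g) s = s g s` (`Ge (s * s) g`). -/
theorem lemEF (h : A1 S) (hr : LocR S) (hl : LocL S) {e f x : S} (r : EX e f x) :
    ∃ φ : S →ₙ* S, (∀ s, JE s x → φ s = s) ∧ ∀ s, ¬ JE s x → φ s * φ s = φ s := by
  have : Nonempty S := ⟨x⟩
  obtain ⟨k0, hk, hk0⟩ := exists_k0 (S := S) h
  have hpos : ∀ s : S, JE s x → (if JE s x then s else s * lev e f x k0 s * s) = s :=
    fun s hs => if_pos hs
  have hneg : ∀ s : S, ¬ JE s x → (if JE s x then s else s * lev e f x k0 s * s) =
      s * lev e f x k0 s * s := fun s hs => if_neg hs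
  refine ⟨⟨fun s => if JE s x then s else s * lev e f x k0 s * s, ?_⟩, ?_, ?_⟩
  · intro s t
    by_cases hst : JE (s * t) x
    · rw [hpos _ hst]
      by_cases hs : JE s x
      · by_cases ht : JE t x
        · exact absurd ((r.left_iff h ht).1 hst) (r.facts h hs).2.1
        · rw [hpos _ hs, hneg _ ht]
          exact (ef_case3 h hr hl r hs hst).symm
      · have ht : JE t x := (r.src.2 s t hst).resolve_left hs
        rw [hneg _ hs, hpos _ ht]
        exact (ef_case2 h hr hl r ht hst).symm
    · rw [hneg _ hst]
      by_cases hs : JE s x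
      · by_cases ht : JE t x
        · rw [hpos _ hs, hpos _ ht]
          exact ef_case6 h hr hl r hk hk0 hs ht
        · rw [hpos _ hs, hneg _ ht]
          exact ef_case4 h hr hl r hk hk0 hs hst
      · by_cases ht : JE t x
        · rw [hneg _ hs, hpos _ ht]
          exact ef_case5 h hr hl r hk hk0 ht hst
        · rw [hneg _ hs, hneg _ ht]
          exact ef_case1 h hr hl r hk hk0 s t
  · intro s hs
    exact hpos s hs
  · intro s hs
    change (if JE s x then s else s * lev e f x k0 s * s) *
      (if JE s x then s else s * lev e f x k0 s * s) = (if JE s x then s else s * lev e f x k0 s * s)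
    rw [hneg s hs]
    have hg := ge_lev (e := e) (f := f) (x := x) hk0 s
    have i1 := lev_idem h r hk s
    generalize lev e f x k0 s = g at *
    have h2 : g * (s * s) * g = g := (ge_mul h i1).2 ⟨hg, hg⟩
    calc s * g * s * (s * g * s) = s * (g * (s * s) * g) * s := by simp only [mul_assoc]
      _ = s * g * s := by rw [h2]

end EVS
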