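import Pool.Agent.EVA.C4

/-!
# [EVA-C5a] products, cases 1, 2, 3
-/

set_option autoImplicit false

namespace EVS

variable {S : Type} [Semigroup S] [Finite S]

/-- PROOF: write `lev s = g`, `lev t = g'`, `lev (s t) = c`.  `u = g s t g'` is idempotent: `g s` (`ge_left`) and `t g'` (`ge_right`) are,
`idc`.  `Ge u c`: `Ge g c` and `Ge g' c` (from `lev_mul`, `ge_mul`), `Ge s c`, `Ge t c` (`ge_lev`, `ge_mul`).  `Ge c u`: `u g u = u u = u`
(`g u = u`) and `u g' u = u`, so `Ge (g * g') u`, and `Ge c (g * g')`.  `s g s t g' t = s u t = s c t` (`lemP`) `= (s t) c (s t)` (`lemQ`). -/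
theorem ef_case1 (h : A1 S) (hr : LocR S) (hl : LocL S) {e f x k0 : S} (r : EX e f x) (hk : k0 * k0 = k0)
    (hk0 : ∀ s : S, Ge s k0) (s t : S) :
    (s * t) * lev e f x k0 (s * t) * (s * t) =
      (s * lev e f x k0 s * s) * (t * lev e f x k0 t * t) := by
  have hg1 := ge_lev (e := e) (f := f) (x := x) hk0 s
  have hg2 := ge_lev (e := e) (f := f) (x := x) hk0 t
  have hg3 := ge_lev (e := e) (f := f) (x := x) hk0 (s * t)
  have i1 := lev_idem h r hk s
  have i2 := lev_idem h r hk t
  have i3 := lev_idem h r hk (s * t)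
  have hm := lev_mul h r hk hk0 s t
  generalize lev e f x k0 s = g at *
  generalize lev e f x k0 t = g' at *
  generalize lev e f x k0 (s * t) = c at *
  obtain ⟨u, hu⟩ : ∃ u, u = g * s * (t * g') := ⟨_, rfl⟩
  have huu : u * u = u := by
    rw [hu]
    exact h.idc _ _ (ge_left hg1) (ge_right hg2)
  have hst := (ge_mul h i3).1 hg3
  have hgg := (ge_mul h i3).1 hm.1
  have h1 : Ge u c := by
    rw [hu]
    exact (ge_mul h i3).2 ⟨(ge_mul h i3).2 ⟨hgg.1, hst.1⟩, (ge_mul h i3).2 ⟨hst.2, hgg.2⟩⟩
  have hgu : g * u = u := by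
    rw [hu]
    simp only [← mul_assoc]
    rw [i1]
  have hug : u * g' = u := by
    rw [hu]
    simp only [mul_assoc]
    rw [i2]
  have h2 : Ge (g * g') u := by
    refine (ge_mul h huu).2 ⟨?_, ?_⟩
    · change u * g * u = u
      rw [mul_assoc, hgu, huu]
    · change u * g' * u = u
      rw [hug, huu]
  have h3 : Ge c u := ge_trans h huu hm.2 h2
  have h4 : s * u * t = s * c * t := lemP h hr hl i3 huu h3 h1 hst.1 hst.2
  rw [lemQ h hr hl i3 hst.1 hst.2, ← h4, hu]
  simp only [mul_assoc]

/-- PROOF: `Ge s e` (`EX.left_iff`), so `lev s = e`.  `t = u x v`, `u` idempotent, equivalent to `e` (`EX.form`), `u t = t`.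
`s u u = s e u` (`lemP` with `b = e`), so `s u = s e u`; `s e s u = s e s e u = s e u = s u`.  So `s e s t = s e s u t = s u t = s t`. -/
theorem ef_case2 (h : A1 S) (hr : LocR S) (hl : LocL S) {e f x k0 : S} (r : EX e f x) {s t : S}
    (ht : JE t x) (hst : JE (s * t) x) : (s * lev e f x k0 s * s) * t = s * t := by
  have hse : Ge s e := (r.left_iff h ht).1 hst
  have hlev : lev e f x k0 s = e := by
    unfold lev
    rw [if_pos hse]
  rw [hlev]
  obtain ⟨u, v, hu, hv, h1, h2, h3, h4, h5⟩ := r.form h ht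
  have h6 := lemP h hr hl r.le.1 hu h2 h1 hse h1
  rw [mul_assoc, hu] at h6
  have hse' : e * s * e = e := hse
  have h7 : s * e * s * u = s * u := by
    calc s * e * s * u = s * e * (s * u) := by rw [mul_assoc]
      _ = s * e * (s * e * u) := by rw [h6]
      _ = s * (e * s * e) * u := by simp only [mul_assoc]
      _ = s * e * u := by rw [hse']
      _ = s * u := h6.symm
  calc s * e * s * t = s * e * s * (u * x * v) := by rw [h5]
    _ = s * e * s * u * (x * v) := by simp only [mul_assoc]
    _ = s * u * (x * v) := by rw [h7]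
    _ = s * t := by rw [h5]; simp only [mul_assoc]

/-- PROOF: dual.  (`lev s = f`: `Ge t f` by `EX.right_iff`, and not `Ge t e` by `EX.incomp`.) -/
theorem ef_case3 (h : A1 S) (hr : LocR S) (hl : LocL S) {e f x k0 : S} (r : EX e f x) {s t : S}
    (hs : JE s x) (hst : JE (s * t) x) : s * (t * lev e f x k0 t * t) = s * t := by
  have htf : Ge t f := (r.right_iff h hs).1 hst
  have hlev : lev e f x k0 t = f := by
    unfold lev
    rw [if_neg (fun hte => r.incomp h t ⟨hte, htf⟩), if_pos htf]
  rw [hlev]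
  obtain ⟨u, v, hu, hv, h1, h2, h3, h4, h5⟩ := r.form h hs
  have h6 := lemP h hr hl r.rf.1 hv h4 h3 h3 htf
  rw [hv] at h6
  have htf' : f * t * f = f := htf
  have h7 : v * (t * f * t) = v * t := by
    calc v * (t * f * t) = v * t * (f * t) := by simp only [mul_assoc]
      _ = v * f * t * (f * t) := by rw [h6]
      _ = v * (f * t * f) * t := by simp only [mul_assoc]
      _ = v * f * t := by rw [htf']
      _ = v * t := h6.symm
  calc s * (t * f * t) = u * x * v * (t * f * t) := by rw [h5]
    _ = u * x * (v * (t * f * t)) := by rw [mul_assoc]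
    _ = u * x * (v * t) := by rw [h7]
    _ = s * t := by rw [h5]; simp only [mul_assoc]

end EVS
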