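import Pool.Agent.EVA.R4
import Pool.Agent.EVA.C5
import Pool.Agent.EVA.C1
import Pool.Agent.EVS.Rev

/-!
# [EVA-C6] the number of sources, words in idempotents and sources
-/

set_option autoImplicit false

namespace EVS

variable {S : Type} [Semigroup S] [Finite S]

omit [Semigroup S] in
private theorem c6_card_or (p q r : S → Prop) (h : ∀ x, r x → p x ∨ q x) :
    Nat.card {x : S // r x} ≤ Nat.card {x : S // p x} + Nat.card {x : S // q x} := by
  have h1 : ({x : S | r x} : Set S).ncard ≤ ({x : S | p x} ∪ {x : S | q x} : Set S).ncard :=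
    Set.ncard_le_ncard (fun x hx => h x hx) (Set.toFinite _)
  have h2 := Set.ncard_union_le {x : S | p x} {x : S | q x}
  have h3 : Nat.card {x : S // r x} = ({x : S | r x} : Set S).ncard := Nat.card_coe_set_eq _
  have h4 : Nat.card {x : S // p x} = ({x : S | p x} : Set S).ncard := Nat.card_coe_set_eq _
  have h5 : Nat.card {x : S // q x} = ({x : S | q x} : Set S).ncard := Nat.card_coe_set_eq _
  rw [h3, h4, h5]
  exact h1.trans h2


/-- PROOF: `exists_LMin` (`fix_of_src`), `rx_of_src`, `lemR`; `card_le_nEnd` with `R x φ := φ x = x ∧ ∀ s, φ s = x ∨ φ s * φ s = φ s`, as in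
`case21`. -/
theorem card_src_left (h : A1 S) (hr : LocR S) : Nat.card {x : S // Sr x ∧ ¬ RFix x} ≤ nEnd S := by
  refine card_le_nEnd (α := {x : S // Sr x ∧ ¬ RFix x})
    (fun x φ => φ x.1 = x.1 ∧ ∀ s, φ s = x.1 ∨ φ s * φ s = φ s) ?_ ?_
  · rintro ⟨x, hs, hf⟩
    obtain ⟨e, he⟩ := exists_LMin h ((fix_of_src h hs).resolve_right hf)
    exact lemR h hr (rx_of_src h hs he hf)
  · rintro ⟨x, hs, hf⟩ ⟨y, hs', hf'⟩ ψ ⟨h1, -⟩ ⟨-, h2⟩
    rcases h2 x with h3 | h3
    · exact Subtype.ext (h1.symm.trans h3)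
    · exact absurd (by simpa only [h1] using h3) hs.1

/-- PROOF: `card_src_left` for `Sᵐᵒᵖ` (`A1.op`, `LocL.op`, `nEnd_op`, `Sr.op`, `rfix_op`). -/
theorem card_src_right (h : A1 S) (hl : LocL S) : Nat.card {x : S // Sr x ∧ ¬ LFix x} ≤ nEnd S := by
  have h1 := card_src_left h.op hl.op
  rw [nEnd_op] at h1
  refine le_trans ?_ h1
  refine Nat.card_le_card_of_injective (fun x : {x : S // Sr x ∧ ¬ LFix x} =>
    (⟨MulOpposite.op x.1, x.2.1.op, fun hx => x.2.2 (rfix_op.1 hx)⟩ :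
      {x : Sᵐᵒᵖ // Sr x ∧ ¬ RFix x})) ?_
  intro x y hxy
  exact Subtype.ext (MulOpposite.op_injective (congrArg Subtype.val hxy))

/-- PROOF: for such an `x` choose `e`, `f` (`exists_LMin`, `exists_RMin`) and `φ x` from `lemEF`.  If `φ x = φ y` then `JE x y`: otherwise
`φ y` maps `x` to an idempotent, but `φ x x = x`.  For every `ψ` in the image choose `y ψ` with `φ (y ψ) = ψ`.  Then `x = u * y ψ * v` for
`ψ = φ x` and some idempotents `u`, `v` (`EX.form`), so `x` is determined by `ψ`, `u`, `v`; `card_idem_le`. -/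
theorem card_src_both (h : A1 S) (hr : LocR S) (hl : LocL S) :
    Nat.card {x : S // Sr x ∧ LFix x ∧ RFix x} ≤ nEnd S * (nEnd S * nEnd S) := by
  classical
  have h1 : ∀ x : {x : S // Sr x ∧ LFix x ∧ RFix x}, ∃ φ : S →ₙ* S, (∃ e f : S, EX e f x.1) ∧
      (∀ s, JE s x.1 → φ s = s) ∧ ∀ s, ¬ JE s x.1 → φ s * φ s = φ s := by
    rintro ⟨x, hs, hle, hri⟩
    obtain ⟨e, he⟩ := exists_LMin h hle
    obtain ⟨f, hf⟩ := exists_RMin h hri
    obtain ⟨φ, hφ⟩ := lemEF h hr hl (⟨he, hf, hs⟩ : EX e f x)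
    exact ⟨φ, ⟨e, f, ⟨he, hf, hs⟩⟩, hφ⟩
  choose φ hEX hφ1 hφ2 using h1
  have hJE : ∀ x y : {x : S // Sr x ∧ LFix x ∧ RFix x}, φ x = φ y → JE x.1 y.1 := by
    intro x y hxy
    by_contra hc
    have h2 := hφ2 y x.1 hc
    rw [← hxy, hφ1 x x.1 (JE.refl' _)] at h2
    exact x.2.1.1 h2
  have h3 : ∀ x : {x : S // Sr x ∧ LFix x ∧ RFix x}, ∃ u v : {e : S // e * e = e},
      x.1 = u.1 * (Set.rangeSplitting φ ⟨φ x, Set.mem_range_self x⟩).1 * v.1 := by
    intro x
    obtain ⟨e, f, r⟩ := hEX (Set.rangeSplitting φ ⟨φ x, Set.mem_range_self x⟩)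
    have h4 : φ (Set.rangeSplitting φ ⟨φ x, Set.mem_range_self x⟩) = φ x :=
      Set.apply_rangeSplitting φ ⟨φ x, Set.mem_range_self x⟩
    obtain ⟨u, v, hu, hv, -, -, -, -, h5⟩ := EX.form h r (hJE x _ h4.symm)
    exact ⟨⟨u, hu⟩, ⟨v, hv⟩, h5⟩
  choose u v huv using h3
  have hfin := finite_end (S := S)
  have h6 : Nat.card {x : S // Sr x ∧ LFix x ∧ RFix x} ≤
      Nat.card ((S →ₙ* S) × ({e : S // e * e = e} × {e : S // e * e = e})) := by
    refine Nat.card_le_card_of_injective (fun x => (φ x, (u x, v x))) ?_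
    intro x y hxy
    have e1 : φ x = φ y := congrArg Prod.fst hxy
    have e2 : u x = u y := congrArg (fun p => p.2.1) hxy
    have e3 : v x = v y := congrArg (fun p => p.2.2) hxy
    have e4 : (⟨φ x, Set.mem_range_self x⟩ : Set.range φ) = ⟨φ y, Set.mem_range_self y⟩ :=
      Subtype.ext e1
    apply Subtype.ext
    rw [huv x, huv y, e2, e3, e4]
  rw [Nat.card_prod, Nat.card_prod] at h6
  exact h6.trans (Nat.mul_le_mul le_rfl (Nat.mul_le_mul card_idem_le card_idem_le))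

/-- PROOF: the three cases before, and `card_idem_le`. -/
theorem card_letters (h : A1 S) (hr : LocR S) (hl : LocL S) :
    Nat.card {x : S // x * x = x ∨ Sr x} ≤ 3 * nEnd S + nEnd S * (nEnd S * nEnd S) := by
  have h1 := card_src_left h hr
  have h2 := card_src_right h hl
  have h3 := card_src_both h hr hl
  have h4 := card_idem_le (S := S)
  have a1 := c6_card_or (fun x : S => x * x = x) (fun x => Sr x) (fun x => x * x = x ∨ Sr x)
    (fun x hx => hx)
  have a2 := c6_card_or (fun x : S => Sr x ∧ ¬ RFix x) (fun x => Sr x ∧ RFix x) (fun x => Sr x)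
    (fun x hx => by
      by_cases hf : RFix x
      · exact Or.inr ⟨hx, hf⟩
      · exact Or.inl ⟨hx, hf⟩)
  have a3 := c6_card_or (fun x : S => Sr x ∧ ¬ LFix x) (fun x => Sr x ∧ LFix x ∧ RFix x)
    (fun x => Sr x ∧ RFix x) (fun x hx => by
      by_cases hf : LFix x
      · exact Or.inr ⟨hx.1, hf, hx.2⟩
      · exact Or.inl ⟨hx.1, hf⟩)
  linarith

end EVS
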