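import Pool.Agent.EVA.F3

/-!
# [EVA-C7] words: repeated letters]
-/

set_option autoImplicit false

namespace EVS

variable {S : Type} [Semigroup S] [Finite S]

omit [Finite S] in
private theorem c7_cases (w : WithOne S) : w = 1 ∨ ∃ t : S, w = (t : WithOne S) := by
  induction w using WithOne.recOneCoe with
  | one => exact Or.inl rfl
  | coe t => exact Or.inr ⟨t, rfl⟩

private theorem c7_left (h : A1 S) (hr : LocR S) (hl : LocL S) {a g : S} (hg : g * g = g)
    (hga : g * a = a) (v w : WithOne S) :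
    (a : WithOne S) * v * a * w * a = a * v * w * a := by
  obtain ⟨p, hp⟩ : ∃ p : S, (p : WithOne S) = a * v := by
    rcases c7_cases v with rfl | ⟨t, rfl⟩
    · exact ⟨a, (mul_one _).symm⟩
    · exact ⟨a * t, WithOne.coe_mul a t⟩
  obtain ⟨q, hq⟩ : ∃ q : S, (q : WithOne S) = a * w := by
    rcases c7_cases w with rfl | ⟨t, rfl⟩
    · exact ⟨a, (mul_one _).symm⟩
    · exact ⟨a * t, WithOne.coe_mul a t⟩
  obtain ⟨r, hrr⟩ : ∃ r : S, (r : WithOne S) = p * w := by
    rcases c7_cases w with rfl | ⟨t, rfl⟩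
    · exact ⟨p, (mul_one _).symm⟩
    · exact ⟨p * t, WithOne.coe_mul p t⟩
  have hga' : (g : WithOne S) * a = a := by rw [← WithOne.coe_mul, hga]
  have gp : g * p = p := by
    rw [← WithOne.coe_inj, WithOne.coe_mul, hp, ← mul_assoc, hga']
  have gq : g * q = q := by
    rw [← WithOne.coe_inj, WithOne.coe_mul, hq, ← mul_assoc, hga']
  have gr : g * r = r := by
    rw [← WithOne.coe_inj, WithOne.coe_mul, hrr, ← mul_assoc, ← WithOne.coe_mul, gp]
  have idem : ∀ x : S, g * x = x → (x * g) * (x * g) = x * g := by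
    intro x hx
    have := h.loc g x hg
    rw [hx] at this
    exact this
  have i1 := idem p gp
  have i2 := idem q gq
  have i3 := idem r gr
  have iE := h.idc _ _ i1 i2
  have GE3 : ∀ s : S, ∀ x y : WithOne S, ((r * g : S) : WithOne S) = x * s * y → Ge s (r * g) :=
    fun s x y hxy => ge_of h i3 x y hxy
  have GEE : ∀ s : S, ∀ x y : WithOne S, ((p * g * (q * g) : S) : WithOne S) = x * s * y →
      Ge s (p * g * (q * g)) := fun s x y hxy => ge_of h iE x y hxy
  have cr : ((r * g : S) : WithOne S) = a * v * w * g := by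
    rw [WithOne.coe_mul, hrr, hp]
  have cE : ((p * g * (q * g) : S) : WithOne S) = a * v * g * (a * w * g) := by
    simp only [WithOne.coe_mul, hp, hq]
  have A1' : Ge p (r * g) := GE3 p 1 (w * g) (by rw [cr, hp]; simp only [one_mul, mul_assoc])
  have A2 : Ge a (r * g) := GE3 a 1 (v * w * g) (by rw [cr]; simp only [one_mul, mul_assoc])
  have A3 : Ge g (r * g) := GE3 g (a * v * w) 1 (by rw [cr, mul_one])
  have A4 : Ge q (r * g) := by
    rcases c7_cases w with hw | ⟨t, hw⟩
    · rw [hw, mul_one, WithOne.coe_inj] at hq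
      rw [hq]; exact A2
    · rw [hw, ← WithOne.coe_mul, WithOne.coe_inj] at hq
      rw [hq]
      exact (ge_mul h i3).2 ⟨A2, GE3 t (a * v) g (by rw [cr, hw])⟩
  have B1 : Ge p (p * g * (q * g)) := GEE p 1 (g * (a * w * g)) (by
    rw [cE, hp]; simp only [one_mul, mul_assoc])
  have B3 : Ge g (p * g * (q * g)) := GEE g (a * v * g * (a * w)) 1 (by
    rw [cE]; simp only [mul_one, mul_assoc])
  have B4 : Ge r (p * g * (q * g)) := by
    rcases c7_cases w with hw | ⟨t, hw⟩
    · rw [hw, mul_one, WithOne.coe_inj] at hrr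
      rw [hrr]; exact B1
    · rw [hw, ← WithOne.coe_mul, WithOne.coe_inj] at hrr
      rw [hrr]
      exact (ge_mul h iE).2 ⟨B1, GEE t (a * v * g * a) g (by
        rw [cE, hw]; simp only [mul_assoc])⟩
  have C1 : Ge (p * g * (q * g)) (r * g) :=
    (ge_mul h i3).2 ⟨(ge_mul h i3).2 ⟨A1', A3⟩, (ge_mul h i3).2 ⟨A4, A3⟩⟩
  have C2 : Ge (r * g) (p * g * (q * g)) := (ge_mul h iE).2 ⟨B4, B3⟩
  have key : p * g * (q * g) = r * g := by
    apply eq_of_loc hr hl hg _ _ _ _ i3 C1 C2
    · rw [← mul_assoc g (p * g), ← mul_assoc g p, gp]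
    · simp only [mul_assoc, hg]
    · rw [← mul_assoc, gr]
    · rw [mul_assoc, hg]
  have key2 : p * q * a = r * a := by
    calc p * q * a = p * g * (q * g) * a := by
          simp only [mul_assoc]
          rw [hga, ← mul_assoc g q, gq]
      _ = r * g * a := by rw [key]
      _ = r * a := by rw [mul_assoc, hga]
  calc (a : WithOne S) * v * a * w * a = ((p * q * a : S) : WithOne S) := by
        simp only [WithOne.coe_mul, hp, hq, mul_assoc]
    _ = ((r * a : S) : WithOne S) := by rw [key2]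
    _ = a * v * w * a := by simp only [WithOne.coe_mul, hrr, hp]

private theorem c7_right (h : A1 S) (hr : LocR S) (hl : LocL S) {a g : S} (hg : g * g = g)
    (hga : a * g = a) (v w : WithOne S) :
    (a : WithOne S) * v * a * w * a = a * v * w * a := by
  obtain ⟨p, hp⟩ : ∃ p : S, (p : WithOne S) = v * a := by
    rcases c7_cases v with rfl | ⟨t, rfl⟩
    · exact ⟨a, (one_mul _).symm⟩
    · exact ⟨t * a, WithOne.coe_mul t a⟩
  obtain ⟨q, hq⟩ : ∃ q : S, (q : WithOne S) = w * a := by
    rcases c7_cases w with rfl | ⟨t, rfl⟩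
    · exact ⟨a, (one_mul _).symm⟩
    · exact ⟨t * a, WithOne.coe_mul t a⟩
  obtain ⟨r, hrr⟩ : ∃ r : S, (r : WithOne S) = v * q := by
    rcases c7_cases v with rfl | ⟨t, rfl⟩
    · exact ⟨q, (one_mul _).symm⟩
    · exact ⟨t * q, WithOne.coe_mul t q⟩
  have hga' : (a : WithOne S) * g = a := by rw [← WithOne.coe_mul, hga]
  have gp : p * g = p := by
    rw [← WithOne.coe_inj, WithOne.coe_mul, hp, mul_assoc, hga']
  have gq : q * g = q := by
    rw [← WithOne.coe_inj, WithOne.coe_mul, hq, mul_assoc, hga']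
  have gr : r * g = r := by
    rw [← WithOne.coe_inj, WithOne.coe_mul, hrr, mul_assoc, ← WithOne.coe_mul, gq]
  have idem : ∀ x : S, x * g = x → (g * x) * (g * x) = g * x := by
    intro x hx
    have := h.loc g x hg
    rw [mul_assoc g x g, hx] at this
    exact this
  have i1 := idem p gp
  have i2 := idem q gq
  have i3 := idem r gr
  have iE := h.idc _ _ i1 i2
  have GE3 : ∀ s : S, ∀ x y : WithOne S, ((g * r : S) : WithOne S) = x * s * y → Ge s (g * r) :=
    fun s x y hxy => ge_of h i3 x y hxy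
  have GEE : ∀ s : S, ∀ x y : WithOne S, ((g * p * (g * q) : S) : WithOne S) = x * s * y →
      Ge s (g * p * (g * q)) := fun s x y hxy => ge_of h iE x y hxy
  have cr : ((g * r : S) : WithOne S) = g * v * w * a := by
    rw [WithOne.coe_mul, hrr, hq]; simp only [mul_assoc]
  have cE : ((g * p * (g * q) : S) : WithOne S) = g * v * a * (g * w * a) := by
    simp only [WithOne.coe_mul, hp, hq, mul_assoc]
  have A1' : Ge q (g * r) := GE3 q (g * v) 1 (by rw [cr, hq]; simp only [mul_one, mul_assoc])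
  have A2 : Ge a (g * r) := GE3 a (g * v * w) 1 (by rw [cr]; simp only [mul_one, mul_assoc])
  have A3 : Ge g (g * r) := GE3 g 1 (v * w * a) (by rw [cr]; simp only [one_mul, mul_assoc])
  have A4 : Ge p (g * r) := by
    rcases c7_cases v with hw | ⟨t, hw⟩
    · rw [hw, one_mul, WithOne.coe_inj] at hp
      rw [hp]; exact A2
    · rw [hw, ← WithOne.coe_mul, WithOne.coe_inj] at hp
      rw [hp]
      exact (ge_mul h i3).2 ⟨GE3 t g (w * a) (by rw [cr, hw]; simp only [mul_assoc]), A2⟩
  have B1 : Ge q (g * p * (g * q)) := GEE q (g * v * a * g) 1 (by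
    rw [cE, hq]; simp only [mul_one, mul_assoc])
  have B3 : Ge g (g * p * (g * q)) := GEE g 1 (v * a * (g * w * a)) (by
    rw [cE]; simp only [one_mul, mul_assoc])
  have B4 : Ge r (g * p * (g * q)) := by
    rcases c7_cases v with hw | ⟨t, hw⟩
    · rw [hw, one_mul, WithOne.coe_inj] at hrr
      rw [hrr]; exact B1
    · rw [hw, ← WithOne.coe_mul, WithOne.coe_inj] at hrr
      rw [hrr]
      exact (ge_mul h iE).2 ⟨GEE t g (a * (g * w * a)) (by
        rw [cE, hw]; simp only [mul_assoc]), B1⟩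
  have C1 : Ge (g * p * (g * q)) (g * r) :=
    (ge_mul h i3).2 ⟨(ge_mul h i3).2 ⟨A3, A4⟩, (ge_mul h i3).2 ⟨A3, A1'⟩⟩
  have C2 : Ge (g * r) (g * p * (g * q)) := (ge_mul h iE).2 ⟨B3, B4⟩
  have key : g * p * (g * q) = g * r := by
    apply eq_of_loc hr hl hg _ _ _ _ i3 C1 C2
    · rw [← mul_assoc g (g * p), ← mul_assoc g g, hg]
    · simp only [mul_assoc, gq]
    · rw [← mul_assoc, hg]
    · rw [mul_assoc, gr]
  have key2 : a * p * q = a * r := by
    calc a * p * q = a * (g * p * (g * q)) := by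
          rw [mul_assoc g p, ← mul_assoc p g q, gp, ← mul_assoc a g, hga, mul_assoc]
      _ = a * (g * r) := by rw [key]
      _ = a * r := by rw [← mul_assoc, hga]
  calc (a : WithOne S) * v * a * w * a = ((a * p * q : S) : WithOne S) := by
        simp only [WithOne.coe_mul, hp, hq, mul_assoc]
    _ = ((a * r : S) : WithOne S) := by rw [key2]
    _ = a * v * w * a := by simp only [WithOne.coe_mul, hrr, hq, mul_assoc]

/-- PROOF: let `a = g a` with `g` idempotent.  `y1 = g a v g`, `y2 = g a w g`, `y3 = g a v w g` are elements of `S` (products in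
`WithOne S` which contain `g`).  They are idempotent (`loc` at `g`; `g g = g`), and so is `y1 y2` (`idc`).  `g (y1 y2) = y1 y2 = (y1 y2) g`,
`g y3 = y3 = y3 g`.  `Ge y3 y3` (`ge_self`), so `Ge g y3`, `Ge a y3`, and `Ge v y3`, `Ge w y3` if these are in `S` (`ge_mul`), so
`Ge (y1 * y2) y3`.  `Ge (y1 * y2) (y1 * y2)` in the same way gives `Ge y3 (y1 * y2)`.  `eq_of_loc`: `y1 y2 = y3`.
So `a v a w a = (g a v g)(g a w g) a = y1 y2 a = y3 a = a v w a`.  If `a = a g` use the opposite semigroup, or the same argument with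
`g v a g`, `g w a g`, `g v w a g`. -/
theorem drop_mid (h : A1 S) (hr : LocR S) (hl : LocL S) {a : S} (ha : LFix a ∨ RFix a) (v w : WithOne S) :
    (a : WithOne S) * v * a * w * a = a * v * w * a := by
  rcases ha with ⟨g, hg, hga⟩ | ⟨g, hg, hga⟩
  · exact c7_left h hr hl hg hga v w
  · exact c7_right h hr hl hg hga v w

end EVS
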