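import Pool.Agent.EVA.C6
import Pool.Agent.EVA.C7

/-!
# [EVA-C8] the bound in the two-sided case]
-/

set_option autoImplicit false

namespace EVS

/-- PROOF: let `q = 3 c + c (c c)` and `n = (q + 1) ^ (2 q)`.  Let `L` be the set of idempotents and sources, `Nat.card L ≤ q`
(`card_letters`).  Every `s` is the product of a list with entries in `L` (`gen_src`); take one of minimal length.  No entry occurs three times:
otherwise `l = l0 ++ a :: l1 ++ a :: l2 ++ a :: l3` and `l0 ++ a :: l1 ++ l2 ++ a :: l3` is shorter with the same product
(`drop_mid` with `v = prd l1`, `w = prd l2`; idempotents and sources satisfy `LFix a ∨ RFix a`: `fix_of_src`).  So the length is at most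
`2 q`.  The number of lists with entries in `L` of length at most `2 q` is at most `(q + 1) ^ (2 q)` (functions
`Fin (2 q) → Option L`). -/
theorem case23 (c : ℕ) : ∃ n : ℕ, ∀ (S : Type) [Semigroup S] [Finite S], A1 S → LocR S → LocL S →
    nEnd S ≤ c → Nat.card S ≤ n := by
  refine ⟨(3 * c + c * (c * c) + 1) ^ (2 * (3 * c + c * (c * c))), ?_⟩
  intro S _ _ h hr hl hc
  set q := 3 * c + c * (c * c) with hq
  have hL : Nat.card {x : S // x * x = x ∨ Sr x} ≤ q := by
    refine le_trans (card_letters h hr hl) ?_
    rw [hq]
    gcongr
  -- short words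
  have hw : ∀ s : S, ∃ l : List S, prd l = (s : WithOne S) ∧ (∀ a ∈ l, a * a = a ∨ Sr a) ∧
      l.length ≤ 2 * q := by
    intro s
    classical
    have hex : ∃ n : ℕ, ∃ l : List S, l.length = n ∧ prd l = (s : WithOne S) ∧
        ∀ a ∈ l, a * a = a ∨ Sr a := by
      obtain ⟨l, h1, h2⟩ := gen_src h s
      exact ⟨l.length, l, rfl, h1, h2⟩
    obtain ⟨l, hn, h1, h2⟩ := Nat.find_spec hex
    have hmin := fun m => Nat.find_min hex (m := m)
    generalize Nat.find hex = n at hn hmin
    refine ⟨l, h1, h2, ?_⟩
    have hcount : ∀ a, l.count a ≤ 2 := by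
      intro a
      by_contra hcon
      push Not at hcon
      obtain ⟨l0, r0, e0, n0⟩ := List.eq_append_cons_of_mem
        (List.count_pos_iff.1 (by omega : 0 < l.count a))
      have c0 : 2 ≤ r0.count a := by
        rw [e0, List.count_append, List.count_cons_self, List.count_eq_zero.2 n0] at hcon
        omega
      obtain ⟨l1, r1, e1, n1⟩ := List.eq_append_cons_of_mem
        (List.count_pos_iff.1 (by omega : 0 < r0.count a))
      have c1 : 1 ≤ r1.count a := by
        rw [e1, List.count_append, List.count_cons_self, List.count_eq_zero.2 n1] at c0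
        omega
      obtain ⟨l2, l3, e2, n2⟩ := List.eq_append_cons_of_mem
        (List.count_pos_iff.1 (by omega : 0 < r1.count a))
      have hl' : l = l0 ++ a :: (l1 ++ a :: (l2 ++ a :: l3)) := by rw [e0, e1, e2]
      have ha : a * a = a ∨ Sr a := h2 a (by rw [hl']; simp)
      have ha' : LFix a ∨ RFix a := by
        rcases ha with ha | ha
        · exact Or.inl ⟨a, ha, ha⟩
        · exact fix_of_src h ha
      have hd := drop_mid h hr hl ha' (prd l1) (prd l2)
      have hp : prd (l0 ++ a :: (l1 ++ (l2 ++ a :: l3))) = (s : WithOne S) := by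
        rw [← h1, hl']
        simp only [prd_append, prd_cons]
        calc prd l0 * ((a : WithOne S) * (prd l1 * (prd l2 * ((a : WithOne S) * prd l3))))
            = prd l0 * ((a : WithOne S) * prd l1 * prd l2 * a) * prd l3 := by
              simp only [mul_assoc]
          _ = prd l0 * ((a : WithOne S) * prd l1 * a * prd l2 * a) * prd l3 := by rw [hd]
          _ = _ := by simp only [mul_assoc]
      apply hmin (l0 ++ a :: (l1 ++ (l2 ++ a :: l3))).length
      · rw [← hn, hl']
        simp only [List.length_append, List.length_cons]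
        omega
      · refine ⟨_, rfl, hp, ?_⟩
        intro b hb
        apply h2
        rw [hl']
        simp only [List.mem_append, List.mem_cons] at hb ⊢
        tauto
    rw [← List.sum_toFinset_count_eq_length l]
    calc ∑ a ∈ l.toFinset, l.count a ≤ ∑ a ∈ l.toFinset, 2 :=
          Finset.sum_le_sum fun a _ => hcount a
      _ = 2 * l.toFinset.card := by rw [Finset.sum_const, smul_eq_mul, mul_comm]
      _ ≤ 2 * q := by
        apply Nat.mul_le_mul_left
        refine le_trans ?_ hL
        have e1 : Nat.card l.toFinset = l.toFinset.card := by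
          rw [Nat.card_eq_fintype_card, Fintype.card_coe]
        rw [← e1]
        refine Nat.card_le_card_of_injective
          (fun x : l.toFinset => (⟨x.1, h2 _ (List.mem_toFinset.1 x.2)⟩ : {x : S // x * x = x ∨ Sr x})) ?_
        intro x y hxy
        have e3 : (x : S) = y := congrArg (Subtype.val : {x : S // x * x = x ∨ Sr x} → S) hxy
        exact Subtype.ext e3
  choose f hf1 hf2 hf3 using hw
  let g : S → (Fin (2 * q) → Option {x : S // x * x = x ∨ Sr x}) := fun s i =>
    ((f s).attachWith (fun x => x * x = x ∨ Sr x) (hf2 s))[(i : ℕ)]?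
  have hg : Function.Injective g := by
    intro s t hst
    have e1 : (f s).attachWith (fun x => x * x = x ∨ Sr x) (hf2 s) =
        (f t).attachWith (fun x => x * x = x ∨ Sr x) (hf2 t) := by
      apply List.ext_getElem?
      intro i
      by_cases hi : i < 2 * q
      · exact congrFun hst ⟨i, hi⟩
      · rw [List.getElem?_eq_none, List.getElem?_eq_none]
        · rw [List.length_attachWith]
          exact le_trans (hf3 t) (not_lt.1 hi)
        · rw [List.length_attachWith]
          exact le_trans (hf3 s) (not_lt.1 hi)
    have e2 := congrArg (List.map Subtype.val) e1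
    rw [List.attachWith_map_subtype_val, List.attachWith_map_subtype_val] at e2
    rw [← coe_inj, ← hf1 s, ← hf1 t, e2]
  have hfin : Finite {x : S // x * x = x ∨ Sr x} := inferInstance
  refine le_trans (Nat.card_le_card_of_injective g hg) ?_
  rw [Nat.card_fun, Nat.card_eq_fintype_card (α := Fin (2 * q)), Fintype.card_fin,
    Finite.card_option]
  exact Nat.pow_le_pow_left (Nat.succ_le_succ hL) _

end EVS
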