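import Pool.Agent.EVA.F1

/-!
# [EVA-D1] varieties without `C2`, `A0`
-/

set_option autoImplicit false

namespace EVS

/-- PROOF: `g = a * om a` satisfies `om g = om a` and `g * om g = g`, so it is a group element (`isGp_iff`), so
idempotent, so `g = om g = om a` (`om_of_idem`).  (`om g = om a`: `g` is a power of `a`, `om_pw`.) -/
theorem mul_om_of_aper {S : Type} [Semigroup S] [Finite S] (hA : Aper S) (a : S) : a * om a = om a := by
  obtain ⟨n, hn⟩ := om_eq_pw a
  have h1 : om (a * om a) = om a := by
    rw [hn, mul_pw, om_pw, hn]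
  have h2 : IsGp (a * om a) := by
    rw [isGp_iff, h1, mul_assoc, om_idem]
  have h3 := hA _ h2
  rw [← om_of_idem h3, h1]

private theorem d1_mem {V : Set (Wd × Wd)} {S : Type} [Semigroup S] {e z o : S} (h1 : e * e = e)
    (h2 : e * z = z) (h3 : z * e = z) (h4 : z * z = o) (h5 : z * o = o) (h6 : o * z = o)
    (h7 : e * o = o) (h8 : o * e = o) (h9 : o * o = o) (n1 : e ≠ z) (n2 : e ≠ o) (n3 : z ≠ o)
    (hS : Mem V S) : Mem V C2 := by
  classical
  set g : S → C2 := fun x => if x = e then C2.one else if x = z then C2.c else C2.o with hg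
  have g1 : g e = C2.one := by simp [hg]
  have g2 : g z = C2.c := by simp [hg, n1.symm]
  have g3 : g o = C2.o := by simp [hg, n2.symm, n3.symm]
  refine mem_of_div {x | x = e ∨ x = z ∨ x = o} g ?_ ?_ ?_ hS
  · rintro a (ha | ha | ha) b (hb | hb | hb) <;> rw [ha, hb] <;>
      simp [h1, h2, h3, h4, h5, h6, h7, h8, h9]
  · rintro a (ha | ha | ha) b (hb | hb | hb) <;> rw [ha, hb] <;>
      simp only [h1, h2, h3, h4, h5, h6, h7, h8, h9, g1, g2, g3] <;> rfl
  · intro s
    cases s
    · exact ⟨e, Or.inl rfl, g1⟩
    · exact ⟨z, Or.inr (Or.inl rfl), g2⟩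
    · exact ⟨o, Or.inr (Or.inr rfl), g3⟩

/-- PROOF: suppose `a = e s e` is not idempotent.  `om a` is a power of `a`; let `m` be minimal with `pw a m = om a`.
`m ≠ 0`, as `a` is not idempotent.  `z = pw a (m - 1)` is not `om a`, `z z = om a` (`pw a k = om a` for all `k ≥ m` by
`mul_om_of_aper`), `z * om a = om a * z = om a`, `e z = z = z e`, `e * om a = om a = om a * e`.  `e ≠ z`: otherwise
`a = a e = a z = pw a m = om a` is idempotent.  `e ≠ om a`: otherwise `a = a e = a * om a = om a`.
So `{e, z, om a}` is isomorphic to `C2`: `mem_of_div` with `D = {e, z, om a}`. -/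
theorem loc_of_C2 {V : Set (Wd × Wd)} (hC : ¬ Mem V C2) {S : Type} [Semigroup S] [Finite S] (hA : Aper S)
    (hS : Mem V S) : Loc S := by
  classical
  intro e s he
  by_contra hna
  apply hC
  set a := e * s * e with ha
  have hea : e * a = a := by
    rw [ha, ← mul_assoc, ← mul_assoc, he]
  have hae : a * e = a := by
    rw [ha, mul_assoc, he]
  have hom := mul_om_of_aper hA a
  have hex : ∃ n, pw a n = om a := by
    obtain ⟨n, hn⟩ := om_eq_pw a
    exact ⟨n, hn.symm⟩
  set m := Nat.find hex with hm
  have hm1 : pw a m = om a := Nat.find_spec hex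
  have hmin : ∀ k, k < m → pw a k ≠ om a := fun k hk => Nat.find_min hex hk
  have hm0 : m ≠ 0 := by
    intro h0
    rw [h0] at hm1
    have h1 : a = om a := hm1
    apply hna
    have h2 := om_idem a
    rwa [← h1] at h2
  obtain ⟨r, hr⟩ := Nat.exists_eq_succ_of_ne_zero hm0
  have hge : ∀ k, pw a (m + k) = om a := by
    intro k
    induction k with
    | zero => exact hm1
    | succ k ih =>
      have h1 : pw a (m + (k + 1)) = a * pw a (m + k) := by
        rw [mul_pw]
        congr 1
      rw [h1, ih, hom]
  have hep : ∀ k, e * pw a k = pw a k := by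
    intro k
    induction k with
    | zero => exact hea
    | succ k ih => rw [pw_succ, ← mul_assoc, ih]
  have hpe : ∀ k, pw a k * e = pw a k := by
    intro k
    cases k with
    | zero => exact hae
    | succ k => rw [pw_succ, mul_assoc, hae]
  have haz : a * pw a r = om a := by
    rw [mul_pw, ← hm1, hr]
  refine d1_mem (e := e) (z := pw a r) (o := om a) he (hep r) (hpe r) ?_ ?_ ?_ ?_ ?_ (om_idem a) ?_ ?_
    (hmin r (by omega)) hS
  · rw [pw_mul_pw, show r + r + 1 = m + r by omega]
    exact hge r
  · rw [← hm1, pw_mul_pw, show r + m + 1 = m + (r + 1) by omega, hge, hm1]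
  · rw [← hm1, pw_mul_pw, show m + r + 1 = m + (r + 1) by omega, hge, hm1]
  · rw [← hm1]
    exact hep m
  · rw [← hm1]
    exact hpe m
  · intro h1
    apply hna
    have h2 : a = om a := by
      rw [← haz, ← h1, hae]
    have h3 := om_idem a
    rwa [← h2] at h3
  · intro h1
    apply hna
    have h2 : a = om a := by
      calc a = a * e := hae.symm
        _ = a * om a := by rw [← h1]
        _ = om a := hom
    have h3 := om_idem a
    rwa [← h2] at h3

end EVS
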