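import Pool.Agent.EVA.F1

/-!
# [EVA-D2] varieties without `B2`
-/

set_option autoImplicit false

namespace EVS

section
variable {S : Type} [Semigroup S]

private theorem d2_jle_left {e s t : S} (h : JLe e (s * t)) : JLe e s := by
  obtain ⟨x, y, hxy⟩ := h
  refine ⟨x, (t : WithOne S) * y, ?_⟩
  rw [hxy, WithOne.coe_mul]
  simp only [mul_assoc]

private theorem d2_jle_right {e s t : S} (h : JLe e (s * t)) : JLe e t := by
  obtain ⟨x, y, hxy⟩ := h
  refine ⟨x * (s : WithOne S), y, ?_⟩
  rw [hxy, WithOne.coe_mul]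
  simp only [mul_assoc]

private theorem d2_idem [Finite S] (hL : Loc S) {a : S} (h : JLe a (a * a)) : a * a = a := by
  obtain ⟨c, hc⟩ := stab_right h
  obtain ⟨c', hc'⟩ := stab_left h
  have h1 : a * om a = a := by
    apply fix_right c'
    rw [WithOne.coe_mul, ← mul_assoc] at hc'
    exact hc'
  have h2 : om a * a = a := by
    apply fix_left c
    rw [WithOne.coe_mul] at hc
    exact hc
  have h3 := hL (om a) a (om_idem a)
  rw [h2, h1] at h3
  exact h3

end

/-- PROOF: let `a t a = a` and suppose `a` is not idempotent.  `b = t a t`: `a b a = a`, `b a b = b`.  `e = a b`, `f = b a` are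
idempotent, `e a = a = a f`, `f b = b = b e`.  Let `I = {s | ¬ JLe e s}`, an ideal (`JLe e (s t)` implies `JLe e s` and
`JLe e t`).  All of `a, b, e, f` are not in `I` (`e = a b`, `e = e e = a b a b = a f b`).
(1) `a a ∈ I`: otherwise `JLe a (a a)` (`JLe a e` as `a = e a`) and by `stab_right` `a = a a c`, by `stab_left` `a = c' a a`.
Then `a` is in a group: `a = c' a a = c' a (a a c) = (c' a a) a c = a a c`; with `n` such that `pw a n` is idempotent: from
`a = a a c` by induction `a = pw a (k+1) c ^ (k+1)` and `a = c' ^ (k+1) pw a (k+1)`, so `om a * a = a` and `a * om a = a`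
(`om a` is a power `pw a n`; `pw a n * a = pw a n * (pw a (n+1) * c ^ (n+1))`, `pw a n * pw a n = pw a n`).  So
`a = om a * a * om a` is idempotent by `hL`, a contradiction.
(2) `b b ∈ I` in the same way: otherwise `b` is idempotent, and `a = a b a = (a b)(b a)` is a product of two idempotents,
so idempotent (`hE`).
(3) `e f ∈ I`: otherwise `JLe e (e f)`, `JLe f (e f)` (`f = b e a`), so `e = e f c` for some `c` (`stab_right`) and
`f = c' e f` (`stab_left`).  `e f` is idempotent (`hE`), so `e f e = (e f)(e f) c = e f c = e` and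
`f e f = c' (e f)(e f) = c' e f = f`.  `a e = e a e` is idempotent (`hL`) and `a = a f = a (f e f) = (a f)(e f) = a e f` is a product of the
idempotents `a e` and `f`, so idempotent, a contradiction.
(4) `f e ∈ I`: otherwise `f = f e c`, `e = c' f e` and again `f e f = f`, `e f e = e`, the same contradiction.
So `a f = a`, `a b = e`, `a a ∈ I`, `a e = a a b ∈ I`, `b a = f`, `b e = b`, `b b ∈ I`, `b f = b b a ∈ I`, `e a = a`, `e b = a b b ∈ I`,
`e e = e`, `e f ∈ I`, `f b = b`, `f a = b a a ∈ I`, `f f = f`, `f e ∈ I`.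
`a, b, e, f` are different: `a = b`: `a a = e ∉ I`.  `a = e`, `a = f`, `b = e`, `b = f`: `a` or `b` idempotent, `b = b b ∉ I` (or
`a = a a ∉ I`).  `e = f`: `e f = e ∉ I`.
With `D = {a, b, e, f} ∪ I` and the map `a ↦ a`, `b ↦ b`, `e ↦ e`, `f ↦ f`, `I ↦ o` (`o` is the value of `e f ∈ I`) we get
`Mem V B2` (`mem_of_div`). -/
theorem rgi_of_B2 {V : Set (Wd × Wd)} (hB : ¬ Mem V B2) {S : Type} [Semigroup S] [Finite S] (hL : Loc S)
    (hE : IdC S) (hS : Mem V S) : RgI S := by
  classical
  intro a t hata
  by_contra hna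
  apply hB
  -- the elements
  obtain ⟨b, hb⟩ : ∃ b, b = t * a * t := ⟨_, rfl⟩
  have aba : a * b * a = a := by
    calc a * b * a = (a * t * a) * t * a := by rw [hb]; simp only [mul_assoc]
      _ = a := by rw [hata, hata]
  have bab : b * a * b = b := by
    calc b * a * b = t * (a * t * a) * t * a * t := by rw [hb]; simp only [mul_assoc]
      _ = t * a * t * a * t := by rw [hata]
      _ = t * (a * t * a) * t := by simp only [mul_assoc]
      _ = t * a * t := by rw [hata]
      _ = b := hb.symm
  obtain ⟨e, he⟩ : ∃ e, e = a * b := ⟨_, rfl⟩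
  obtain ⟨f, hf⟩ : ∃ f, f = b * a := ⟨_, rfl⟩
  have ee : e * e = e := by rw [he, ← mul_assoc, aba]
  have ff : f * f = f := by rw [hf, ← mul_assoc, bab]
  have ea : e * a = a := by rw [he, aba]
  have af : a * f = a := by rw [hf, ← mul_assoc, aba]
  have fb : f * b = b := by rw [hf, bab]
  have be : b * e = b := by rw [he, ← mul_assoc, bab]
  have ab : a * b = e := he.symm
  have ba : b * a = f := hf.symm
  -- they are above `e`
  have Je : JLe e e := ⟨1, 1, by simp⟩
  have Ja : JLe e a := ⟨1, b, by rw [one_mul, ← WithOne.coe_mul, ab]⟩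
  have Jb : JLe e b := ⟨a, 1, by rw [mul_one, ← WithOne.coe_mul, ab]⟩
  have Jf : JLe e f := ⟨a, b, by rw [← WithOne.coe_mul, af, ← WithOne.coe_mul, ab]⟩
  have Jae : JLe a e := ⟨1, a, by rw [one_mul, ← WithOne.coe_mul, ea]⟩
  have Jbe : JLe b e := ⟨b, 1, by rw [mul_one, ← WithOne.coe_mul, be]⟩
  have Jfe : JLe f e := ⟨b, a, by rw [← WithOne.coe_mul, be, ← WithOne.coe_mul, ba]⟩
  have haa : ¬ JLe e (a * a) := fun h => hna (d2_idem hL (Jae.trans' h))
  have hbb : ¬ JLe e (b * b) := by
    intro h
    have bb := d2_idem hL (Jbe.trans' h)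
    have h1 : a = e * f := by
      calc a = a * b * a := aba.symm
        _ = a * (b * b) * a := by rw [bb]
        _ = e * f := by rw [he, hf]; simp only [mul_assoc]
    have h2 := hE e f ee ff
    rw [← h1] at h2
    exact hna h2
  have hfef : f * e * f ≠ f := by
    intro h
    have h1 : (a * e) * (a * e) = a * e := by
      have := hL e a ee
      rw [ea] at this
      exact this
    have h2 : a = (a * e) * f := by
      calc a = a * f := af.symm
        _ = a * (f * e * f) := by rw [h]
        _ = (a * f) * e * f := by simp only [mul_assoc]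
        _ = (a * e) * f := by rw [af]
    have h3 := hE (a * e) f h1 ff
    rw [← h2] at h3
    exact hna h3
  have hef : ¬ JLe e (e * f) := by
    intro h
    obtain ⟨c, hc⟩ := stab_left (Jfe.trans' h)
    apply hfef
    have h1 := hE e f ee ff
    rw [← WithOne.coe_inj]
    calc ((f * e * f : S) : WithOne S) = (f : WithOne S) * (e * f : S) := by
          rw [← WithOne.coe_mul, mul_assoc]
      _ = c * ((e * f : S) * (e * f : S)) := by
          conv_lhs => rw [hc]
          simp only [mul_assoc]
      _ = c * (e * f : S) := by rw [← WithOne.coe_mul, h1]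
      _ = f := hc.symm
  have hfe : ¬ JLe e (f * e) := by
    intro h
    obtain ⟨c, hc⟩ := stab_right (Jfe.trans' h)
    apply hfef
    have h1 := hE f e ff ee
    rw [← WithOne.coe_inj]
    calc ((f * e * f : S) : WithOne S) = (f * e : S) * (f : WithOne S) := by
          rw [← WithOne.coe_mul]
      _ = ((f * e : S) * (f * e : S)) * c := by
          conv_lhs => rw [hc]
          simp only [mul_assoc]
      _ = (f * e : S) * c := by rw [← WithOne.coe_mul, h1]
      _ = f := hc.symm
  have hae : ¬ JLe e (a * e) := by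
    intro h
    rw [he, ← mul_assoc] at h
    rw [← he] at h
    exact haa (d2_jle_left h)
  have hbf : ¬ JLe e (b * f) := by
    intro h
    rw [hf, ← mul_assoc] at h
    exact hbb (d2_jle_left h)
  have heb : ¬ JLe e (e * b) := by
    intro h
    have h' : JLe e (a * (b * b)) := by
      rw [← mul_assoc, ab]; exact h
    exact hbb (d2_jle_right h')
  have hfa : ¬ JLe e (f * a) := by
    intro h
    have h' : JLe e (b * (a * a)) := by
      rw [← mul_assoc, ba]; exact h
    exact haa (d2_jle_right h')
  -- distinct elements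
  have nab : a ≠ b := by
    intro h
    apply haa
    have : a * a = e := by conv_lhs => rw [h]
                           rw [← ab, ← h]
    rw [this]; exact Je
  have nae : a ≠ e := fun h => hna (by rw [h]; exact ee)
  have naf : a ≠ f := fun h => hna (by rw [h]; exact ff)
  have nbe : b ≠ e := fun h => hbb (by rw [h, ee]; exact Je)
  have nbf : b ≠ f := fun h => hbb (by rw [h, ff]; exact Jf)
  have nef : e ≠ f := by
    intro h
    apply hef
    rw [← h, ee]; exact Je
  let g : S → B2 := fun s => if s = a then .a else if s = b then .b else if s = e then .e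
    else if s = f then .f else .o
  have ga : g a = .a := if_pos rfl
  have gb : g b = .b := by simp only [g, if_neg nab.symm, if_true]
  have ge' : g e = .e := by simp only [g, if_neg nae.symm, if_neg nbe.symm, if_true]
  have gf : g f = .f := by simp only [g, if_neg naf.symm, if_neg nbf.symm, if_neg nef.symm, if_true]
  have gI : ∀ s, ¬ JLe e s → g s = .o := by
    intro s hs
    have h1 : s ≠ a := fun h => hs (h ▸ Ja)
    have h2 : s ≠ b := fun h => hs (h ▸ Jb)
    have h3 : s ≠ e := fun h => hs (by rw [h]; exact Je)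
    have h4 : s ≠ f := fun h => hs (h ▸ Jf)
    simp only [g, if_neg h1, if_neg h2, if_neg h3, if_neg h4]
  let P : S → Prop := fun x => x = a ∨ x = b ∨ x = e ∨ x = f ∨ ¬ JLe e x
  have kk : ∀ x y z : S, x * y = z → (z = a ∨ z = b ∨ z = e ∨ z = f) → g z = g x * g y →
      P (x * y) ∧ g (x * y) = g x * g y := by
    intro x y z h1 h2 h3
    rw [h1]
    exact ⟨by rcases h2 with h | h | h | h <;> simp only [P, h, true_or, or_true], h3⟩
  have ki : ∀ x y : S, ¬ JLe e (x * y) → g x * g y = .o → P (x * y) ∧ g (x * y) = g x * g y := by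
    intro x y h1 h2
    exact ⟨Or.inr (Or.inr (Or.inr (Or.inr h1))), by rw [gI _ h1, h2]⟩
  have oa : ∀ z : B2, B2.o * z = .o := by intro z; cases z <;> rfl
  have ao : ∀ z : B2, z * B2.o = .o := by intro z; cases z <;> rfl
  have key : ∀ x, P x → ∀ y, P y → P (x * y) ∧ g (x * y) = g x * g y := by
    intro x hx y hy
    by_cases hxI : JLe e x
    · by_cases hyI : JLe e y
      · have hx' : x = a ∨ x = b ∨ x = e ∨ x = f := by
          rcases hx with h | h | h | h | h
          · exact Or.inl h
          · exact Or.inr (Or.inl h)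
          · exact Or.inr (Or.inr (Or.inl h))
          · exact Or.inr (Or.inr (Or.inr h))
          · exact absurd hxI h
        have hy' : y = a ∨ y = b ∨ y = e ∨ y = f := by
          rcases hy with h | h | h | h | h
          · exact Or.inl h
          · exact Or.inr (Or.inl h)
          · exact Or.inr (Or.inr (Or.inl h))
          · exact Or.inr (Or.inr (Or.inr h))
          · exact absurd hyI h
        rcases hx' with hx1 | hx1 | hx1 | hx1 <;> rcases hy' with hy1 | hy1 | hy1 | hy1 <;>
          rw [hx1, hy1]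
        · exact ki _ _ haa (by rw [ga]; rfl)
        · exact kk _ _ _ ab (Or.inr (Or.inr (Or.inl rfl))) (by rw [ga, gb, ge']; rfl)
        · exact ki _ _ hae (by rw [ga, ge']; rfl)
        · exact kk _ _ _ af (Or.inl rfl) (by rw [ga, gf]; rfl)
        · exact kk _ _ _ ba (Or.inr (Or.inr (Or.inr rfl))) (by rw [ga, gb, gf]; rfl)
        · exact ki _ _ hbb (by rw [gb]; rfl)
        · exact kk _ _ _ be (Or.inr (Or.inl rfl)) (by rw [gb, ge']; rfl)
        · exact ki _ _ hbf (by rw [gb, gf]; rfl)
        · exact kk _ _ _ ea (Or.inl rfl) (by rw [ga, ge']; rfl)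
        · exact ki _ _ heb (by rw [gb, ge']; rfl)
        · exact kk _ _ _ ee (Or.inr (Or.inr (Or.inl rfl))) (by rw [ge']; rfl)
        · exact ki _ _ hef (by rw [ge', gf]; rfl)
        · exact ki _ _ hfa (by rw [ga, gf]; rfl)
        · exact kk _ _ _ fb (Or.inr (Or.inl rfl)) (by rw [gb, gf]; rfl)
        · exact ki _ _ hfe (by rw [ge', gf]; rfl)
        · exact kk _ _ _ ff (Or.inr (Or.inr (Or.inr rfl))) (by rw [gf]; rfl)
      · exact ki _ _ (fun h => hyI (d2_jle_right h)) (by rw [gI _ hyI, ao])
    · exact ki _ _ (fun h => hxI (d2_jle_left h)) (by rw [gI _ hxI, oa])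
  refine mem_of_div {x | P x} g (fun x hx y hy => (key x hx y hy).1)
    (fun x hx y hy => (key x hx y hy).2) ?_ hS
  intro s
  cases s
  · exact ⟨e, Or.inr (Or.inr (Or.inl rfl)), ge'⟩
  · exact ⟨f, Or.inr (Or.inr (Or.inr (Or.inl rfl))), gf⟩
  · exact ⟨a, Or.inl rfl, ga⟩
  · exact ⟨b, Or.inr (Or.inl rfl), gb⟩
  · exact ⟨e * f, Or.inr (Or.inr (Or.inr (Or.inr hef))), gI _ hef⟩

end EVS
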