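import Pool.Agent.EVA.F1

/-!
# [EVA-D3] varieties without `P`, `R21`
-/

set_option autoImplicit false

namespace EVS

private theorem d3_jle_left {S : Type} [Semigroup S] {e s t : S} (h : JLe e (s * t)) : JLe e s := by
  obtain ⟨x, y, hxy⟩ := h
  refine ⟨x, (t : WithOne S) * y, ?_⟩
  rw [hxy, WithOne.coe_mul]
  simp only [mul_assoc]

private theorem d3_jle_right {S : Type} [Semigroup S] {e s t : S} (h : JLe e (s * t)) : JLe e t := by
  obtain ⟨x, y, hxy⟩ := h
  refine ⟨x * (s : WithOne S), y, ?_⟩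
  rw [hxy, WithOne.coe_mul]
  simp only [mul_assoc]

/-- PROOF: suppose `y = s e` is not regular; `y e = y`.  Let `I = {t | ¬ JLe y t}`, an ideal.  `y ∉ I`, `e ∉ I` (`y = s e`).
`e y ∈ I`: otherwise `JLe y (e y)`, so by `stab_left` `y = c * (e y)` in `WithOne S`.  `e y = e s e` is idempotent (`hL`), so
`y * (e y) = c * (e y)(e y) = y`, and `y * (e y) = (y e) y = y y`.  So `y y = y` and `y` is regular (`y y y = y`).
`y y = y (e y) ∈ I`.  `e ≠ y` (`e` is regular).  `D = {e, y} ∪ I`, the map `e ↦ f`, `y ↦ y`, `I ↦ o` (`o` is the value of `e y`)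
shows `Mem V P` (`mem_of_div`). -/
theorem reg_of_P {V : Set (Wd × Wd)} (hP : ¬ Mem V P) {S : Type} [Semigroup S] [Finite S] (hL : Loc S)
    (hS : Mem V S) : ∀ s e : S, e * e = e → ∃ t, (s * e) * t * (s * e) = s * e := by
  classical
  intro s e he
  by_contra hcon
  push Not at hcon
  apply hP
  obtain ⟨y, hy⟩ : ∃ y, y = s * e := ⟨_, rfl⟩
  rw [← hy] at hcon
  have ye : y * e = y := by rw [hy, mul_assoc, he]
  have Jy : JLe y y := ⟨1, 1, by simp⟩
  have Je : JLe y e := ⟨s, 1, by rw [mul_one, ← WithOne.coe_mul, hy]⟩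
  have hey : ¬ JLe y (e * y) := by
    intro h
    obtain ⟨c, hc⟩ := stab_left h
    have h1 : (e * y) * (e * y) = e * y := by
      have h0 := hL e s he
      have h0' : e * y = e * s * e := by rw [hy, mul_assoc]
      rw [h0']
      exact h0
    have h2 : y * (e * y) = y := by
      rw [← WithOne.coe_inj, WithOne.coe_mul]
      calc (y : WithOne S) * (e * y : S) = c * ((e * y : S) * (e * y : S)) := by
            conv_lhs => rw [hc]
            simp only [mul_assoc]
        _ = c * (e * y : S) := by rw [← WithOne.coe_mul, h1]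
        _ = y := hc.symm
    have h3 : y * y = y := by rw [← mul_assoc, ye] at h2; exact h2
    exact hcon y (by rw [h3, h3])
  have hyy : ¬ JLe y (y * y) := by
    intro h
    have h' : JLe y (y * (e * y)) := by rw [← mul_assoc, ye]; exact h
    exact hey (d3_jle_right h')
  have ney : e ≠ y := by
    intro h
    exact hcon e (by rw [← h, he, he])
  let g : S → P := fun x => if x = e then .f else if x = y then .y else .o
  have ge' : g e = .f := if_pos rfl
  have gy : g y = .y := by simp only [g, if_neg ney.symm, if_true]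
  have gI : ∀ x, ¬ JLe y x → g x = .o := by
    intro x hx
    have h1 : x ≠ e := fun h => hx (by rw [h]; exact Je)
    have h2 : x ≠ y := fun h => hx (by rw [h]; exact Jy)
    simp only [g, if_neg h1, if_neg h2]
  have key : ∀ a b : S, (a = e ∨ a = y ∨ ¬ JLe y a) → (b = e ∨ b = y ∨ ¬ JLe y b) →
      (a * b = e ∨ a * b = y ∨ ¬ JLe y (a * b)) ∧ g (a * b) = g a * g b := by
    intro a b ha hb
    rcases ha with rfl | rfl | ha
    · rcases hb with rfl | rfl | hb
      · rw [he]; exact ⟨Or.inl rfl, by rw [ge']; rfl⟩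
      · exact ⟨Or.inr (Or.inr hey), by rw [gI _ hey, ge', gy]; rfl⟩
      · have h : ¬ JLe y (a * b) := fun h => hb (d3_jle_right h)
        exact ⟨Or.inr (Or.inr h), by rw [gI _ h, gI _ hb, ge']; rfl⟩
    · rcases hb with rfl | rfl | hb
      · rw [ye]; exact ⟨Or.inr (Or.inl rfl), by rw [gy, ge']; rfl⟩
      · exact ⟨Or.inr (Or.inr hyy), by rw [gI _ hyy, gy]; rfl⟩
      · have h : ¬ JLe a (a * b) := fun h => hb (d3_jle_right h)
        exact ⟨Or.inr (Or.inr h), by rw [gI _ h, gI _ hb, gy]; rfl⟩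
    · have h : ¬ JLe y (a * b) := fun h => ha (d3_jle_left h)
      refine ⟨Or.inr (Or.inr h), ?_⟩
      rw [gI _ h, gI _ ha]
      generalize g b = w
      cases w <;> rfl
  refine mem_of_div (S := P) {x | x = e ∨ x = y ∨ ¬ JLe y x} g (fun a ha b hb => (key a b ha hb).1)
    (fun a ha b hb => (key a b ha hb).2) ?_ hS
  intro w
  cases w
  · exact ⟨e, Or.inl rfl, ge'⟩
  · exact ⟨y, Or.inr (Or.inl rfl), gy⟩
  · exact ⟨e * y, Or.inr (Or.inr hey), gI _ hey⟩

/-- PROOF: let `u = e x e`, `v = e y e`, and suppose `u v u ≠ u v`.  `u`, `v`, `u v`, `v u` are idempotent (`hL`; `u v = e (x e y) e`).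
`p = u v`, `q = u v u`: `p p = p`, `q q = u v u v u = u v u = q` (`u v u v = u v`), `p q = u v u v u = q`, `q p = u v u u v = u v u v = p`.
`e p = p e = p`, `e q = q e = q`.  `e ≠ p`: if `u v = e` then `u = u e = u u v = u v = e`, so `u v u = e e = e = u v` (`v = e v = u v = e`).
`e ≠ q`: if `u v u = e` then `u = u e = u u v u = u v u = e`, `v = e v e = u v u = e`, so `u v = e = u v u`.
`{e, p, q}` is isomorphic to `R21`: `e ↦ one`, `p ↦ a`, `q ↦ b` (`mem_of_div` with `D = {e, p, q}`). -/
theorem locR_of_R21 {V : Set (Wd × Wd)} (hR : ¬ Mem V R21) {S : Type} [Semigroup S] (hL : Loc S)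
    (hS : Mem V S) : LocR S := by
  classical
  intro e x y he
  by_contra hcon
  apply hR
  obtain ⟨u, hu⟩ : ∃ u, u = e * x * e := ⟨_, rfl⟩
  obtain ⟨v, hv⟩ : ∃ v, v = e * y * e := ⟨_, rfl⟩
  rw [← hu, ← hv] at hcon
  have eu : e * u = u := by rw [hu, ← mul_assoc, ← mul_assoc, he]
  have ue : u * e = u := by rw [hu, mul_assoc, he]
  have ev : e * v = v := by rw [hv, ← mul_assoc, ← mul_assoc, he]
  have ve : v * e = v := by rw [hv, mul_assoc, he]
  have uu : u * u = u := by rw [hu]; exact hL e x he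
  have vv : v * v = v := by rw [hv]; exact hL e y he
  obtain ⟨p, hp⟩ : ∃ p, p = u * v := ⟨_, rfl⟩
  obtain ⟨q, hq⟩ : ∃ q, q = u * v * u := ⟨_, rfl⟩
  have ep : e * p = p := by rw [hp, ← mul_assoc, eu]
  have pe : p * e = p := by rw [hp, mul_assoc, ve]
  have eq : e * q = q := by rw [hq, ← mul_assoc, ← mul_assoc, eu]
  have qe : q * e = q := by rw [hq, mul_assoc, ue]
  have pp : p * p = p := by
    have := hL e p he
    rw [ep, pe] at this
    exact this
  have pq : p * q = q := by
    rw [hq, ← hp, ← mul_assoc, pp]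
  have qp : q * p = p := by
    calc q * p = u * v * (u * u) * v := by rw [hq, hp]; simp only [mul_assoc]
      _ = (u * v) * (u * v) := by rw [uu]; simp only [mul_assoc]
      _ = p := by rw [← hp, pp]
  have qq : q * q = q := by
    calc q * q = q * (p * u) := by rw [hq, ← hp]
      _ = (q * p) * u := by rw [mul_assoc]
      _ = p * u := by rw [qp]
      _ = q := by rw [hq, hp]
  have npq : p ≠ q := by
    intro h
    apply hcon
    rw [← hq, ← hp, h]
  have nep : e ≠ p := by
    intro h
    have h1 : u = e := by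
      calc u = u * e := ue.symm
        _ = u * (u * v) := by rw [h, hp]
        _ = u * u * v := by rw [mul_assoc]
        _ = e := by rw [uu, ← hp, h]
    apply hcon
    rw [← hp, ← h, h1, he]
  have neq : e ≠ q := by
    intro h
    have h1 : u = e := by
      calc u = u * e := ue.symm
        _ = u * (u * v * u) := by rw [h, hq]
        _ = u * u * v * u := by simp only [mul_assoc]
        _ = e := by rw [uu, ← hq, h]
    have h2 : v = e := by
      calc v = e * v * e := by rw [ev, ve]
        _ = u * v * u := by rw [h1]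
        _ = e := by rw [← hq, h]
    apply hcon
    rw [h1, h2, he, he]
  let g : S → R21 := fun x => if x = e then .one else if x = p then .a else .b
  have ge' : g e = .one := if_pos rfl
  have gp : g p = .a := by simp only [g, if_neg nep.symm, if_true]
  have gq : g q = .b := by simp only [g, if_neg neq.symm, if_neg npq.symm]
  have key : ∀ a b : S, (a = e ∨ a = p ∨ a = q) → (b = e ∨ b = p ∨ b = q) →
      (a * b = e ∨ a * b = p ∨ a * b = q) ∧ g (a * b) = g a * g b := by
    have kk : ∀ a b z : S, a * b = z → (z = e ∨ z = p ∨ z = q) → g z = g a * g b →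
        (a * b = e ∨ a * b = p ∨ a * b = q) ∧ g (a * b) = g a * g b := by
      intro a b z h1 h2 h3
      rw [h1]; exact ⟨h2, h3⟩
    intro a b ha hb
    rcases ha with h1 | h1 | h1 <;> rcases hb with h2 | h2 | h2 <;> rw [h1, h2]
    · exact kk _ _ _ he (Or.inl rfl) (by rw [ge']; rfl)
    · exact kk _ _ _ ep (Or.inr (Or.inl rfl)) (by rw [ge', gp]; rfl)
    · exact kk _ _ _ eq (Or.inr (Or.inr rfl)) (by rw [ge', gq]; rfl)
    · exact kk _ _ _ pe (Or.inr (Or.inl rfl)) (by rw [ge', gp]; rfl)
    · exact kk _ _ _ pp (Or.inr (Or.inl rfl)) (by rw [gp]; rfl)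
    · exact kk _ _ _ pq (Or.inr (Or.inr rfl)) (by rw [gp, gq]; rfl)
    · exact kk _ _ _ qe (Or.inr (Or.inr rfl)) (by rw [ge', gq]; rfl)
    · exact kk _ _ _ qp (Or.inr (Or.inl rfl)) (by rw [gp, gq]; rfl)
    · exact kk _ _ _ qq (Or.inr (Or.inr rfl)) (by rw [gq]; rfl)
  refine mem_of_div (S := R21) {x | x = e ∨ x = p ∨ x = q} g (fun a ha b hb => (key a b ha hb).1)
    (fun a ha b hb => (key a b ha hb).2) ?_ hS
  intro w
  cases w
  · exact ⟨e, Or.inl rfl, ge'⟩
  · exact ⟨p, Or.inr (Or.inl rfl), gp⟩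
  · exact ⟨q, Or.inr (Or.inr rfl), gq⟩

end EVS
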