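import Pool.Agent.EVA.D3
import Pool.Agent.EVS.Rev

/-!
# [EVA-D4] reversal
-/

set_option autoImplicit false

namespace EVS

/-- the reversed variety -/
def revV (V : Set (Wd × Wd)) : Set (Wd × Wd) := {q | ∃ p ∈ V, q = (rev p.1, rev p.2)}

/-- PROOF: `holds_op`. -/
theorem mem_revV {V : Set (Wd × Wd)} {S : Type} [Semigroup S] : Mem (revV V) S ↔ Mem V Sᵐᵒᵖ := by
  constructor
  · intro h p hp
    rw [holds_op]
    exact h _ ⟨p, hp, rfl⟩
  · rintro h q ⟨p, hp, rfl⟩
    exact (holds_op p).1 (h p hp)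

/-- PROOF: `S` and `Sᵐᵒᵖᵐᵒᵖ` are isomorphic, `mem_of_div`. -/
theorem mem_op_op {V : Set (Wd × Wd)} {S : Type} [Semigroup S] : Mem V Sᵐᵒᵖᵐᵒᵖ ↔ Mem V S := by
  constructor
  · intro h
    refine mem_of_div (T := Sᵐᵒᵖᵐᵒᵖ) (S := S) Set.univ
      (fun a => MulOpposite.unop (MulOpposite.unop a)) (fun _ _ _ _ => Set.mem_univ _) ?_ ?_ h
    · intro a _ b _
      rfl
    · intro s
      exact ⟨MulOpposite.op (MulOpposite.op s), Set.mem_univ _, rfl⟩
  · intro h
    refine mem_of_div (T := S) (S := Sᵐᵒᵖᵐᵒᵖ) Set.univ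
      (fun a => MulOpposite.op (MulOpposite.op a)) (fun _ _ _ _ => Set.mem_univ _) ?_ ?_ h
    · intro a _ b _
      rfl
    · intro s
      exact ⟨MulOpposite.unop (MulOpposite.unop s), Set.mem_univ _, rfl⟩

/-- PROOF: `C2` is commutative (see `holds_C2_op` in `EVS/Rev.lean`). -/
theorem mem_revV_C2 {V : Set (Wd × Wd)} : Mem (revV V) C2 ↔ Mem V C2 := by
  rw [mem_revV]
  constructor
  · intro h
    have hcomm : ∀ a b : C2, a * b = b * a := by decide
    refine mem_of_div (T := C2ᵐᵒᵖ) (S := C2) Set.univ MulOpposite.unop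
      (fun _ _ _ _ => Set.mem_univ _) ?_ ?_ h
    · intro a _ b _
      rw [MulOpposite.unop_mul, hcomm]
    · intro s
      exact ⟨MulOpposite.op s, Set.mem_univ _, rfl⟩
  · exact fun h p hp => holds_C2_op (h p hp)

/-- the antiautomorphism of `B2` -/
private def d4_sig : B2 → B2
  | .e => .e
  | .f => .f
  | .a => .b
  | .b => .a
  | .o => .o

private theorem d4_sig_mul : ∀ x y : B2, d4_sig (x * y) = d4_sig y * d4_sig x := by
  intro x y
  cases x <;> cases y <;> rfl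

private theorem d4_sig_sig : ∀ x : B2, d4_sig (d4_sig x) = x := by
  intro x
  cases x <;> rfl

/-- PROOF: the map `e ↦ e`, `f ↦ f`, `a ↦ b`, `b ↦ a`, `o ↦ o` is an antiautomorphism of `B2`. -/
theorem mem_revV_B2 {V : Set (Wd × Wd)} : Mem (revV V) B2 ↔ Mem V B2 := by
  rw [mem_revV]
  constructor
  · intro h
    refine mem_of_div (T := B2ᵐᵒᵖ) (S := B2) Set.univ (fun x => d4_sig (MulOpposite.unop x))
      (fun _ _ _ _ => Set.mem_univ _) ?_ ?_ h
    · intro a _ b _
      show d4_sig (MulOpposite.unop (a * b)) = _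
      rw [MulOpposite.unop_mul, d4_sig_mul]
    · intro s
      exact ⟨MulOpposite.op (d4_sig s), Set.mem_univ _, d4_sig_sig s⟩
  · intro h
    refine mem_of_div (T := B2) (S := B2ᵐᵒᵖ) Set.univ (fun x => MulOpposite.op (d4_sig x))
      (fun _ _ _ _ => Set.mem_univ _) ?_ ?_ h
    · intro a _ b _
      show MulOpposite.op (d4_sig (a * b)) = _
      rw [d4_sig_mul, MulOpposite.op_mul]
    · intro s
      refine ⟨d4_sig (MulOpposite.unop s), Set.mem_univ _, ?_⟩
      show MulOpposite.op (d4_sig (d4_sig (MulOpposite.unop s))) = s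
      rw [d4_sig_sig]
      rfl

/-- PROOF: `nEnd_op`, `mem_revV`, `mem_op_op`; `Nat.card Sᵐᵒᵖ = Nat.card S`. -/
theorem endo_revV {V : Set (Wd × Wd)} : Endomorphic (revV V) ↔ Endomorphic V := by
  constructor
  · intro h B
    obtain ⟨n, hn⟩ := h B
    refine ⟨n, fun S _ _ hS hc => ?_⟩
    have hcard : Nat.card Sᵐᵒᵖ = Nat.card S := Nat.card_congr MulOpposite.opEquiv.symm
    have h1 := hn Sᵐᵒᵖ (mem_revV.2 (mem_op_op.2 hS)) (by rw [hcard]; exact hc)
    rw [nEnd_op] at h1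
    exact h1
  · intro h B
    obtain ⟨n, hn⟩ := h B
    refine ⟨n, fun S _ _ hS hc => ?_⟩
    have hcard : Nat.card Sᵐᵒᵖ = Nat.card S := Nat.card_congr MulOpposite.opEquiv.symm
    have h1 := hn Sᵐᵒᵖ (mem_revV.1 hS) (by rw [hcard]; exact hc)
    rw [nEnd_op] at h1
    exact h1

private theorem d4_loc {S : Type} [Semigroup S] (hL : Loc S) : Loc Sᵐᵒᵖ := by
  intro e s he
  have he' : MulOpposite.unop e * MulOpposite.unop e = MulOpposite.unop e := by
    rw [← MulOpposite.unop_mul, he]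
  have h := hL (MulOpposite.unop e) (MulOpposite.unop s) he'
  apply MulOpposite.unop_injective
  simp only [MulOpposite.unop_mul]
  simp only [mul_assoc] at h ⊢
  exact h

/-- PROOF: `reg_of_P` for `revV V` and `Sᵐᵒᵖ`: if `Mem (revV V) P` then `Mem V Pᵐᵒᵖ` (`mem_revV`); `Mem (revV V) Sᵐᵒᵖ` by
`mem_revV`, `mem_op_op`. -/
theorem reg_of_P' {V : Set (Wd × Wd)} (hP : ¬ Mem V Pᵐᵒᵖ) {S : Type} [Semigroup S] [Finite S] (hL : Loc S)
    (hS : Mem V S) : ∀ s e : S, e * e = e → ∃ t, (e * s) * t * (e * s) = e * s := by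
  intro s e he
  have he' : MulOpposite.op e * MulOpposite.op e = MulOpposite.op e := by
    rw [← MulOpposite.op_mul, he]
  obtain ⟨t, ht⟩ := reg_of_P (V := revV V) (fun h => hP (mem_revV.1 h)) (S := Sᵐᵒᵖ) (d4_loc hL)
    (mem_revV.2 (mem_op_op.2 hS)) (MulOpposite.op s) (MulOpposite.op e) he'
  refine ⟨MulOpposite.unop t, ?_⟩
  have h2 := congrArg MulOpposite.unop ht
  simp only [MulOpposite.unop_mul, MulOpposite.unop_op] at h2
  simp only [mul_assoc] at h2 ⊢
  exact h2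

/-- PROOF: `locR_of_R21` for `revV V` and `Sᵐᵒᵖ`. -/
theorem locL_of_R21 {V : Set (Wd × Wd)} (hR : ¬ Mem V R21ᵐᵒᵖ) {S : Type} [Semigroup S] (hL : Loc S)
    (hS : Mem V S) : LocL S := by
  intro e x y he
  have he' : MulOpposite.op e * MulOpposite.op e = MulOpposite.op e := by
    rw [← MulOpposite.op_mul, he]
  have h1 := locR_of_R21 (V := revV V) (fun h => hR (mem_revV.1 h)) (S := Sᵐᵒᵖ) (d4_loc hL)
    (mem_revV.2 (mem_op_op.2 hS)) (MulOpposite.op e) (MulOpposite.op x) (MulOpposite.op y) he'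
  have h2 := congrArg MulOpposite.unop h1
  simp only [MulOpposite.unop_mul, MulOpposite.unop_op] at h2
  simp only [mul_assoc] at h2 ⊢
  exact h2

end EVS
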