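import Pool.Agent.EVA.F1

/-!
# [EVA-D5] varieties without `A0`]
-/

set_option autoImplicit false

namespace EVS

/-- the words with `f e` -/
private def d5J {S : Type} [Semigroup S] (e f x : S) : Prop :=
  x = f * e ∨ x = e * f * e ∨ x = f * e * f ∨ x = e * f * e * f ∨ x = f * e * f * e

private theorem d5_ideal {S : Type} [Semigroup S] {e f : S} (he : e * e = e) (hf : f * f = f)
    (h1 : e * f * e * f * e = e * f * e) (h2 : f * e * f * e * f = f * e * f) {x : S} (hx : d5J e f x) :
    d5J e f (e * x) ∧ d5J e f (f * x) ∧ d5J e f (x * e) ∧ d5J e f (x * f) := by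
  rcases hx with h | h | h | h | h <;> rw [h]
  · refine ⟨Or.inr (Or.inl ?_), Or.inl ?_, Or.inl ?_, Or.inr (Or.inr (Or.inl rfl))⟩
    · rw [mul_assoc]
    · rw [← mul_assoc, hf]
    · rw [mul_assoc, he]
  · refine ⟨Or.inr (Or.inl ?_), Or.inr (Or.inr (Or.inr (Or.inr ?_))), Or.inr (Or.inl ?_),
      Or.inr (Or.inr (Or.inr (Or.inl rfl)))⟩
    · rw [← mul_assoc, ← mul_assoc, he]
    · simp only [mul_assoc]
    · rw [mul_assoc, he]
  · refine ⟨Or.inr (Or.inr (Or.inr (Or.inl ?_))), Or.inr (Or.inr (Or.inl ?_)),
      Or.inr (Or.inr (Or.inr (Or.inr rfl))), Or.inr (Or.inr (Or.inl ?_))⟩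
    · simp only [mul_assoc]
    · rw [← mul_assoc, ← mul_assoc, hf]
    · rw [mul_assoc, hf]
  · refine ⟨Or.inr (Or.inr (Or.inr (Or.inl ?_))), Or.inr (Or.inr (Or.inl ?_)), Or.inr (Or.inl h1),
      Or.inr (Or.inr (Or.inr (Or.inl ?_)))⟩
    · rw [← mul_assoc, ← mul_assoc, ← mul_assoc, he]
    · rw [← mul_assoc, ← mul_assoc, ← mul_assoc, h2]
    · rw [mul_assoc, hf]
  · refine ⟨Or.inr (Or.inl ?_), Or.inr (Or.inr (Or.inr (Or.inr ?_))), Or.inr (Or.inr (Or.inr (Or.inr ?_))),
      Or.inr (Or.inr (Or.inl h2))⟩
    · rw [← mul_assoc, ← mul_assoc, ← mul_assoc, h1]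
    · rw [← mul_assoc, ← mul_assoc, ← mul_assoc, hf]
    · rw [mul_assoc, he]

private theorem d5_not {S : Type} [Semigroup S] {e f : S} (he : e * e = e) (hf : f * f = f)
    (h2 : f * e * f * e * f = f * e * f) (hn : e * f * e * f ≠ e * f) :
    ¬ d5J e f e ∧ ¬ d5J e f f ∧ ¬ d5J e f (e * f) := by
  have a1 : e ≠ f * e := by
    intro h
    apply hn
    have h3 : e * f = f * e * f := by rw [← h]
    have h4 : e * f * e * f = (e * f) * (e * f) := by simp only [mul_assoc]
    have h5 : f * e * f * e * f = (f * e * f) * (f * e * f) := by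
      simp only [mul_assoc]
      rw [← mul_assoc f f, hf]
    rw [h4, h3, ← h5, h2]
  have a2 : e ≠ e * f * e := by
    intro h
    apply hn
    rw [← h]
  have a3 : e ≠ f * e * f := by
    intro h
    apply a1
    calc e = f * e * f := h
      _ = f * (f * e * f) := by rw [← mul_assoc, ← mul_assoc, hf]
      _ = f * e := by rw [← h]
  have a4 : e ≠ e * f * e * f := by
    intro h
    apply hn
    calc e * f * e * f = e * f * e * (f * f) := by rw [hf]
      _ = (e * f * e * f) * f := by simp only [mul_assoc]
      _ = e * f := by rw [← h]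
  have a5 : e ≠ f * e * f * e := by
    intro h
    apply a1
    calc e = f * e * f * e := h
      _ = f * (f * e * f * e) := by rw [← mul_assoc, ← mul_assoc, ← mul_assoc, hf]
      _ = f * e := by rw [← h]
  have b1 : f ≠ f * e := by
    intro h
    apply hn
    calc e * f * e * f = e * (f * e) * f := by simp only [mul_assoc]
      _ = e * f * f := by rw [← h]
      _ = e * f := by rw [mul_assoc, hf]
  have b2 : f ≠ e * f * e := by
    intro h
    apply b1
    calc f = e * f * e := h
      _ = (e * f * e) * e := by rw [mul_assoc (e * f), he]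
      _ = f * e := by rw [← h]
  have b3 : f ≠ f * e * f := by
    intro h
    apply hn
    calc e * f * e * f = e * (f * e * f) := by simp only [mul_assoc]
      _ = e * f := by rw [← h]
  have b4 : f ≠ e * f * e * f := by
    intro h
    apply hn
    calc e * f * e * f = (e * e) * f * e * f := by rw [he]
      _ = e * (e * f * e * f) := by simp only [mul_assoc]
      _ = e * f := by rw [← h]
  have b5 : f ≠ f * e * f * e := by
    intro h
    apply b1
    calc f = f * e * f * e := h
      _ = (f * e * f * e) * e := by rw [mul_assoc (f * e * f), he]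
      _ = f * e := by rw [← h]
  have c1 : e * f ≠ f * e := by
    intro h
    apply hn
    calc e * f * e * f = e * (f * e) * f := by simp only [mul_assoc]
      _ = e * (e * f) * f := by rw [h]
      _ = (e * e) * (f * f) := by simp only [mul_assoc]
      _ = e * f := by rw [he, hf]
  have c2 : e * f ≠ e * f * e := by
    intro h
    apply hn
    calc e * f * e * f = (e * f) * f := by rw [← h]
      _ = e * f := by rw [mul_assoc, hf]
  have c3 : e * f ≠ f * e * f := by
    intro h
    apply hn
    calc e * f * e * f = e * (f * e * f) := by simp only [mul_assoc]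
      _ = e * (e * f) := by rw [← h]
      _ = e * f := by rw [← mul_assoc, he]
  have c5 : e * f ≠ f * e * f * e := by
    intro h
    apply c2
    calc e * f = f * e * f * e := h
      _ = (f * e * f * e) * e := by rw [mul_assoc (f * e * f), he]
      _ = e * f * e := by rw [← h]
  refine ⟨?_, ?_, ?_⟩
  · rintro (h | h | h | h | h)
    exacts [a1 h, a2 h, a3 h, a4 h, a5 h]
  · rintro (h | h | h | h | h)
    exacts [b1 h, b2 h, b3 h, b4 h, b5 h]
  · rintro (h | h | h | h | h)
    exacts [c1 h, c2 h, c3 h, hn h.symm, c5 h]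

/-- PROOF: let `e`, `f` be idempotents such that `e f` is not idempotent.  By `hL` `e f e` and `f e f` are idempotent:
`e f e f e = e f e`, `f e f e f = f e f`.  `J = {f e, e f e, f e f, e f e f, f e f e}`, `D = {e, f, e f} ∪ J`.  Products:
`e f * e = e f e ∈ J`, `e f * f = e f`, `e * e f = e f`, `f * e f = f e f ∈ J`, `e f * e f ∈ J`, and `J` is an ideal in `D`
(all words in `e`, `f` which contain `f e` reduce to an element of `J`).
`e`, `f`, `e f` are not in `J` and different: each of the equations `e = f e`, `e = e f e`, `e = f e f`, `e = e f e f`,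
`e = f e f e` gives a contradiction: `e = f e` gives `e f = f e f` idempotent.  `e = e f e` gives `e f = e f e f = (e f)(e f)`.
`e = f e f` gives `f e = e`, as before.  `e = e f e f` gives `e f = e`, idempotent.  `e = f e f e` gives `f e = e`.
Dually for `f`.  `e f = f e` gives `e f e f = e e f f = e f`.  `e f = e f e` gives `e f e f = (e f) f = e f`.
`e f = f e f` gives `e f e f = e (f e f) = e (e f) = e f`.  `e f = e f e f`: no.  `e f = f e f e` gives
`e f e = e f`, as before.  `e = f`: no; `e = e f`, `f = e f`: `e f` is idempotent, no.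
The map `e ↦ e`, `f ↦ f`, `e f ↦ ef`, `J ↦ o` shows `Mem V A0` (`mem_of_div`). -/
theorem idc_of_A0 {V : Set (Wd × Wd)} (hA0 : ¬ Mem V A0) {S : Type} [Semigroup S] (hL : Loc S)
    (hS : Mem V S) : IdC S := by
  classical
  intro e f he hf
  by_contra hn0
  apply hA0
  have hn : e * f * e * f ≠ e * f := by
    intro h
    apply hn0
    rw [← h]
    rw [h]
    rw [← mul_assoc, h]
  have h1 : e * f * e * f * e = e * f * e := by
    have h := hL e f he
    calc e * f * e * f * e = e * f * (e * e) * f * e := by rw [he]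
      _ = (e * f * e) * (e * f * e) := by simp only [mul_assoc]
      _ = e * f * e := h
  have h2 : f * e * f * e * f = f * e * f := by
    have h := hL f e hf
    calc f * e * f * e * f = f * e * (f * f) * e * f := by rw [hf]
      _ = (f * e * f) * (f * e * f) := by simp only [mul_assoc]
      _ = f * e * f := h
  obtain ⟨ne, nf, nef⟩ := d5_not he hf h2 hn
  have hid : ∀ x, d5J e f x → d5J e f (e * x) ∧ d5J e f (f * x) ∧ d5J e f (x * e) ∧ d5J e f (x * f) :=
    fun x hx => d5_ideal he hf h1 h2 hx
  have hfe : d5J e f (f * e) := Or.inl rfl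
  have d1 : e ≠ f := by
    rintro rfl
    exact hn0 (by rw [he, he])
  have d2 : e ≠ e * f := by
    intro h
    exact hn0 (by rw [← h, he])
  have d3 : f ≠ e * f := by
    intro h
    exact hn0 (by rw [← h, hf])
  set g : S → A0 := fun x => if x = e then A0.e else if x = f then A0.f else if x = e * f then A0.ef
    else A0.o with hg
  have g1 : g e = A0.e := by simp [hg]
  have g2 : g f = A0.f := by simp [hg, d1.symm]
  have g3 : g (e * f) = A0.ef := by simp [hg, d2.symm, d3.symm]
  have g4 : ∀ x, d5J e f x → g x = A0.o := by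
    intro x hx
    have x1 : x ≠ e := fun h => ne (h ▸ hx)
    have x2 : x ≠ f := fun h => nf (h ▸ hx)
    have x3 : x ≠ e * f := fun h => nef (h ▸ hx)
    simp [hg, x1, x2, x3]
  -- products with elements of J
  have hJl : ∀ x, d5J e f x → ∀ b, (b = e ∨ b = f ∨ b = e * f ∨ d5J e f b) → d5J e f (x * b) := by
    intro x hx b hb
    have two : ∀ y, d5J e f y → d5J e f (y * (f * e)) := fun y hy => by
      rw [← mul_assoc]
      exact (hid _ (hid y hy).2.2.2).2.2.1
    rcases hb with hb | hb | hb | hb
    · rw [hb]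
      exact (hid x hx).2.2.1
    · rw [hb]
      exact (hid x hx).2.2.2
    · rw [hb, ← mul_assoc]
      exact (hid _ (hid x hx).2.2.1).2.2.2
    · rcases hb with hb | hb | hb | hb | hb <;> rw [hb]
      · exact two x hx
      · rw [mul_assoc e f e, ← mul_assoc x e]
        exact two _ (hid x hx).2.2.1
      · rw [← mul_assoc x (f * e) f]
        exact (hid _ (two x hx)).2.2.2
      · rw [mul_assoc e f e, ← mul_assoc x, ← mul_assoc x e]
        exact (hid _ (two _ (hid x hx).2.2.1)).2.2.2
      · rw [mul_assoc (f * e) f e, ← mul_assoc x]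
        exact two _ (two x hx)
  have hJr : ∀ x, d5J e f x → ∀ b, (b = e ∨ b = f ∨ b = e * f ∨ d5J e f b) → d5J e f (b * x) := by
    intro x hx b hb
    rcases hb with hb | hb | hb | hb
    · rw [hb]
      exact (hid x hx).1
    · rw [hb]
      exact (hid x hx).2.1
    · rw [hb, mul_assoc]
      exact (hid _ (hid x hx).2.1).1
    · exact hJl b hb x (Or.inr (Or.inr (Or.inr hx)))
  have hfef : d5J e f (f * (e * f)) := by
    rw [← mul_assoc]
    exact (hid _ hfe).2.2.2
  have hefe : d5J e f (e * f * e) := Or.inr (Or.inl rfl)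
  have hefef : d5J e f (e * f * (e * f)) := by
    rw [← mul_assoc]
    exact (hid _ hefe).2.2.2
  have q1 : e * (e * f) = e * f := by rw [← mul_assoc, he]
  have q2 : e * f * f = e * f := by rw [mul_assoc, hf]
  refine mem_of_div {x | x = e ∨ x = f ∨ x = e * f ∨ d5J e f x} g ?_ ?_ ?_ hS
  · rintro a ha b hb
    rcases id ha with ha' | ha' | ha' | ha'
    · rcases id hb with hb' | hb' | hb' | hb'
      · rw [ha', hb', he]
        exact Or.inl rfl
      · rw [ha', hb']
        exact Or.inr (Or.inr (Or.inl rfl))
      · rw [ha', hb', q1]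
        exact Or.inr (Or.inr (Or.inl rfl))
      · exact Or.inr (Or.inr (Or.inr (hJr b hb' a ha)))
    · rcases id hb with hb' | hb' | hb' | hb'
      · rw [ha', hb']
        exact Or.inr (Or.inr (Or.inr hfe))
      · rw [ha', hb', hf]
        exact Or.inr (Or.inl rfl)
      · rw [ha', hb']
        exact Or.inr (Or.inr (Or.inr hfef))
      · exact Or.inr (Or.inr (Or.inr (hJr b hb' a ha)))
    · rcases id hb with hb' | hb' | hb' | hb'
      · rw [ha', hb']
        exact Or.inr (Or.inr (Or.inr hefe))
      · rw [ha', hb', q2]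
        exact Or.inr (Or.inr (Or.inl rfl))
      · rw [ha', hb']
        exact Or.inr (Or.inr (Or.inr hefef))
      · exact Or.inr (Or.inr (Or.inr (hJr b hb' a ha)))
    · exact Or.inr (Or.inr (Or.inr (hJl a ha' b hb)))
  · rintro a ha b hb
    rcases id ha with ha' | ha' | ha' | ha'
    · rcases id hb with hb' | hb' | hb' | hb'
      · rw [ha', hb', he, g1]
        rfl
      · rw [ha', hb', g1, g2, g3]
        rfl
      · rw [ha', hb', q1, g1, g3]
        rfl
      · rw [g4 _ (hJr b hb' a ha), g4 b hb', ha', g1]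
        rfl
    · rcases id hb with hb' | hb' | hb' | hb'
      · rw [ha', hb', g4 _ hfe, g1, g2]
        rfl
      · rw [ha', hb', hf, g2]
        rfl
      · rw [ha', hb', g4 _ hfef, g2, g3]
        rfl
      · rw [g4 _ (hJr b hb' a ha), g4 b hb', ha', g2]
        rfl
    · rcases id hb with hb' | hb' | hb' | hb'
      · rw [ha', hb', g4 _ hefe, g1, g3]
        rfl
      · rw [ha', hb', q2, g2, g3]
        rfl
      · rw [ha', hb', g4 _ hefef, g3]
        rfl
      · rw [g4 _ (hJr b hb' a ha), g4 b hb', ha', g3]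
        rfl
    · rw [g4 _ (hJl a ha' b hb), g4 a ha']
      cases g b <;> rfl
  · intro s
    cases s
    · exact ⟨e, Or.inl rfl, g1⟩
    · exact ⟨f, Or.inr (Or.inl rfl), g2⟩
    · exact ⟨e * f, Or.inr (Or.inr (Or.inl rfl)), g3⟩
    · exact ⟨f * e, Or.inr (Or.inr (Or.inr hfe)), g4 _ hfe⟩

end EVS
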