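import Pool.Agent.EVS.Gen

/-!
# [EVA] aperiodic endomorphic varieties (MP_2a8755_al): definitions
-/

set_option autoImplicit false

namespace EVS

/-! ## two more small semigroups -/

/-- `{1, a, b}` with `x y = y` for `y ≠ 1` -/
inductive R21 : Type
  | one | a | b
  deriving DecidableEq, Fintype

/-- multiplication of `R21` -/
def R21.mul : R21 → R21 → R21
  | x, .one => x
  | _, y => y

instance : Semigroup R21 where
  mul := R21.mul
  mul_assoc := by intro x y z; cases x <;> cases y <;> cases z <;> rfl

/-- `{e, f, a, b, 0}` with `e = ee = ab`, `f = ff = ba`, `a = ea = af`, `b = fb = be`, all other products `0` -/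
inductive B2 : Type
  | e | f | a | b | o
  deriving DecidableEq, Fintype

/-- multiplication of `B2` -/
def B2.mul : B2 → B2 → B2
  | .e, .e => .e
  | .e, .a => .a
  | .f, .f => .f
  | .f, .b => .b
  | .a, .f => .a
  | .a, .b => .e
  | .b, .e => .b
  | .b, .a => .f
  | _, _ => .o

instance : Semigroup B2 where
  mul := B2.mul
  mul_assoc := by intro x y z; cases x <;> cases y <;> cases z <;> rfl

/-! ## properties of semigroups -/

section
variable (S : Type) [Semigroup S]

/-- the local monoids `e S e` are bands -/
def Loc : Prop := ∀ e s : S, e * e = e → (e * s * e) * (e * s * e) = e * s * e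

/-- products of idempotents are idempotent -/
def IdC : Prop := ∀ e f : S, e * e = e → f * f = f → (e * f) * (e * f) = e * f

/-- regular elements are idempotent -/
def RgI : Prop := ∀ s t : S, s * t * s = s → s * s = s

/-- `x y x = x y` in the local monoids `e S e` -/
def LocR : Prop := ∀ e x y : S, e * e = e → (e * x * e) * (e * y * e) * (e * x * e) = (e * x * e) * (e * y * e)

/-- `x y x = y x` in the local monoids `e S e` -/
def LocL : Prop := ∀ e x y : S, e * e = e → (e * x * e) * (e * y * e) * (e * x * e) = (e * y * e) * (e * x * e)

/-- every element is a product of two elements -/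
def Sq : Prop := ∀ s : S, ∃ t u : S, s = t * u

/-- the standard assumptions: the local monoids are bands, products of idempotents are idempotent, regular elements
are idempotent, every element is a product with an idempotent factor inside -/
structure A1 : Prop where
  loc : Loc S
  idc : IdC S
  rgi : RgI S
  mid : ∀ s : S, ∃ p e r : S, e * e = e ∧ s = p * e * r

end

section
variable {S : Type} [Semigroup S]

/-- `s` is above `e` -/
def Ge (s e : S) : Prop := e * s * e = e

/-- `a` and `b` generate the same ideal -/
def JE (a b : S) : Prop := JLe a b ∧ JLe b a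

/-- null elements -/
def Nul (z : S) : Prop := z * z ≠ z ∧ z * z * z = z * z

/-- `x` is a source: it is not idempotent, and if a product is J-equivalent to `x`, one of the factors is
J-equivalent to `x` -/
def Sr (x : S) : Prop := x * x ≠ x ∧ ∀ s t : S, JE (s * t) x → JE s x ∨ JE t x

/-- `x` has an idempotent left identity -/
def LFix (x : S) : Prop := ∃ e : S, e * e = e ∧ e * x = x

/-- `x` has an idempotent right identity -/
def RFix (x : S) : Prop := ∃ e : S, e * e = e ∧ x * e = x

/-- `e` is a smallest idempotent left identity of `x` -/
def LMin (e x : S) : Prop := e * e = e ∧ e * x = x ∧ ∀ k : S, k * k = k → k * x = x → Ge k e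

/-- `e` is a smallest idempotent right identity of `x` -/
def RMin (e x : S) : Prop := e * e = e ∧ x * e = x ∧ ∀ k : S, k * k = k → x * k = x → Ge k e

end

instance finite_op {S : Type} [Finite S] : Finite Sᵐᵒᵖ := Finite.of_equiv S MulOpposite.opEquiv

end EVS
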