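import Pool.Agent.EVA.Defs

/-!
# [EVA-F1] finite semigroups: stability, the relation `Ge`
-/

set_option autoImplicit false

namespace EVS

/-- a product with a factor in `S` is in `S` -/
private theorem f1_coe_mul {S : Type} [Semigroup S] (b : S) (v : WithOne S) :
    ∃ b' : S, (b' : WithOne S) = b * v := by
  induction v using WithOne.recOneCoe with
  | one => exact ⟨b, (mul_one _).symm⟩
  | coe w => exact ⟨b * w, WithOne.coe_mul b w⟩

private theorem f1_mul_coe {S : Type} [Semigroup S] (b : S) (v : WithOne S) :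
    ∃ b' : S, (b' : WithOne S) = v * b := by
  induction v using WithOne.recOneCoe with
  | one => exact ⟨b, (one_mul _).symm⟩
  | coe w => exact ⟨w * b, WithOne.coe_mul w b⟩

private theorem f1_iter {M : Type} [Monoid M] {a u b : M} (h : a = u * a * b) (n : ℕ) :
    a = u ^ n * a * b ^ n := by
  induction n with
  | zero => simp
  | succ n ih =>
    calc a = u * a * b := h
      _ = u * (u ^ n * a * b ^ n) * b := by rw [← ih]
      _ = _ := by rw [pow_succ' u, pow_succ b]; simp only [mul_assoc]

section
variable {S : Type} [Semigroup S] [Finite S]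

/-- PROOF: by induction `a = u ^ n * a * b ^ n` in `WithOne S` for all `n`; take `n` with `pw b (n-1) = om b`
(`om_eq_pw`, `coe_pw`): `a = u ^ n * a * om b`, so `a * om b = a` (`om_idem`). -/
theorem fix_right {a b : S} (u : WithOne S) (h : (a : WithOne S) = u * a * b) : a * om b = a := by
  obtain ⟨n, hn⟩ := om_eq_pw b
  have h1 := f1_iter h (n + 1)
  rw [← coe_pw, ← hn] at h1
  rw [← coe_inj, WithOne.coe_mul]
  conv_lhs => rw [h1]
  conv_rhs => rw [h1]
  rw [mul_assoc, ← WithOne.coe_mul, om_idem]

/-- PROOF: dual of `fix_right`. -/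
theorem fix_left {a b : S} (u : WithOne S) (h : (a : WithOne S) = b * a * u) : om b * a = a := by
  obtain ⟨n, hn⟩ := om_eq_pw b
  have h1 := f1_iter h (n + 1)
  rw [← coe_pw, ← hn] at h1
  rw [← coe_inj, WithOne.coe_mul]
  conv_lhs => rw [h1]
  conv_rhs => rw [h1]
  rw [← mul_assoc, ← mul_assoc, ← WithOne.coe_mul, om_idem]

/-- Stability.  PROOF: if `a = u * (a * b) * v` in `WithOne S` then `a = u * a * b'` with `b' : S`, `b' = b * v`
(`b * v` is in `S` for every `v : WithOne S`), so `a * om b' = a` (`fix_right`); `om b' = pw b' n = b * v * ...`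
(`mul_pw`), so `a = a * b * c`. -/
theorem stab_right {a b : S} (h : JLe a (a * b)) : ∃ c : WithOne S, (a : WithOne S) = (a * b : S) * c := by
  obtain ⟨u, v, huv⟩ := h
  obtain ⟨b', hb'⟩ := f1_coe_mul b v
  have h1 : (a : WithOne S) = u * a * b' := by
    rw [hb', ← mul_assoc, mul_assoc u, ← WithOne.coe_mul]
    exact huv
  have h2 := fix_right u h1
  obtain ⟨n, hn⟩ := om_eq_pw b'
  refine ⟨v * (b' : WithOne S) ^ n, ?_⟩
  conv_lhs => rw [← h2, hn, WithOne.coe_mul, coe_pw, pow_succ', hb']
  rw [WithOne.coe_mul, hb']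
  simp only [mul_assoc]

/-- PROOF: dual. -/
theorem stab_left {a b : S} (h : JLe a (b * a)) : ∃ c : WithOne S, (a : WithOne S) = c * (b * a : S) := by
  obtain ⟨u, v, huv⟩ := h
  obtain ⟨b', hb'⟩ := f1_mul_coe b u
  have h1 : (a : WithOne S) = b' * a * v := by
    rw [hb', mul_assoc u, ← WithOne.coe_mul]
    exact huv
  have h2 := fix_left v h1
  obtain ⟨n, hn⟩ := om_eq_pw b'
  refine ⟨(b' : WithOne S) ^ n * u, ?_⟩
  conv_lhs => rw [← h2, hn, WithOne.coe_mul, coe_pw, pow_succ]
  rw [WithOne.coe_mul, hb']
  simp only [mul_assoc]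

/-- An element which generates the same ideal as an idempotent is regular.
PROOF: let `k = p' * x * q'` and `x = p * k * q` in `WithOne S`; so `x = (p * p') * x * (q' * q)`.  There is `N ≥ 1`
with `x = (p * p') ^ N * x` and `x = x * (q' * q) ^ N` (if `q' * q = 1` clear, otherwise `q' * q` is in `S` and
`fix_right` applies; same on the left; take the product of both exponents or treat both sides separately with
different `N`).  With `A = (p * p') ^ (N-1) * p`, `B = q * (q' * q) ^ (N'-1)`: `x = A * p' * x = x * q' * B`.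
So `A * k * B = A * p' * x * q' * B = x`, and `x = A * k * k * B = (A * p' * x) * q' * p' * (x * q' * B) =
x * (q' * p') * x`.  If `q' * p' = y` is in `S` this is the claim; otherwise `q' = p' = 1`, `x = k`, take `y = x`. -/
theorem reg_of_JE {x k : S} (hk : k * k = k) (h : JE x k) : ∃ y : S, x * y * x = x := by
  obtain ⟨⟨p, q, h1⟩, ⟨p', q', h2⟩⟩ := h
  have h3 : (x : WithOne S) = (p * p') * x * (q' * q) := by
    conv_lhs => rw [h1, h2]
    simp only [mul_assoc]
  have hL : ∃ n : ℕ, (x : WithOne S) = (p * p') ^ (n + 1) * x := by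
    generalize p * p' = u at h3
    induction u using WithOne.recOneCoe with
    | one => exact ⟨0, by simp⟩
    | coe w =>
      have h4 := fix_left _ h3
      obtain ⟨n, hn⟩ := om_eq_pw w
      refine ⟨n, ?_⟩
      rw [← coe_pw, ← hn, ← WithOne.coe_mul, h4]
  have hR : ∃ n : ℕ, (x : WithOne S) = x * (q' * q) ^ (n + 1) := by
    generalize q' * q = u at h3
    induction u using WithOne.recOneCoe with
    | one => exact ⟨0, by simp⟩
    | coe w =>
      have h4 := fix_right _ h3
      obtain ⟨n, hn⟩ := om_eq_pw w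
      refine ⟨n, ?_⟩
      rw [← coe_pw, ← hn, ← WithOne.coe_mul, h4]
  obtain ⟨n, hn⟩ := hL
  obtain ⟨m, hm⟩ := hR
  set A := (p * p') ^ n * p with hA
  set B := q * (q' * q) ^ m with hB
  have hn' : (x : WithOne S) = A * p' * x := by
    rw [hA, mul_assoc _ p p', ← pow_succ]
    exact hn
  have hm' : (x : WithOne S) = x * q' * B := by
    rw [hB, ← mul_assoc, mul_assoc (x : WithOne S) q' q, mul_assoc, ← pow_succ']
    exact hm
  have hkk : (k : WithOne S) * k = k := by rw [← WithOne.coe_mul, hk]
  have h5 : A * k * B = (x : WithOne S) := by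
    have e : A * k * B = A * p' * x * q' * B := by
      rw [h2]
      simp only [mul_assoc]
    rw [e, ← hn', ← hm']
  have h6 : (x : WithOne S) = x * (q' * p') * x := by
    have e : A * k * B = (A * p' * x) * (q' * p') * (x * q' * B) := by
      conv_lhs => rw [← hkk]
      rw [h2]
      simp only [mul_assoc]
    rw [← hn', ← hm', h5] at e
    exact e
  generalize q' * p' = w at h6
  induction w using WithOne.recOneCoe with
  | one =>
    refine ⟨x, ?_⟩
    rw [mul_one, ← WithOne.coe_mul, coe_inj] at h6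
    rw [← h6, ← h6]
  | coe y =>
    refine ⟨y, ?_⟩
    rw [← WithOne.coe_mul, ← WithOne.coe_mul, coe_inj] at h6
    exact h6.symm

end

section
variable {S : Type} [Semigroup S]

/-- PROOF: composition. -/
theorem JLe.trans' {a b c : S} (h1 : JLe a b) (h2 : JLe b c) : JLe a c := by
  obtain ⟨x, y, h1⟩ := h1
  obtain ⟨z, w, h2⟩ := h2
  refine ⟨x * z, w * y, ?_⟩
  rw [h1, h2]
  simp only [mul_assoc]

theorem JE.symm' {a b : S} (h : JE a b) : JE b a := ⟨h.2, h.1⟩

theorem JE.trans' {a b c : S} (h1 : JE a b) (h2 : JE b c) : JE a c := ⟨h1.1.trans' h2.1, h2.2.trans' h1.2⟩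

theorem JE.refl' (a : S) : JE a a := ⟨⟨1, 1, by simp⟩, ⟨1, 1, by simp⟩⟩

/-- idempotents are above themselves -/
theorem ge_self {e : S} (he : e * e = e) : Ge e e := by
  show e * e * e = e
  rw [he, he]

/-- PROOF: write `p = e * u`, `q = v * e` (elements of `S`): `e p = p`, `q e = q`, `p s q = e e e = e` (multiply
`h1` by `e` on both sides).
(1) `x = p s`, `y = q`: `x y = e`, `e x = x`, `y e = y`, so `x y x = x`, `y x y = y`, `x x = x`, `y y = y` (`rgi`), and
`x e = x (x y) = x y = e`: `p s e = e`.
(2) so `(s e) p (s e) = s e (p s e) = s e e = s e`: `s e` is regular, so idempotent (`rgi`).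
(3) `e s e = (p s e) (s e)`: indeed `e (s e) = (p (s e)) (s e) = p ((s e) (s e)) = p (s e) = e`. -/
theorem ge_of (h : A1 S) {e s : S} (he : e * e = e) (u v : WithOne S) (h1 : (e : WithOne S) = u * s * v) :
    Ge s e := by
  obtain ⟨p, hp⟩ := f1_coe_mul e u
  obtain ⟨q, hq⟩ := f1_mul_coe e v
  have hee : (e : WithOne S) * e = e := by rw [← WithOne.coe_mul, he]
  have hep : e * p = p := by
    rw [← coe_inj, WithOne.coe_mul, hp, ← mul_assoc, hee]
  have hqe : q * e = q := by
    rw [← coe_inj, WithOne.coe_mul, hq, mul_assoc, hee]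
  have hpsq : p * s * q = e := by
    rw [← coe_inj, WithOne.coe_mul, WithOne.coe_mul, hp, hq]
    have e1 : (e : WithOne S) * u * s * (v * e) = e * (u * s * v) * e := by simp only [mul_assoc]
    rw [e1, ← h1, hee, hee]
  have hxx : (p * s) * (p * s) = p * s := by
    apply h.rgi _ q
    rw [hpsq, ← mul_assoc, hep]
  have hpse : p * s * e = e := by
    conv_lhs => rw [← hpsq]
    rw [← mul_assoc, hxx, hpsq]
  have hse : (s * e) * (s * e) = s * e := by
    apply h.rgi _ p
    calc s * e * p * (s * e) = s * (e * p) * s * e := by simp only [mul_assoc]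
      _ = s * (p * s * e) := by rw [hep]; simp only [mul_assoc]
      _ = s * e := by rw [hpse]
  show e * s * e = e
  calc e * s * e = (p * s * e) * s * e := by rw [hpse]
    _ = p * ((s * e) * (s * e)) := by simp only [mul_assoc]
    _ = p * s * e := by rw [hse, mul_assoc]
    _ = e := hpse

/-- PROOF: if `e (s t) e = e` then `Ge s e` and `Ge t e` by `ge_of` (with `u = e`, `v = t e`, resp. `u = e s`,
`v = e`).  Conversely let `e s e = e`, `e t e = e`, `x = e s`, `y = t e`.  Then `x x = (e s e) s = x`,
`y y = t (e t e) = y`, `x e = e`, `e x = x`, `e y = e`, `y e = y`.  `x = e x = (e y) x = e y x` so `Ge y x` by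
`ge_of` (with the idempotent `x`, `u = e`, `v = x`): `x y x = x`.  So `x y = x (y e) = x y (x e) = (x y x) e = x e = e`,
that is `e s t e = e`. -/
theorem ge_mul (h : A1 S) {e s t : S} (he : e * e = e) : Ge (s * t) e ↔ Ge s e ∧ Ge t e := by
  constructor
  · intro h1
    have h2 : e * (s * t) * e = e := h1
    constructor
    · refine ge_of h he (e : WithOne S) ((t * e : S) : WithOne S) ?_
      rw [← WithOne.coe_mul, ← WithOne.coe_mul, coe_inj]
      conv_lhs => rw [← h2]
      simp only [mul_assoc]
    · refine ge_of h he ((e * s : S) : WithOne S) (e : WithOne S) ?_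
      rw [← WithOne.coe_mul, ← WithOne.coe_mul, coe_inj]
      conv_lhs => rw [← h2]
      simp only [mul_assoc]
  · rintro ⟨h1, h2⟩
    have h3 : e * s * e = e := h1
    have h4 : e * t * e = e := h2
    have hxx : (e * s) * (e * s) = e * s := by rw [← mul_assoc, h3]
    have hex : e * (e * s) = e * s := by rw [← mul_assoc, he]
    have hye : t * e * e = t * e := by rw [mul_assoc, he]
    have hey : e * (t * e) = e := by rw [← mul_assoc, h4]
    have h5 : Ge (t * e) (e * s) := by
      refine ge_of h hxx (e : WithOne S) ((e * s : S) : WithOne S) ?_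
      rw [← WithOne.coe_mul, ← WithOne.coe_mul, coe_inj, hey, hex]
    have h6 : e * s * (t * e) * (e * s) = e * s := h5
    show e * (s * t) * e = e
    calc e * (s * t) * e = e * s * (t * e * e) := by rw [hye]; simp only [mul_assoc]
      _ = e * s * (t * e) * e := by simp only [mul_assoc]
      _ = e * s * (t * e) * (e * s * e) := by rw [h3]
      _ = e * s * (t * e) * (e * s) * e := by simp only [mul_assoc]
      _ = e * s * e := by rw [h6]
      _ = e := h3

/-- PROOF: `f = f e f = f (e s e) f = (f e) s (e f)`, `ge_of`. -/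
theorem ge_trans (h : A1 S) {e f s : S} (hf : f * f = f) (h1 : Ge s e) (h2 : Ge e f) : Ge s f := by
  have h3 : e * s * e = e := h1
  have h4 : f * e * f = f := h2
  refine ge_of h hf ((f * e : S) : WithOne S) ((e * f : S) : WithOne S) ?_
  rw [← WithOne.coe_mul, ← WithOne.coe_mul, coe_inj]
  conv_lhs => rw [← h4, ← h3]
  simp only [mul_assoc]

/-- PROOF: induction with `ge_mul`. -/
theorem ge_pw (h : A1 S) {e s : S} (he : e * e = e) (n : ℕ) : Ge (pw s n) e ↔ Ge s e := by
  induction n with
  | zero => exact Iff.rfl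
  | succ n ih => rw [pw_succ, ge_mul h he, ih, and_self]

/-- PROOF: if `a = u b v` then `e = e a e = (e u) b (v e)`, `ge_of`. -/
theorem ge_JE (h : A1 S) {a b e : S} (he : e * e = e) (hab : JLe a b) (ha : Ge a e) : Ge b e := by
  obtain ⟨u, v, h1⟩ := hab
  have h2 : e * a * e = e := ha
  refine ge_of h he ((e : WithOne S) * u) (v * (e : WithOne S)) ?_
  have h3 : (e : WithOne S) = e * (u * b * v) * e := by
    rw [← h1, ← WithOne.coe_mul, ← WithOne.coe_mul, h2]
  conv_lhs => rw [h3]
  simp only [mul_assoc]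

/-- `e s` and `s e` are idempotent for `s` above `e`; `(e s)(e s) = (e s e) s` -/
theorem ge_left {e s : S} (hs : Ge s e) : (e * s) * (e * s) = e * s := by
  have h : e * s * e = e := hs
  rw [← mul_assoc, h]

theorem ge_right {e s : S} (hs : Ge s e) : (s * e) * (s * e) = s * e := by
  have h : e * s * e = e := hs
  rw [mul_assoc, ← mul_assoc e, h]

/-- idempotents below each other absorb: if `Ge e f` for idempotents then `f e f = f`, `e f` and `f e` are
equivalent to `f`.  PROOF: `(e f) f (e f) = e (f e f) = e f` and `f (e f) f = f e f = f`. -/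
theorem ge_mul_idem {e f : S} (hf : f * f = f) (h1 : Ge e f) :
    Ge f (e * f) ∧ Ge (e * f) f ∧ Ge f (f * e) ∧ Ge (f * e) f := by
  have h2 : f * e * f = f := h1
  refine ⟨?_, ?_, ?_, ?_⟩
  · show e * f * f * (e * f) = e * f
    rw [mul_assoc e f f, hf, mul_assoc, ← mul_assoc f e f, h2]
  · show f * (e * f) * f = f
    rw [← mul_assoc, h2, hf]
  · show f * e * f * (f * e) = f * e
    rw [h2, ← mul_assoc, hf]
  · show f * (f * e) * f = f
    rw [← mul_assoc, hf, h2]

end

end EVS
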