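import Pool.Agent.EVA.F1

/-!
# [EVA-F2] the standard assumptions: actions on classes of idempotents
-/

set_option autoImplicit false

namespace EVS

/-! ## the opposite semigroup -/

section
variable {S : Type} [Semigroup S]

/-- PROOF: unfold everything; products are reversed (`MulOpposite`). -/
theorem A1.op (h : A1 S) : A1 Sᵐᵒᵖ := by
  constructor
  · intro e s he
    have he' : e.unop * e.unop = e.unop := by
      rw [← MulOpposite.unop_mul, he]
    apply MulOpposite.unop_injective
    simp only [MulOpposite.unop_mul, ← mul_assoc]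
    have := h.loc e.unop s.unop he'
    simp only [← mul_assoc] at this
    exact this
  · intro e f he hf
    have he' : e.unop * e.unop = e.unop := by rw [← MulOpposite.unop_mul, he]
    have hf' : f.unop * f.unop = f.unop := by rw [← MulOpposite.unop_mul, hf]
    apply MulOpposite.unop_injective
    simp only [MulOpposite.unop_mul]
    exact h.idc _ _ hf' he'
  · intro s t hst
    have h1 : s.unop * t.unop * s.unop = s.unop := by
      have := congrArg MulOpposite.unop hst
      simp only [MulOpposite.unop_mul] at this
      rw [mul_assoc]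
      exact this
    apply MulOpposite.unop_injective
    simp only [MulOpposite.unop_mul]
    exact h.rgi _ _ h1
  · intro s
    obtain ⟨p, e, r, he, hs⟩ := h.mid s.unop
    refine ⟨MulOpposite.op r, MulOpposite.op e, MulOpposite.op p, ?_, ?_⟩
    · rw [← MulOpposite.op_mul, he]
    · apply MulOpposite.unop_injective
      simp only [MulOpposite.unop_mul, MulOpposite.unop_op]
      rw [hs, mul_assoc]

theorem LocL.op (h : LocL S) : LocR Sᵐᵒᵖ := by
  intro e x y he
  have he' : e.unop * e.unop = e.unop := by rw [← MulOpposite.unop_mul, he]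
  apply MulOpposite.unop_injective
  have := h e.unop x.unop y.unop he'
  simp only [MulOpposite.unop_mul, ← mul_assoc]
  simp only [← mul_assoc] at this
  exact this

theorem LocR.op (h : LocR S) : LocL Sᵐᵒᵖ := by
  intro e x y he
  have he' : e.unop * e.unop = e.unop := by rw [← MulOpposite.unop_mul, he]
  apply MulOpposite.unop_injective
  have := h e.unop x.unop y.unop he'
  simp only [MulOpposite.unop_mul, ← mul_assoc]
  simp only [← mul_assoc] at this
  exact this

theorem ge_op {s e : S} : Ge (MulOpposite.op s) (MulOpposite.op e) ↔ Ge s e := by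
  unfold Ge
  rw [← MulOpposite.op_mul, ← MulOpposite.op_mul, MulOpposite.op_inj, mul_assoc]

end

section
variable {S : Type} [Semigroup S] [Finite S]

/-- PROOF: let `m = e s k`, `n = e k`.  `Ge (s * k) e` (`ge_mul`) gives `m e = e`; `n e = e`; `m k = m`, `n k = n`.
`m n = m (e k) = (m e) k = n`, `n m = (n e) s k = e s k = m` (`n e = e`).  `LocR` for the idempotent `k` and the elements
`m`, `n` (`k m k = k m`, `k n k = k n`): `(k m)(k n)(k m) = (k m)(k n)`, where `(k m)(k n) = k (m k) n = k m n = k n` and
`(k n)(k m) = k n m = k m`, so `k m = k n`.  So `m = n m = e k m = e (k m) = e (k n) = n n = n` (`n n = e k e k = e k`). -/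
theorem lemK (h : A1 S) (hr : LocR S) {e s k : S} (he : e * e = e) (hk : k * k = k) (hs : Ge s e)
    (hke : Ge k e) : e * s * k = e * k := by
  have hsk : e * (s * k) * e = e := (ge_mul h he).2 ⟨hs, hke⟩
  have me : e * s * k * e = e := by rw [mul_assoc e s k]; exact hsk
  have hne : e * k * e = e := hke
  have mk : (e * s * k) * k = e * s * k := by rw [mul_assoc, hk]
  have nk : (e * k) * k = e * k := by rw [mul_assoc, hk]
  have mn : (e * s * k) * (e * k) = e * k := by rw [← mul_assoc, me]
  have nm : (e * k) * (e * s * k) = e * s * k := by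
    calc (e * k) * (e * s * k) = (e * k * e) * s * k := by simp only [mul_assoc]
      _ = _ := by rw [hne]
  have L := hr k (e * s * k) (e * k) hk
  have kmk : k * (e * s * k) * k = k * (e * s * k) := by rw [mul_assoc, mk]
  have knk : k * (e * k) * k = k * (e * k) := by rw [mul_assoc, nk]
  rw [kmk, knk] at L
  have p1 : k * (e * s * k) * (k * (e * k)) = k * (e * k) := by
    calc k * (e * s * k) * (k * (e * k)) = k * (((e * s * k) * k) * (e * k)) := by
          simp only [mul_assoc]
      _ = k * (e * k) := by rw [mk, mn]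
  have p2 : k * (e * k) * (k * (e * s * k)) = k * (e * s * k) := by
    calc k * (e * k) * (k * (e * s * k)) = k * (((e * k) * k) * (e * s * k)) := by
          simp only [mul_assoc]
      _ = k * (e * s * k) := by rw [nk, nm]
  rw [p1, p2] at L
  calc e * s * k = (e * k) * (e * s * k) := nm.symm
    _ = e * (k * (e * s * k)) := by rw [mul_assoc e k]
    _ = e * (k * (e * k)) := by rw [L]
    _ = (e * k * e) * k := by simp only [mul_assoc]
    _ = e * k := by rw [hne]

/-- An element above `b` acts in the same way on all idempotents in the R-class of `b`.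
PROOF: `s = p k r` with `k` idempotent (`mid`); `Ge p b`, `Ge k b` (`ge_mul`).  `m` and `b` are equivalent: `Ge m b`
(`b m b = m b = b`) and `Ge b m` (`m b m = b m = m`), so `Ge p m`, `Ge k m` (`ge_trans`).  `lemK`: `m p k = m k` (for
`e = m`, `s = p`), `b p k = b k`, and `b m k = b k` (for `e = b`, `s = m`), that is `m k = b k`.
So `m s = (m p k) r = m k r = b k r = b p k r = b s`. -/
theorem lemCR (h : A1 S) (hr : LocR S) {b m s : S} (hb : b * b = b) (hm : m * m = m) (h1 : m * b = b)
    (h2 : b * m = m) (hs : Ge s b) : m * s = b * s := by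
  obtain ⟨p, k, r, hk, rfl⟩ := h.mid s
  have g1 := (ge_mul h hb).1 hs
  have g2 := (ge_mul h hb).1 g1.1
  have gmb : Ge m b := by
    show b * m * b = b
    rw [h2, h1]
  have gbm : Ge b m := by
    show m * b * m = m
    rw [h1, h2]
  have gpm : Ge p m := ge_trans h hm g2.1 gbm
  have gkm : Ge k m := ge_trans h hm g2.2 gbm
  have k1 := lemK h hr hm hk gpm gkm
  have k2 := lemK h hr hb hk g2.1 g2.2
  have k3 := lemK h hr hb hk gmb g2.2
  rw [h2] at k3
  calc m * (p * k * r) = (m * p * k) * r := by simp only [mul_assoc]
    _ = (b * p * k) * r := by rw [k1, k3, k2]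
    _ = b * (p * k * r) := by simp only [mul_assoc]

/-- PROOF: `lemCR` in `Sᵐᵒᵖ` (`A1.op`, `LocL.op`, `ge_op`). -/
theorem lemCL (h : A1 S) (hl : LocL S) {b m s : S} (hb : b * b = b) (hm : m * m = m) (h1 : b * m = b)
    (h2 : m * b = m) (hs : Ge s b) : s * m = s * b := by
  have key := lemCR (b := MulOpposite.op b) (m := MulOpposite.op m) (s := MulOpposite.op s) h.op hl.op
    (by rw [← MulOpposite.op_mul, hb]) (by rw [← MulOpposite.op_mul, hm])
    (by rw [← MulOpposite.op_mul, h1]) (by rw [← MulOpposite.op_mul, h2]) (ge_op.2 hs)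
  rw [← MulOpposite.op_mul, ← MulOpposite.op_mul] at key
  exact MulOpposite.op_injective key

/-- PROOF: `u = u b u = (u b) (b u)`.  `m = u b` is idempotent with `b m = b u b = b`, `m b = m`: `s (u b) = s b`
(`lemCL`).  `m' = b u` is idempotent, `m' b = b`, `b m' = m'`: `(b u) t = b t` (`lemCR`).
So `s u t = s (u b) (b u) t = s b (b u) t = s b (b t) = s b t`. -/
theorem lemP (h : A1 S) (hr : LocR S) (hl : LocL S) {b u s t : S} (hb : b * b = b) (hu : u * u = u)
    (h1 : Ge b u) (h2 : Ge u b) (hs : Ge s b) (ht : Ge t b) : s * u * t = s * b * t := by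
  have e1 : u * b * u = u := h1
  have e2 : b * u * b = b := h2
  have c1 : s * (u * b) = s * b := by
    apply lemCL h hl hb _ _ _ hs
    · rw [← mul_assoc, e1]
    · rw [← mul_assoc, e2]
    · rw [mul_assoc, hb]
  have c2 : (b * u) * t = b * t := by
    apply lemCR h hr hb _ _ _ ht
    · rw [← mul_assoc, e2]
    · exact e2
    · rw [← mul_assoc, hb]
  calc s * u * t = s * (u * b * u) * t := by rw [e1]
    _ = s * (u * (b * b) * u) * t := by rw [hb]
    _ = (s * (u * b)) * ((b * u) * t) := by simp only [mul_assoc]
    _ = (s * b) * (b * t) := by rw [c1, c2]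
    _ = s * (b * b) * t := by simp only [mul_assoc]
    _ = s * b * t := by rw [hb]

/-- Two idempotents below each other in a local monoid which is a semilattice are equal.
PROOF: `LocR` and `LocL` at `e` for `u`, `v` (`e u e = u`, `e v e = v`): `u v u = u v` and `u v u = v u`, so
`u v = v u = u v u`; `u = u v u` (`Ge v u`) so `u = u v`; `v = v u v` (`Ge u v`), `v u v = (v u) v = (u v) v = u v`
(`v v = v`), so `v = u v = u`. -/
theorem eq_of_loc (hr : LocR S) (hl : LocL S) {e u v : S} (he : e * e = e) (hu : e * u = u)
    (hu' : u * e = u) (hv : e * v = v) (hv' : v * e = v) (hvv : v * v = v) (h1 : Ge u v) (h2 : Ge v u) : u = v := by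
  have a1 := hr e u v he
  have a2 := hl e u v he
  rw [hu, hu', hv, hv'] at a1 a2
  have g1 : v * u * v = v := h1
  have g2 : u * v * u = u := h2
  rw [g2] at a1 a2
  calc u = u * v := a1
    _ = u * (v * v) := by rw [hvv]
    _ = (u * v) * v := by rw [mul_assoc]
    _ = (v * u) * v := by rw [← a1, ← a2]
    _ = v := g1

end

end EVS
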