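import Pool.Agent.EVA.F2

/-!
# [EVA-F3] smallest left identities, the minimal ideal]
-/

set_option autoImplicit false

namespace EVS

variable {S : Type} [Semigroup S] [Finite S]

private theorem f3_min (h : A1 S) (P : S → Prop) (hP : ∃ e, e * e = e ∧ P e) :
    ∃ e : S, e * e = e ∧ P e ∧ ∀ e' : S, e' * e' = e' → P e' → Ge e e' → Ge e' e := by
  obtain ⟨e0, he0⟩ := hP
  obtain ⟨e, ⟨he, hPe⟩, hmin⟩ := Set.exists_min_image {e : S | e * e = e ∧ P e}
    (fun e => {f : S | f * f = f ∧ Ge e f}.ncard) (Set.toFinite _) ⟨e0, he0⟩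
  refine ⟨e, he, hPe, fun e' he' hPe' hge => ?_⟩
  have hsub : {f : S | f * f = f ∧ Ge e' f} ⊆ {f : S | f * f = f ∧ Ge e f} := by
    rintro f ⟨hf, hef⟩
    exact ⟨hf, ge_trans h hf hge hef⟩
  have heq := Set.eq_of_subset_of_ncard_le hsub (hmin e' ⟨he', hPe'⟩) (Set.toFinite _)
  have hmem : e ∈ {f : S | f * f = f ∧ Ge e f} := ⟨he, ge_self he⟩
  rw [← heq] at hmem
  exact hmem.2

/-- PROOF: among the idempotents `e` with `e x = x` choose one for which the number of idempotents `f` with `Ge e f`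
is minimal.  Let `k x = x`, `k` idempotent.  `e' = e k` is idempotent (`idc`), `e' x = x`, `Ge e e'`
(`e' e e' = e k e e k = (e k)(e k) = e'`).  `Ge e' f` implies `Ge e f` (`ge_trans`: `Ge e e'`, `Ge e' f`).  By
minimality both sets are equal (a subset of the same cardinality), so `Ge e' e` (as `Ge e e`): `e (e k) e = e`, that
is `Ge k e`. -/
theorem exists_LMin (h : A1 S) {x : S} (hx : LFix x) : ∃ e, LMin e x := by
  obtain ⟨e, he, hex, hmin⟩ := f3_min h (fun e => e * x = x) hx
  refine ⟨e, he, hex, fun k hk hkx => ?_⟩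
  have h1 : (e * k) * (e * k) = e * k := h.idc e k he hk
  have h2 : e * k * x = x := by rw [mul_assoc, hkx, hex]
  have h3 : Ge e (e * k) := by
    show e * k * e * (e * k) = e * k
    rw [mul_assoc (e * k) e (e * k), ← mul_assoc e e k, he, h1]
  have h4 : e * (e * k) * e = e := hmin (e * k) h1 h2 h3
  show e * k * e = e
  rw [← mul_assoc, he] at h4
  exact h4

/-- PROOF: dual, `exists_LMin` in `Sᵐᵒᵖ` (`A1.op`, `ge_op`). -/
theorem exists_RMin (h : A1 S) {x : S} (hx : RFix x) : ∃ e, RMin e x := by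
  obtain ⟨e, he, hex, hmin⟩ := f3_min h (fun e => x * e = x) hx
  refine ⟨e, he, hex, fun k hk hkx => ?_⟩
  have h1 : (k * e) * (k * e) = k * e := h.idc k e hk he
  have h2 : x * (k * e) = x := by rw [← mul_assoc, hkx, hex]
  have h3 : Ge e (k * e) := by
    show k * e * e * (k * e) = k * e
    rw [mul_assoc k e e, he, h1]
  have h4 : e * (k * e) * e = e := hmin (k * e) h1 h2 h3
  show e * k * e = e
  rw [mul_assoc, mul_assoc k e e, he, ← mul_assoc] at h4
  exact h4

/-- PROOF: choose an idempotent `k0` (there is one: `om s`) for which the number of idempotents `f` with `Ge k0 f` is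
minimal.  For `s : S`, `k' = k0 s k0` is idempotent (`loc`), `Ge k0 k'` (`k' k0 k' = k' k' = k'`), so `Ge k' f` implies
`Ge k0 f` (`ge_trans`) and by minimality the two sets are equal and `Ge k' k0`: `k0 (k0 s k0) k0 = k0`, so `Ge s k0`. -/
theorem exists_k0 (h : A1 S) [Nonempty S] : ∃ k0 : S, k0 * k0 = k0 ∧ ∀ s, Ge s k0 := by
  obtain ⟨s0⟩ := ‹Nonempty S›
  obtain ⟨e, he, -, hmin⟩ := f3_min h (fun _ => True) ⟨om s0, om_idem s0, trivial⟩
  refine ⟨e, he, fun s => ?_⟩
  have h1 : (e * s * e) * (e * s * e) = e * s * e := h.loc e s he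
  have h3 : Ge e (e * s * e) := by
    show e * s * e * e * (e * s * e) = e * s * e
    rw [mul_assoc (e * s) e e, he, h1]
  have h4 : e * (e * s * e) * e = e := hmin (e * s * e) h1 trivial h3
  show e * s * e = e
  rw [← mul_assoc, ← mul_assoc, he, mul_assoc (e * s) e e, he] at h4
  exact h4

/-- Facts on an element with a left identity: `e x = x`.
PROOF: `loc` at `e`: `(e x e)(e x e) = e x e`, that is `(x e)(x e) = x e`, `x e x e = x (e x) e = x x e`.
`x x x = x x (e x) = (x x e) x = x e x = x x`. -/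
theorem left_facts (hL : Loc S) {e x : S} (he : e * e = e) (hx : e * x = x) :
    x * x * e = x * e ∧ x * x * x = x * x ∧ (x * e) * (x * e) = x * e := by
  have h1 : (e * x * e) * (e * x * e) = e * x * e := hL e x he
  rw [hx] at h1
  have h2 : x * x * e = x * e := by
    rw [← h1, ← mul_assoc, mul_assoc x e x, hx]
  refine ⟨h2, ?_, h1⟩
  calc x * x * x = x * x * (e * x) := by rw [hx]
    _ = (x * x * e) * x := by rw [mul_assoc (x * x) e x]
    _ = x * e * x := by rw [h2]
    _ = x * x := by rw [mul_assoc, hx]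

/-- PROOF: dual, `left_facts` in `Sᵐᵒᵖ`. -/
theorem right_facts (hL : Loc S) {e x : S} (he : e * e = e) (hx : x * e = x) :
    e * x * x = e * x ∧ x * x * x = x * x ∧ (e * x) * (e * x) = e * x := by
  have h1 : (e * x * e) * (e * x * e) = e * x * e := hL e x he
  rw [mul_assoc e x e, hx] at h1
  have h2 : e * x * x = e * x := by
    have h3 : (e * x) * (e * x) = e * x * x := by
      rw [mul_assoc e x (e * x), ← mul_assoc x e x, hx, mul_assoc]
    rw [← h3, h1]
  refine ⟨h2, ?_, h1⟩
  calc x * x * x = x * e * x * x := by rw [hx]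
    _ = x * (e * x * x) := by rw [mul_assoc x e x, mul_assoc x (e * x) x]
    _ = x * (e * x) := by rw [h2]
    _ = x * x := by rw [← mul_assoc, hx]

end EVS
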