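import Pool.Agent.EVA.RT

/-!
# [EVA-N1b] the semigroups `FN n`
-/

set_option autoImplicit false

namespace EVS

/-- the elements of `FN n`: `RT`, vertices `v i` and edges `z i`; the edge `z i` leads from the vertex `i` to the
vertex `i + 1`, where the vertex `i + 1` is `v i`, and the vertices `0` and `n + 1` are the element `k 6` of `RT` -/
inductive FN (n : ℕ) : Type
  | t (s : RT)
  | v (i : Fin n)
  | z (i : Fin (n + 1))
  deriving DecidableEq, Fintype

/-- the vertex `i` -/
def FN.vtx (n i : ℕ) : FN n :=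
  if h : 1 ≤ i ∧ i ≤ n then .v ⟨i - 1, by omega⟩ else .t (.k 6)

/-- projection to `RT` -/
def FN.pi {n : ℕ} : FN n → RT
  | .t s => s
  | _ => .k 6

/-- left action of `RT` -/
def FN.ac {n : ℕ} : RT → FN n → FN n
  | s, .t s' => .t (s * s')
  | .e, x => x
  | .d0, .v i => .v i
  | .d1, .v i => .v i
  | .d0, .z i => FN.vtx n i.val
  | .d1, .z i => FN.vtx n (i.val + 1)
  | _, _ => .t (.k 6)

theorem FN.pi_vtx (n i : ℕ) : (FN.vtx n i).pi = .k 6 := by
  unfold FN.vtx
  split_ifs <;> rfl

theorem FN.ac_vtx (n i : ℕ) (s : RT) :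
    (s = .e ∨ s = .d0 ∨ s = .d1 → FN.ac s (FN.vtx n i) = FN.vtx n i) ∧
    (¬ (s = .e ∨ s = .d0 ∨ s = .d1) → FN.ac s (FN.vtx n i) = .t (.k 6)) := by
  have hk : ∀ s : RT, s * .k 6 = .k 6 := by decide
  unfold FN.vtx
  split_ifs
  · refine ⟨?_, ?_⟩
    · rintro (h | h | h) <;> subst h <;> rfl
    · intro h
      cases s <;> first | rfl | (exfalso; apply h; simp)
  · refine ⟨fun _ => congrArg FN.t (hk s), fun _ => congrArg FN.t (hk s)⟩

theorem FN.ac_else {n : ℕ} (s : RT) (x : FN n) (hs : ¬ (s = .e ∨ s = .d0 ∨ s = .d1))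
    (hx : ∀ s', x ≠ .t s') : FN.ac s x = .t (.k 6) := by
  cases x with
  | t s' => exact absurd rfl (hx s')
  | v i => cases s <;> first | rfl | (exfalso; apply hs; simp)
  | z i => cases s <;> first | rfl | (exfalso; apply hs; simp)

theorem FN.pi_ac {n : ℕ} (s : RT) (x : FN n) : (FN.ac s x).pi = s * x.pi := by
  have hk : ∀ s : RT, s * .k 6 = .k 6 := by decide
  cases x with
  | t s' => rfl
  | v i =>
    rw [show (FN.v i : FN n).pi = .k 6 from rfl, hk]
    cases s <;> rfl
  | z i =>
    rw [show (FN.z i : FN n).pi = .k 6 from rfl, hk]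
    cases s <;> first | rfl | exact FN.pi_vtx _ _

theorem FN.ac_ac {n : ℕ} (s s' : RT) (x : FN n) : FN.ac s (FN.ac s' x) = FN.ac (s * s') x := by
  have hk : ∀ s : RT, s * .k 6 = .k 6 := by decide
  have h1 : ∀ s s' : RT, ¬ (s = .e ∨ s = .d0 ∨ s = .d1) → ¬ (s * s' = .e ∨ s * s' = .d0 ∨ s * s' = .d1) := by
    decide +kernel
  have h2 : ∀ s s' : RT, ¬ (s' = .e ∨ s' = .d0 ∨ s' = .d1) →
      ¬ (s * s' = .e ∨ s * s' = .d0 ∨ s * s' = .d1) := by decide +kernel
  cases x with
  | t s'' => exact congrArg FN.t (mul_assoc s s' s'').symm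
  | v i =>
    by_cases hs' : s' = .e ∨ s' = .d0 ∨ s' = .d1
    · by_cases hs : s = .e ∨ s = .d0 ∨ s = .d1
      · have h3 : ∀ s : RT, (s = .e ∨ s = .d0 ∨ s = .d1) → FN.ac s (FN.v i : FN n) = .v i := by
          rintro s (h | h | h) <;> subst h <;> rfl
        have h4 : ∀ s s' : RT, (s = .e ∨ s = .d0 ∨ s = .d1) → (s' = .e ∨ s' = .d0 ∨ s' = .d1) →
            (s * s' = .e ∨ s * s' = .d0 ∨ s * s' = .d1) := by decide +kernel
        rw [h3 s' hs', h3 s hs, h3 _ (h4 s s' hs hs')]
      · rw [FN.ac_else (s * s') _ (h1 s s' hs) (by intro _ h; cases h)]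
        have h3 : FN.ac s' (FN.v i : FN n) = .v i := by
          rcases hs' with h | h | h <;> subst h <;> rfl
        rw [h3, FN.ac_else s _ hs (by intro _ h; cases h)]
    · rw [FN.ac_else (s * s') _ (h2 s s' hs') (by intro _ h; cases h),
        FN.ac_else s' _ hs' (by intro _ h; cases h)]
      exact congrArg FN.t (hk s)
  | z i =>
    by_cases hs' : s' = .e ∨ s' = .d0 ∨ s' = .d1
    · by_cases hs : s = .e ∨ s = .d0 ∨ s = .d1
      · rcases hs' with h | h | h
        · subst h
          rcases hs with h | h | h <;> subst h <;> rfl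
        · subst h
          show FN.ac s (FN.vtx n i.val) = _
          rw [(FN.ac_vtx n i.val s).1 hs]
          rcases hs with h | h | h <;> subst h <;> rfl
        · subst h
          show FN.ac s (FN.vtx n (i.val + 1)) = _
          rw [(FN.ac_vtx n (i.val + 1) s).1 hs]
          rcases hs with h | h | h <;> subst h <;> rfl
      · rw [FN.ac_else (s * s') _ (h1 s s' hs) (by intro _ h; cases h)]
        rcases hs' with h | h | h
        · subst h
          exact FN.ac_else s _ hs (by intro _ h; cases h)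
        · subst h
          exact (FN.ac_vtx n i.val s).2 hs
        · subst h
          exact (FN.ac_vtx n (i.val + 1) s).2 hs
    · rw [FN.ac_else (s * s') _ (h2 s s' hs') (by intro _ h; cases h),
        FN.ac_else s' _ hs' (by intro _ h; cases h)]
      exact congrArg FN.t (hk s)

instance (n : ℕ) : Semigroup (FN n) where
  mul x y := FN.ac x.pi y
  mul_assoc x y w := by
    show FN.ac (FN.ac x.pi y).pi w = FN.ac x.pi (FN.ac y.pi w)
    rw [FN.ac_ac, FN.pi_ac]

theorem FN.mul_def {n : ℕ} (x y : FN n) : x * y = FN.ac x.pi y := rfl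

theorem FN.pi_mul {n : ℕ} (x y : FN n) : (x * y).pi = x.pi * y.pi := by
  rw [FN.mul_def, FN.pi_ac]

theorem FN.mul_t {n : ℕ} (x : FN n) (s : RT) : x * (.t s : FN n) = .t (x.pi * s) := rfl

/-- `k 6` sends everything outside `RT` to `k 6` -/
theorem FN.mul_of_pi {n : ℕ} (x y : FN n) (hx : ∀ s, x ≠ .t s) : x * y = .t (.k 6 * y.pi) := by
  have hx' : x.pi = .k 6 := by
    cases x with
    | t s => exact absurd rfl (hx s)
    | _ => rfl
  rw [FN.mul_def, hx']
  cases y with
  | t s => rfl
  | _ => rfl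

theorem FN.card (n : ℕ) : n ≤ Nat.card (FN n) := by
  have hinj : Function.Injective (fun i : Fin n => (FN.v i : FN n)) := by
    intro i j h
    injection h
  have h := Nat.card_le_card_of_injective _ hinj
  rwa [Nat.card_eq_fintype_card, Fintype.card_fin] at h

end EVS
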