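import Pool.Agent.EVA.BX

/-!
# [EVA-M1] identities of Brandt semigroups and of `BX m`
-/

set_option autoImplicit false

namespace EVS

/-- the pair of two truth values -/
private def m1b : Bool → Bool → B2
  | false, false => .e
  | false, true => .a
  | true, false => .b
  | true, true => .f

private theorem m1b_mul : ∀ a b c : Bool, m1b a b * m1b b c = m1b a c := by decide

private theorem m1b_mul_ne : ∀ a b b' c : Bool, b ≠ b' → m1b a b * m1b b' c = B2.o := by decide

private theorem m1b_ne : ∀ a b : Bool, m1b a b ≠ B2.o := by decide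

private theorem m1b_inj : ∀ a b a' b' : Bool, m1b a b = m1b a' b' → a = a' ∧ b = b' := by decide

/-- the map from the Brandt semigroup on `X` to `B2` -/
private def m1h {X : Type} (t : X → Bool) : Bd X → B2
  | none => .o
  | some (i, j) => m1b (t i) (t j)

private theorem m1h_some {X : Type} (t : X → Bool) (i j : X) : m1h t (Bd.pr i j) = m1b (t i) (t j) := rfl

private theorem Bd_mul_some {X : Type} [DecidableEq X] (x y : Bd X) (i j : X) (h : x * y = Bd.pr i j) :
    ∃ l, x = Bd.pr i l ∧ y = Bd.pr l j := by
  rcases x with _ | ⟨a, b⟩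
  · exact absurd (show (none : Option (X × X)) = some (i, j) from h) (by simp)
  · rcases y with _ | ⟨c, d⟩
    · exact absurd (show (none : Option (X × X)) = some (i, j) from h) (by simp)
    · have h' : (if b = c then (some (a, d) : Option (X × X)) else none) = some (i, j) := h
      by_cases hbc : b = c
      · rw [if_pos hbc] at h'
        have h2 : (a, d) = (i, j) := Option.some.inj h'
        obtain ⟨rfl, rfl⟩ := Prod.mk.inj h2
        subst hbc
        exact ⟨b, rfl, rfl⟩
      · rw [if_neg hbc] at h'
        exact absurd h' (by simp)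

private theorem B2_mul_o : ∀ x : B2, x * B2.o = B2.o := by decide

private theorem B2_o_mul : ∀ x : B2, B2.o * x = B2.o := by decide

private theorem m1_some {X : Type} [DecidableEq X] (φ : ℕ → Bd X) (t : X → Bool) (u : Wd) (i j : X)
    (h : FreeSemigroup.lift φ u = Bd.pr i j) :
    FreeSemigroup.lift (fun k => m1h t (φ k)) u = m1b (t i) (t j) := by
  induction u using FreeSemigroup.recOnMul generalizing i j with
  | ih1 x =>
    rw [FreeSemigroup.lift_of] at h ⊢
    rw [h, m1h_some]
  | ih2 x y hx hy =>
    rw [map_mul] at h ⊢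
    obtain ⟨l, h1, h2⟩ := Bd_mul_some _ _ i j h
    rw [hx i l h1, hy l j h2, m1b_mul]

private theorem m1_none {X : Type} [DecidableEq X] (φ : ℕ → Bd X) (u : Wd)
    (h : FreeSemigroup.lift φ u = none) :
    ∃ t : X → Bool, FreeSemigroup.lift (fun k => m1h t (φ k)) u = B2.o := by
  induction u using FreeSemigroup.recOnMul with
  | ih1 x =>
    refine ⟨fun _ => true, ?_⟩
    rw [FreeSemigroup.lift_of] at h ⊢
    rw [h]
    rfl
  | ih2 x y hx hy =>
    rw [map_mul] at h
    rcases hx' : FreeSemigroup.lift φ (FreeSemigroup.of x) with _ | ⟨i, j⟩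
    · obtain ⟨t, ht⟩ := hx hx'
      refine ⟨t, ?_⟩
      rw [map_mul, ht, B2_o_mul]
    · rcases hy' : FreeSemigroup.lift φ y with _ | ⟨j', k⟩
      · obtain ⟨t, ht⟩ := hy hy'
        refine ⟨t, ?_⟩
        rw [map_mul, ht, B2_mul_o]
      · refine ⟨fun z => decide (z = j), ?_⟩
        rw [map_mul, m1_some φ _ _ i j hx', m1_some φ _ _ j' k hy']
        have hne : j ≠ j' := by
          rintro rfl
          rw [hx', hy'] at h
          have h' : (if j = j then (some (i, k) : Option (X × X)) else none) = none := h
          rw [if_pos rfl] at h'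
          exact absurd h' (by simp)
        apply m1b_mul_ne
        simp [Ne.symm hne]

/-- PROOF: for `t : X → Bool` let `t̂ : Bd X → B2` be `none ↦ o`, `(i, j) ↦` `e, a, b, f` for `(t i, t j) =` `(false, false), (false, true), (true, false),
(true, true)`.  Let `φ : ℕ → Bd X`.
(1) if `lift φ u = some (i, j)` then `lift (t̂ ∘ φ) u = t̂ (some (i, j))` for every `t` (induction on `u`, `FreeSemigroup.recOnMul`: both factors are not
`none`, `some (i, l)` and `some (l, j)`).
(2) if `lift φ u = none` then `lift (t̂ ∘ φ) u = o` for some `t`: induction on `u = of x * y`: if `φ x = none` or `lift φ y = none` clear (with the `t` of the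
induction hypothesis; `o` is a zero).  Otherwise `φ x = some (i, j)`, `lift φ y = some (j', l)` with `j ≠ j'`; take `t = fun z => decide (z = j)`; by (1) the
value is `t̂ (i, j) * t̂ (j', l) = o`.
(3) Let `h : Holds B2 p`.  If `lift φ p.1 = some (i, j)`: for all `t`, `lift (t̂ ∘ φ) p.2 = lift (t̂ ∘ φ) p.1 = t̂ (i, j) ≠ o`, so `lift φ p.2 = some (i', j')` by (2) and
`t̂ (i', j') = t̂ (i, j)` for all `t`; so `i = i'`, `j = j'` (take `t = fun z => decide (z = i)`, ...).  By symmetry both sides are `none` otherwise. -/
theorem holds_Bd {p : Wd × Wd} (h : Holds B2 p) (X : Type) [DecidableEq X] : Holds (Bd X) p := by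
  intro φ
  rcases h1 : FreeSemigroup.lift φ p.1 with _ | ⟨i, j⟩
  · rcases h2 : FreeSemigroup.lift φ p.2 with _ | ⟨i', j'⟩
    · rfl
    · obtain ⟨t, ht⟩ := m1_none φ p.1 h1
      rw [h, m1_some φ t p.2 i' j' h2] at ht
      exact absurd ht (m1b_ne _ _)
  · rcases h2 : FreeSemigroup.lift φ p.2 with _ | ⟨i', j'⟩
    · obtain ⟨t, ht⟩ := m1_none φ p.2 h2
      rw [← h, m1_some φ t p.1 i j h1] at ht
      exact absurd ht (m1b_ne _ _)
    · have key : ∀ t : X → Bool, t i = t i' ∧ t j = t j' := by
        intro t
        apply m1b_inj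
        rw [← m1_some φ t p.1 i j h1, ← m1_some φ t p.2 i' j' h2, h]
      have hi : i' = i := by
        have := (key fun z => decide (z = i)).1
        simpa using this.symm
      have hj : j' = j := by
        have := (key fun z => decide (z = j)).2
        simpa using this.symm
      rw [hi, hj]

/-- PROOF: `BX.io` is an injective multiplicative map into `BM`, a product of five Brandt semigroups (`holds_prod`, `holds_Bd`); a subsemigroup
satisfies the same identities (`map_lift` for the map `BX.io`, injectivity). -/
theorem holds_BX {p : Wd × Wd} (h : Holds B2 p) (m : ℕ) : Holds (BX m) p := by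
  intro φ
  have hM : Holds BM p := holds_prod (holds_Bd h _) (holds_prod (holds_Bd h _)
    (holds_prod (holds_Bd h _) (holds_prod (holds_Bd h _) (holds_Bd h _))))
  apply BX.io_inj
  have key := map_lift (⟨BX.io, BX.io_mul⟩ : BX m →ₙ* BM) φ
  exact (key p.1).trans ((hM _).trans (key p.2).symm)

end EVS
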