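import Pool.Agent.EVA.M6a

/-!
# [EVA-M6b] `BX m` has few endomorphisms]
-/

set_option autoImplicit false

namespace EVS

private theorem dd_core : ∀ (i u : Fin 3) (s : BT), BT.d i u u * s = .o ∨ ∃ v, BT.d i u u * s = .d i u v := by
  decide +kernel

private theorem dd_shx : ∀ (i u p : Fin 3), (BT.d i u u).shx p = .o ∨ ∃ v, (BT.d i u u).shx p = .d i u v := by
  decide +kernel

private theorem dd_sha : ∀ (i u p : Fin 3), (BT.d i u u).sha p = .o ∨ ∃ v, (BT.d i u u).sha p = .d i u v := by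
  decide +kernel

private theorem dd_shb : ∀ (i u p : Fin 3), (BT.d i u u).shb p = .o ∨ ∃ v, (BT.d i u u).shb p = .d i u v := by
  decide +kernel

private theorem o_shx : ∀ (p : Fin 3), BT.o.shx p = .o := by decide +kernel

private theorem o_sha : ∀ (p : Fin 3), BT.o.sha p = .o := by decide +kernel

private theorem o_shb : ∀ (p : Fin 3), BT.o.shb p = .o := by decide +kernel

private theorem dd_mul : ∀ (i u v w : Fin 3), BT.d i u v * .d i w w = if v = w then .d i u w else .o := by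
  decide +kernel

private theorem o_dd : ∀ (i w : Fin 3), BT.o * .d i w w = .o := by decide +kernel

private theorem dd_g {m : ℕ} (i u : Fin 3) (w : BX m) :
    (BX.g (.d i u u) : BX m) * w = .g .o ∨ ∃ v, (BX.g (.d i u u) : BX m) * w = .g (.d i u v) := by
  rcases w with s | ⟨j, q⟩ | ⟨j, q⟩ | ⟨j, q⟩
  · rcases dd_core i u s with h | ⟨v, h⟩
    · exact Or.inl (congrArg BX.g h)
    · exact Or.inr ⟨v, congrArg BX.g h⟩
  · rcases dd_shx i u q with h | ⟨v, h⟩
    · exact Or.inl (congrArg BX.g h)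
    · exact Or.inr ⟨v, congrArg BX.g h⟩
  · rcases dd_sha i u q with h | ⟨v, h⟩
    · exact Or.inl (congrArg BX.g h)
    · exact Or.inr ⟨v, congrArg BX.g h⟩
  · rcases dd_shb i u q with h | ⟨v, h⟩
    · exact Or.inl (congrArg BX.g h)
    · exact Or.inr ⟨v, congrArg BX.g h⟩

/-- the case of elements outside `BT`: the first two kinds of `ψ` -/
private theorem ext_core {m : ℕ} (φ φ' : BX m →ₙ* BX m) (ψ : BT →ₙ* BT) (h : ∀ s, φ (.g s) = .g (ψ s))
    (h' : ∀ s, φ' (.g s) = .g (ψ s))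
    (hψ : (∀ p, ψ (.e p p) = ψ .o) ∨
      (ψ .o = .o ∧ ∃ i : Fin 3, (∀ p, ∃ u, ψ (.e p p) = .d i u u) ∧ ∀ v, ∃ t, ψ t = .d i v v))
    (y : BX m) (p : Fin 3) (h1 : (BX.g (.e p p) : BX m) * y = y) (h2 : (BX.g .o : BX m) * y = .g .o)
    (h3 : ∀ t, ∃ t', y * .g t = .g t') : φ y = φ' y := by
  rcases hψ with h4 | ⟨-, i, h4, h5⟩
  · have key : ∀ f : BX m →ₙ* BX m, (∀ s, f (.g s) = .g (ψ s)) → f y = .g (ψ .o) := by
      intro f hf
      calc f y = f (.g (.e p p) * y) := by rw [h1]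
        _ = .g (ψ .o) * f y := by rw [map_mul, hf, h4]
        _ = f (.g .o * y) := by rw [map_mul, hf]
        _ = .g (ψ .o) := by rw [h2, hf]
    rw [key φ h, key φ' h']
  · obtain ⟨u, hu⟩ := h4 p
    have key : ∀ f : BX m →ₙ* BX m, (∀ s, f (.g s) = .g (ψ s)) → f y = .g .o ∨ ∃ v, f y = .g (.d i u v) := by
      intro f hf
      have h6 : (BX.g (.d i u u) : BX m) * f y = f y := by
        rw [← hu, ← hf, ← map_mul, h1]
      rcases dd_g i u (f y) with h7 | ⟨v, h7⟩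
      · exact Or.inl (h6.symm.trans h7)
      · exact Or.inr ⟨v, h6.symm.trans h7⟩
    have hmul : ∀ v, φ y * .g (.d i v v) = φ' y * .g (.d i v v) := by
      intro v
      obtain ⟨t, ht⟩ := h5 v
      obtain ⟨t', ht'⟩ := h3 t
      rw [← ht, ← h, ← map_mul, ht', h, h, ← h', ← ht', map_mul, h']
    have hd : ∀ a b : Fin 3, (BX.g (.d i u a) : BX m) * .g (.d i b b) = .g (if a = b then .d i u b else .o) := by
      intro a b
      exact congrArg BX.g (dd_mul i u a b)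
    have hoo : ∀ b : Fin 3, (BX.g .o : BX m) * .g (.d i b b) = .g .o := by
      intro b
      exact congrArg BX.g (o_dd i b)
    rcases key φ h with h6 | ⟨v, h6⟩ <;> rcases key φ' h' with h7 | ⟨v', h7⟩
    · rw [h6, h7]
    · have h8 := hmul v'
      rw [h6, h7, hd, hoo, if_pos rfl] at h8
      exact absurd (BX.g_inj h8) (by simp)
    · have h8 := hmul v
      rw [h6, h7, hd, hoo, if_pos rfl] at h8
      exact absurd (BX.g_inj h8) (by simp)
    · have h8 := hmul v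
      rw [h6, h7, hd, hd, if_pos rfl] at h8
      by_cases hv : v' = v
      · rw [h6, h7, hv]
      · rw [if_neg hv] at h8
        exact absurd (BX.g_inj h8) (by simp)

private theorem al_eq {m : ℕ} (j : Fin m) (p : Fin 3) :
    (BX.al j p : BX m) = .g (.a p p) * .x ⟨2 * j.val + 1, by omega⟩ p := by
  rw [BX.a_x]
  unfold BX.va
  have h : 1 ≤ 2 * j.val + 1 ∧ 2 * j.val + 1 ≤ 2 * m := ⟨by omega, by omega⟩
  rw [dif_pos h]
  congr 1
  apply Fin.ext
  show j.val = (2 * j.val + 1 + 1) / 2 - 1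
  omega

private theorem be_eq {m : ℕ} (j : Fin m) (p : Fin 3) :
    (BX.be j p : BX m) = .g (.b p p) * .x ⟨2 * j.val, by omega⟩ p := by
  rw [BX.b_x]
  unfold BX.vb
  have h : 2 * j.val < 2 * m := by omega
  rw [dif_pos h]
  congr 1
  apply Fin.ext
  show j.val = 2 * j.val / 2
  omega

/-- PROOF: let `ψ` be the endomorphism of `BT` induced by `φ` and `φ'` (`bx_psi`).  `bt_hom ψ`:
* all `ψ (e p p) = ψ o`: for `y = x i p`, `al j p`, `be j p`: `g (e p p) * y = y`, `g o * y = g o`, so `φ y = g (ψ (e p p)) * φ y = g (ψ o) * φ y = φ (g o)`; the same for `φ'`.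
* `ψ o = o`, `ψ (e p p) = d i u u`, and for every `v` there is `t` with `ψ t = d i v v`.  For `y` as before: `g (d i u u) * φ y = φ y`, so `φ y` is `g o` or `g (d i u v)` for some `v`
  (`g (d i u u) * w` is in `BT` for all `w`; `decide`).  `y * g t` is in `BT`, so `φ y * g (d i v v) = φ (y * g t) = φ' (y * g t) = φ' y * g (d i v v)` for all `v`.  So `φ y = φ' y`.
* `ψ o = o` and `BTid ψ π` or `BTsw ψ π`: `bx_id`, `bx_sw` give `φ (x i p) = φ' (x i p)`; `al j p = va (2 j + 1) p = g (a p p) * x (2 j + 1) p` and `be j p = vb (2 j) p = g (b p p) * x (2 j) p`. -/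
theorem bx_ext {m : ℕ} (φ φ' : BX m →ₙ* BX m) (h : ∀ s, φ (.g s) = φ' (.g s)) : φ = φ' := by
  obtain ⟨ψ, hψ⟩ := bx_psi φ
  have hψ' : ∀ s, φ' (.g s) = .g (ψ s) := fun s => by rw [← h, hψ]
  apply DFunLike.ext
  have main : ((∀ p, ψ (.e p p) = ψ .o) ∨
      (ψ .o = .o ∧ ∃ i : Fin 3, (∀ p, ∃ u, ψ (.e p p) = .d i u u) ∧ ∀ v, ∃ t, ψ t = .d i v v)) ∨
      (ψ .o = .o ∧ ∃ π : Fin 3 → Fin 3, Function.Injective π ∧ (BTid ψ π ∨ BTsw ψ π)) := by
    rcases bt_hom ψ with h1 | h1 | h1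
    · exact Or.inl (Or.inl h1)
    · exact Or.inl (Or.inr h1)
    · exact Or.inr h1
  rcases main with h1 | ⟨ho, π, hπ, h1⟩
  · intro y
    rcases y with s | ⟨i, p⟩ | ⟨j, p⟩ | ⟨j, p⟩
    · exact h s
    · refine ext_core φ φ' ψ hψ hψ' h1 _ p (BX.e_x p p i) ?_ ?_
      · exact congrArg BX.g (o_shx p)
      · exact fun t => ⟨BT.rx p t, rfl⟩
    · refine ext_core φ φ' ψ hψ hψ' h1 _ p ?_ ?_ ?_
      · show (if p = p then (BX.al j p : BX m) else _) = _
        rw [if_pos rfl]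
      · exact congrArg BX.g (o_sha p)
      · exact fun t => ⟨BT.ra p t, rfl⟩
    · refine ext_core φ φ' ψ hψ hψ' h1 _ p ?_ ?_ ?_
      · show (if p = p then (BX.be j p : BX m) else _) = _
        rw [if_pos rfl]
      · exact congrArg BX.g (o_shb p)
      · exact fun t => ⟨BT.rb p t, rfl⟩
  · have hx : ∀ i p, φ (.x i p) = φ' (.x i p) := by
      intro i p
      rcases h1 with h1 | h1
      · rw [bx_id φ ψ hψ ho π hπ h1, bx_id φ' ψ hψ' ho π hπ h1]
      · rw [bx_sw φ ψ hψ ho π hπ h1, bx_sw φ' ψ hψ' ho π hπ h1]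
    intro y
    rcases y with s | ⟨i, p⟩ | ⟨j, p⟩ | ⟨j, p⟩
    · exact h s
    · exact hx i p
    · rw [al_eq, map_mul, map_mul, h, hx]
    · rw [be_eq, map_mul, map_mul, h, hx]

/-- PROOF: `B = Nat.card (BT → BT)`; `φ ↦ (s ↦ s')` with `φ (g s) = g s'` (`bx_core`) is injective by `bx_ext`. -/
theorem nEnd_BX : ∃ B : ℕ, ∀ m : ℕ, nEnd (BX m) ≤ B := by
  refine ⟨Nat.card (BT → BT), fun m => ?_⟩
  refine Nat.card_le_card_of_injective (fun φ : BX m →ₙ* BX m => fun s => (bx_core φ s).choose) ?_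
  intro φ φ' hφ
  apply bx_ext
  intro s
  have h1 := (bx_core φ s).choose_spec
  have h2 := (bx_core φ' s).choose_spec
  have h3 : (bx_core φ s).choose = (bx_core φ' s).choose := congrFun hφ s
  rw [h1, h2, h3]

end EVS
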