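import Pool.Agent.EVA.Defs
import Pool.Agent.EVS.WWV

/-!
# [EVA-N1a] right regular bands
-/

set_option autoImplicit false

namespace EVS

private theorem n1a_one_mul (y : R21) : R21.one * y = y := by cases y <;> rfl

private theorem n1a_mul_one (x : R21) : x * R21.one = x := by cases x <;> rfl

private theorem n1a_mul_ne (x : R21) {y : R21} (h : y ≠ .one) : x * y = y := by
  cases y
  · exact absurd rfl h
  · cases x <;> rfl
  · cases x <;> rfl

/-- the product in `R21` -/
private def n1a_r (φ : ℕ → R21) (l : List ℕ) : R21 := (l.map φ).foldr (· * ·) .one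

private theorem n1a_r_cons (φ : ℕ → R21) (a : ℕ) (l : List ℕ) : n1a_r φ (a :: l) = φ a * n1a_r φ l := rfl

private theorem n1a_r_append (φ : ℕ → R21) (l l' : List ℕ) : n1a_r φ (l ++ l') = n1a_r φ l * n1a_r φ l' := by
  induction l with
  | nil =>
    rw [List.nil_append]
    exact (n1a_one_mul _).symm
  | cons a l ih => rw [List.cons_append, n1a_r_cons, n1a_r_cons, ih, mul_assoc]

private theorem n1a_r_single (φ : ℕ → R21) (x : ℕ) : n1a_r φ [x] = φ x := n1a_mul_one _

private theorem n1a_r_lift (φ : ℕ → R21) (w : Wd) : FreeSemigroup.lift φ w = n1a_r φ (toL w) := by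
  induction w using FreeSemigroup.recOnMul with
  | ih1 x => rw [toL_of, FreeSemigroup.lift_of, n1a_r_single]
  | ih2 x y hx hy => rw [map_mul, hx, hy, toL_mul, n1a_r_append]

private theorem n1a_r_filter (φ : ℕ → R21) (x : ℕ) (l : List ℕ) :
    n1a_r (fun z => if z = x then .one else φ z) l = n1a_r φ (l.filter (fun z => z ≠ x)) := by
  induction l with
  | nil => rfl
  | cons a l ih =>
    rw [n1a_r_cons, ih]
    by_cases h : a = x
    · rw [if_pos h, n1a_one_mul, List.filter_cons_of_neg (by simp [h])]
    · rw [if_neg h, List.filter_cons_of_pos (by simp [h]), n1a_r_cons]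

private theorem n1a_v {T : Type} [Semigroup T] (hid : ∀ x : T, x * x = x) (hr : ∀ x y : T, x * y * x = y * x)
    (t : T) (y : WithOne T) : (t : WithOne T) * (y * t) = y * t := by
  refine WithOne.cases_on (P := fun y : WithOne T => (t : WithOne T) * (y * t) = y * t) y ?_ ?_
  · rw [one_mul, ← WithOne.coe_mul, hid]
  · intro s
    rw [← mul_assoc, ← WithOne.coe_mul, ← WithOne.coe_mul, hr, WithOne.coe_mul]

private theorem n1a_filter {T : Type} [Semigroup T] (hid : ∀ x : T, x * x = x)
    (hr : ∀ x y : T, x * y * x = y * x) (φ : ℕ → T) (a : ℕ) (l : List ℕ) :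
    prd ((l ++ [a]).map φ) = prd ((l.filter (fun z => z ≠ a) ++ [a]).map φ) := by
  induction l with
  | nil => rfl
  | cons b l ih =>
    rw [List.cons_append, List.map_cons, prd_cons, ih]
    by_cases h : b = a
    · rw [List.filter_cons_of_neg (by simp [h]), h, List.map_append, prd_append, List.map_singleton,
        prd_singleton, n1a_v hid hr]
    · rw [List.filter_cons_of_pos (by simp [h]), List.cons_append, List.map_cons, prd_cons]

private theorem n1a_main {T : Type} [Semigroup T] (hid : ∀ x : T, x * x = x)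
    (hr : ∀ x y : T, x * y * x = y * x) (n : ℕ) : ∀ l l' : List ℕ, l.length ≤ n →
    (∀ φ : ℕ → R21, n1a_r φ l = n1a_r φ l') → ∀ φ : ℕ → T, prd (l.map φ) = prd (l'.map φ) := by
  induction n with
  | zero =>
    intro l l' hl h φ
    have h1 : l = [] := List.length_eq_zero_iff.1 (by omega)
    subst h1
    rcases List.eq_nil_or_concat l' with h2 | ⟨k', y, h2⟩
    · rw [h2]
    · have h3 := h (fun _ => .a)
      rw [h2, List.concat_eq_append, n1a_r_append, n1a_r_single, n1a_mul_ne _ (by decide)] at h3
      exact absurd h3 (by decide)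
  | succ n ih =>
    intro l l' hl h φ
    rcases List.eq_nil_or_concat l with h1 | ⟨k, x, h1⟩
    · exact ih l l' (by rw [h1]; simp) h φ
    rw [List.concat_eq_append] at h1
    rcases List.eq_nil_or_concat l' with h2 | ⟨k', y, h2⟩
    · have h3 := h (fun _ => .a)
      rw [h2, h1, n1a_r_append, n1a_r_single, n1a_mul_ne _ (by decide)] at h3
      exact absurd h3 (by decide)
    rw [List.concat_eq_append] at h2
    have hxy : y = x := by
      have h3 := h (fun z => if z = x then .a else .b)
      rw [h1, h2, n1a_r_append, n1a_r_single, n1a_r_append, n1a_r_single, if_pos rfl,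
        n1a_mul_ne _ (by decide), n1a_mul_ne _ (by split_ifs <;> decide)] at h3
      by_contra hne
      rw [if_neg hne] at h3
      exact absurd h3 (by decide)
    subst hxy
    have h4 : ∀ ψ : ℕ → R21, n1a_r ψ (k.filter (fun z => z ≠ y)) = n1a_r ψ (k'.filter (fun z => z ≠ y)) := by
      intro ψ
      have h5 := h (fun z => if z = y then .one else ψ z)
      rw [h1, h2, n1a_r_append, n1a_r_append, n1a_r_single, if_pos rfl, n1a_mul_one, n1a_mul_one,
        n1a_r_filter, n1a_r_filter] at h5
      exact h5
    have h6 : (k.filter (fun z => z ≠ y)).length ≤ n := by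
      refine (List.length_filter_le _ k).trans ?_
      rw [h1, List.length_append, List.length_singleton] at hl
      omega
    have h7 := ih _ _ h6 h4 φ
    rw [h1, h2, n1a_filter hid hr φ y k, n1a_filter hid hr φ y k', List.map_append, List.map_append,
      prd_append, prd_append, h7]

/-- PROOF: write `v φ l = prd (l.map φ)` (in `WithOne T`) for a list `l` of letters.
(1) `v φ (l ++ [a]) = v φ (l.filter (· ≠ a) ++ [a])`: induction on `l`; for `l = a :: l'` the left side is `φ a * v φ (l' ++ [a]) =
φ a * (v φ l'' * φ a)` with `l'' = l'.filter (· ≠ a)` (induction hypothesis), and `φ a * y * φ a = y * φ a` for `y : WithOne T` (`hr`, `hid`).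
(2) For `φ : ℕ → R21` let `r φ l : R21` be the product of `l.map φ` in the monoid `R21` (`foldr (· * ·) .one`).  Claim: if `r φ l = r φ l'` for all
`φ : ℕ → R21` then `v φ l = v φ l'` for all `φ : ℕ → T`.  Induction on the length of `l`.  If `l = []` then `l' = []` (take `φ` constant
`.a`), and vice versa.  Otherwise `l = k ++ [x]`, `l' = k' ++ [y]`; `x = y` (take `φ x = .a`, `φ z = .b` for `z ≠ x`: the product is the value of the last
letter).  Let `m = k.filter (· ≠ x)`, `m' = k'.filter (· ≠ x)`.  For `φ : ℕ → R21` let `φ' x = .one`, `φ' z = φ z` otherwise: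
`r φ m = r φ' l = r φ' l' = r φ m'`.  So by the induction hypothesis `v φ m = v φ m'` for all `φ : ℕ → T`, and by (1)
`v φ l = v φ m * φ x = v φ m' * φ x = v φ l'`.
(3) `coe_lift`: the value of a word `w` in `T` is `v φ (toL w)`, and in `R21` it is `r φ (toL w)`. -/
theorem holds_rrb {T : Type} [Semigroup T] (hid : ∀ x : T, x * x = x) (hr : ∀ x y : T, x * y * x = y * x)
    {p : Wd × Wd} (h : Holds R21 p) : Holds T p := by
  intro φ
  have h1 : ∀ ψ : ℕ → R21, n1a_r ψ (toL p.1) = n1a_r ψ (toL p.2) := by
    intro ψ
    rw [← n1a_r_lift, ← n1a_r_lift]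
    exact h ψ
  have h2 := n1a_main hid hr _ (toL p.1) (toL p.2) le_rfl h1 φ
  rw [← coe_lift, ← coe_lift, WithOne.coe_inj] at h2
  exact h2

end EVS
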