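import Pool.Agent.EVA.FN
import Pool.Agent.EVA.N1a

/-!
# [EVA-N1b] identities of `FN n`]
-/

set_option autoImplicit false

namespace EVS

/-- `b` is the last letter of `w` and occurs once -/
private def n1bR (b : ℕ) (w : Wd) : Prop :=
  w = FreeSemigroup.of b ∨ ∃ u : Wd, w = u * FreeSemigroup.of b ∧ b ∉ toL u

private theorem n1b_last (w : Wd) : (∃ b, w = FreeSemigroup.of b) ∨
    ∃ (u : Wd) (b : ℕ), w = u * FreeSemigroup.of b := by
  induction w using FreeSemigroup.recOnMul with
  | ih1 x => exact Or.inl ⟨x, rfl⟩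
  | ih2 x y hx hy =>
    rcases hy with ⟨b, rfl⟩ | ⟨u, b, rfl⟩
    · exact Or.inr ⟨_, b, rfl⟩
    · exact Or.inr ⟨FreeSemigroup.of x * u, b, (mul_assoc _ _ _).symm⟩

private theorem n1b_congr {T : Type} [Semigroup T] (φ ψ : ℕ → T) (w : Wd)
    (h : ∀ x ∈ toL w, φ x = ψ x) : FreeSemigroup.lift φ w = FreeSemigroup.lift ψ w := by
  rw [← WithOne.coe_inj, coe_lift, coe_lift]
  congr 1
  exact List.map_congr_left h

private theorem n1b_const {T : Type} [Semigroup T] (e : T) (he : e * e = e) (w : Wd) :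
    FreeSemigroup.lift (fun _ => e) w = e := by
  induction w using FreeSemigroup.recOnMul with
  | ih1 x => simp
  | ih2 x y hx hy => rw [map_mul, hx, hy, he]

/-- the assignment in the opposite of `P` -/
private def n1bψ (b : ℕ) : ℕ → Pᵐᵒᵖ := fun i => if i = b then MulOpposite.op P.y else MulOpposite.op P.f

private theorem P_mul_y : ∀ s t : P, s * t = P.y → s = P.y ∧ t = P.f := by decide

private theorem P_mul_f : ∀ s t : P, s * t = P.f → s = P.f ∧ t = P.f := by decide

private theorem n1b_f (b : ℕ) (w : Wd) (h : FreeSemigroup.lift (n1bψ b) w = MulOpposite.op P.f) :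
    b ∉ toL w := by
  induction w using FreeSemigroup.recOnMul with
  | ih1 x =>
    rw [FreeSemigroup.lift_of] at h
    rw [toL_of, List.mem_singleton]
    rintro rfl
    rw [n1bψ, if_pos rfl] at h
    exact absurd (MulOpposite.op_injective h) (by decide)
  | ih2 x y hx hy =>
    rw [map_mul] at h
    have h' := congrArg MulOpposite.unop h
    rw [MulOpposite.unop_mul, MulOpposite.unop_op] at h'
    obtain ⟨h1, h2⟩ := P_mul_f _ _ h'
    rw [toL_mul, List.mem_append, not_or]
    exact ⟨hx (MulOpposite.unop_injective h2), hy (MulOpposite.unop_injective h1)⟩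

private theorem n1b_R_iff (b : ℕ) (w : Wd) :
    FreeSemigroup.lift (n1bψ b) w = MulOpposite.op P.y ↔ n1bR b w := by
  constructor
  · intro h
    rcases n1b_last w with ⟨c, rfl⟩ | ⟨u, c, rfl⟩
    · rw [FreeSemigroup.lift_of] at h
      by_cases hc : c = b
      · subst hc
        exact Or.inl rfl
      · rw [n1bψ, if_neg hc] at h
        exact absurd (MulOpposite.op_injective h) (by decide)
    · rw [map_mul, FreeSemigroup.lift_of] at h
      have h' := congrArg MulOpposite.unop h
      rw [MulOpposite.unop_mul, MulOpposite.unop_op] at h'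
      obtain ⟨h1, h2⟩ := P_mul_y _ _ h'
      have hc : c = b := by
        by_contra hc
        rw [n1bψ, if_neg hc] at h1
        exact absurd h1 (by decide)
      subst hc
      exact Or.inr ⟨u, rfl, n1b_f c u (MulOpposite.unop_injective h2)⟩
  · rintro (rfl | ⟨u, rfl, hu⟩)
    · rw [FreeSemigroup.lift_of, n1bψ, if_pos rfl]
    · have h1 : FreeSemigroup.lift (n1bψ b) u = MulOpposite.op P.f := by
        rw [n1b_congr (n1bψ b) (fun _ => MulOpposite.op P.f) u, n1b_const _ (by decide)]
        intro x hx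
        have : x ≠ b := by
          rintro rfl
          exact hu hx
        rw [n1bψ, if_neg this]
      rw [map_mul, FreeSemigroup.lift_of, h1, n1bψ, if_pos rfl]
      decide

private theorem n1b_pi {n : ℕ} (φ : ℕ → FN n) (w : Wd) :
    (FreeSemigroup.lift φ w).pi = FreeSemigroup.lift (fun i => (φ i).pi) w :=
  map_lift (⟨FN.pi, FN.pi_mul⟩ : FN n →ₙ* RT) φ w

/-- the value is in `RT` -/
private def n1bG {n : ℕ} (x : FN n) : Prop := ∃ s, x = .t s

private theorem n1bG_right {n : ℕ} (x y : FN n) (h : n1bG y) : n1bG (x * y) := by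
  obtain ⟨s, rfl⟩ := h
  exact ⟨_, FN.mul_t x s⟩

private theorem n1bG_left {n : ℕ} (x y : FN n) (h : ¬ n1bG x) : n1bG (x * y) :=
  ⟨_, FN.mul_of_pi x y (fun s hs => h ⟨s, hs⟩)⟩

private theorem n1bG_mem {n : ℕ} (φ : ℕ → FN n) (b : ℕ) (hb : ¬ n1bG (φ b)) (u : Wd) (hu : b ∈ toL u) (y : FN n) :
    n1bG (FreeSemigroup.lift φ u * y) := by
  induction u using FreeSemigroup.recOnMul generalizing y with
  | ih1 x =>
    rw [toL_of, List.mem_singleton] at hu
    subst hu
    rw [FreeSemigroup.lift_of]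
    exact n1bG_left _ _ hb
  | ih2 x u hx ih =>
    rw [map_mul, mul_assoc]
    rw [toL_mul, List.mem_append] at hu
    rcases hu with hu | hu
    · exact hx hu _
    · exact n1bG_right _ _ (ih hu y)

private theorem n1bG_or {n : ℕ} (φ : ℕ → FN n) (w : Wd) :
    n1bG (FreeSemigroup.lift φ w) ∨ ∃ b, ¬ n1bG (φ b) ∧ n1bR b w := by
  rcases n1b_last w with ⟨c, rfl⟩ | ⟨u, c, rfl⟩
  · by_cases hc : n1bG (φ c)
    · left
      rwa [FreeSemigroup.lift_of]
    · exact Or.inr ⟨c, hc, Or.inl rfl⟩
  · by_cases hc : n1bG (φ c)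
    · left
      rw [map_mul, FreeSemigroup.lift_of]
      exact n1bG_right _ _ hc
    · by_cases hu : c ∈ toL u
      · left
        rw [map_mul]
        exact n1bG_mem φ c hc u hu _
      · exact Or.inr ⟨c, hc, Or.inr ⟨u, rfl, hu⟩⟩

private theorem n1b_R21 (b : ℕ) (w : Wd) (hb : b ∉ toL w) :
    FreeSemigroup.lift (fun i => if i = b then R21.one else R21.a) w = R21.a := by
  rw [n1b_congr _ (fun _ => R21.a) w, n1b_const _ (by decide)]
  intro x hx
  have : x ≠ b := by
    rintro rfl
    exact hb hx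
  simp [this]

private theorem n1b_ac_e {n : ℕ} (x : FN n) (hx : ¬ n1bG x) : FN.ac .e x = x := by
  cases x with
  | t s => exact absurd ⟨s, rfl⟩ hx
  | v i => rfl
  | z i => rfl

/-- the main case -/
private theorem n1b_main {n : ℕ} {p : Wd × Wd} (hR : Holds R21 p) (hP : Holds Pᵐᵒᵖ p)
    (φ : ℕ → FN n) (b : ℕ) (hb : ¬ n1bG (φ b)) (h1 : n1bR b p.1) :
    FreeSemigroup.lift φ p.1 = FreeSemigroup.lift φ p.2 := by
  have h2 : n1bR b p.2 := by
    rw [← n1b_R_iff, ← hP (n1bψ b), n1b_R_iff]
    exact h1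
  have hr := hR (fun i => if i = b then R21.one else R21.a)
  rcases h1 with h1 | ⟨u, h1, hu⟩
  · rcases h2 with h2 | ⟨w, h2, hw⟩
    · rw [h1, h2]
    · rw [h1, h2, map_mul, FreeSemigroup.lift_of, n1b_R21 b w hw, if_pos rfl] at hr
      exact absurd hr (by decide)
  · rcases h2 with h2 | ⟨w, h2, hw⟩
    · rw [h1, h2, map_mul, FreeSemigroup.lift_of, n1b_R21 b u hu, if_pos rfl] at hr
      exact absurd hr (by decide)
    · have hT : Holds RT p := holds_rrb RT.idem RT.rrb hR
      have ht := hT (fun i => if i = b then RT.e else (φ i).pi)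
      have key : ∀ v : Wd, b ∉ toL v →
          FreeSemigroup.lift (fun i => if i = b then RT.e else (φ i).pi) v =
            (FreeSemigroup.lift φ v).pi := by
        intro v hv
        rw [n1b_pi]
        apply n1b_congr
        intro x hx
        have : x ≠ b := by
          rintro rfl
          exact hv hx
        simp [this]
      rw [h1, h2, map_mul, map_mul, FreeSemigroup.lift_of, key u hu, key w hw, if_pos rfl] at ht
      rw [h1, h2, map_mul, map_mul, FreeSemigroup.lift_of, FN.mul_def, FN.mul_def]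
      conv_lhs => rw [← n1b_ac_e (φ b) hb]
      conv_rhs => rw [← n1b_ac_e (φ b) hb]
      rw [FN.ac_ac, FN.ac_ac, ht]

/-- Compare `holds_WW` in `EVS/WWV.lean` (the dual situation).
PROOF: `Holds RT p` by `holds_rrb` (`RT.idem`, `RT.rrb`).  Let `φ : ℕ → FN n`; `FN.pi` is multiplicative (`FN.pi_mul`), so both sides
of the identity have the same image `s` under `FN.pi` (`map_lift`).
(1) Let `w` be a word with last letter `b`.  If `φ b = .t s'` then the value of `w` is `.t s` (`FN.mul_t`; clear if `w` is one letter).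
If `φ b` is not in `RT` and `b` occurs at least twice in `w`: `w = w1 b w2 b`, the value of `b w2 b` is in `RT` (`FN.mul_of_pi`), and so is the value of
`w`; so it is `.t s`.
(2) `Pᵐᵒᵖ` (`Holds Pᵐᵒᵖ p`): `f y = y`, `y f = 0`, `y y = 0` in `Pᵐᵒᵖ`.  With `b ↦ y` and all other letters `↦ f`: `b` is the last letter of `p.1` and
occurs once in `p.1` iff the same is true for `p.2` (the value is `y`).
(3) If the last letter `b` of `p.1` occurs once in `p.1` and `φ b` is not in `RT`: by (2) `p.1 = u b`, `p.2 = w b`, `b` not in `u`, `w` (lists of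
letters).  If `u` is empty then so is `w` (contents of `p.1` and `p.2` are equal: evaluate in `Pᵐᵒᵖ` with a letter `x ↦ 0`, others `↦ f`), the two words are
equal.  Otherwise the values are `FN.ac s1 (φ b)`, `FN.ac s2 (φ b)` with `s1`, `s2` the values of `u`, `w` under `FN.pi ∘ φ`, and
`FN.ac s1 (φ b) = FN.ac (s1 * .e) (φ b)` (`FN.ac_ac`, `FN.ac .e y = y` for `y` not in `RT`), and `s1 * .e = s2 * .e`: `Holds RT p` for the assignment
`FN.pi ∘ φ` changed at `b` to `.e`.
(4) Otherwise, by (2), the same is true for `p.2`, and both values are `.t s` by (1). -/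
theorem holds_FN {p : Wd × Wd} (hR : Holds R21 p) (hP : Holds Pᵐᵒᵖ p) (n : ℕ) : Holds (FN n) p := by
  intro φ
  rcases n1bG_or φ p.1 with ⟨s, hs⟩ | ⟨b, hb, h1⟩
  · rcases n1bG_or φ p.2 with ⟨s', hs'⟩ | ⟨b, hb, h1⟩
    · have hT : Holds RT p := holds_rrb RT.idem RT.rrb hR
      have ht := hT (fun i => (φ i).pi)
      rw [← n1b_pi, ← n1b_pi, hs, hs'] at ht
      rw [hs, hs']
      exact congrArg FN.t ht
    · have hR' : Holds R21 (p.2, p.1) := fun ψ => (hR ψ).symm
      have hP' : Holds Pᵐᵒᵖ (p.2, p.1) := fun ψ => (hP ψ).symm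
      exact (n1b_main hR' hP' φ b hb h1).symm
  · exact n1b_main hR hP φ b hb h1

end EVS
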