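import Pool.Agent.EVA.FN

/-!
# [EVA-N2b] endomorphisms of `FN n`: the path]
-/

set_option autoImplicit false

namespace EVS

private theorem n2b_vtx_inj {n a b : ℕ} (ha : a ≤ n) (hb : b ≤ n) (h : FN.vtx n a = FN.vtx n b) :
    a = b := by
  unfold FN.vtx at h
  by_cases h1 : 1 ≤ a ∧ a ≤ n
  · by_cases h2 : 1 ≤ b ∧ b ≤ n
    · rw [dif_pos h1, dif_pos h2] at h
      injection h with h3
      have h4 := congrArg Fin.val h3
      simp only at h4
      omega
    · rw [dif_pos h1, dif_neg h2] at h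
      cases h
  · by_cases h2 : 1 ≤ b ∧ b ≤ n
    · rw [dif_neg h1, dif_pos h2] at h
      cases h
    · omega

private theorem n2b_vtx_zero (n : ℕ) : FN.vtx n 0 = .t (.k 6) := by
  unfold FN.vtx
  rw [dif_neg (by omega)]

private theorem n2b_vtx_last (n : ℕ) : FN.vtx n (n + 1) = .t (.k 6) := by
  unfold FN.vtx
  rw [dif_neg (by omega)]

private theorem n2b_vtx_v {n : ℕ} (i : Fin n) : FN.vtx n (i.val + 1) = .v i := by
  unfold FN.vtx
  rw [dif_pos (by omega)]
  rfl

private theorem n2b_cases {n : ℕ} (ψ : FN n →ₙ* FN n) (h0 : ψ (.t .d0) = .t .d0)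
    (h1 : ψ (.t .d1) = .t .d1)
    (hA : ∀ x : FN n, (∀ s, x ≠ .t s) → (∀ s, ψ x ≠ .t s) ∨ ψ x = .t (.k 6)) (i : Fin (n + 1)) :
    ((∀ j, ψ (.z i) ≠ .z j) ∧ ψ (FN.vtx n i.val) = ψ (.z i) ∧ ψ (FN.vtx n (i.val + 1)) = ψ (.z i)) ∨
    ∃ j : Fin (n + 1), ψ (.z i) = .z j ∧ ψ (FN.vtx n i.val) = FN.vtx n j.val ∧
      ψ (FN.vtx n (i.val + 1)) = FN.vtx n (j.val + 1) := by
  have e0 : ψ (FN.vtx n i.val) = .t .d0 * ψ (.z i) := by
    rw [← h0, ← map_mul]
    rfl
  have e1 : ψ (FN.vtx n (i.val + 1)) = .t .d1 * ψ (.z i) := by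
    rw [← h1, ← map_mul]
    rfl
  rw [e0, e1]
  have h6 : ψ (.z i) = .t (.k 6) ∨ (∃ j, ψ (.z i) = .v j) ∨ ∃ j, ψ (.z i) = .z j := by
    rcases hA (.z i) (by intro s h; cases h) with h | h
    · right
      cases hx : ψ (.z i) with
      | t s => exact absurd hx (h s)
      | v j => exact Or.inl ⟨j, rfl⟩
      | z j => exact Or.inr ⟨j, rfl⟩
    · exact Or.inl h
  rcases h6 with h | ⟨j, h⟩ | ⟨j, h⟩
  · left
    rw [h]
    refine ⟨(fun j h' => by cases h'), ?_, ?_⟩
    · exact congrArg FN.t (show RT.d0 * RT.k 6 = RT.k 6 by decide)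
    · exact congrArg FN.t (show RT.d1 * RT.k 6 = RT.k 6 by decide)
  · left
    rw [h]
    exact ⟨(fun j h' => by cases h'), rfl, rfl⟩
  · right
    refine ⟨j, h, ?_, ?_⟩
    · rw [h]
      rfl
    · rw [h]
      rfl


/-- An endomorphism which fixes `k 6`, `d0`, `d1` maps all vertices and edges to `k 6` or is the identity on them.
PROOF: for `i ≤ n + 1` let `y i = ψ (vtx n i)`; `y 0 = y (n+1) = .t (k 6)`.  `.t d0 * z i = vtx n i`, `.t d1 * z i = vtx n (i+1)` for `i ≤ n`, so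
`.t d0 * ψ (z i) = y i`, `.t d1 * ψ (z i) = y (i+1)`.  Call `i ≤ n` good if `ψ (z i)` is some `z j`.  If `i` is not good then `ψ (z i)` is some `v j` or
`.t (k 6)` (`hA`), so `y i = ψ (z i) = y (i+1)`.  If `ψ (z i) = z j` then `y i = vtx n j`, `y (i+1) = vtx n (j+1)`.
Let `g i` be the number of good `i' < i`; `g i ≤ i`.  Claim: `y i = vtx n (g i)` for `i ≤ n + 1`.  Induction: clear for `i = 0`.  If `i ≤ n` is not good:
`y (i+1) = y i`.  If `ψ (z i) = z j`: `vtx n j = y i = vtx n (g i)`, `j, g i ≤ n`, so `j = g i` (`vtx n` is injective on `0, ..., n`), `y (i+1) = vtx n (g i + 1)`.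
`vtx n (g (n+1)) = y (n+1) = .t (k 6)` and `g (n+1) ≤ n + 1`, so `g (n+1) = 0` or `g (n+1) = n + 1`.
If `g (n+1) = 0` no `i` is good, all `y i = .t (k 6)` and all `ψ (z i) = y i = .t (k 6)` (`v j = vtx n (j+1)`).
If `g (n+1) = n + 1` all `i ≤ n` are good, `g i = i`, `y i = vtx n i` (so `ψ (v i) = v i`), and `ψ (z i) = z j` with `j = g i = i`. -/
theorem fn_path {n : ℕ} (ψ : FN n →ₙ* FN n) (hc : ψ (.t (.k 6)) = .t (.k 6)) (h0 : ψ (.t .d0) = .t .d0)
    (h1 : ψ (.t .d1) = .t .d1) (hA : ∀ x : FN n, (∀ s, x ≠ .t s) → (∀ s, ψ x ≠ .t s) ∨ ψ x = .t (.k 6)) :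
    (∀ x : FN n, (∀ s, x ≠ .t s) → ψ x = .t (.k 6)) ∨ (∀ x : FN n, (∀ s, x ≠ .t s) → ψ x = x) := by
  classical
  let good : ℕ → Prop := fun i => ∃ h : i < n + 1, ∃ j, ψ (.z ⟨i, h⟩) = .z j
  have hbad : ∀ (i : ℕ) (h : i < n + 1), ¬ good i →
      ψ (FN.vtx n i) = ψ (.z ⟨i, h⟩) ∧ ψ (FN.vtx n (i + 1)) = ψ (.z ⟨i, h⟩) := by
    intro i h hg
    rcases n2b_cases ψ h0 h1 hA ⟨i, h⟩ with h2 | ⟨j, h2, -, -⟩
    · exact h2.2
    · exact absurd ⟨h, j, h2⟩ hg
  have hgood : ∀ (i : ℕ) (h : i < n + 1), good i → ∃ j : Fin (n + 1), ψ (.z ⟨i, h⟩) = .z j ∧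
      ψ (FN.vtx n i) = FN.vtx n j.val ∧ ψ (FN.vtx n (i + 1)) = FN.vtx n (j.val + 1) := by
    rintro i h ⟨h', j, hj⟩
    rcases n2b_cases ψ h0 h1 hA ⟨i, h⟩ with h2 | h2
    · exact absurd hj (h2.1 j)
    · exact h2
  have hy : ∀ i, i ≤ n + 1 → ψ (FN.vtx n i) = FN.vtx n (Nat.count good i) := by
    intro i
    induction i with
    | zero =>
      intro _
      rw [Nat.count_zero, n2b_vtx_zero, hc]
    | succ i ih =>
      intro hi
      have h2 := ih (by omega)
      by_cases hg : good i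
      · obtain ⟨j, -, h3, h4⟩ := hgood i (by omega) hg
        have h5 : j.val = Nat.count good i :=
          n2b_vtx_inj (by omega) ((Nat.count_le good).trans (by omega)) (h3.symm.trans h2)
        rw [h4, Nat.count_succ, if_pos hg, h5]
      · obtain ⟨h3, h4⟩ := hbad i (by omega) hg
        rw [h4, ← h3, h2, Nat.count_succ, if_neg hg, add_zero]
  have hlast := hy (n + 1) le_rfl
  rw [n2b_vtx_last, hc] at hlast
  have hcount : Nat.count good (n + 1) = 0 ∨ Nat.count good (n + 1) = n + 1 := by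
    by_contra hcon
    push Not at hcon
    have h2 : Nat.count good (n + 1) ≤ n + 1 := Nat.count_le good
    unfold FN.vtx at hlast
    rw [dif_pos ⟨by omega, by omega⟩] at hlast
    cases hlast
  rcases hcount with hcount | hcount
  · left
    have hnot : ∀ m, m < n + 1 → ¬ good m := fun m hm => Nat.count_iff_forall_not.1 hcount m hm
    have hk : ∀ i, i ≤ n + 1 → ψ (FN.vtx n i) = .t (.k 6) := by
      intro i hi
      have h2 : Nat.count good i = 0 :=
        Nat.count_iff_forall_not.2 fun m hm => hnot m (lt_of_lt_of_le hm hi)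
      rw [hy i hi, h2, n2b_vtx_zero]
    intro x hx
    cases x with
    | t s => exact absurd rfl (hx s)
    | v i =>
      rw [← n2b_vtx_v i]
      exact hk _ (by omega)
    | z i =>
      rw [← (hbad i.val i.2 (hnot _ i.2)).1]
      exact hk _ (by omega)
  · right
    have hall : ∀ m, m < n + 1 → good m := fun m hm => Nat.count_iff_forall.1 hcount m hm
    have hk : ∀ i, i ≤ n + 1 → ψ (FN.vtx n i) = FN.vtx n i := by
      intro i hi
      have h2 : Nat.count good i = i :=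
        Nat.count_iff_forall.2 fun m hm => hall m (lt_of_lt_of_le hm hi)
      rw [hy i hi, h2]
    intro x hx
    cases x with
    | t s => exact absurd rfl (hx s)
    | v i =>
      have h2 := hk (i.val + 1) (by omega)
      rwa [n2b_vtx_v i] at h2
    | z i =>
      obtain ⟨j, h3, h4, -⟩ := hgood i.val i.2 (hall _ i.2)
      have h5 : j.val = i.val :=
        n2b_vtx_inj (by omega) (by omega) (h4.symm.trans (hk i.val (by omega)))
      have h6 : j = i := Fin.ext h5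
      rw [← h6]
      rw [← h6] at h3
      exact h3

end EVS
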