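import Pool.Agent.EVA.N2a
import Pool.Agent.EVA.N2b

/-!
# [EVA-N2c] `FN n` has few endomorphisms]
-/

set_option autoImplicit false

namespace EVS

private theorem n2c_out {n : ℕ} {x : FN n} (h : ¬ ∀ s, x ≠ .t s) : ∃ s, x = .t s := by
  by_contra h'
  exact h fun s hs => h' ⟨s, hs⟩

private theorem n2c_idem {n : ℕ} {w : FN n} (h : w * w = w) : w = .t w.pi := by
  by_cases hw : ∀ s, w ≠ .t s
  · rw [FN.mul_of_pi w w hw] at h
    exact absurd h.symm (hw _)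
  · obtain ⟨s, hs⟩ := n2c_out hw
    rw [hs]
    rfl

private theorem n2c_sq {n : ℕ} {x : FN n} (hx : ∀ s, x ≠ .t s) : x * x = .t (.k 6) := by
  rw [FN.mul_of_pi x x hx]
  cases x with
  | t s => exact absurd rfl (hx s)
  | v i => rfl
  | z i => rfl

private theorem n2c_tt {n : ℕ} (s : RT) : (.t s : FN n) * .t s = .t s := by
  rw [FN.mul_t]
  show FN.t (s * s) = _
  rw [RT.idem]

private theorem n2c_t {n : ℕ} (ψ : FN n →ₙ* FN n) (s : RT) : ψ (.t s) = .t (ψ (.t s)).pi := by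
  apply n2c_idem
  rw [← map_mul, n2c_tt]

private theorem n2c_b {n : ℕ} (ψ : FN n →ₙ* FN n) {x : FN n} (hx : ∀ s, x ≠ .t s) :
    (∀ s, ψ x ≠ .t s) ∧ ψ (.t (.k 6)) = .t (.k 6) ∨ ψ x = ψ (.t (.k 6)) := by
  have h1 : ψ (.t (.k 6)) = ψ x * ψ x := by rw [← map_mul, n2c_sq hx]
  by_cases hw : ∀ s, ψ x ≠ .t s
  · left
    refine ⟨hw, ?_⟩
    rw [h1, n2c_sq hw]
  · right
    obtain ⟨s, hs⟩ := n2c_out hw
    rw [h1, hs, n2c_tt]

private theorem n2c_e {n : ℕ} {x : FN n} (hx : ∀ s, x ≠ .t s) : (.t .e : FN n) * x = x := by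
  rw [FN.mul_def]
  cases x with
  | t s => exact absurd rfl (hx s)
  | v i => rfl
  | z i => rfl

private theorem n2c_c {n : ℕ} (ψ : FN n →ₙ* FN n) {x0 : FN n} (hx : ∀ s, x0 ≠ .t s)
    (hψ : ∀ s, ψ x0 ≠ .t s) (x : FN n) (hx' : ∀ s, x ≠ .t s) : ψ x = x := by
  have hc : ψ (.t (.k 6)) = .t (.k 6) := by
    rcases n2c_b ψ hx with h | h
    · exact h.2
    · rw [n2c_t ψ (.k 6)] at h
      exact absurd h (hψ _)
  have he : (ψ (.t .e)).pi = .e ∨ (ψ (.t .e)).pi = .d0 ∨ (ψ (.t .e)).pi = .d1 := by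
    by_contra hne
    have h1 : ψ (.t .e) * ψ x0 = ψ x0 := by rw [← map_mul, n2c_e hx]
    rw [FN.mul_def, FN.ac_else _ _ hne hψ] at h1
    exact hψ _ h1.symm
  obtain ⟨-, h0, h1⟩ := rt_alive ⟨fun s => (ψ (.t s)).pi, fun a b => by
    show (ψ (.t (a * b))).pi = (ψ (.t a)).pi * (ψ (.t b)).pi
    have e1 : (.t (a * b) : FN n) = .t a * .t b := rfl
    rw [e1, map_mul, FN.pi_mul]⟩ (by
    show (ψ (.t (.k 6))).pi = .k 6
    rw [hc]; rfl) he
  have h0' : (ψ (.t .d0)).pi = .d0 := h0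
  have h1' : (ψ (.t .d1)).pi = .d1 := h1
  rcases fn_path ψ hc (by rw [n2c_t ψ .d0, h0']) (by rw [n2c_t ψ .d1, h1']) (fun y hy => by
    rcases n2c_b ψ hy with h | h
    · exact Or.inl h.1
    · exact Or.inr (h.trans hc)) with h | h
  · exact absurd (h x0 hx) (hψ _)
  · exact h x hx'

/-- the code of an endomorphism -/
private noncomputable def n2c_code (n : ℕ) (ψ : FN n →ₙ* FN n) : (RT → RT) × Bool := by
  classical
  exact (fun s => (ψ (.t s)).pi, decide (∃ x : FN n, (∀ s, x ≠ .t s) ∧ (∀ s, ψ x ≠ .t s)))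

private theorem n2c_inj (n : ℕ) : Function.Injective (n2c_code n) := by
  intro ψ ψ' hc
  have hc1 : ∀ s, (ψ (.t s)).pi = (ψ' (.t s)).pi := fun s => congrFun (congrArg Prod.fst hc) s
  have hc2 : (∃ x : FN n, (∀ s, x ≠ .t s) ∧ (∀ s, ψ x ≠ .t s)) ↔
      (∃ x : FN n, (∀ s, x ≠ .t s) ∧ (∀ s, ψ' x ≠ .t s)) := by
    have := congrArg Prod.snd hc
    simpa only [n2c_code, decide_eq_decide] using this
  have ht : ∀ s, ψ (.t s) = ψ' (.t s) := fun s => by rw [n2c_t ψ s, n2c_t ψ' s, hc1 s]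
  apply MulHom.ext
  intro x
  by_cases hx : ∀ s, x ≠ .t s
  · by_cases htr : ∃ x : FN n, (∀ s, x ≠ .t s) ∧ (∀ s, ψ x ≠ .t s)
    · obtain ⟨y, hy, hy'⟩ := htr
      obtain ⟨z, hz, hz'⟩ := hc2.1 ⟨y, hy, hy'⟩
      rw [n2c_c ψ hy hy' x hx, n2c_c ψ' hz hz' x hx]
    · have htr' : ¬ ∃ x : FN n, (∀ s, x ≠ .t s) ∧ (∀ s, ψ' x ≠ .t s) := fun h => htr (hc2.2 h)
      have e1 : ψ x = ψ (.t (.k 6)) := by
        rcases n2c_b ψ hx with h | h
        · exact absurd ⟨x, hx, h.1⟩ htr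
        · exact h
      have e2 : ψ' x = ψ' (.t (.k 6)) := by
        rcases n2c_b ψ' hx with h | h
        · exact absurd ⟨x, hx, h.1⟩ htr'
        · exact h
      rw [e1, e2, ht]
  · obtain ⟨s, hs⟩ := n2c_out hx
    rw [hs, ht]

/-- PROOF: (see `nEnd_WW` in `EVS/WWE.lean` for the pattern).  The code of `ψ : FN n →ₙ* FN n` is the map `s ↦ (ψ (.t s)).pi`, `RT → RT`, together with the
truth value of `∃ x, (∀ s, x ≠ .t s) ∧ (∀ s, ψ x ≠ .t s)`.  The code determines `ψ`, so `nEnd (FN n) ≤ Nat.card ((RT → RT) × Bool)`: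
(a) `.t s` is idempotent (`RT.idem`), and `x * x = .t (k 6) ≠ x` for `x` not in `RT` (`FN.mul_of_pi`), so `ψ (.t s)` is in `RT`:
`ψ (.t s) = .t (ψ (.t s)).pi`, and `s ↦ (ψ (.t s)).pi` is an endomorphism of `RT`.
(b) let `x` be not in `RT`.  If `ψ x` is in `RT` it is idempotent, so `ψ x = ψ (x * x) = ψ (.t (k 6))`.  If not, `ψ (.t (k 6)) = ψ x * ψ x = .t (k 6)`.
So if the truth value is false then `ψ x = ψ (.t (k 6))` for all `x` not in `RT`.
(c) if it is true then `ψ (.t (k 6)) = .t (k 6)`, and `.t e * x = x` gives `ψ (.t e) * ψ x = ψ x` so `ψ (.t e)` is `e`, `d0` or `d1` (`FN.ac_else`); `rt_alive`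
and `fn_path` (the first case of `fn_path` is impossible) show that `ψ` is the identity on the elements outside `RT`. -/
theorem nEnd_FN : ∃ B : ℕ, ∀ n : ℕ, nEnd (FN n) ≤ B := by
  refine ⟨Nat.card ((RT → RT) × Bool), fun n => ?_⟩
  exact Nat.card_le_card_of_injective _ (n2c_inj n)

end EVS
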