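import Pool.Agent.EVA.F1

/-!
# [EVA-R5] the orthodox case]
-/

set_option autoImplicit false

namespace EVS

variable {S : Type} [Semigroup S] [Finite S]

/-- The orthodox case.  PROOF: at most `c = nEnd S` idempotents (`card_idem_le`).
(1) every `s` is regular: `s = p k r` (`hm`) with `k` idempotent, `a = p k`, `b = k r`, `s = a b`; there are `a'`, `b'` with
`a a' a = a` (`hp`), `b b' b = b` (`hq`).  `g = a' a`, `g' = b b'` are idempotent, `a g = a`, `g' b = b`, `g g'` is
idempotent (`hE`).  `s (b' a') s = a b b' a' a b = a g' g b = (a g) g' g (g' b) = a (g g')(g g') b = a g g' b = a b = s`.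
(2) so every `s` has an inverse: for `s y s = s` let `s' = y s y`: `s s' s = s`, `s' s s' = s'`.  Choose `s'` for every `s`
and map `s` to `(s s', s' s)`, a pair of idempotents.  This is injective: let `e = s s' = t t'`, `f = s' s = t' t`.
`u = t' s`: `f u = t' t t' s = u`, `u f = t' s s' s = u`, so `u = f u f` is idempotent (`hL`).  `v = s' t`:
`u v = t' (s s') t = t' (t t') t = t' t = f` (`t' t t' t = t' t`).  So `f = u v = u u v = u f = u`.  `t u = t t' s = s s' s = s`, and
`t u = t f = t t' t = t`, so `s = t`. -/
theorem case20 (hL : Loc S) (hE : IdC S) (hm : ∀ s : S, ∃ p e r : S, e * e = e ∧ s = p * e * r)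
    (hp : ∀ s e : S, e * e = e → ∃ t, (s * e) * t * (s * e) = s * e)
    (hq : ∀ s e : S, e * e = e → ∃ t, (e * s) * t * (e * s) = e * s) : Nat.card S ≤ nEnd S * nEnd S := by
  -- every element is regular
  have hreg : ∀ s : S, ∃ y : S, s * y * s = s := by
    intro s
    obtain ⟨p, k, r, hk, hs⟩ := hm s
    obtain ⟨a', ha'⟩ := hp p k hk
    obtain ⟨b', hb'⟩ := hq r k hk
    set a := p * k with ha
    set b := k * r with hb
    have hsab : s = a * b := by
      rw [hs, ha, hb, mul_assoc p k (k * r), ← mul_assoc k k r, hk, mul_assoc]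
    have hg : (a' * a) * (a' * a) = a' * a := by
      rw [mul_assoc, ← mul_assoc a, ha']
    have hg' : (b * b') * (b * b') = b * b' := by
      rw [← mul_assoc, hb']
    have hgg := hE _ _ hg hg'
    refine ⟨b' * a', ?_⟩
    calc s * (b' * a') * s = a * b * (b' * a') * (a * b) := by rw [← hsab]
      _ = a * ((b * b') * (a' * a)) * b := by simp only [mul_assoc]
      _ = (a * a' * a) * ((b * b') * (a' * a)) * (b * b' * b) := by rw [ha', hb']
      _ = a * (((a' * a) * (b * b')) * ((a' * a) * (b * b'))) * b := by simp only [mul_assoc]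
      _ = a * ((a' * a) * (b * b')) * b := by rw [hgg]
      _ = (a * a' * a) * (b * b' * b) := by simp only [mul_assoc]
      _ = s := by rw [ha', hb', ← hsab]
  have hinv : ∀ s : S, ∃ s' : S, s * s' * s = s ∧ s' * s * s' = s' := by
    intro s
    obtain ⟨y, hy⟩ := hreg s
    refine ⟨y * s * y, ?_, ?_⟩
    · calc s * (y * s * y) * s = (s * y * s) * y * s := by simp only [mul_assoc]
        _ = s := by rw [hy, hy]
    · calc y * s * y * s * (y * s * y) = y * (s * y * s) * (y * s * y) := by simp only [mul_assoc]
        _ = y * (s * y * s) * y := by rw [hy]; simp only [mul_assoc]; rw [← mul_assoc s y (s * y), ← mul_assoc (s * y) s y, hy]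
        _ = y * s * y := by rw [hy]
  choose i hi1 hi2 using hinv
  have e1 : ∀ s : S, (s * i s) * (s * i s) = s * i s := fun s => by
    rw [← mul_assoc, hi1]
  have e2 : ∀ s : S, (i s * s) * (i s * s) = i s * s := fun s => by
    rw [← mul_assoc, hi2]
  have hinj : Function.Injective (fun s : S =>
      ((⟨s * i s, e1 s⟩, ⟨i s * s, e2 s⟩) : {e : S // e * e = e} × {e : S // e * e = e})) := by
    intro s t h
    simp only [Prod.mk.injEq, Subtype.mk.injEq] at h
    obtain ⟨h1, h2⟩ := h
    have hfu : (i t * t) * (i t * s) = i t * s := by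
      rw [← mul_assoc (i t * t) (i t) s, hi2]
    have huf : (i t * s) * (i s * s) = i t * s := by
      rw [mul_assoc (i t) s (i s * s), ← mul_assoc s (i s) s, hi1]
    have hu : (i t * s) * (i t * s) = i t * s := by
      have h3 := hL (i s * s) (i t * s) (e2 s)
      have h4 : (i s * s) * (i t * s) * (i s * s) = i t * s := by
        rw [h2, hfu, ← h2, huf]
      rwa [h4] at h3
    have huv : (i t * s) * (i s * t) = i t * t := by
      calc (i t * s) * (i s * t) = i t * (s * i s) * t := by simp only [mul_assoc]
        _ = i t * (t * i t) * t := by rw [h1]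
        _ = (i t * t * i t) * t := by simp only [mul_assoc]
        _ = i t * t := by rw [hi2]
    have hf : i t * t = i t * s := by
      calc i t * t = (i t * s) * (i s * t) := huv.symm
        _ = (i t * s) * (i t * s) * (i s * t) := by rw [hu]
        _ = (i t * s) * ((i t * s) * (i s * t)) := by rw [mul_assoc]
        _ = (i t * s) * (i t * t) := by rw [huv]
        _ = (i t * s) * (i s * s) := by rw [h2]
        _ = i t * s := huf
    calc s = (s * i s) * s := (hi1 s).symm
      _ = (t * i t) * s := by rw [h1]
      _ = t * (i t * s) := by rw [mul_assoc]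
      _ = t * (i t * t) := by rw [hf]
      _ = t := by rw [← mul_assoc, hi1]
  have h1 := Nat.card_le_card_of_injective _ hinj
  rw [Nat.card_prod] at h1
  exact h1.trans (Nat.mul_le_mul card_idem_le card_idem_le)

end EVS
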