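import Pool.Agent.EVA.Z3
import Pool.Agent.EVS.Lst

/-!
# [EVA-Z5] the case of a semigroup with an indecomposable element]
-/

set_option autoImplicit false

namespace EVS

private theorem z5_list {S : Type} [Semigroup S] {R : ℕ} {s : S}
    (h : ∀ l : List S, R ≤ l.length → prd l ≠ (s : WithOne S)) :
    ∀ (k : ℕ) (l : List S), R ≤ l.length + k → prd l = (s : WithOne S) →
      ∃ l' : List S, l'.length ≤ R ∧ (∀ a ∈ l', a ∈ {g : S | Indec g}) ∧ prd l' = (s : WithOne S) := by
  intro k
  induction k with
  | zero => intro l hl h1; exact absurd h1 (h l hl)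
  | succ k ih =>
    intro l hl h1
    by_cases hall : ∀ a ∈ l, Indec a
    · refine ⟨l, ?_, hall, h1⟩
      by_contra hc
      exact h l (by omega) h1
    · push Not at hall
      obtain ⟨a, ha, hna⟩ := hall
      have hpq : ∃ p q : S, p * q = a := by
        by_contra hc
        push Not at hc
        exact hna hc
      obtain ⟨p, q, hpq⟩ := hpq
      obtain ⟨l1, l2, rfl⟩ := List.append_of_mem ha
      refine ih (l1 ++ p :: q :: l2) ?_ ?_
      · simp only [List.length_append, List.length_cons] at hl ⊢
        omega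
      · rw [← h1, prd_append, prd_append, prd_cons, prd_cons, prd_cons, ← mul_assoc (p : WithOne S),
          ← WithOne.coe_mul, hpq]

/-- PROOF: `R` from `long_inI c` (we may assume `1 ≤ R`), `n = (2 c)(2 c) + (c + 1) ^ R`.  If `¬ Sq S` there is an indecomposable `g`.
Let `s` be not in `I`.  All lists `l` with `prd l = s` are shorter than `R`; take one of maximal length (`[s]` is one).  All its entries
are indecomposable: if `a = p q` is an entry, replace `a` by `p, q` to get a longer list.  So `s` is the product of a list of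
length less than `R` of elements of `{g // Indec g}`, a set with at most `c` elements (`card_indec_le'`); there are at most
`(c + 1) ^ R` such lists (as functions `Fin R → Option {g // Indec g}`).  And `I` has at most `(2 c)(2 c)` elements (`card_InI_le`). -/
theorem caseA (c : ℕ) : ∃ n : ℕ, ∀ (S : Type) [Semigroup S] [Finite S], Loc S → ¬ Sq S →
    nEnd S ≤ c → Nat.card S ≤ n := by
  obtain ⟨R, hR⟩ := long_inI c
  refine ⟨(2 * c) * (2 * c) + (c + 1) ^ R, ?_⟩
  intro S _ _ hL hSq hc
  obtain ⟨g, hg⟩ : ∃ g : S, Indec g := by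
    by_contra hcon
    apply hSq
    intro s
    by_contra h2
    push Not at h2
    exact hcon ⟨s, fun p q h => h2 p q h.symm⟩
  have hcov : ∀ s : S, s ∈ {s : S | InI s} ∪ {x : S | ∃ l : List S, l.length ≤ R ∧
      (∀ a ∈ l, a ∈ {g : S | Indec g}) ∧ prd l = (x : WithOne S)} := by
    intro s
    by_cases hs : InI s
    · exact Or.inl hs
    · refine Or.inr ?_
      refine z5_list (fun l hl hp => hs (hR S hL ⟨g, hg⟩ hc l s hl hp)) R [s] (by simp) (prd_singleton s)
  have h1 : Nat.card {s : S // InI s} ≤ (2 * c) * (2 * c) :=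
    le_trans (card_InI_le hL hg) (Nat.mul_le_mul (by omega) (by omega))
  have h2 : Nat.card {x : S // ∃ l : List S, l.length ≤ R ∧
      (∀ a ∈ l, a ∈ {g : S | Indec g}) ∧ prd l = (x : WithOne S)} ≤ (c + 1) ^ R := by
    refine le_trans (card_prd_le {g : S | Indec g} R) (Nat.pow_le_pow_left ?_ R)
    have h3 : Nat.card {g : S | Indec g} ≤ nEnd S := card_indec_le' hL
    omega
  have h4 : Nat.card S = (({s : S | InI s} ∪ {x : S | ∃ l : List S, l.length ≤ R ∧
      (∀ a ∈ l, a ∈ {g : S | Indec g}) ∧ prd l = (x : WithOne S)} : Set S)).ncard := by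
    rw [Set.eq_univ_of_forall hcov, Set.ncard_univ]
  rw [h4]
  refine le_trans (Set.ncard_union_le _ _) (Nat.add_le_add ?_ ?_)
  · exact h1
  · exact h2

private theorem z5_sq {S : Type} [Semigroup S] (hS : Sq S) (k : ℕ) :
    ∀ s : S, ∃ l : List S, l.length = k ∧ ∃ a : S, (s : WithOne S) = (a : WithOne S) * prd l := by
  induction k with
  | zero => intro s; exact ⟨[], rfl, s, by rw [prd_nil, mul_one]⟩
  | succ k ih =>
    intro s
    obtain ⟨l, hl, a, ha⟩ := ih s
    obtain ⟨t, u, htu⟩ := hS a
    refine ⟨u :: l, by simp [hl], t, ?_⟩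
    rw [ha, prd_cons, htu, WithOne.coe_mul, mul_assoc]

/-- If `S = S S` every element is a product with an idempotent inside.
PROOF: by induction on `k`, every `s` is the product of a list of length `k + 1`.  Take `k = Nat.card S + 2` and drop the first and the
last element: `s = a * t * b` where `t` is the product of a list of `Nat.card S + 1` elements; two of its nonempty prefixes have the
same product `p = p v`, so `p = p * om v` and `t = p * om v * r` with `r : WithOne S`.  So `s = (a p) * om v * (r b)`. -/
theorem mid_of_Sq {S : Type} [Semigroup S] [Finite S] (hS : Sq S) (s : S) :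
    ∃ p e r : S, e * e = e ∧ s = p * e * r := by
  obtain ⟨s', b, hsb⟩ := hS s
  obtain ⟨l, hl, a, ha⟩ := z5_sq hS (Nat.card S) s'
  -- the elements `a * prd (l.take i)`, `i ≤ Nat.card S`
  have hex : ∀ i : Fin (Nat.card S + 1), ∃ p : S, (p : WithOne S) = (a : WithOne S) * prd (l.take i.val) := by
    intro i
    by_cases h : l.take i.val = []
    · exact ⟨a, by rw [h, prd_nil, mul_one]⟩
    · obtain ⟨u, hu⟩ := exists_prd h
      exact ⟨a * u, by rw [hu, WithOne.coe_mul]⟩
  choose F hF using hex
  have hnot : ¬ Function.Injective F := by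
    intro hinj
    have := Nat.card_le_card_of_injective F hinj
    rw [Nat.card_eq_fintype_card, Fintype.card_fin] at this
    omega
  obtain ⟨i, j, hij, hFij⟩ : ∃ i j : Fin (Nat.card S + 1), i.val < j.val ∧ F i = F j := by
    simp only [Function.Injective, not_forall] at hnot
    obtain ⟨i, j, h1, h2⟩ := hnot
    rcases lt_or_gt_of_ne (fun h' => h2 (Fin.ext h') : i.val ≠ j.val) with hlt | hlt
    · exact ⟨i, j, hlt, h1⟩
    · exact ⟨j, i, hlt, h1.symm⟩
  have hjl := j.isLt
  have hsplit : l.take j.val = l.take i.val ++ (l.drop i.val).take (j.val - i.val) := by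
    have : j.val = i.val + (j.val - i.val) := by omega
    conv_lhs => rw [this, List.take_add]
  have hne : (l.drop i.val).take (j.val - i.val) ≠ [] := by
    intro h0
    have := congrArg List.length h0
    rw [List.length_take, List.length_drop, List.length_nil, hl] at this
    omega
  obtain ⟨v, hv⟩ := exists_prd hne
  have h1 : (F i : WithOne S) * (v : WithOne S) = F i := by
    conv_rhs => rw [hFij, hF j, hsplit, prd_append, ← mul_assoc, ← hF i, hv]
  have h2 : ∀ k : ℕ, (F i : WithOne S) * (v : WithOne S) ^ k = F i := by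
    intro k
    induction k with
    | zero => simp
    | succ k ih => rw [pow_succ, ← mul_assoc, ih, h1]
  obtain ⟨k, hk⟩ := om_eq_pw v
  have h3 : (F i : WithOne S) * (om v : S) = F i := by
    rw [hk, coe_pw, h2]
  obtain ⟨r, hr⟩ : ∃ r : S, (r : WithOne S) = prd (l.drop i.val) * (b : WithOne S) := by
    by_cases h : l.drop i.val = []
    · exact ⟨b, by rw [h, prd_nil, one_mul]⟩
    · obtain ⟨u, hu⟩ := exists_prd h
      exact ⟨u * b, by rw [hu, WithOne.coe_mul]⟩
  refine ⟨F i, om v, r, om_idem v, ?_⟩
  rw [← WithOne.coe_inj, WithOne.coe_mul, WithOne.coe_mul, h3, hr, hF i, hsb, WithOne.coe_mul, ha]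
  conv_lhs => rw [← List.take_append_drop i.val l, prd_append]
  simp only [mul_assoc]

end EVS
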