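import Pool.Agent.EVA.C8
import Pool.Agent.EVA.R5
import Pool.Agent.EVA.Z5
import Pool.Agent.EVA.D1
import Pool.Agent.EVA.D5
import Pool.Agent.EVA.D2
import Pool.Agent.EVA.D4
import Pool.Agent.EVA.N1b
import Pool.Agent.EVA.N2c
import Pool.Agent.EVA.M1
import Pool.Agent.EVA.M6b
import Pool.Agent.EVS.Final

/-!
# [EVA-Fin] the classification of the aperiodic endomorphic varieties
-/

set_option autoImplicit false

namespace EVS

theorem not_endo_of_R21 {V : Set (Wd × Wd)} (hR : Mem V R21) (hP : Mem V Pᵐᵒᵖ) : ¬ Endomorphic V := by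
  intro hV
  obtain ⟨B, hB⟩ := nEnd_FN
  obtain ⟨n, hn⟩ := hV B
  have h1 := hn (FN n) (fun p hp => holds_FN (hR p hp) (hP p hp) n) (FN.card n)
  have h2 := hB n
  omega

theorem not_endo_of_B2 {V : Set (Wd × Wd)} (hB : Mem V B2) : ¬ Endomorphic V := by
  intro hV
  obtain ⟨B, hB'⟩ := nEnd_BX
  obtain ⟨n, hn⟩ := hV B
  have h1 := hn (BX n) (fun p hp => holds_BX (hB p hp) n) (BX.card n)
  have h2 := hB' n
  omega

theorem not_endo_of_L21 {V : Set (Wd × Wd)} (hR : Mem V R21ᵐᵒᵖ) (hP : Mem V P) : ¬ Endomorphic V := by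
  rw [← endo_revV]
  refine not_endo_of_R21 ?_ ?_
  · rw [mem_revV]; exact hR
  · rw [mem_revV, mem_op_op]; exact hP

/-- the necessary condition -/
theorem necessary2 (V : Set (Wd × Wd)) (h : Endomorphic V) :
    ¬ Mem V A0 ∧ ¬ Mem V B2 ∧ (Mem V Pᵐᵒᵖ → ¬ Mem V C2 ∧ ¬ Mem V R21) ∧
      (Mem V P → ¬ Mem V C2 ∧ ¬ Mem V R21ᵐᵒᵖ) := by
  refine ⟨fun hA => not_endo_of_A0 hA h, fun hB => not_endo_of_B2 hB h, fun hP => ⟨?_, ?_⟩, fun hP => ⟨?_, ?_⟩⟩
  · exact fun hC => not_endo_of_P' hC hP h
  · exact fun hR => not_endo_of_R21 hR hP h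
  · exact fun hC => not_endo_of_P hC hP h
  · exact fun hR => not_endo_of_L21 hR hP h

theorem bound_op {S : Type} [Semigroup S] [Finite S] {n : ℕ} (h : Nat.card Sᵐᵒᵖ ≤ n) : Nat.card S ≤ n := by
  rwa [Nat.card_congr (MulOpposite.opEquiv (α := S))]

/-- the sufficient condition -/
theorem sufficient (V : Set (Wd × Wd)) (hap : ∀ (S : Type) [Semigroup S] [Finite S], Mem V S → Aper S)
    (hA : ¬ Mem V A0) (hB : ¬ Mem V B2) (hP' : Mem V Pᵐᵒᵖ → ¬ Mem V C2 ∧ ¬ Mem V R21)
    (hP : Mem V P → ¬ Mem V C2 ∧ ¬ Mem V R21ᵐᵒᵖ) : Endomorphic V := by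
  by_cases hC : Mem V C2
  · have h1 : ¬ Mem V P := fun h => (hP h).1 hC
    have h2 : ¬ Mem V Pᵐᵒᵖ := fun h => (hP' h).1 hC
    exact (classification_C2 V hC (Or.inl hap)).2 ⟨h1, h2⟩
  · intro c
    obtain ⟨n1, hn1⟩ := caseA c
    obtain ⟨n2, hn2⟩ := case23 c
    refine ⟨n1 + n2 + c * c + 2 * c + 1, fun S _ _ hS hcard => ?_⟩
    by_contra hlt
    push Not at hlt
    have hL : Loc S := loc_of_C2 hC (hap S hS) hS
    have hE : IdC S := idc_of_A0 hA hL hS
    by_cases hSq : Sq S
    · have hm := fun s => mid_of_Sq hSq s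
      have hfinal : Nat.card S ≤ n2 ∨ Nat.card S ≤ c * c ∨ Nat.card S ≤ 2 * c := by
        by_cases h1 : Mem V P
        · have hl : LocL S := locL_of_R21 (hP h1).2 hL hS
          have hri : RgI S := rgi_of_B2 hB hL hE hS
          have ha : A1 S := ⟨hL, hE, hri, hm⟩
          by_cases h2 : Mem V Pᵐᵒᵖ
          · left
            exact hn2 S ha (locR_of_R21 (hP' h2).2 hL hS) hl hlt
          · right; right
            have hq := reg_of_P' h2 hL hS
            have h3 : Nat.card Sᵐᵒᵖ ≤ 2 * nEnd Sᵐᵒᵖ := by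
              refine case21 ha.op hl.op ?_
              intro s e he
              have he' : MulOpposite.unop e * MulOpposite.unop e = MulOpposite.unop e := by
                rw [← MulOpposite.unop_mul, he]
              obtain ⟨t, ht⟩ := hq (MulOpposite.unop s) (MulOpposite.unop e) he'
              have h4 := hri _ t ht
              apply MulOpposite.unop_injective
              simpa only [MulOpposite.unop_mul] using h4
            rw [nEnd_op] at h3
            exact bound_op (h3.trans (Nat.mul_le_mul_left 2 hlt))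
        · by_cases h2 : Mem V Pᵐᵒᵖ
          · right; right
            have hri : RgI S := rgi_of_B2 hB hL hE hS
            have ha : A1 S := ⟨hL, hE, hri, hm⟩
            refine (case21 ha (locR_of_R21 (hP' h2).2 hL hS) ?_).trans (Nat.mul_le_mul_left 2 hlt)
            intro s e he
            obtain ⟨t, ht⟩ := reg_of_P h1 hL hS s e he
            exact hri _ t ht
          · right; left
            exact (case20 hL hE hm (reg_of_P h1 hL hS) (reg_of_P' h2 hL hS)).trans
              (Nat.mul_le_mul hlt hlt)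
      rcases hfinal with h | h | h <;> omega
    · have := hn1 S hL hSq hlt
      omega

end EVS
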