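import Pool.Agent.EVA.BT

/-!
# [EVA-M2a] endomorphisms of `BT`: first facts
-/

set_option autoImplicit false

namespace EVS

/-- the J-class -/
def BT.kind : BT → Fin 10
  | .e _ _ => 0
  | .a _ _ => 1
  | .b _ _ => 2
  | .f t => 3 + t.castLE (by omega)
  | .d k _ _ => 6 + k.castLE (by omega)
  | .o => 9

/-- PROOF: `decide +kernel`. -/
theorem BT.idem_cases : ∀ g : BT, g * g = g → (∃ p, g = .e p p) ∨ (∃ p, g = .a p p) ∨ (∃ p, g = .b p p) ∨
    (∃ t, g = .f t) ∨ (∃ k u, g = .d k u u) ∨ g = .o := by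
  decide +kernel

/-- PROOF: `decide +kernel`. -/
theorem BT.kind_eq : ∀ x y : BT, x * y * x = x → y * x * y = y → (x * y).kind = (y * x).kind := by
  decide +kernel

private theorem m2a_triple : ∀ x : BT, x * x = x → ∀ y : BT, y * y = y → x.kind = y.kind → x * y ≠ x →
    x * y ≠ y → x * y = y * x → ∀ w : BT, w * w = w → x.kind = w.kind → x * y ≠ w → x * y = x * w →
    x * y = y * w → x * y = .o ∧ ∃ i a b c : Fin 3, x = .d i a a ∧ y = .d i b b ∧ w = .d i c c := by
  decide +kernel

/-- Three different idempotents in the same J-class whose products are all equal.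
PROOF: `BT.idem_cases`, kind by kind (`decide` for the indices): in the J-classes of `e`, `a`, `b` the three products of different idempotents are not all
equal; `f t` is alone; for `d k` the product is `o` and `{g 0, g 1, g 2}` are the three idempotents. -/
theorem BT.triple (g : Fin 3 → BT) (z : BT) (h1 : ∀ u, g u * g u = g u) (h2 : ∀ u v, (g u).kind = (g v).kind)
    (h3 : ∀ u v, u ≠ v → g u * g v = z) (h4 : ∀ u, g u ≠ z) :
    z = .o ∧ ∃ (i : Fin 3) (σ : Fin 3 → Fin 3), Function.Bijective σ ∧ ∀ u, g u = .d i (σ u) (σ u) := by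
  have e01 : g 0 * g 1 = z := h3 0 1 (by decide)
  have e10 : g 1 * g 0 = z := h3 1 0 (by decide)
  have e02 : g 0 * g 2 = z := h3 0 2 (by decide)
  have e12 : g 1 * g 2 = z := h3 1 2 (by decide)
  obtain ⟨hz, i, a, b, c, ha, hb, hc⟩ := m2a_triple (g 0) (h1 0) (g 1) (h1 1) (h2 0 1)
    (by rw [e01]; exact (h4 0).symm) (by rw [e01]; exact (h4 1).symm) (by rw [e01, e10])
    (g 2) (h1 2) (h2 0 2) (by rw [e01]; exact (h4 2).symm) (by rw [e01, e02]) (by rw [e01, e12])
  refine ⟨by rw [← e01, hz], i, ![a, b, c], ?_, ?_⟩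
  · rw [← Finite.injective_iff_bijective]
    have hg : ∀ u, g u = .d i (![a, b, c] u) (![a, b, c] u) := by
      intro u
      fin_cases u
      · exact ha
      · exact hb
      · exact hc
    intro u v huv
    by_contra hne
    have h5 : g u = g v := by rw [hg u, hg v, huv]
    have h6 := h3 u v hne
    rw [← h5, h1 u] at h6
    exact h4 u h6
  · intro u
    fin_cases u
    · exact ha
    · exact hb
    · exact hc

private theorem m2a_dd : ∀ k u v w : Fin 3, BT.d k u v * BT.d k v w = BT.d k u w := by decide +kernel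

private theorem m2a_do : ∀ k u v : Fin 3, u ≠ v → BT.d k u u * BT.d k v v = .o := by decide +kernel

private theorem m2a_od : ∀ x : BT, x * .o = .o ∧ .o * x = .o := by decide +kernel

private theorem m2a_mid : ∀ (i s t : Fin 3) (y : BT), BT.d i s s * y * BT.d i t t = y →
    y = .o ∨ y = .d i s t := by decide +kernel

/-- PROOF: let `g u = ψ (d k u u)`, `z = ψ o`.  If `g u = z` for some `u` then `ψ (d k v w) = ψ (d k v u) * g u * ψ (d k u w) = ψ (d k v u * o * d k u w) = z`
for all `v`, `w`.  Otherwise `BT.triple` (`BT.kind_eq` for `ψ (d k u v)`, `ψ (d k v u)`): `z = o`, `g u = d i (σ u) (σ u)`, and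
`y = ψ (d k u v)` satisfies `g u * y * g v = y` and `y * ψ (d k v u) = g u ≠ o`, so `y = d i (σ u) (σ v)`. -/
theorem bt_d (ψ : BT →ₙ* BT) (k : Fin 3) : (∀ u v, ψ (.d k u v) = ψ .o) ∨
    (ψ .o = .o ∧ ∃ (i : Fin 3) (σ : Fin 3 → Fin 3), Function.Bijective σ ∧ ∀ u v, ψ (.d k u v) = .d i (σ u) (σ v)) := by
  by_cases hex : ∃ u, ψ (.d k u u) = ψ .o
  · left
    obtain ⟨u, hu⟩ := hex
    intro v w
    calc ψ (.d k v w) = ψ (.d k v u * .d k u u * .d k u w) := by rw [m2a_dd, m2a_dd]
      _ = ψ (.d k v u) * ψ (.d k u u) * ψ (.d k u w) := by rw [map_mul, map_mul]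
      _ = ψ (.d k v u) * ψ .o * ψ (.d k u w) := by rw [hu]
      _ = ψ (.d k v u * .o * .d k u w) := by rw [map_mul, map_mul]
      _ = ψ .o := by rw [(m2a_od _).1, (m2a_od _).2]
  · right
    push Not at hex
    obtain ⟨hz, i, σ, hσ, hg⟩ := BT.triple (fun u => ψ (.d k u u)) (ψ .o)
      (fun u => by rw [← map_mul, m2a_dd])
      (fun u v => by
        have h := BT.kind_eq (ψ (.d k u v)) (ψ (.d k v u))
          (by rw [← map_mul, ← map_mul, m2a_dd, m2a_dd]) (by rw [← map_mul, ← map_mul, m2a_dd, m2a_dd])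
        rw [← map_mul, ← map_mul, m2a_dd, m2a_dd] at h
        exact h)
      (fun u v huv => by rw [← map_mul, m2a_do k u v huv]) hex
    refine ⟨hz, i, σ, hσ, fun u v => ?_⟩
    have hu : ψ (.d k u u) = .d i (σ u) (σ u) := hg u
    have hv : ψ (.d k v v) = .d i (σ v) (σ v) := hg v
    rcases m2a_mid i (σ u) (σ v) (ψ (.d k u v))
      (by rw [← hu, ← hv, ← map_mul, ← map_mul, m2a_dd, m2a_dd]) with h | h
    · exfalso
      apply hex u
      have h5 : ψ (.d k u v) * ψ (.d k v u) = ψ (.d k u u) := by rw [← map_mul, m2a_dd]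
      rw [← h5, h, (m2a_od _).2, hz]
    · exact h

end EVS
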