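import Pool.Agent.EVA.M2a

/-!
# [EVA-M2b] endomorphisms of `BT`: the images of `e p p`]
-/

set_option autoImplicit false

namespace EVS

private theorem m2b_ke : ∀ g : BT, g * g = g → ∀ p, g.kind = (BT.e p p).kind → ∃ p', g = .e p' p' := by
  decide +kernel

private theorem m2b_ka : ∀ g : BT, g * g = g → ∀ p, g.kind = (BT.a p p).kind → ∃ p', g = .a p' p' := by
  decide +kernel

private theorem m2b_kb : ∀ g : BT, g * g = g → ∀ p, g.kind = (BT.b p p).kind → ∃ p', g = .b p' p' := by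
  decide +kernel

private theorem m2b_kf : ∀ g : BT, g * g = g → ∀ t, g.kind = (BT.f t).kind → g = .f t := by
  decide +kernel

private theorem m2b_kd : ∀ g : BT, g * g = g → ∀ k u, g.kind = (BT.d k u u).kind → ∃ u', g = .d k u' u' := by
  decide +kernel

private theorem m2b_prod : ∀ p q : Fin 3, p ≠ q → ∃ k u, BT.e p p * BT.e q q = BT.d k u u := by
  decide +kernel

private theorem m2b_ee : ∀ p q : Fin 3, BT.e p q * BT.e q p = BT.e p p := by
  decide +kernel

private theorem m2b_eee : ∀ p q : Fin 3, BT.e p q * BT.e q p * BT.e p q = BT.e p q := by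
  decide +kernel

private theorem m2b_conj : ∀ p q : Fin 3, BT.e q p * BT.e p p * BT.e p q = BT.e q q := by
  decide +kernel

private theorem m2b_o : ∀ p q : Fin 3, BT.e q p * BT.o * BT.e p q = BT.o := by
  decide +kernel

private theorem m2b_idem (ψ : BT →ₙ* BT) (p : Fin 3) : ψ (.e p p) * ψ (.e p p) = ψ (.e p p) := by
  rw [← map_mul, m2b_ee]

private theorem m2b_kind (ψ : BT →ₙ* BT) (p q : Fin 3) : (ψ (.e p p)).kind = (ψ (.e q q)).kind := by
  have h := BT.kind_eq (ψ (.e p q)) (ψ (.e q p)) (by rw [← map_mul, ← map_mul, m2b_eee])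
    (by rw [← map_mul, ← map_mul, m2b_eee])
  rw [← map_mul, ← map_mul, m2b_ee, m2b_ee] at h
  exact h

/-- PROOF: if `ψ (e p p) = ψ o` for one `p` then for all: `e q q = e q p * e p p * e p q`.  So all `h p = ψ (e p p)` are different from `z = ψ o`.  Suppose
`z ≠ o`.  By `bt_d` `ψ (d k u v) = z` for all `k, u, v`.  For `p ≠ q`, `e p p * e q q` is some `d k u u`, so `h p * h q = z`.  By `BT.triple` (`BT.kind_eq` for
`ψ (e p q)`, `ψ (e q p)`) `z = o`, a contradiction. -/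
theorem bt_o (ψ : BT →ₙ* BT) (h : ∃ p, ψ (.e p p) ≠ ψ .o) : ψ .o = .o ∧ ∀ p, ψ (.e p p) ≠ .o := by
  have hall : ∀ p, ψ (.e p p) ≠ ψ .o := by
    intro p hp
    obtain ⟨q, hq⟩ := h
    apply hq
    rw [← m2b_conj p q, map_mul, map_mul, hp, ← map_mul, ← map_mul, m2b_o]
  have hz : ψ .o = .o := by
    by_contra hne
    have hd : ∀ k u v, ψ (.d k u v) = ψ .o := by
      intro k
      rcases bt_d ψ k with h1 | h1
      · exact h1
      · exact absurd h1.1 hne
    apply hne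
    refine (BT.triple (fun p => ψ (.e p p)) (ψ .o) (m2b_idem ψ) (m2b_kind ψ) ?_ hall).1
    intro p q hpq
    obtain ⟨k, u, hk⟩ := m2b_prod p q hpq
    show ψ (.e p p) * ψ (.e q q) = ψ .o
    rw [← map_mul, hk, hd]
  refine ⟨hz, ?_⟩
  intro p
  rw [← hz]
  exact hall p

/-- PROOF: `h p = ψ (e p p)` are idempotent, of the same kind (`BT.kind_eq` for `ψ (e p q)`, `ψ (e q p)`), not `o` (`bt_o`).  For `p ≠ q`, `h p * h q = ψ (e p p * e q q)` is
`o` or some `d i u u` (`e p p * e q q` is some `d k u u`; `bt_d`).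
If `h p = h q` for some `p ≠ q`: `h p = h p * h q`, so it is some `d i u u`.  Otherwise the `h p` are different.
Kind `f t`: impossible (all `h p` equal, not of kind `d`).  Kinds `e`, `a`, `b`: the `h p` are different, so we get `π` injective.
Kind `d i`: `h p = d i (u p) (u p)`.  If `u` is injective it is bijective and every `d i v v` is some `h p`.  Otherwise `u p = u q`, `p ≠ q`, and
`h p = ψ (d k w w) ≠ o`, so by `bt_d` every `d i v v` is some `ψ (d k w' w')`. -/
theorem bt_kinds (ψ : BT →ₙ* BT) (h : ∃ p, ψ (.e p p) ≠ ψ .o) :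
    (∃ i : Fin 3, (∀ p, ∃ u, ψ (.e p p) = .d i u u) ∧ ∀ v, ∃ t, ψ t = .d i v v) ∨
    (∃ π : Fin 3 → Fin 3, Function.Injective π ∧ ∀ p, ψ (.e p p) = .e (π p) (π p)) ∨
    (∃ π : Fin 3 → Fin 3, Function.Injective π ∧ ∀ p, ψ (.e p p) = .a (π p) (π p)) ∨
    (∃ π : Fin 3 → Fin 3, Function.Injective π ∧ ∀ p, ψ (.e p p) = .b (π p) (π p)) := by
  obtain ⟨hz, h0⟩ := bt_o ψ h
  have hprod : ∀ p q : Fin 3, p ≠ q → ψ (.e p p) * ψ (.e q q) = .o ∨
      ∃ k w, BT.e p p * BT.e q q = BT.d k w w ∧ ∃ (i : Fin 3) (σ : Fin 3 → Fin 3),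
        Function.Bijective σ ∧ (∀ u v, ψ (.d k u v) = .d i (σ u) (σ v)) ∧
        ψ (.e p p) * ψ (.e q q) = .d i (σ w) (σ w) := by
    intro p q hpq
    obtain ⟨k, w, hk⟩ := m2b_prod p q hpq
    rcases bt_d ψ k with h1 | ⟨-, i, σ, hσ, h1⟩
    · left
      rw [← map_mul, hk, h1, hz]
    · right
      refine ⟨k, w, hk, i, σ, hσ, h1, ?_⟩
      rw [← map_mul, hk, h1]
  rcases BT.idem_cases (ψ (.e 0 0)) (m2b_idem ψ 0) with ⟨p0, h1⟩ | ⟨p0, h1⟩ | ⟨p0, h1⟩ |
    ⟨t0, h1⟩ | ⟨k0, u0, h1⟩ | h1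
  · right; left
    have h2 : ∀ p, ∃ p', ψ (.e p p) = .e p' p' := fun p =>
      m2b_ke _ (m2b_idem ψ p) p0 (by rw [← h1]; exact m2b_kind ψ p 0)
    choose π hπ using h2
    refine ⟨π, ?_, hπ⟩
    intro p q hpq
    by_contra hne
    have h3 : ψ (.e p p) * ψ (.e q q) = .e (π p) (π p) := by
      rw [hπ q, ← hpq, ← hπ p, m2b_idem]
    rcases hprod p q hne with h4 | ⟨_, _, _, i, σ, _, _, h4⟩
    · rw [h3] at h4
      cases h4
    · rw [h3] at h4
      cases h4
  · right; right; left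
    have h2 : ∀ p, ∃ p', ψ (.e p p) = .a p' p' := fun p =>
      m2b_ka _ (m2b_idem ψ p) p0 (by rw [← h1]; exact m2b_kind ψ p 0)
    choose π hπ using h2
    refine ⟨π, ?_, hπ⟩
    intro p q hpq
    by_contra hne
    have h3 : ψ (.e p p) * ψ (.e q q) = .a (π p) (π p) := by
      rw [hπ q, ← hpq, ← hπ p, m2b_idem]
    rcases hprod p q hne with h4 | ⟨_, _, _, i, σ, _, _, h4⟩
    · rw [h3] at h4
      cases h4
    · rw [h3] at h4
      cases h4
  · right; right; right
    have h2 : ∀ p, ∃ p', ψ (.e p p) = .b p' p' := fun p =>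
      m2b_kb _ (m2b_idem ψ p) p0 (by rw [← h1]; exact m2b_kind ψ p 0)
    choose π hπ using h2
    refine ⟨π, ?_, hπ⟩
    intro p q hpq
    by_contra hne
    have h3 : ψ (.e p p) * ψ (.e q q) = .b (π p) (π p) := by
      rw [hπ q, ← hpq, ← hπ p, m2b_idem]
    rcases hprod p q hne with h4 | ⟨_, _, _, i, σ, _, _, h4⟩
    · rw [h3] at h4
      cases h4
    · rw [h3] at h4
      cases h4
  · exfalso
    have h2 : ∀ p, ψ (.e p p) = .f t0 := fun p =>
      m2b_kf _ (m2b_idem ψ p) t0 (by rw [← h1]; exact m2b_kind ψ p 0)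
    have h3 : ψ (.e 0 0) * ψ (.e 1 1) = .f t0 := by
      rw [h2 1, ← h2 0, m2b_idem]
    rcases hprod 0 1 (by decide) with h4 | ⟨_, _, _, i, σ, _, _, h4⟩
    · rw [h3] at h4
      cases h4
    · rw [h3] at h4
      cases h4
  · left
    have h2 : ∀ p, ∃ p', ψ (.e p p) = .d k0 p' p' := fun p =>
      m2b_kd _ (m2b_idem ψ p) k0 u0 (by rw [← h1]; exact m2b_kind ψ p 0)
    refine ⟨k0, h2, ?_⟩
    choose u hu using h2
    intro v
    by_cases hinj : Function.Injective u
    · obtain ⟨p, hp⟩ := Finite.surjective_of_injective hinj v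
      exact ⟨.e p p, by rw [hu, hp]⟩
    · have h5 : ∃ p q, u p = u q ∧ p ≠ q := by
        by_contra hc
        apply hinj
        intro p q hpq
        by_contra hne
        exact hc ⟨p, q, hpq, hne⟩
      obtain ⟨p, q, hpq, hne⟩ := h5
      have h3 : ψ (.e p p) * ψ (.e q q) = .d k0 (u p) (u p) := by
        rw [hu q, ← hpq, ← hu p, m2b_idem]
      rcases hprod p q hne with h4 | ⟨k, w, _, i, σ, hσ, h6, h4⟩
      · rw [h3] at h4
        cases h4
      · rw [h3] at h4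
        have h7 : k0 = i := by
          injection h4
        obtain ⟨w', hw'⟩ := hσ.2 v
        exact ⟨.d k w' w', by rw [h6, hw', h7]⟩
  · exact absurd h1 (h0 0)

end EVS
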