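import Pool.Agent.EVA.M2b

/-!
# [EVA-M3] endomorphisms of `BT`: two impossible cases
-/

set_option autoImplicit false

namespace EVS

/-- the six code words -/
def cW : Fin 6 → Fin 3 → Fin 3 := ![cE 0, cE 1, cE 2, cF 0, cF 1, cF 2]

/-- their idempotents -/
def bW : Fin 6 → BT := ![.e 0 0, .e 1 1, .e 2 2, .f 0, .f 1, .f 2]

/-- PROOF: `decide +kernel` (27 * 27 * 9 cases), or: the map `c ↦ w` is injective (two code words agree in at most one coordinate, so they differ in `k0` or `k1`), so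
bijective on `Fin 6`; take the `c` with `w = 3` and `w = 4`. -/
theorem cW_a : ∀ (σ0 σ1 : Fin 3 → Fin 3) (k0 k1 : Fin 3), k0 ≠ k1 → Function.Injective σ0 → Function.Injective σ1 →
    (∀ c : Fin 6, ∃ w : Fin 6, cW w 0 = σ0 (cW c k0) ∧ cW w 1 = σ1 (cW c k1)) →
    ∃ c c' : Fin 6, σ0 (cW c k0) = 1 ∧ σ1 (cW c k1) = 2 ∧ σ0 (cW c' k0) = 2 ∧ σ1 (cW c' k1) = 1 := by
  decide +kernel

/-- PROOF: the same; `w = 3` and `w = 5`. -/
theorem cW_b : ∀ (σ1 σ2 : Fin 3 → Fin 3) (k1 k2 : Fin 3), k1 ≠ k2 → Function.Injective σ1 → Function.Injective σ2 →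
    (∀ c : Fin 6, ∃ w : Fin 6, cW w 1 = σ1 (cW c k1) ∧ cW w 2 = σ2 (cW c k2)) →
    ∃ c c' : Fin 6, σ1 (cW c k1) = 2 ∧ σ2 (cW c k2) = 0 ∧ σ1 (cW c' k1) = 1 ∧ σ2 (cW c' k2) = 2 := by
  decide +kernel

private def pP : Fin 3 → Fin 3 × Fin 3 := ![(0, 1), (0, 2), (1, 2)]

private def wP : Fin 3 → Fin 3 := ![0, 0, 1]

private theorem pP_e : ∀ k : Fin 3, BT.e (pP k).1 (pP k).1 * BT.e (pP k).2 (pP k).2 = BT.d k (wP k) (wP k) := by
  decide +kernel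

private theorem lemA : ∀ π : Fin 3 → Fin 3, Function.Injective π → ∃ k0 k1 : Fin 3, k0 ≠ k1 ∧
    BT.a (π (pP k0).1) (π (pP k0).1) * BT.a (π (pP k0).2) (π (pP k0).2) = BT.d 0 0 0 ∧
    BT.a (π (pP k1).1) (π (pP k1).1) * BT.a (π (pP k1).2) (π (pP k1).2) = BT.d 1 0 0 ∧
    ∀ m, m ≠ k0 → m ≠ k1 →
    BT.a (π (pP m).1) (π (pP m).1) * BT.a (π (pP m).2) (π (pP m).2) = BT.o := by
  decide +kernel

private theorem lemA' : ∀ π : Fin 3 → Fin 3, Function.Injective π → ∃ k0 k1 : Fin 3, k0 ≠ k1 ∧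
    BT.b (π (pP k0).1) (π (pP k0).1) * BT.b (π (pP k0).2) (π (pP k0).2) = BT.d 1 0 0 ∧
    BT.b (π (pP k1).1) (π (pP k1).1) * BT.b (π (pP k1).2) (π (pP k1).2) = BT.d 2 1 1 ∧
    ∀ m, m ≠ k0 → m ≠ k1 →
    BT.b (π (pP m).1) (π (pP m).1) * BT.b (π (pP m).2) (π (pP m).2) = BT.o := by
  decide +kernel

private theorem lemK : ∀ (c : Fin 6) (k : Fin 3), bW c * BT.d k (cW c k) (cW c k) = BT.d k (cW c k) (cW c k) := by
  decide +kernel

private theorem lemI : ∀ (c : Fin 6), bW c * bW c = bW c := by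
  decide +kernel

private theorem lemB : ∀ (y : BT) (u v : Fin 3), y * y = y → y * BT.d 0 u u = BT.d 0 u u →
    y * BT.d 1 v v = BT.d 1 v v → (∃ w : Fin 6, cW w 0 = u ∧ cW w 1 = v) ∧ (u = 1 → v = 2 → y = BT.f 0) ∧
      (u = 2 → v = 1 → y = BT.f 1) := by
  decide +kernel

private theorem lemB' : ∀ (y : BT) (u v : Fin 3), y * y = y → y * BT.d 1 u u = BT.d 1 u u →
    y * BT.d 2 v v = BT.d 2 v v → (∃ w : Fin 6, cW w 1 = u ∧ cW w 2 = v) ∧ (u = 2 → v = 0 → y = BT.f 0) ∧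
      (u = 1 → v = 2 → y = BT.f 2) := by
  decide +kernel

private theorem lemD : ∀ (c c' : Fin 6) (k0 k1 : Fin 3), k0 ≠ k1 → cW c k0 ≠ cW c' k0 → cW c k1 ≠ cW c' k1 →
    bW c * bW c' = BT.o ∨ ∃ m u : Fin 3, m ≠ k0 ∧ m ≠ k1 ∧ bW c * bW c' = BT.d m u u := by
  decide +kernel

/-- the common argument: third coordinate -/
private theorem third (ψ : BT →ₙ* BT) (ho : ψ .o = .o) (m u : Fin 3)
    (h : ψ (BT.d m (wP m) (wP m)) = BT.o) : ψ (BT.d m u u) = BT.o := by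
  rcases bt_d ψ m with h1 | ⟨_, i, σ, _, h2⟩
  · rw [h1, ho]
  · rw [h2] at h
    exact absurd h (by simp)

private theorem coord (ψ : BT →ₙ* BT) (ho : ψ .o = .o) (k i t : Fin 3)
    (h : ψ (BT.d k (wP k) (wP k)) = BT.d i t t) :
    ∃ σ : Fin 3 → Fin 3, Function.Bijective σ ∧ ∀ u v, ψ (BT.d k u v) = BT.d i (σ u) (σ v) := by
  rcases bt_d ψ k with h1 | ⟨_, i', σ, hσ, h2⟩
  · rw [h1, ho] at h
    exact absurd h (by simp)
  · refine ⟨σ, hσ, ?_⟩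
    rw [h2] at h
    have : i' = i := by
      injection h
    subst this
    exact h2

/-- PROOF: `ψ o = o` (`bt_o`: `a q q ≠ ψ o`, as `ψ o` is a zero for the image and the `ψ (e p p)` are different: if `ψ (e p p) = ψ o` then all are equal).
`{e p p * e q q}` for `{p, q} = {0, 1}, {0, 2}, {1, 2}` is `d 0 0 0`, `d 1 0 0`, `d 2 1 1`, and `a 0 0 * a 1 1 = d 0 0 0`, `a 0 0 * a 2 2 = d 1 0 0`, `a 1 1 * a 2 2 = o`.
So (`π` is bijective) there are a bijection of the pairs, and by `bt_d`: one `m : Fin 3` with `ψ (d m u v) = o` for all `u, v`, and `k0 ≠ k1` (the other two coordinates) and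
injective `σ0`, `σ1` with `ψ (d k0 u v) = d 0 (σ0 u) (σ0 v)`, `ψ (d k1 u v) = d 1 (σ1 u) (σ1 v)`.
For `c : Fin 6`, `bW c * d k u u = d k u u` for `u = cW c k` (`decide`).  So the idempotent `y = ψ (bW c)` satisfies `y * d 0 u u = d 0 u u`, `y * d 1 v v = d 1 v v` with
`u = σ0 (cW c k0)`, `v = σ1 (cW c k1)`; so `cW w 0 = u`, `cW w 1 = v` for some `w` (`decide +kernel` over `y, u, v`), and if `(u, v) = (1, 2)` then `y = f 0`, if
`(u, v) = (2, 1)` then `y = f 1`.  By `cW_a` there are `c`, `c'` with `ψ (bW c) = f 0`, `ψ (bW c') = f 1`, and `cW c k0 ≠ cW c' k0`, `cW c k1 ≠ cW c' k1`.  So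
`bW c * bW c'` is `o` or some `d m u u` (`decide`), and `o = ψ (bW c * bW c') = f 0 * f 1 = d 2 0 0`, a contradiction. -/
theorem bt_not_a (ψ : BT →ₙ* BT) (π : Fin 3 → Fin 3) (hπ : Function.Injective π)
    (h : ∀ p, ψ (.e p p) = .a (π p) (π p)) : False := by
  have ho : ψ .o = .o := by
    refine (bt_o ψ ?_).1
    by_contra hc
    push Not at hc
    have h01 : BT.a (π 0) (π 0) = BT.a (π 1) (π 1) := by rw [← h, ← h, hc, hc]
    have : π 0 = π 1 := by injection h01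
    exact absurd (hπ this) (by decide)
  obtain ⟨k0, k1, hk, h0, h1, hm⟩ := lemA π hπ
  have key : ∀ k, ψ (BT.d k (wP k) (wP k)) =
      BT.a (π (pP k).1) (π (pP k).1) * BT.a (π (pP k).2) (π (pP k).2) := by
    intro k
    rw [← pP_e, map_mul, h, h]
  obtain ⟨σ0, hσ0, hs0⟩ := coord ψ ho k0 0 0 (by rw [key, h0])
  obtain ⟨σ1, hσ1, hs1⟩ := coord ψ ho k1 1 0 (by rw [key, h1])
  have hidem : ∀ c, ψ (bW c) * ψ (bW c) = ψ (bW c) := fun c => by rw [← map_mul, lemI]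
  have hy0 : ∀ c, ψ (bW c) * BT.d 0 (σ0 (cW c k0)) (σ0 (cW c k0)) = BT.d 0 (σ0 (cW c k0)) (σ0 (cW c k0)) := by
    intro c
    rw [← hs0, ← map_mul, lemK]
  have hy1 : ∀ c, ψ (bW c) * BT.d 1 (σ1 (cW c k1)) (σ1 (cW c k1)) = BT.d 1 (σ1 (cW c k1)) (σ1 (cW c k1)) := by
    intro c
    rw [← hs1, ← map_mul, lemK]
  obtain ⟨c, c', e1, e2, e3, e4⟩ := cW_a σ0 σ1 k0 k1 hk hσ0.1 hσ1.1
    (fun c => (lemB _ _ _ (hidem c) (hy0 c) (hy1 c)).1)
  have f1 : ψ (bW c) = BT.f 0 := (lemB _ _ _ (hidem c) (hy0 c) (hy1 c)).2.1 e1 e2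
  have f2 : ψ (bW c') = BT.f 1 := (lemB _ _ _ (hidem c') (hy0 c') (hy1 c')).2.2 e3 e4
  have n0 : cW c k0 ≠ cW c' k0 := by
    intro hc
    rw [hc, e3] at e1
    exact absurd e1 (by decide)
  have n1 : cW c k1 ≠ cW c' k1 := by
    intro hc
    rw [hc, e4] at e2
    exact absurd e2 (by decide)
  have hprod : ψ (bW c * bW c') = BT.d 2 0 0 := by
    rw [map_mul, f1, f2]
    decide +kernel
  rcases lemD c c' k0 k1 hk n0 n1 with hz | ⟨m, u, hm0, hm1, hz⟩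
  · rw [hz, ho] at hprod
    exact absurd hprod (by decide)
  · rw [hz, third ψ ho m u (by rw [key, hm m hm0 hm1])] at hprod
    exact absurd hprod (by decide)

/-- PROOF: as before with the coordinates `1, 2`: `b 0 0 * b 1 1 = o`, `b 0 0 * b 2 2 = d 1 0 0`, `b 1 1 * b 2 2 = d 2 1 1`; `(u, v) = (2, 0)` at the coordinates `1, 2` implies
`y = f 0`, `(u, v) = (1, 2)` implies `y = f 2`, `cW_b`, and `f 0 * f 2 = d 0 1 1 ≠ o`. -/
theorem bt_not_b (ψ : BT →ₙ* BT) (π : Fin 3 → Fin 3) (hπ : Function.Injective π)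
    (h : ∀ p, ψ (.e p p) = .b (π p) (π p)) : False := by
  have ho : ψ .o = .o := by
    refine (bt_o ψ ?_).1
    by_contra hc
    push Not at hc
    have h01 : BT.b (π 0) (π 0) = BT.b (π 1) (π 1) := by rw [← h, ← h, hc, hc]
    have : π 0 = π 1 := by injection h01
    exact absurd (hπ this) (by decide)
  obtain ⟨k0, k1, hk, h0, h1, hm⟩ := lemA' π hπ
  have key : ∀ k, ψ (BT.d k (wP k) (wP k)) =
      BT.b (π (pP k).1) (π (pP k).1) * BT.b (π (pP k).2) (π (pP k).2) := by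
    intro k
    rw [← pP_e, map_mul, h, h]
  obtain ⟨σ0, hσ0, hs0⟩ := coord ψ ho k0 1 0 (by rw [key, h0])
  obtain ⟨σ1, hσ1, hs1⟩ := coord ψ ho k1 2 1 (by rw [key, h1])
  have hidem : ∀ c, ψ (bW c) * ψ (bW c) = ψ (bW c) := fun c => by rw [← map_mul, lemI]
  have hy0 : ∀ c, ψ (bW c) * BT.d 1 (σ0 (cW c k0)) (σ0 (cW c k0)) = BT.d 1 (σ0 (cW c k0)) (σ0 (cW c k0)) := by
    intro c
    rw [← hs0, ← map_mul, lemK]
  have hy1 : ∀ c, ψ (bW c) * BT.d 2 (σ1 (cW c k1)) (σ1 (cW c k1)) = BT.d 2 (σ1 (cW c k1)) (σ1 (cW c k1)) := by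
    intro c
    rw [← hs1, ← map_mul, lemK]
  obtain ⟨c, c', e1, e2, e3, e4⟩ := cW_b σ0 σ1 k0 k1 hk hσ0.1 hσ1.1
    (fun c => (lemB' _ _ _ (hidem c) (hy0 c) (hy1 c)).1)
  have f1 : ψ (bW c) = BT.f 0 := (lemB' _ _ _ (hidem c) (hy0 c) (hy1 c)).2.1 e1 e2
  have f2 : ψ (bW c') = BT.f 2 := (lemB' _ _ _ (hidem c') (hy0 c') (hy1 c')).2.2 e3 e4
  have n0 : cW c k0 ≠ cW c' k0 := by
    intro hc
    rw [hc, e3] at e1
    exact absurd e1 (by decide)
  have n1 : cW c k1 ≠ cW c' k1 := by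
    intro hc
    rw [hc, e4] at e2
    exact absurd e2 (by decide)
  have hprod : ψ (bW c * bW c') = BT.d 0 1 1 := by
    rw [map_mul, f1, f2]
    decide +kernel
  rcases lemD c c' k0 k1 hk n0 n1 with hz | ⟨m, u, hm0, hm1, hz⟩
  · rw [hz, ho] at hprod
    exact absurd hprod (by decide)
  · rw [hz, third ψ ho m u (by rw [key, hm m hm0 hm1])] at hprod
    exact absurd hprod (by decide)

end EVS
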