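import Pool.Agent.EVA.M3

/-!
# [EVA-M4] endomorphisms of `BT`: the remaining case
-/

set_option autoImplicit false

namespace EVS

/-- the automorphisms of the first kind -/
def BTid (ψ : BT →ₙ* BT) (π : Fin 3 → Fin 3) : Prop :=
  (∀ p q, ψ (.e p q) = .e (π p) (π q)) ∧ (∀ p, ψ (.a p p) = .a (π p) (π p)) ∧
  (∀ p, ψ (.b p p) = .b (π p) (π p)) ∧ (∀ k u v, ψ (.d k u v) ≠ .o) ∧
  (∃ w, ψ (.d 0 2 2) = .d 0 w w) ∧ (∃ w, ψ (.d 2 2 2) = .d 2 w w)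

/-- the automorphisms of the second kind -/
def BTsw (ψ : BT →ₙ* BT) (π : Fin 3 → Fin 3) : Prop :=
  (∀ p q, ψ (.e p q) = .e (π p) (π q)) ∧ (∀ p, ψ (.a p p) = .b (π p) (π p)) ∧
  (∀ p, ψ (.b p p) = .a (π p) (π p)) ∧ (∀ k u v, ψ (.d k u v) ≠ .o) ∧
  (∃ w, ψ (.d 0 2 2) = .d 2 w w) ∧ (∃ w, ψ (.d 2 2 2) = .d 0 w w)

theorem m4_zero : ∀ z : BT, (∀ q, z * .e q q = z) → z = .o := by decide +kernel

theorem m4_o_e : ∀ q, (.o * .e q q : BT) = .o := by decide +kernel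

theorem m4_ee : ∀ (y : BT) (a b : Fin 3), .e a a * y = y → y * .e b b = y → (∃ y' : BT, y * y' = .e a a) →
    y = .e a b := by decide +kernel

theorem m4_e_mul : ∀ p q r : Fin 3, (.e p q * .e q r : BT) = .e p r := by decide +kernel

theorem m4_ne : ∀ a b : Fin 3, a ≠ b → (.e a a * .e b b : BT) ≠ .o := by decide +kernel

/-- the class of the product -/
def m4_k (a b : Fin 3) : Fin 3 := if a ≠ 2 ∧ b ≠ 2 then 0 else if a ≠ 1 ∧ b ≠ 1 then 1 else 2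

theorem m4_class : ∀ a b : Fin 3, a ≠ b → ∃ u, (.e a a * .e b b : BT) = .d (m4_k a b) u u := by
  decide +kernel

theorem m4_k_surj : ∀ k, ∃ a b : Fin 3, a ≠ b ∧ m4_k a b = k := by decide +kernel

theorem m4_k_inj : ∀ (π : Fin 3 → Fin 3), Function.Injective π → ∀ a b a' b' : Fin 3, a ≠ b → a' ≠ b' →
    m4_k (π a) (π b) = m4_k (π a') (π b') → m4_k a b = m4_k a' b' := by decide +kernel

theorem m4_idem : ∀ (y : BT) (c t0 t1 : Fin 3), t0 ≠ t1 → y * y = y → y * .e c c = y →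
    (∃ w, y * .d t0 w w = .d t0 w w) → (∃ w, y * .d t1 w w = .d t1 w w) →
    y = .e c c ∨ (y = .a c c ∧ ((t0 = 0 ∧ t1 = 1) ∨ (t0 = 1 ∧ t1 = 0))) ∨
      (y = .b c c ∧ ((t0 = 1 ∧ t1 = 2) ∨ (t0 = 2 ∧ t1 = 1))) := by decide +kernel

theorem m4_a0 : ∀ p, (.a p p * .d 0 (cE p 0) (cE p 0) : BT) = .d 0 (cE p 0) (cE p 0) := by decide +kernel
theorem m4_a1 : ∀ p, (.a p p * .d 1 (cE p 1) (cE p 1) : BT) = .d 1 (cE p 1) (cE p 1) := by decide +kernel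
theorem m4_b1 : ∀ p, (.b p p * .d 1 (cE p 1) (cE p 1) : BT) = .d 1 (cE p 1) (cE p 1) := by decide +kernel
theorem m4_b2 : ∀ p, (.b p p * .d 2 (cE p 2) (cE p 2) : BT) = .d 2 (cE p 2) (cE p 2) := by decide +kernel
theorem m4_aa : ∀ p, (.a p p * .a p p : BT) = .a p p := by decide +kernel
theorem m4_bb : ∀ p, (.b p p * .b p p : BT) = .b p p := by decide +kernel
theorem m4_ae : ∀ p, (.a p p * .e p p : BT) = .a p p := by decide +kernel
theorem m4_be : ∀ p, (.b p p * .e p p : BT) = .b p p := by decide +kernel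
theorem m4_eae : ∀ p q, (.e q p * .a p p * .e p q : BT) = .a q q := by decide +kernel
theorem m4_ebe : ∀ p q, (.e q p * .b p p * .e p q : BT) = .b q q := by decide +kernel
theorem m4_a12 : (.a 1 1 * .a 2 2 : BT) = .o := by decide +kernel
theorem m4_b01 : (.b 0 0 * .b 1 1 : BT) = .o := by decide +kernel

/-- PROOF: `ψ o = o` (as in `bt_not_a`).  `y = ψ (e p q)`: `e (π p) (π p) * y * e (π q) (π q) = y`, `y * ψ (e q p) = e (π p) (π p)`, so `y = e (π p) (π q)`.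
For `p ≠ q`, `ψ (e p p * e q q) = e (π p) (π p) * e (π q) (π q) ≠ o`; so by `bt_d` for every `k` there are `τ k`, `σ k` bijective with
`ψ (d k u v) = d (τ k) (σ k u) (σ k v)`, and `τ` is injective (the products for the three pairs `{p, q}` are in three different classes `d 0`, `d 1`, `d 2`).
`y = ψ (a p p)` is idempotent, `y * e (π p) (π p) = y`, `y * d (τ k) w w = d (τ k) w w` for `k = 0, 1` and `w = σ k (cE p k)` (as `a p p * d k u u = d k u u` for `u = cE p k`, `k ≠ 2`).  So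
`y` is `e (π p) (π p)`, or `a (π p) (π p)` and `{τ 0, τ 1} = {0, 1}`, or `b (π p) (π p)` and `{τ 0, τ 1} = {1, 2}`.
`y ≠ e (π p) (π p)`: otherwise `ψ (a q q) = ψ (e q p * a p p * e p q) = e (π q) (π q)` for all `q`, but `a 1 1 * a 2 2 = o`.
In the same way `ψ (b p p)` is `b (π p) (π p)` and `{τ 1, τ 2} = {1, 2}`, or `a (π p) (π p)` and `{τ 1, τ 2} = {0, 1}` (`b 0 0 * b 1 1 = o`).
As `τ` is injective, either `τ = id` and we have the first kind, or `τ 0 = 2`, `τ 1 = 1`, `τ 2 = 0` and we have the second kind. -/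
theorem bt_e (ψ : BT →ₙ* BT) (π : Fin 3 → Fin 3) (hπ : Function.Injective π)
    (h : ∀ p, ψ (.e p p) = .e (π p) (π p)) : BTid ψ π ∨ BTsw ψ π := by
  have hs : Function.Surjective π := Finite.surjective_of_injective hπ
  have ho : ψ .o = .o := by
    apply m4_zero
    intro q
    obtain ⟨p, rfl⟩ := hs q
    rw [← h p, ← map_mul, m4_o_e]
  have he : ∀ p q, ψ (.e p q) = .e (π p) (π q) := by
    intro p q
    refine m4_ee _ _ _ ?_ ?_ ⟨ψ (.e q p), ?_⟩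
    · rw [← h p, ← map_mul, m4_e_mul]
    · rw [← h q, ← map_mul, m4_e_mul]
    · rw [← map_mul, m4_e_mul, h]
  have hd : ∀ k, ∃ i : Fin 3, ∃ σ : Fin 3 → Fin 3, ∀ u v, ψ (.d k u v) = .d i (σ u) (σ v) := by
    intro k
    rcases bt_d ψ k with h1 | ⟨-, i, σ, -, h1⟩
    · exfalso
      obtain ⟨a, b, hab, hk⟩ := m4_k_surj k
      obtain ⟨u, hu⟩ := m4_class a b hab
      refine m4_ne (π a) (π b) (fun h2 => hab (hπ h2)) ?_
      rw [← h a, ← h b, ← map_mul, hu, hk, h1, ho]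
    · exact ⟨i, σ, h1⟩
  choose τ σ hτ using hd
  have hτk : ∀ a b : Fin 3, a ≠ b → τ (m4_k a b) = m4_k (π a) (π b) := by
    intro a b hab
    obtain ⟨u, hu⟩ := m4_class a b hab
    obtain ⟨w, hw⟩ := m4_class (π a) (π b) (fun h2 => hab (hπ h2))
    have h1 : (.d (τ (m4_k a b)) (σ (m4_k a b) u) (σ (m4_k a b) u) : BT) = .d (m4_k (π a) (π b)) w w := by
      rw [← hw, ← hτ, ← hu, map_mul, h, h]
    injection h1
  have hτi : Function.Injective τ := by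
    intro k k' hk
    obtain ⟨a, b, hab, rfl⟩ := m4_k_surj k
    obtain ⟨a', b', hab', rfl⟩ := m4_k_surj k'
    rw [hτk a b hab, hτk a' b' hab'] at hk
    exact m4_k_inj π hπ a b a' b' hab hab' hk
  have hdo : ∀ k u v, ψ (.d k u v) ≠ .o := by
    intro k u v h1
    rw [hτ] at h1
    cases h1
  have hA : ∀ p, (ψ (.a p p) = .a (π p) (π p) ∧ ((τ 0 = 0 ∧ τ 1 = 1) ∨ (τ 0 = 1 ∧ τ 1 = 0))) ∨
      (ψ (.a p p) = .b (π p) (π p) ∧ ((τ 0 = 1 ∧ τ 1 = 2) ∨ (τ 0 = 2 ∧ τ 1 = 1))) := by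
    intro p
    rcases m4_idem (ψ (.a p p)) (π p) (τ 0) (τ 1) (fun h1 => absurd (hτi h1) (by decide))
      (by rw [← map_mul, m4_aa]) (by rw [← h p, ← map_mul, m4_ae])
      ⟨σ 0 (cE p 0), by rw [← hτ, ← map_mul, m4_a0]⟩
      ⟨σ 1 (cE p 1), by rw [← hτ, ← map_mul, m4_a1]⟩ with h1 | h1
    · exfalso
      have h2 : ∀ q, ψ (.a q q) = .e (π q) (π q) := by
        intro q
        rw [← m4_eae p q, map_mul, map_mul, he, he, h1, m4_e_mul, m4_e_mul]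
      refine m4_ne (π 1) (π 2) (fun h3 => absurd (hπ h3) (by decide)) ?_
      rw [← h2, ← h2, ← map_mul, m4_a12, ho]
    · exact h1
  have hB : ∀ p, (ψ (.b p p) = .a (π p) (π p) ∧ ((τ 1 = 0 ∧ τ 2 = 1) ∨ (τ 1 = 1 ∧ τ 2 = 0))) ∨
      (ψ (.b p p) = .b (π p) (π p) ∧ ((τ 1 = 1 ∧ τ 2 = 2) ∨ (τ 1 = 2 ∧ τ 2 = 1))) := by
    intro p
    rcases m4_idem (ψ (.b p p)) (π p) (τ 1) (τ 2) (fun h1 => absurd (hτi h1) (by decide))
      (by rw [← map_mul, m4_bb]) (by rw [← h p, ← map_mul, m4_be])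
      ⟨σ 1 (cE p 1), by rw [← hτ, ← map_mul, m4_b1]⟩
      ⟨σ 2 (cE p 2), by rw [← hτ, ← map_mul, m4_b2]⟩ with h1 | h1
    · exfalso
      have h2 : ∀ q, ψ (.b q q) = .e (π q) (π q) := by
        intro q
        rw [← m4_ebe p q, map_mul, map_mul, he, he, h1, m4_e_mul, m4_e_mul]
      refine m4_ne (π 0) (π 1) (fun h3 => absurd (hπ h3) (by decide)) ?_
      rw [← h2, ← h2, ← map_mul, m4_b01, ho]
    · exact h1
  have h01 : τ 0 ≠ τ 1 := fun h1 => absurd (hτi h1) (by decide)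
  have h02 : τ 0 ≠ τ 2 := fun h1 => absurd (hτi h1) (by decide)
  have h12 : τ 1 ≠ τ 2 := fun h1 => absurd (hτi h1) (by decide)
  have hfin : (τ 0 = 0 ∧ τ 1 = 1 ∧ τ 2 = 2) ∨ (τ 0 = 2 ∧ τ 1 = 1 ∧ τ 2 = 0) := by
    have hA0 := hA 0
    have hB0 := hB 0
    have key : ∀ a b c : Fin 3, a ≠ b → a ≠ c → b ≠ c →
        (((a = 0 ∧ b = 1) ∨ (a = 1 ∧ b = 0)) ∨ ((a = 1 ∧ b = 2) ∨ (a = 2 ∧ b = 1))) →
        (((b = 0 ∧ c = 1) ∨ (b = 1 ∧ c = 0)) ∨ ((b = 1 ∧ c = 2) ∨ (b = 2 ∧ c = 1))) →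
        (a = 0 ∧ b = 1 ∧ c = 2) ∨ (a = 2 ∧ b = 1 ∧ c = 0) := by
      intro a b c
      fin_cases a <;> fin_cases b <;> fin_cases c <;> simp
    exact key _ _ _ h01 h02 h12 (hA0.imp (fun h1 => h1.2) (fun h1 => h1.2))
      (hB0.imp (fun h1 => h1.2) (fun h1 => h1.2))
  rcases hfin with ⟨t0, t1, t2⟩ | ⟨t0, t1, t2⟩
  · left
    refine ⟨he, fun p => ?_, fun p => ?_, hdo, ⟨σ 0 2, by rw [hτ, t0]⟩, ⟨σ 2 2, by rw [hτ, t2]⟩⟩
    · rcases hA p with h1 | ⟨-, h1⟩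
      · exact h1.1
      · rw [t0, t1] at h1
        exact absurd h1 (by decide)
    · rcases hB p with ⟨-, h1⟩ | h1
      · rw [t1, t2] at h1
        exact absurd h1 (by decide)
      · exact h1.1
  · right
    refine ⟨he, fun p => ?_, fun p => ?_, hdo, ⟨σ 0 2, by rw [hτ, t0]⟩, ⟨σ 2 2, by rw [hτ, t2]⟩⟩
    · rcases hA p with ⟨-, h1⟩ | h1
      · rw [t0, t1] at h1
        exact absurd h1 (by decide)
      · exact h1.1
    · rcases hB p with h1 | ⟨-, h1⟩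
      · exact h1.1
      · rw [t1, t2] at h1
        exact absurd h1 (by decide)

/-- All endomorphisms of `BT`. -/
theorem bt_hom (ψ : BT →ₙ* BT) : (∀ p, ψ (.e p p) = ψ .o) ∨
    (ψ .o = .o ∧ ∃ i : Fin 3, (∀ p, ∃ u, ψ (.e p p) = .d i u u) ∧ ∀ v, ∃ t, ψ t = .d i v v) ∨
    (ψ .o = .o ∧ ∃ π : Fin 3 → Fin 3, Function.Injective π ∧ (BTid ψ π ∨ BTsw ψ π)) := by
  by_cases h : ∃ p, ψ (.e p p) ≠ ψ .o
  · have ho := bt_o ψ h
    rcases bt_kinds ψ h with h1 | ⟨π, hπ, h1⟩ | ⟨π, hπ, h1⟩ | ⟨π, hπ, h1⟩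
    · exact Or.inr (Or.inl ⟨ho.1, h1⟩)
    · exact Or.inr (Or.inr ⟨ho.1, π, hπ, bt_e ψ π hπ h1⟩)
    · exact (bt_not_a ψ π hπ h1).elim
    · exact (bt_not_b ψ π hπ h1).elim
  · push Not at h
    exact Or.inl h

end EVS
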