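import Pool.Agent.EVA.BX

/-!
# [EVA-M5a] endomorphisms of `BX m`: edges
-/

set_option autoImplicit false

namespace EVS

theorem m5a_d_mul {m : ℕ} (k u v : Fin 3) (y : BX m) : ∃ t, (BX.g (.d k u v) : BX m) * y = .g t := by
  rcases y with s | ⟨i, p⟩ | ⟨j, p⟩ | ⟨j, p⟩
  · exact ⟨_, rfl⟩
  · exact ⟨_, rfl⟩
  · exact ⟨_, rfl⟩
  · exact ⟨_, rfl⟩

theorem m5a_o_mul {m : ℕ} (y : BX m) : ∃ t, (BX.g .o : BX m) * y = .g t := by
  rcases y with s | ⟨i, p⟩ | ⟨j, p⟩ | ⟨j, p⟩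
  · exact ⟨_, rfl⟩
  · exact ⟨_, rfl⟩
  · exact ⟨_, rfl⟩
  · exact ⟨_, rfl⟩

theorem m5a_rx : ∀ (p : Fin 3) (s : BT), BT.rx p s = .o ∨ ∃ k u v, BT.rx p s = .d k u v := by
  decide +kernel

theorem m5a_ra : ∀ (p : Fin 3) (s : BT), BT.ra p s = .o ∨ ∃ k u v, BT.ra p s = .d k u v := by
  decide +kernel

theorem m5a_rb : ∀ (p : Fin 3) (s : BT), BT.rb p s = .o ∨ ∃ k u v, BT.rb p s = .d k u v := by
  decide +kernel

/-- the product of a new element and any element is small -/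
theorem m5a_mul {m : ℕ} (y z : BX m) (hy : ∀ s, y ≠ .g s) :
    ∃ t, y * z = .g t ∧ (t = .o ∨ ∃ k u v, t = .d k u v) := by
  rcases y with s | ⟨i, p⟩ | ⟨j, p⟩ | ⟨j, p⟩
  · exact absurd rfl (hy s)
  · rcases z with s | ⟨i', p'⟩ | ⟨j', p'⟩ | ⟨j', p'⟩
    · exact ⟨_, rfl, m5a_rx p s⟩
    · exact ⟨_, rfl, Or.inl rfl⟩
    · exact ⟨_, rfl, Or.inl rfl⟩
    · exact ⟨_, rfl, Or.inl rfl⟩
  · rcases z with s | ⟨i', p'⟩ | ⟨j', p'⟩ | ⟨j', p'⟩
    · exact ⟨_, rfl, m5a_ra p s⟩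
    · exact ⟨_, rfl, Or.inl rfl⟩
    · exact ⟨_, rfl, Or.inl rfl⟩
    · exact ⟨_, rfl, Or.inl rfl⟩
  · rcases z with s | ⟨i', p'⟩ | ⟨j', p'⟩ | ⟨j', p'⟩
    · exact ⟨_, rfl, m5a_rb p s⟩
    · exact ⟨_, rfl, Or.inl rfl⟩
    · exact ⟨_, rfl, Or.inl rfl⟩
    · exact ⟨_, rfl, Or.inl rfl⟩

/-- elements of `BT` go to elements of `BT`.  PROOF: `s * t * s = s` for some `t` (`BT.reg`), so `y = φ (g s)` satisfies `y * y' * y = y`.  If `y` is not in `BT`: `y * y'` is in
`BT`: it is `g o` if `y'` is not in `BT`, and `g (BT.rx p s')`, `g (BT.ra p s')` or `g (BT.rb p s')` otherwise; these elements of `BT` are `o` or `d k u v` (`decide`), and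
`g (d k u v) * y` is in `BT` (`BX.mul_def`, cases), a contradiction. -/
theorem bx_core {m : ℕ} (φ : BX m →ₙ* BX m) (s : BT) : ∃ s', φ (.g s) = .g s' := by
  by_contra hcon
  push Not at hcon
  obtain ⟨t, ht⟩ := BT.reg s
  have h1 : (BX.g s : BX m) * .g t * .g s = .g s := by
    show (BX.g (s * t * s) : BX m) = .g s
    rw [ht]
  have h2 : φ (.g s) * φ (.g t) * φ (.g s) = φ (.g s) := by
    rw [← map_mul, ← map_mul, h1]
  obtain ⟨t', ht', h3⟩ := m5a_mul (φ (.g s)) (φ (.g t)) hcon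
  rw [ht'] at h2
  rcases h3 with rfl | ⟨k, u, v, rfl⟩
  · obtain ⟨r, hr⟩ := m5a_o_mul (φ (.g s))
    exact hcon r (by rw [← h2, hr])
  · obtain ⟨r, hr⟩ := m5a_d_mul k u v (φ (.g s))
    exact hcon r (by rw [← h2, hr])

theorem BX.g_inj {m : ℕ} {s s' : BT} (h : (BX.g s : BX m) = .g s') : s = s' := by
  injection h

/-- the endomorphism of `BT` induced by `φ`.  PROOF: choice from `bx_core`, `BX.g s * BX.g s' = BX.g (s * s')`. -/
theorem bx_psi {m : ℕ} (φ : BX m →ₙ* BX m) : ∃ ψ : BT →ₙ* BT, ∀ s, φ (.g s) = .g (ψ s) := by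
  choose f hf using bx_core φ
  refine ⟨⟨f, fun s s' => ?_⟩, hf⟩
  apply BX.g_inj (m := m)
  have h1 : (BX.g (s * s') : BX m) = .g s * .g s' := rfl
  rw [← hf, h1, map_mul, hf, hf]
  rfl

theorem BX.e_x {m : ℕ} (q p : Fin 3) (i : Fin (2 * m + 1)) : (BX.g (.e q p) : BX m) * .x i p = .x i q := by
  show (if p = p then (BX.x i q : BX m) else _) = _
  rw [if_pos rfl]

theorem BX.a_x {m : ℕ} (q p : Fin 3) (i : Fin (2 * m + 1)) : (BX.g (.a q p) : BX m) * .x i p = BX.va m i.val q := by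
  show (if p = p then (BX.va m i.val q : BX m) else _) = _
  rw [if_pos rfl]

theorem BX.b_x {m : ℕ} (q p : Fin 3) (i : Fin (2 * m + 1)) : (BX.g (.b q p) : BX m) * .x i p = BX.vb m i.val q := by
  show (if p = p then (BX.vb m i.val q : BX m) else _) = _
  rw [if_pos rfl]

/-- A walk with steps at most 1 from one end to the other end in the smallest possible time.  PROOF: `J i ≤ J 0 + i` and `J N ≤ J i + (N - i)` by induction. -/
theorem walk_id {N : ℕ} (J : ℕ → ℕ) (h0 : J 0 = 0) (hN : J N = N)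
    (hs : ∀ i, i < N → J (i + 1) ≤ J i + 1 ∧ J i ≤ J (i + 1) + 1) : ∀ i, i ≤ N → J i = i := by
  have h1 : ∀ i, i ≤ N → J i ≤ i := by
    intro i
    induction i with
    | zero => intro _; rw [h0]
    | succ i ih =>
      intro hi
      have := ih (by omega)
      have := (hs i (by omega)).1
      omega
  have h2 : ∀ k, k ≤ N → N ≤ J (N - k) + k := by
    intro k
    induction k with
    | zero => intro _; rw [Nat.sub_zero, hN]; omega
    | succ k ih =>
      intro hk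
      have h3 := ih (by omega)
      have h4 := (hs (N - (k + 1)) (by omega)).1
      have h5 : N - (k + 1) + 1 = N - k := by omega
      rw [h5] at h4
      omega
  intro i hi
  have h3 := h1 i hi
  have h4 := h2 (N - i) (by omega)
  have h5 : N - (N - i) = i := by omega
  rw [h5] at h4
  omega

/-- PROOF: in the same way, or `walk_id` for `N - J i` (`J i ≤ N` by induction). -/
theorem walk_rev {N : ℕ} (J : ℕ → ℕ) (h0 : J 0 = N) (hN : J N = 0)
    (hs : ∀ i, i < N → J (i + 1) ≤ J i + 1 ∧ J i ≤ J (i + 1) + 1) : ∀ i, i ≤ N → J i = N - i := by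
  intro i hi
  have h1 := walk_id (N := N) (fun k => J (N - k)) (by simpa using hN) (by simpa using h0)
    (fun k hk => by
      have h2 := hs (N - (k + 1)) (by omega)
      have h3 : N - (k + 1) + 1 = N - k := by omega
      rw [h3] at h2
      exact ⟨h2.2, h2.1⟩) (N - i) (by omega)
  have h4 : N - (N - i) = i := by omega
  simp only [h4] at h1
  exact h1

/-- PROOF: unfold `BX.va`, `BX.vb`. -/
theorem BX.va_core {m i : ℕ} {q : Fin 3} {s : BT} (hi : i ≤ 2 * m) (h : BX.va m i q = .g s) : i = 0 := by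
  by_contra h1
  unfold BX.va at h
  rw [dif_pos ⟨by omega, hi⟩] at h
  cases h

theorem BX.vb_core {m i : ℕ} {q : Fin 3} {s : BT} (hi : i ≤ 2 * m) (h : BX.vb m i q = .g s) : i = 2 * m := by
  by_contra h1
  unfold BX.vb at h
  rw [dif_pos (by omega)] at h
  cases h

theorem BX.va_eq {m i j : ℕ} {q : Fin 3} (hi : i ≤ 2 * m) (hj : j ≤ 2 * m) (h : BX.va m i q = BX.va m j q) :
    i ≤ j + 1 ∧ j ≤ i + 1 := by
  by_cases h1 : i = 0
  · have h2 : BX.va m i q = .g (.d 0 (cE q 0) 2) := dif_neg (by omega)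
    have := BX.va_core hj (h.symm.trans h2)
    omega
  · by_cases h2 : j = 0
    · have h3 : BX.va m j q = .g (.d 0 (cE q 0) 2) := dif_neg (by omega)
      have := BX.va_core hi (h.trans h3)
      omega
    · have h3 : BX.va m i q = .al ⟨(i + 1) / 2 - 1, by omega⟩ q := dif_pos ⟨by omega, hi⟩
      have h4 : BX.va m j q = .al ⟨(j + 1) / 2 - 1, by omega⟩ q := dif_pos ⟨by omega, hj⟩
      rw [h3, h4] at h
      injection h with h5 _
      have h6 : (i + 1) / 2 - 1 = (j + 1) / 2 - 1 := congrArg Fin.val h5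
      omega

theorem BX.vb_eq {m i j : ℕ} {q : Fin 3} (hi : i ≤ 2 * m) (hj : j ≤ 2 * m) (h : BX.vb m i q = BX.vb m j q) :
    i ≤ j + 1 ∧ j ≤ i + 1 := by
  by_cases h1 : i = 2 * m
  · have h2 : BX.vb m i q = .g (.d 2 (cE q 2) 2) := dif_neg (by omega)
    have := BX.vb_core hj (h.symm.trans h2)
    omega
  · by_cases h2 : j = 2 * m
    · have h3 : BX.vb m j q = .g (.d 2 (cE q 2) 2) := dif_neg (by omega)
      have := BX.vb_core hi (h.trans h3)
      omega
    · have h3 : BX.vb m i q = .be ⟨i / 2, by omega⟩ q := dif_pos (by omega)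
      have h4 : BX.vb m j q = .be ⟨j / 2, by omega⟩ q := dif_pos (by omega)
      rw [h3, h4] at h
      injection h with h5 _
      have h6 : i / 2 = j / 2 := congrArg Fin.val h5
      omega

end EVS
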