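import Pool.Agent.EVA.M4
import Pool.Agent.EVA.M5a

/-!
# [EVA-M5b] endomorphisms of `BX m`: edges]
-/

set_option autoImplicit false

namespace EVS

private theorem rx_d0 : ∀ p : Fin 3, BT.rx p (.d 0 2 2) = .d 0 (cE p 0) 2 := by decide +kernel

private theorem rx_d2 : ∀ p : Fin 3, BT.rx p (.d 2 2 2) = .d 2 (cE p 2) 2 := by decide +kernel

private theorem rx_e : ∀ p q : Fin 3, BT.rx p (.e q q) = .o := by decide +kernel

private theorem ra_d2 : ∀ q w : Fin 3, BT.ra q (.d 2 w w) = .o := by decide +kernel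

private theorem rb_d0 : ∀ q w : Fin 3, BT.rb q (.d 0 w w) = .o := by decide +kernel

private theorem core_e : ∀ (P : Fin 3) (s : BT) (w w' : Fin 3), BT.e P P * s = s → s * .d 0 w w ≠ .o →
    s * .d 2 w' w' ≠ .o → ∃ q, s = .e P q := by decide +kernel

private theorem e_ee : ∀ (P q : Fin 3), BT.e P q * .e q q = .e P q := by decide +kernel

/-- PROOF: let `y = φ (x i p)`.  `g (e (π p) (π p)) * y = y` (`BX.e_x`).  `y * g (ψ (d 0 2 2)) = φ (x i p * g (d 0 2 2)) = g (ψ (BT.rx p (d 0 2 2)))`,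
`BT.rx p (d 0 2 2) = d 0 (cE p 0) 2` (`decide`), so it is not `g o`; in the same way `y * g (ψ (d 2 2 2)) ≠ g o`.  In both cases of `hψ` we have `w`, `w'` with
`y * g (d 0 w w) ≠ g o` and `y * g (d 2 w' w') ≠ g o`.
* `y = g s`: `e (π p) (π p) * s = s`, `s * d 0 w w ≠ o`, `s * d 2 w' w' ≠ o` imply `s = e (π p) q` for some `q` (`decide +kernel`).  `q = π q'` (`π` is
  surjective), so `y = y * g (e q q) = y * φ (g (e q' q')) = φ (x i p * g (e q' q')) = φ (g (BT.rx p (e q' q'))) = φ (g o) = g o` (`decide`), a contradiction.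
* `y = al j q`: `y * g (d 2 w' w') = g (BT.ra q (d 2 w' w')) = g o`.  `y = be j q`: `y * g (d 0 w w) = g o`.
* `y = x j q`: `g (e (π p) (π p)) * x j q = x j q` implies `q = π p` (otherwise the product is in `BT`).
This gives some `j` for each `p`; it does not depend on `p`: `x i p = g (e p 0) * x i 0`, `BX.e_x`. -/
theorem bx_edge {m : ℕ} (φ : BX m →ₙ* BX m) (ψ : BT →ₙ* BT) (h : ∀ s, φ (.g s) = .g (ψ s)) (ho : ψ .o = .o)
    (π : Fin 3 → Fin 3) (hπ : Function.Injective π) (hψ : BTid ψ π ∨ BTsw ψ π) (i : Fin (2 * m + 1)) :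
    ∃ j : Fin (2 * m + 1), ∀ p, φ (.x i p) = .x j (π p) := by
  have he : ∀ p q, ψ (.e p q) = .e (π p) (π q) := by
    rcases hψ with h1 | h1
    · exact h1.1
    · exact h1.1
  have hd : ∀ k u v, ψ (.d k u v) ≠ .o := by
    rcases hψ with h1 | h1
    · exact h1.2.2.2.1
    · exact h1.2.2.2.1
  have hsurj : Function.Surjective π := Finite.injective_iff_surjective.1 hπ
  have hF2 : ∀ p s, φ (.x i p) * .g (ψ s) = .g (ψ (BT.rx p s)) := by
    intro p s
    rw [← h, ← map_mul, ← h]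
    rfl
  have hF1 : ∀ p, (BX.g (.e (π p) (π p)) : BX m) * φ (.x i p) = φ (.x i p) := by
    intro p
    have h1 := BX.e_x p p i
    have h2 := congrArg φ h1
    rw [map_mul, h, he] at h2
    exact h2
  have hA : ∀ p, φ (.x i p) * .g (ψ (.d 0 2 2)) ≠ .g .o := by
    intro p h1
    rw [hF2, rx_d0] at h1
    exact hd _ _ _ (BX.g_inj h1)
  have hB : ∀ p, φ (.x i p) * .g (ψ (.d 2 2 2)) ≠ .g .o := by
    intro p h1
    rw [hF2, rx_d2] at h1
    exact hd _ _ _ (BX.g_inj h1)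
  have hw : ∃ w w' : Fin 3, ∀ p, φ (.x i p) * .g (.d 0 w w) ≠ .g .o ∧ φ (.x i p) * .g (.d 2 w' w') ≠ .g .o := by
    rcases hψ with ⟨-, -, -, -, ⟨w, hw⟩, ⟨w', hw'⟩⟩ | ⟨-, -, -, -, ⟨w, hw⟩, ⟨w', hw'⟩⟩
    · rw [hw] at hA
      rw [hw'] at hB
      exact ⟨w, w', fun p => ⟨hA p, hB p⟩⟩
    · rw [hw] at hA
      rw [hw'] at hB
      exact ⟨w', w, fun p => ⟨hB p, hA p⟩⟩
  obtain ⟨w, w', hw⟩ := hw
  have key : ∀ p, ∃ j : Fin (2 * m + 1), φ (.x i p) = .x j (π p) := by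
    intro p
    have h1 := hF1 p
    obtain ⟨h2, h3⟩ := hw p
    have h4 : ∀ q, φ (.x i p) * .g (.e q q) = .g .o := by
      intro q
      obtain ⟨q', rfl⟩ := hsurj q
      rw [← he, hF2, rx_e, ho]
    generalize φ (.x i p) = y at h1 h2 h3 h4
    rcases y with s | ⟨j, q⟩ | ⟨j, q⟩ | ⟨j, q⟩
    · exfalso
      have h5 : BT.e (π p) (π p) * s = s := BX.g_inj h1
      obtain ⟨q, rfl⟩ := core_e (π p) s w w' h5 (fun h6 => h2 (congrArg BX.g h6))
        (fun h6 => h3 (congrArg BX.g h6))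
      have h6 : BT.e (π p) q * .e q q = .o := BX.g_inj (h4 q)
      rw [e_ee] at h6
      exact absurd h6 (by simp)
    · by_cases hq : π p = q
      · subst hq
        exact ⟨j, rfl⟩
      · exfalso
        have h5 : (BX.g (.e (π p) (π p)) : BX m) * .x j q =
            if π p = q then .x j (π p) else .g ((BT.e (π p) (π p)).shx q) := rfl
        rw [if_neg hq] at h5
        rw [h5] at h1
        exact absurd h1 (by simp)
    · exact (h3 (congrArg BX.g (ra_d2 q w'))).elim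
    · exact (h2 (congrArg BX.g (rb_d0 q w))).elim
  obtain ⟨j, hj⟩ := key 0
  refine ⟨j, fun p => ?_⟩
  have h1 : (BX.x i p : BX m) = .g (.e p 0) * .x i 0 := (BX.e_x p 0 i).symm
  rw [h1, map_mul, h, he, hj]
  exact BX.e_x _ _ _

end EVS
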