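import Pool.Agent.EVA.M5b

/-!
# [EVA-M6a] `BX m` has few endomorphisms
-/

set_option autoImplicit false

namespace EVS

private theorem m6a_va_step {m i : ℕ} (q : Fin 3) (hi : i < 2 * m) (ho : i % 2 = 1) :
    BX.va m i q = BX.va m (i + 1) q := by
  unfold BX.va
  rw [dif_pos ⟨by omega, by omega⟩, dif_pos ⟨by omega, by omega⟩]
  congr 1
  apply Fin.ext
  show (i + 1) / 2 - 1 = (i + 1 + 1) / 2 - 1
  omega

private theorem m6a_vb_step {m i : ℕ} (q : Fin 3) (hi : i < 2 * m) (he : i % 2 = 0) :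
    BX.vb m i q = BX.vb m (i + 1) q := by
  unfold BX.vb
  rw [dif_pos (by omega), dif_pos (by omega)]
  congr 1
  apply Fin.ext
  show i / 2 = (i + 1) / 2
  omega

private theorem m6a_va_zero (m : ℕ) (q : Fin 3) : BX.va m 0 q = .g (.d 0 (cE q 0) 2) := by
  unfold BX.va
  rw [dif_neg (by omega)]

private theorem m6a_vb_last (m : ℕ) (q : Fin 3) : BX.vb m (2 * m) q = .g (.d 2 (cE q 2) 2) := by
  unfold BX.vb
  rw [dif_neg (by omega)]

/-- PROOF: let `J i = j` from `bx_edge` (`J : ℕ → ℕ`, arbitrary for `i > 2 m`).  `φ (va i p) = φ (g (a p p) * x i p) = g (a (π p) (π p)) * x (J i) (π p) = va (J i) (π p)`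
(`BX.a_x`), and `φ (vb i p) = vb (J i) (π p)`.  `va 0 p` is in `BT`, so `va (J 0) (π p)` is in `BT` (`bx_core`), so `J 0 = 0` (`BX.va_core`); `vb (2 m) p` is in `BT`, so
`J (2 m) = 2 m` (`BX.vb_core`).  `va (2 k + 1) p = va (2 k + 2) p` and `vb (2 k) p = vb (2 k + 1) p` (for `k < m`), so by `BX.va_eq`, `BX.vb_eq` consecutive `J i` differ by at
most 1.  `walk_id`. -/
theorem bx_id {m : ℕ} (φ : BX m →ₙ* BX m) (ψ : BT →ₙ* BT) (h : ∀ s, φ (.g s) = .g (ψ s)) (ho : ψ .o = .o)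
    (π : Fin 3 → Fin 3) (hπ : Function.Injective π) (hψ : BTid ψ π) (i : Fin (2 * m + 1)) (p : Fin 3) :
    φ (.x i p) = .x i (π p) := by
  have hE := bx_edge φ ψ h ho π hπ (Or.inl hψ)
  choose J' hJ' using hE
  have hva : ∀ (i : Fin (2 * m + 1)) (p : Fin 3), φ (BX.va m i.val p) = BX.va m (J' i).val (π p) := by
    intro i p
    rw [← BX.a_x p p i, map_mul, h, hψ.2.1, hJ', BX.a_x]
  have hvb : ∀ (i : Fin (2 * m + 1)) (p : Fin 3), φ (BX.vb m i.val p) = BX.vb m (J' i).val (π p) := by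
    intro i p
    rw [← BX.b_x p p i, map_mul, h, hψ.2.2.1, hJ', BX.b_x]
  obtain ⟨J, hJ⟩ : ∃ J : ℕ → ℕ, ∀ (i : ℕ) (hi : i < 2 * m + 1), J i = (J' ⟨i, hi⟩).val :=
    ⟨fun i => if hi : i < 2 * m + 1 then (J' ⟨i, hi⟩).val else 0, fun i hi => dif_pos hi⟩
  have hle : ∀ i : Fin (2 * m + 1), (J' i).val ≤ 2 * m := fun i => Nat.lt_succ_iff.1 (J' i).2
  have h0 : J 0 = 0 := by
    rw [hJ 0 (by omega)]
    have h1 := hva ⟨0, by omega⟩ 0
    rw [m6a_va_zero, h] at h1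
    exact BX.va_core (hle _) h1.symm
  have hN : J (2 * m) = 2 * m := by
    rw [hJ (2 * m) (by omega)]
    have h1 := hvb ⟨2 * m, by omega⟩ 0
    rw [m6a_vb_last, h] at h1
    exact BX.vb_core (hle _) h1.symm
  have hs : ∀ i, i < 2 * m → J (i + 1) ≤ J i + 1 ∧ J i ≤ J (i + 1) + 1 := by
    intro i hi
    rw [hJ i (by omega), hJ (i + 1) (by omega)]
    rcases Nat.mod_two_eq_zero_or_one i with h2 | h2
    · have h3 := hvb ⟨i, by omega⟩ 0
      have h4 := hvb ⟨i + 1, by omega⟩ 0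
      rw [m6a_vb_step 0 hi h2] at h3
      exact (BX.vb_eq (hle _) (hle _) (h3.symm.trans h4)).symm
    · have h3 := hva ⟨i, by omega⟩ 0
      have h4 := hva ⟨i + 1, by omega⟩ 0
      rw [m6a_va_step 0 hi h2] at h3
      exact (BX.va_eq (hle _) (hle _) (h3.symm.trans h4)).symm
  have h5 := walk_id J h0 hN hs i.val (Nat.lt_succ_iff.1 i.2)
  rw [hJ i.val i.2] at h5
  rw [hJ']
  congr 1
  exact Fin.ext h5

/-- PROOF: as before; now `φ (va i p) = vb (J i) (π p)` and `φ (vb i p) = va (J i) (π p)`, so `J 0 = 2 m`, `J (2 m) = 0`, `walk_rev`.  (`Fin.rev i` has the value `2 m - i`.) -/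
theorem bx_sw {m : ℕ} (φ : BX m →ₙ* BX m) (ψ : BT →ₙ* BT) (h : ∀ s, φ (.g s) = .g (ψ s)) (ho : ψ .o = .o)
    (π : Fin 3 → Fin 3) (hπ : Function.Injective π) (hψ : BTsw ψ π) (i : Fin (2 * m + 1)) (p : Fin 3) :
    φ (.x i p) = .x i.rev (π p) := by
  have hE := bx_edge φ ψ h ho π hπ (Or.inr hψ)
  choose J' hJ' using hE
  have hva : ∀ (i : Fin (2 * m + 1)) (p : Fin 3), φ (BX.va m i.val p) = BX.vb m (J' i).val (π p) := by
    intro i p
    rw [← BX.a_x p p i, map_mul, h, hψ.2.1, hJ', BX.b_x]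
  have hvb : ∀ (i : Fin (2 * m + 1)) (p : Fin 3), φ (BX.vb m i.val p) = BX.va m (J' i).val (π p) := by
    intro i p
    rw [← BX.b_x p p i, map_mul, h, hψ.2.2.1, hJ', BX.a_x]
  obtain ⟨J, hJ⟩ : ∃ J : ℕ → ℕ, ∀ (i : ℕ) (hi : i < 2 * m + 1), J i = (J' ⟨i, hi⟩).val :=
    ⟨fun i => if hi : i < 2 * m + 1 then (J' ⟨i, hi⟩).val else 0, fun i hi => dif_pos hi⟩
  have hle : ∀ i : Fin (2 * m + 1), (J' i).val ≤ 2 * m := fun i => Nat.lt_succ_iff.1 (J' i).2
  have h0 : J 0 = 2 * m := by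
    rw [hJ 0 (by omega)]
    have h1 := hva ⟨0, by omega⟩ 0
    rw [m6a_va_zero, h] at h1
    exact BX.vb_core (hle _) h1.symm
  have hN : J (2 * m) = 0 := by
    rw [hJ (2 * m) (by omega)]
    have h1 := hvb ⟨2 * m, by omega⟩ 0
    rw [m6a_vb_last, h] at h1
    exact BX.va_core (hle _) h1.symm
  have hs : ∀ i, i < 2 * m → J (i + 1) ≤ J i + 1 ∧ J i ≤ J (i + 1) + 1 := by
    intro i hi
    rw [hJ i (by omega), hJ (i + 1) (by omega)]
    rcases Nat.mod_two_eq_zero_or_one i with h2 | h2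
    · have h3 := hvb ⟨i, by omega⟩ 0
      have h4 := hvb ⟨i + 1, by omega⟩ 0
      rw [m6a_vb_step 0 hi h2] at h3
      exact (BX.va_eq (hle _) (hle _) (h3.symm.trans h4)).symm
    · have h3 := hva ⟨i, by omega⟩ 0
      have h4 := hva ⟨i + 1, by omega⟩ 0
      rw [m6a_va_step 0 hi h2] at h3
      exact (BX.vb_eq (hle _) (hle _) (h3.symm.trans h4)).symm
  have h5 := walk_rev J h0 hN hs i.val (Nat.lt_succ_iff.1 i.2)
  rw [hJ i.val i.2] at h5
  rw [hJ']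
  congr 1
  apply Fin.ext
  rw [Fin.val_rev]
  have h6 := i.2
  have h7 : (J' i).val = 2 * m - i.val := h5
  omega

end EVS
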