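import Pool.Agent.EVA.RT

/-!
# [EVA-N2a] endomorphisms of `RT`
-/

set_option autoImplicit false

namespace EVS

/-- PROOF (all multiplications in `RT` by `decide +kernel` or `rfl`).
(1) `k 6 * e = k 0 = k 6 * d0`, `k 6 * d1 = k 1`; so `ψ (k 0) = ψ (k 6 * e) = k 6 * ψ e` is `k 0` or `k 1`.
(2) `k 0 * w0 = k 6`, `k 1 * w0 = k 7`, `k 0 * t0 = k 0`, `k 1 * t0 = k 7`.  If `ψ (k 0) = ψ (k 1)` then `ψ (k 6) = ψ (k 7)` and
`ψ (k 0) = ψ (k 7)`, so `ψ (k 0) = k 6`, contradicting (1).  In the same way `ψ (k 0) ≠ ψ (k 2)` (`k 0 * w1 = k 6`, `k 2 * w1 = k 8`, `k 0 * t1 = k 0`,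
`k 2 * t1 = k 8`) and `ψ (k 0) ≠ ψ (k 4)` (`w2`, `t2`, `k 9`).  `ψ (k 2) ≠ ψ (k 4)`: `k 2 * s1 = k 2`, `k 4 * s1 = k 0`.
(3) `ψ (k p) = ψ (k 6 * k p) = k 6 * ψ (k p)` is some `k q` (`k 6 * x` is always a constant).
(4) `g = ψ d0`, `g' = ψ d1`.  `k i * d0 = k i` for `i = 0, 2, 4`: `g` fixes three different constants, so `g` is `e`, `d0` or `d1`
(`∀ g p q r, p ≠ q → p ≠ r → q ≠ r → k p * g = k p → k q * g = k q → k r * g = k r → g = e ∨ g = d0 ∨ g = d1` by `decide +kernel`).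
`k 1 = k 0 * d1`, `k 3 = k 2 * d1`, `k 5 = k 4 * d1`, `k i * d1 = k i` for `i = 1, 3, 5`, and `k (i+1) * d0 = k i` for `i = 0, 2, 4`, so the `ψ (k i)`, `i = 1, 3, 5` are
different, and `g'` is `e`, `d0` or `d1`.
(5) `ψ (k 0) * g = ψ (k 0)`, `ψ (k 0) * g' = ψ (k 1) ≠ ψ (k 0)`, so `g ≠ g'`.  `d0 * d1 = d1`, `d1 * d0 = d0`, `d0 * e = d0`, `d1 * e = d1`, so
`g g' = g'`, `g' g = g`, `g e' = g`, `g' e' = g'` with `e' = ψ e`.  All three are in `{e, d0, d1}`: `g ≠ e` (`g' e = g' ≠ e`), `g' ≠ e`, so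
`{g, g'} = {d0, d1}`, so `e' = e` (`d1 * d0 ≠ d1`, `d0 * d1 ≠ d0`).
(6) `ψ (k 0) = k 6 * e = k 0`, `k 0 * g = k 0`, so `g = d0` (`k 0 * d1 = k 1`), `g' = d1`. -/
theorem rt_alive (ψ : RT →ₙ* RT) (hc : ψ (.k 6) = .k 6) (he : ψ .e = .e ∨ ψ .e = .d0 ∨ ψ .e = .d1) :
    ψ .e = .e ∧ ψ .d0 = .d0 ∧ ψ .d1 = .d1 := by
  have m : ∀ x y z : RT, x * y = z → ψ x * ψ y = ψ z := fun x y z h => by rw [← map_mul, h]
  have hk0 : ψ (.k 0) = .k 6 * ψ .e := by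
    rw [← hc]; exact (m (.k 6) .e (.k 0) (by decide)).symm
  have h01 : ψ (.k 0) = .k 0 ∨ ψ (.k 0) = .k 1 := by
    rcases he with h | h | h <;> rw [hk0, h]
    · left; decide
    · left; decide
    · right; decide
  have hk06 : ψ (.k 0) ≠ .k 6 := by
    rcases h01 with h | h <;> rw [h] <;> decide
  have key : ∀ (x w t y : RT), .k 0 * w = .k 6 → x * w = y → .k 0 * t = .k 0 → x * t = y →
      ψ (.k 0) ≠ ψ x := by
    intro x w t y h1 h2 h3 h4 h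
    have e1 := m _ _ _ h1
    have e2 := m _ _ _ h2
    have e3 := m _ _ _ h3
    have e4 := m _ _ _ h4
    rw [h] at e1 e3
    apply hk06
    rw [h, ← e3, e4, ← e2, e1, hc]
  have n01 : ψ (.k 0) ≠ ψ (.k 1) := key (.k 1) .w0 .t0 (.k 7) (by decide) (by decide) (by decide) (by decide)
  have n02 : ψ (.k 0) ≠ ψ (.k 2) := key (.k 2) .w1 .t1 (.k 8) (by decide) (by decide) (by decide) (by decide)
  have n04 : ψ (.k 0) ≠ ψ (.k 4) := key (.k 4) .w2 .t2 (.k 9) (by decide) (by decide) (by decide) (by decide)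
  have n24 : ψ (.k 2) ≠ ψ (.k 4) := by
    intro h
    have e1 := m (.k 2) .s1 (.k 2) (by decide)
    have e2 := m (.k 4) .s1 (.k 0) (by decide)
    apply n02
    rw [← e2, ← h, e1]
  have hcon : ∀ x : RT, ∃ q, (RT.k 6) * x = .k q := by decide
  have hq : ∀ p, ∃ q, ψ (.k p) = .k q := by
    intro p
    have h1 : (RT.k 6) * .k p = .k p := rfl
    have e1 := m _ _ _ h1
    rw [hc] at e1
    rw [← e1]
    exact hcon _
  have hfix : ∀ (g : RT) (p q r : Fin 10), p ≠ q → p ≠ r → q ≠ r → .k p * g = .k p →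
      .k q * g = .k q → .k r * g = .k r → g = .e ∨ g = .d0 ∨ g = .d1 := by decide +kernel
  have hfix2 : ∀ (g : RT) (a b c : Fin 10), ψ (.k a) ≠ ψ (.k b) → ψ (.k a) ≠ ψ (.k c) →
      ψ (.k b) ≠ ψ (.k c) → ψ (.k a) * g = ψ (.k a) → ψ (.k b) * g = ψ (.k b) →
      ψ (.k c) * g = ψ (.k c) → g = .e ∨ g = .d0 ∨ g = .d1 := by
    intro g a b c h1 h2 h3 h4 h5 h6
    obtain ⟨p, hp⟩ := hq a
    obtain ⟨q, hq'⟩ := hq b
    obtain ⟨r, hr⟩ := hq c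
    rw [hp] at h1 h2 h4
    rw [hq'] at h1 h3 h5
    rw [hr] at h2 h3 h6
    exact hfix g p q r (fun h => h1 (by rw [h])) (fun h => h2 (by rw [h])) (fun h => h3 (by rw [h])) h4 h5 h6
  have g0 : ψ .d0 = .e ∨ ψ .d0 = .d0 ∨ ψ .d0 = .d1 :=
    hfix2 (ψ .d0) 0 2 4 n02 n04 n24 (m (.k 0) .d0 (.k 0) (by decide)) (m (.k 2) .d0 (.k 2) (by decide))
      (m (.k 4) .d0 (.k 4) (by decide))
  have b0 := m (.k 1) .d0 (.k 0) (by decide)
  have b2 := m (.k 3) .d0 (.k 2) (by decide)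
  have b4 := m (.k 5) .d0 (.k 4) (by decide)
  have n13 : ψ (.k 1) ≠ ψ (.k 3) := by
    intro h
    rw [h, b2] at b0
    exact n02 b0.symm
  have n15 : ψ (.k 1) ≠ ψ (.k 5) := by
    intro h
    rw [h, b4] at b0
    exact n04 b0.symm
  have n35 : ψ (.k 3) ≠ ψ (.k 5) := by
    intro h
    rw [h, b4] at b2
    exact n24 b2.symm
  have g1 : ψ .d1 = .e ∨ ψ .d1 = .d0 ∨ ψ .d1 = .d1 :=
    hfix2 (ψ .d1) 1 3 5 n13 n15 n35 (m (.k 1) .d1 (.k 1) (by decide)) (m (.k 3) .d1 (.k 3) (by decide))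
      (m (.k 5) .d1 (.k 5) (by decide))
  have c0 := m (.k 0) .d0 (.k 0) (by decide)
  have c1 := m (.k 0) .d1 (.k 1) (by decide)
  have hne : ψ .d0 ≠ ψ .d1 := by
    intro h
    rw [h, c1] at c0
    exact n01 c0.symm
  have f1 := m .d0 .e .d0 (by decide)
  have f2 := m .d1 .e .d1 (by decide)
  have f3 := m .d0 .d1 .d1 (by decide)
  have f4 := m .d1 .d0 .d0 (by decide)
  have fin1 : ∀ e' g g' : RT, (e' = .e ∨ e' = .d0 ∨ e' = .d1) → (g = .e ∨ g = .d0 ∨ g = .d1) →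
      (g' = .e ∨ g' = .d0 ∨ g' = .d1) → g ≠ g' → g * e' = g → g' * e' = g' → g * g' = g' → g' * g = g →
      e' = .e ∧ ((g = .d0 ∧ g' = .d1) ∨ (g = .d1 ∧ g' = .d0)) := by
    rintro e' g g' (rfl | rfl | rfl) (rfl | rfl | rfl) (rfl | rfl | rfl) <;> decide
  obtain ⟨r1, r2⟩ := fin1 _ _ _ he g0 g1 hne f1 f2 f3 f4
  refine ⟨r1, ?_⟩
  rcases r2 with ⟨r3, r4⟩ | ⟨r3, r4⟩
  · exact ⟨r3, r4⟩
  · exfalso
    rw [r1] at hk0
    have hk0' : ψ (.k 0) = .k 0 := by rw [hk0]; decide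
    rw [hk0', r3] at c0
    exact absurd c0 (by decide)

end EVS
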