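import Pool.Agent.EVA.F3

/-!
# [EVA-R0] preparation of the endomorphisms which fix one nonregular element
-/

set_option autoImplicit false

namespace EVS

/-- The assumptions on a nonidempotent element `x` with left identity `e`. -/
structure RX {S : Type} [Semigroup S] (e x : S) : Prop where
  he : e * e = e
  hx : e * x = x
  hn : x * x ≠ x
  H1 : ∀ s t, e * s * t = x → Ge s e ∧ e * t = x
  H2 : ∀ s t, Ge s e → e * t = x → e * s * t = x

variable {S : Type} [Semigroup S] [Finite S]

omit [Finite S] in
/-- no element above `e` is a unit multiple of `x` -/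
theorem RX.ne {e x : S} (r : RX e x) {s : S} (hs : Ge s e) : e * s ≠ x := by
  intro h
  have h1 : e * s * e = e := hs
  rw [h] at h1
  apply r.hn
  calc x * x = x * (e * x) := by rw [r.hx]
    _ = e * x := by rw [← mul_assoc, h1]
    _ = x := r.hx

/-- The action of an idempotent in the minimal ideal.  PROOF: `m = k0 * s` is idempotent (`k0 s k0 = k0`),
`m k0 = k0`, `k0 m = m`, so `m * t = k0 * t` by `lemCR` (`Ge t k0`). -/
theorem k0_mul (h : A1 S) (hr : LocR S) {k0 : S} (hk : k0 * k0 = k0) (hk0 : ∀ s, Ge s k0) (s t : S) :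
    k0 * (s * t) = k0 * t := by
  rw [← mul_assoc]
  exact lemCR h hr hk (ge_left (hk0 s)) (hk0 s) (by rw [← mul_assoc, hk]) (hk0 t)

end EVS
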