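import Pool.Agent.EVA.R0

/-!
# [EVA-R1] endomorphisms fixing one nonregular element: first case
-/

set_option autoImplicit false

namespace EVS

variable {S : Type} [Semigroup S] [Finite S]

/-- PROOF: `φ s = e u` if `Ge s e`; `φ s = x` if `e s = x`; `φ s = x x` otherwise.  (The first two conditions exclude
each other: `RX.ne`.)  By `left_facts` `x x x = x x`, so `x x` is idempotent.
Products: `(e u)(e u) = (e u e) u = e u`; `(e u) x = x` (`H2` for `s = u`, `t = x`); `x (e u) = x x` (`h1`);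
`(x x)(e u) = x (x x) = x x`; `(e u)(x x) = x x`.
`Ge (s t) e ↔ Ge s e ∧ Ge t e` (`ge_mul`), and `e (s t) = x ↔ Ge s e ∧ e t = x` (`H1`, `H2`).
So `φ (s t) = φ s * φ t`: if `Ge s e` the three cases for `t`: `(e u)(e u) = e u`, `(e u) x = x`, `(e u)(x x) = x x`.
If not `Ge s e` then `φ (s t) = x x`, and `φ s` is `x` or `x x`, `φ t` is `e u`, `x` or `x x`, product `x x`. -/
theorem lemRa (h : A1 S) {e x u : S} (r : RX e x) (hu : Ge u e) (h1 : x * e * u = x * x) :
    ∃ φ : S →ₙ* S, φ x = x ∧ ∀ s, φ s = x ∨ φ s * φ s = φ s := by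
  classical
  have F1 : x * x * x = x * x := (left_facts h.loc r.he r.hx).2.1
  have E1 : e * u * (e * u) = e * u := ge_left hu
  have E2 : e * u * x = x := r.H2 u x hu r.hx
  have E3 : x * (e * u) = x * x := by rw [← mul_assoc, h1]
  have F2 : x * (x * x) = x * x := by rw [← mul_assoc, F1]
  have F3 : x * x * (x * x) = x * x := by rw [← mul_assoc, F1, F1]
  have E4 : x * x * (e * u) = x * x := by rw [mul_assoc, E3, F2]
  have E5 : e * u * (x * x) = x * x := by rw [← mul_assoc, E2]
  obtain ⟨φ, hφ⟩ : ∃ φ : S → S, ∀ s, φ s = if Ge s e then e * u else if e * s = x then x else x * x :=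
    ⟨_, fun _ => rfl⟩
  have v1 : ∀ s, Ge s e → φ s = e * u := fun s hs => by rw [hφ, if_pos hs]
  have v2 : ∀ s, ¬ Ge s e → e * s = x → φ s = x := fun s hs hx => by rw [hφ, if_neg hs, if_pos hx]
  have v3 : ∀ s, ¬ Ge s e → e * s ≠ x → φ s = x * x := fun s hs hx => by
    rw [hφ, if_neg hs, if_neg hx]
  have hmul : ∀ s t, φ (s * t) = φ s * φ t := by
    intro s t
    have hg := ge_mul h (s := s) (t := t) r.he
    by_cases hs : Ge s e
    · by_cases ht : Ge t e
      · rw [v1 _ (hg.2 ⟨hs, ht⟩), v1 _ hs, v1 _ ht, E1]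
      · have hst : ¬ Ge (s * t) e := fun hh => ht (hg.1 hh).2
        by_cases hx : e * t = x
        · rw [v2 _ hst (by rw [← mul_assoc]; exact r.H2 s t hs hx), v1 _ hs, v2 _ ht hx, E2]
        · rw [v3 _ hst (fun hh => hx (r.H1 s t (by rw [mul_assoc]; exact hh)).2), v1 _ hs, v3 _ ht hx,
            E5]
    · have hst : ¬ Ge (s * t) e := fun hh => hs (hg.1 hh).1
      rw [v3 _ hst (fun hh => hs (r.H1 s t (by rw [mul_assoc]; exact hh)).1)]
      have ht3 : φ t = e * u ∨ φ t = x ∨ φ t = x * x := by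
        by_cases ht : Ge t e
        · exact Or.inl (v1 _ ht)
        · by_cases hx : e * t = x
          · exact Or.inr (Or.inl (v2 _ ht hx))
          · exact Or.inr (Or.inr (v3 _ ht hx))
      by_cases hx : e * s = x
      · rw [v2 _ hs hx]
        rcases ht3 with ht | ht | ht <;> rw [ht]
        · rw [E3]
        · rw [F2]
      · rw [v3 _ hs hx]
        rcases ht3 with ht | ht | ht <;> rw [ht]
        · rw [E4]
        · rw [F1]
        · rw [F3]
  refine ⟨⟨φ, hmul⟩, ?_, fun s => ?_⟩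
  · exact v2 x (fun hh => r.ne hh r.hx) r.hx
  · change φ s = x ∨ φ s * φ s = φ s
    by_cases hs : Ge s e
    · right
      rw [v1 _ hs, E1]
    · by_cases hx : e * s = x
      · exact Or.inl (v2 _ hs hx)
      · right
        rw [v3 _ hs hx, F3]

end EVS
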