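import Pool.Agent.EVA.R0

/-!
# [EVA-R2] endomorphisms fixing one nonregular element: second case
-/

set_option autoImplicit false

namespace EVS

variable {S : Type} [Semigroup S] [Finite S]

/-- PROOF: let `w = x e` and `c = x x`.  `left_facts`: `x x e = w`, `x c = c`, `w w = w`, `c c = c`.
`φ s = e` if `Ge s e`; `φ s = x` if `e s = x`; otherwise `φ s = c` if `k0 s = k0 x` and `φ s = w` if not.
Products: `e e = e`, `e x = x`, `e w = w`, `e c = c`; `x e = w`, `x x = c`, `x w = x x e = w`, `x c = c`;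
`w e = w`, `w x = x e x = c`, `w w = w`, `w c = x e x x = x x x = c`; `c e = w`, `c x = c`, `c w = x x x e = w`, `c c = c`.
So for `y ∈ {x, w, c}`: `y e = w`, `y x = c`, `y w = w`, `y c = c`.
`Ge (s t) e ↔ Ge s e ∧ Ge t e` (`ge_mul`), `e (s t) = x ↔ Ge s e ∧ e t = x` (`H1`, `H2`; use `mul_assoc`),
`k0 (s t) = k0 t` (`k0_mul`).
* `Ge s e`: if `Ge t e`: `e e = e`.  If `e t = x`: `e x = x`.  Otherwise `s t` is in the third case with the same value
  as `t`, and `e w = w`, `e c = c`.
* not `Ge s e`: `s t` is in the third case, `φ (s t) = c` iff `k0 t = k0 x`.  `φ s ∈ {x, w, c}`.  If `Ge t e` then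
  `k0 t ≠ k0 x` (`h2`), `φ (s t) = w = φ s * e`.  If `e t = x` then `k0 t = k0 (e t) = k0 x`, `φ (s t) = c = φ s * x`.
  Otherwise `φ s * w = w`, `φ s * c = c`. -/
theorem lemRb (h : A1 S) (hr : LocR S) {e x k0 : S} (r : RX e x) (hk : k0 * k0 = k0) (hk0 : ∀ s, Ge s k0)
    (h2 : ∀ u, Ge u e → k0 * u ≠ k0 * x) :
    ∃ φ : S →ₙ* S, φ x = x ∧ ∀ s, φ s = x ∨ φ s * φ s = φ s := by
  classical
  obtain ⟨lf1, lf2, lf3⟩ := left_facts h.loc r.he r.hx
  have hex : e * x = x := r.hx
  have hee : e * e = e := r.he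
  -- the products
  have p1 : e * (x * e) = x * e := by rw [← mul_assoc, hex]
  have p2 : e * (x * x) = x * x := by rw [← mul_assoc, hex]
  have q1 : x * x * (x * x) = x * x := by rw [← mul_assoc, lf2, lf2]
  have Ye : ∀ y, (y = x ∨ y = x * x ∨ y = x * e) → y * e = x * e := by
    rintro y (rfl | rfl | rfl)
    · rfl
    · exact lf1
    · rw [mul_assoc, hee]
  have Yx : ∀ y, (y = x ∨ y = x * x ∨ y = x * e) → y * x = x * x := by
    rintro y (rfl | rfl | rfl)
    · rfl
    · exact lf2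
    · rw [mul_assoc, hex]
  have Yw : ∀ y, (y = x ∨ y = x * x ∨ y = x * e) → y * (x * e) = x * e := by
    intro y hy
    rw [← mul_assoc, Yx y hy, lf1]
  have Yc : ∀ y, (y = x ∨ y = x * x ∨ y = x * e) → y * (x * x) = x * x := by
    intro y hy
    rw [← mul_assoc, Yx y hy, lf2]
  obtain ⟨Φ, hΦ⟩ : ∃ Φ : S → S, Φ = fun s =>
      if Ge s e then e else if e * s = x then x else if k0 * s = k0 * x then x * x else x * e := ⟨_, rfl⟩
  have F1 : ∀ s, Ge s e → Φ s = e := fun s hs => by rw [hΦ]; exact if_pos hs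
  have F2 : ∀ s, e * s = x → Φ s = x := fun s hs => by
    have hn : ¬ Ge s e := fun h' => r.ne h' hs
    rw [hΦ]
    show (if Ge s e then e else if e * s = x then x else _) = x
    rw [if_neg hn, if_pos hs]
  have F3 : ∀ s, ¬ Ge s e → e * s ≠ x → k0 * s = k0 * x → Φ s = x * x := fun s h1 h2' h3 => by
    rw [hΦ]
    show (if Ge s e then e else if e * s = x then x else if k0 * s = k0 * x then x * x else x * e) = _
    rw [if_neg h1, if_neg h2', if_pos h3]
  have F4 : ∀ s, ¬ Ge s e → e * s ≠ x → k0 * s ≠ k0 * x → Φ s = x * e := fun s h1 h2' h3 => by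
    rw [hΦ]
    show (if Ge s e then e else if e * s = x then x else if k0 * s = k0 * x then x * x else x * e) = _
    rw [if_neg h1, if_neg h2', if_neg h3]
  have FY : ∀ s, ¬ Ge s e → (Φ s = x ∨ Φ s = x * x ∨ Φ s = x * e) := by
    intro s hs
    by_cases h1 : e * s = x
    · exact Or.inl (F2 s h1)
    · by_cases h3 : k0 * s = k0 * x
      · exact Or.inr (Or.inl (F3 s hs h1 h3))
      · exact Or.inr (Or.inr (F4 s hs h1 h3))
  have hk0m : ∀ s t, k0 * (s * t) = k0 * t := k0_mul h hr hk hk0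
  have hmul : ∀ s t, Φ (s * t) = Φ s * Φ t := by
    intro s t
    by_cases hs : Ge s e
    · rw [F1 s hs]
      by_cases ht : Ge t e
      · rw [F1 t ht, F1 _ ((ge_mul h hee).2 ⟨hs, ht⟩), hee]
      · by_cases het : e * t = x
        · rw [F2 t het, hex]
          exact F2 _ (by rw [← mul_assoc]; exact r.H2 s t hs het)
        · have n1 : ¬ Ge (s * t) e := fun h' => ht ((ge_mul h hee).1 h').2
          have n2 : e * (s * t) ≠ x := fun h' => het (r.H1 s t (by rw [mul_assoc]; exact h')).2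
          by_cases h3 : k0 * t = k0 * x
          · rw [F3 t ht het h3, F3 _ n1 n2 (by rw [hk0m]; exact h3), p2]
          · rw [F4 t ht het h3, F4 _ n1 n2 (by rw [hk0m]; exact h3), p1]
    · have n1 : ¬ Ge (s * t) e := fun h' => hs ((ge_mul h hee).1 h').1
      have n2 : e * (s * t) ≠ x := fun h' => hs (r.H1 s t (by rw [mul_assoc]; exact h')).1
      have hY := FY s hs
      by_cases ht : Ge t e
      · rw [F1 t ht, F4 _ n1 n2 (by rw [hk0m]; exact h2 t ht), Ye _ hY]
      · by_cases het : e * t = x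
        · have h3 : k0 * t = k0 * x := by rw [← het, hk0m]
          rw [F2 t het, F3 _ n1 n2 (by rw [hk0m]; exact h3), Yx _ hY]
        · by_cases h3 : k0 * t = k0 * x
          · rw [F3 t ht het h3, F3 _ n1 n2 (by rw [hk0m]; exact h3), Yc _ hY]
          · rw [F4 t ht het h3, F4 _ n1 n2 (by rw [hk0m]; exact h3), Yw _ hY]
  refine ⟨⟨Φ, hmul⟩, F2 x hex, fun s => ?_⟩
  show Φ s = x ∨ Φ s * Φ s = Φ s
  by_cases hs : Ge s e
  · right; rw [F1 s hs, hee]
  · rcases FY s hs with h' | h' | h'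
    · exact Or.inl h'
    · right; rw [h', q1]
    · right; rw [h', lf3]

end EVS
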