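import Pool.Agent.EVA.R0

/-!
# [EVA-R3] endomorphisms fixing one nonregular element: third case
-/

set_option autoImplicit false

namespace EVS

variable {S : Type} [Semigroup S] [Finite S]

/-- PROOF: let `e' = e u`, `w = x e' = x e u`, `c = x x`, `z = w k0 w`.
Facts.  `e' e' = (e u e) u = e'`.  `e' x = x` (`H2` for `s = u`, `t = x`).  By `left_facts` (for `e'`) `x x e' = w`,
`x x x = x x`, `w w = w`; so `c c = c`.  `e' w = w`, `w e' = w`, `e' c = c`, `c e' = w`, `x w = x x e' = w`, `w x = x (e' x) = c`,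
`x c = c`, `c x = c`, `w c = x (e' x) x = c`, `c w = x x x e' = w`.  So for `y ∈ {x, w, c}`: `y e' = w`, `y x = c`, `y w = w`,
`y c = c`.
`e w = w` (`e x = x`), so `w e w = w`: `Ge e w`.  `w x w = c w = w`: `Ge x w`.
If `Ge s e` then `Ge s w` (`ge_trans`) and `w s ≠ c`: `w s = x e (u s)` with `Ge (u * s) e` (`h1`).
If `e s = x` then `Ge s w` (`Ge (e * s) w` and `ge_mul`) and `w s = x (e u s) = x x = c` (`H2`).
If `Ge s w` and `Ge t w` then `w (s t) = w t`: `m = w s` is idempotent, `m w = w`, `w m = m`; `lemCR`.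
`k0 c = k0 x` and `k0 w = k0 (x e u) = k0 u = k0 x` (`k0_mul`, `hu2`), so `k0 c = k0 w`.
`z e' = z`, `e' z = z`; `x z = x w k0 w = z`; `z x = w k0 (w x) = w k0 c = w k0 w = z`; `w z = z = z w`;
`c z = c w k0 w = z`; `z c = w k0 w c = w (k0 c) = z`; `z z = w (k0 w w k0) w = w k0 w = z` (`w w = w`, `Ge w k0`).
So `z` is a zero for `{e', x, w, c, z}`.
Definition.  `φ s = e'` if `Ge s e`; `φ s = x` if `e s = x`; otherwise, if `Ge s w`: `φ s = c` if `w s = c` and `φ s = w` if not;
otherwise `φ s = z`.  (`Ge s e` and `e s = x` exclude each other: `RX.ne`.)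
`Ge (s t) w ↔ Ge s w ∧ Ge t w`, `Ge (s t) e ↔ Ge s e ∧ Ge t e` (`ge_mul`), `e (s t) = x ↔ Ge s e ∧ e t = x` (`H1`, `H2`).
* not `Ge s w` or not `Ge t w`: `φ (s t) = z`, one of `φ s`, `φ t` is `z`.
* both above `w`, `Ge s e`: if `Ge t e`: `e' e' = e'`.  If `e t = x`: `e' x = x`.  Otherwise `s t` has the same value as
  `t` (as `w (s t) = w t`) and `e' w = w`, `e' c = c`.
* both above `w`, not `Ge s e`: `φ (s t) = c` iff `w t = c`; `φ s ∈ {x, w, c}`.  `Ge t e`: `w t ≠ c`, `φ s * e' = w`.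
  `e t = x`: `w t = c`, `φ s * x = c`.  Otherwise `φ s * w = w`, `φ s * c = c`. -/
theorem lemRc (h : A1 S) (hr : LocR S) {e x k0 u : S} (r : RX e x) (hk : k0 * k0 = k0)
    (hk0 : ∀ s, Ge s k0) (h1 : ∀ v, Ge v e → x * e * v ≠ x * x) (hu : Ge u e) (hu2 : k0 * u = k0 * x) :
    ∃ φ : S →ₙ* S, φ x = x ∧ ∀ s, φ s = x ∨ φ s * φ s = φ s := by
  classical
  obtain ⟨he, hx, hn, H1, H2⟩ := id r
  have ee : (e * u) * (e * u) = e * u := ge_left hu
  have ex : (e * u) * x = x := H2 u x hu hx
  obtain ⟨xxe, xxx, ww⟩ := left_facts h.loc ee ex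
  obtain ⟨e', he'⟩ : ∃ e', e' = e * u := ⟨_, rfl⟩
  rw [← he'] at ee ex xxe ww
  obtain ⟨w, hw⟩ : ∃ w, w = x * e' := ⟨_, rfl⟩
  rw [← hw] at xxe ww
  obtain ⟨c, hc⟩ : ∃ c, c = x * x := ⟨_, rfl⟩
  rw [← hc] at xxe xxx
  have e'w : e' * w = w := by rw [hw, ← mul_assoc, ex]
  have we' : w * e' = w := by rw [hw, mul_assoc, ee]
  have e'c : e' * c = c := by rw [hc, ← mul_assoc, ex]
  have xw : x * w = w := by
    have : x * w = x * x * e' := by rw [hw, mul_assoc]
    rw [this, ← hc, xxe]
  have wx : w * x = c := by rw [hw, mul_assoc, ex, hc]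
  have xc : x * c = c := by
    have : x * c = x * x * x := by rw [hc, mul_assoc]
    rw [this, ← hc, xxx]
  have wc : w * c = c := by rw [hw, mul_assoc, e'c, xc]
  have cw : c * w = w := by rw [hc, mul_assoc, xw, xw]
  have cc : c * c = c := by
    have : c * c = x * (x * c) := by rw [hc, mul_assoc]
    rw [this, xc, xc]
  have ew : e * w = w := by rw [hw, ← mul_assoc, hx]
  have gew : Ge e w := by
    show w * e * w = w
    rw [mul_assoc, ew, ww]
  have gxw : Ge x w := by
    show w * x * w = w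
    rw [wx, cw]
  have gmw : ∀ s t, Ge (s * t) w ↔ Ge s w ∧ Ge t w := fun s t => ge_mul h ww
  have gme : ∀ s t, Ge (s * t) e ↔ Ge s e ∧ Ge t e := fun s t => ge_mul h he
  have gmx : ∀ s t, e * (s * t) = x ↔ Ge s e ∧ e * t = x := fun s t =>
    ⟨fun h2 => H1 s t (by rw [mul_assoc]; exact h2), fun h2 => by rw [← mul_assoc]; exact H2 s t h2.1 h2.2⟩
  have a1 : ∀ s, Ge s e → Ge s w := fun s hs => ge_trans h ww hs gew
  have a2 : ∀ s, Ge s e → w * s ≠ c := fun s hs => by
    have h3 := h1 (u * s) ((gme u s).2 ⟨hu, hs⟩)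
    have h4 : w * s = x * e * (u * s) := by rw [hw, he']; simp only [mul_assoc]
    rw [h4, hc]; exact h3
  have b1 : ∀ s, e * s = x → Ge s w := fun s hs => by
    have h3 : Ge (e * s) w := by rw [hs]; exact gxw
    exact ((gmw e s).1 h3).2
  have b2 : ∀ s, e * s = x → w * s = c := fun s hs => by
    have h3 := H2 u s hu hs
    have h4 : w * s = x * (e * u * s) := by rw [hw, he']; simp only [mul_assoc]
    rw [h4, h3, hc]
  have hm : ∀ s t, Ge s w → Ge t w → w * (s * t) = w * t := fun s t hs ht => by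
    have h3 : w * s * w = w := hs
    have h4 := lemCR h hr (b := w) (m := w * s) (s := t) ww (ge_left hs) h3 (by rw [← mul_assoc, ww]) ht
    rw [← mul_assoc]; exact h4
  have kc : k0 * c = k0 * x := by rw [hc]; exact k0_mul h hr hk hk0 x x
  have kw : k0 * w = k0 * x := by
    rw [hw, k0_mul h hr hk hk0 x e', he', k0_mul h hr hk hk0 e u, hu2]
  have kcw : k0 * c = k0 * w := by rw [kc, kw]
  obtain ⟨z, hz⟩ : ∃ z, z = w * k0 * w := ⟨_, rfl⟩
  have ze' : z * e' = z := by rw [hz, mul_assoc, we']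
  have e'z : e' * z = z := by rw [hz, ← mul_assoc, ← mul_assoc, e'w]
  have xz : x * z = z := by rw [hz, ← mul_assoc, ← mul_assoc, xw]
  have wz : w * z = z := by rw [hz, ← mul_assoc, ← mul_assoc, ww]
  have cz : c * z = z := by rw [hz, ← mul_assoc, ← mul_assoc, cw]
  have zw : z * w = z := by rw [hz, mul_assoc, ww]
  have zx : z * x = z := by
    have : z * x = w * (k0 * (w * x)) := by rw [hz]; simp only [mul_assoc]
    rw [this, wx, kcw, ← mul_assoc, ← hz]
  have zc : z * c = z := by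
    have : z * c = w * (k0 * (w * c)) := by rw [hz]; simp only [mul_assoc]
    rw [this, wc, kcw, ← mul_assoc, ← hz]
  have kwk : k0 * w * k0 = k0 := hk0 w
  have zz : z * z = z := by
    have h3 : z * z = w * (k0 * (w * w) * k0) * w := by
      conv_lhs => rw [hz]
      simp only [mul_assoc]
    rw [h3, ww, kwk, ← hz]
  obtain ⟨f, hf⟩ : ∃ f : S → S, f = fun s => if Ge s e then e' else if e * s = x then x else
      if Ge s w then (if w * s = c then c else w) else z := ⟨_, rfl⟩
  have f1 : ∀ s, Ge s e → f s = e' := fun s hs => by rw [hf]; exact if_pos hs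
  have f2 : ∀ s, e * s = x → f s = x := fun s hs => by
    have h3 : ¬ Ge s e := fun h4 => r.ne h4 hs
    rw [hf]
    show (if Ge s e then e' else _) = x
    rw [if_neg h3, if_pos hs]
  have f3 : ∀ s, ¬ Ge s e → e * s ≠ x → Ge s w → w * s = c → f s = c := fun s i1 i2 i3 i4 => by
    rw [hf]
    show (if Ge s e then e' else _) = c
    rw [if_neg i1, if_neg i2, if_pos i3, if_pos i4]
  have f4 : ∀ s, ¬ Ge s e → e * s ≠ x → Ge s w → w * s ≠ c → f s = w := fun s i1 i2 i3 i4 => by
    rw [hf]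
    show (if Ge s e then e' else _) = w
    rw [if_neg i1, if_neg i2, if_pos i3, if_neg i4]
  have f5 : ∀ s, ¬ Ge s w → f s = z := fun s i3 => by
    have i1 : ¬ Ge s e := fun h4 => i3 (a1 s h4)
    have i2 : ¬ e * s = x := fun h4 => i3 (b1 s h4)
    rw [hf]
    show (if Ge s e then e' else _) = z
    rw [if_neg i1, if_neg i2, if_neg i3]
  have fv : ∀ s, f s = e' ∨ f s = x ∨ f s = w ∨ f s = c ∨ f s = z := fun s => by
    by_cases i1 : Ge s e
    · exact Or.inl (f1 s i1)
    by_cases i2 : e * s = x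
    · exact Or.inr (Or.inl (f2 s i2))
    by_cases i3 : Ge s w
    · by_cases i4 : w * s = c
      · exact Or.inr (Or.inr (Or.inr (Or.inl (f3 s i1 i2 i3 i4))))
      · exact Or.inr (Or.inr (Or.inl (f4 s i1 i2 i3 i4)))
    · exact Or.inr (Or.inr (Or.inr (Or.inr (f5 s i3))))
  have fw : ∀ s, ¬ Ge s e → Ge s w → f s = x ∨ f s = w ∨ f s = c := fun s i1 i3 => by
    by_cases i2 : e * s = x
    · exact Or.inl (f2 s i2)
    by_cases i4 : w * s = c
    · exact Or.inr (Or.inr (f3 s i1 i2 i3 i4))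
    · exact Or.inr (Or.inl (f4 s i1 i2 i3 i4))
  have hmul : ∀ s t, f (s * t) = f s * f t := by
    intro s t
    by_cases hs : Ge s w
    swap
    · have h3 : ¬ Ge (s * t) w := fun h4 => hs ((gmw s t).1 h4).1
      rw [f5 _ h3, f5 s hs]
      rcases fv t with h5 | h5 | h5 | h5 | h5 <;> rw [h5]
      · exact ze'.symm
      · exact zx.symm
      · exact zw.symm
      · exact zc.symm
      · exact zz.symm
    by_cases ht : Ge t w
    swap
    · have h3 : ¬ Ge (s * t) w := fun h4 => ht ((gmw s t).1 h4).2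
      rw [f5 _ h3, f5 t ht]
      rcases fv s with h5 | h5 | h5 | h5 | h5 <;> rw [h5]
      · exact e'z.symm
      · exact xz.symm
      · exact wz.symm
      · exact cz.symm
      · exact zz.symm
    have hst : Ge (s * t) w := (gmw s t).2 ⟨hs, ht⟩
    have hw2 : w * (s * t) = w * t := hm s t hs ht
    by_cases se : Ge s e
    · rw [f1 s se]
      by_cases te : Ge t e
      · rw [f1 t te, f1 _ ((gme s t).2 ⟨se, te⟩), ee]
      have ste : ¬ Ge (s * t) e := fun h4 => te ((gme s t).1 h4).2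
      by_cases tx : e * t = x
      · rw [f2 t tx, f2 _ ((gmx s t).2 ⟨se, tx⟩), ex]
      have stx : e * (s * t) ≠ x := fun h4 => tx ((gmx s t).1 h4).2
      by_cases tc : w * t = c
      · rw [f3 t te tx ht tc, f3 _ ste stx hst (by rw [hw2, tc]), e'c]
      · rw [f4 t te tx ht tc, f4 _ ste stx hst (by rw [hw2]; exact tc), e'w]
    have ste : ¬ Ge (s * t) e := fun h4 => se ((gme s t).1 h4).1
    have stx : e * (s * t) ≠ x := fun h4 => se ((gmx s t).1 h4).1
    by_cases tc : w * t = c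
    · rw [f3 _ ste stx hst (by rw [hw2, tc])]
      have te : ¬ Ge t e := fun h4 => a2 t h4 tc
      by_cases tx : e * t = x
      · rw [f2 t tx]
        rcases fw s se hs with h5 | h5 | h5 <;> rw [h5]
        · exact hc
        · exact wx.symm
        · exact xxx.symm
      · rw [f3 t te tx ht tc]
        rcases fw s se hs with h5 | h5 | h5 <;> rw [h5]
        · exact xc.symm
        · exact wc.symm
        · exact cc.symm
    · rw [f4 _ ste stx hst (by rw [hw2]; exact tc)]
      have tx : e * t ≠ x := fun h4 => tc (b2 t h4)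
      by_cases te : Ge t e
      · rw [f1 t te]
        rcases fw s se hs with h5 | h5 | h5 <;> rw [h5]
        · exact hw
        · exact we'.symm
        · exact xxe.symm
      · rw [f4 t te tx ht tc]
        rcases fw s se hs with h5 | h5 | h5 <;> rw [h5]
        · exact xw.symm
        · exact ww.symm
        · exact cw.symm
  refine ⟨⟨f, hmul⟩, f2 x hx, fun s => ?_⟩
  show f s = x ∨ f s * f s = f s
  rcases fv s with h5 | h5 | h5 | h5 | h5
  · right; rw [h5, ee]
  · left; exact h5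
  · right; rw [h5, ww]
  · right; rw [h5, cc]
  · right; rw [h5, zz]

end EVS
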