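import Pool.Agent.EVA.R1
import Pool.Agent.EVA.R2
import Pool.Agent.EVA.R3

/-!
# [EVA-R4] the case where all products `s e` are idempotent
-/

set_option autoImplicit false

namespace EVS

variable {S : Type} [Semigroup S] [Finite S]

/-- PROOF: `k0` from `exists_k0`.  If some `u` above `e` has `x e u = x x`: `lemRa`.  Otherwise, if `k0 u ≠ k0 x` for all `u`
above `e`: `lemRb`, and if not `lemRc`. -/
theorem lemR (h : A1 S) (hr : LocR S) {e x : S} (r : RX e x) :
    ∃ φ : S →ₙ* S, φ x = x ∧ ∀ s, φ s = x ∨ φ s * φ s = φ s := by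
  have hne : Nonempty S := ⟨e⟩
  obtain ⟨k0, hk, hk0⟩ := exists_k0 h
  by_cases h1 : ∃ u, Ge u e ∧ x * e * u = x * x
  · obtain ⟨u, hu, h1⟩ := h1
    exact lemRa h r hu h1
  · by_cases h2 : ∃ u, Ge u e ∧ k0 * u = k0 * x
    · obtain ⟨u, hu, h2⟩ := h2
      exact lemRc h hr r hk hk0 (fun v hv h' => h1 ⟨v, hv, h'⟩) hu h2
    · exact lemRb h hr r hk hk0 (fun u hu h' => h2 ⟨u, hu, h'⟩)

omit [Finite S] in
/-- PROOF: `x = p k r` with `k` idempotent (`mid`); `p k` is idempotent (`hp`), `(p k) x = (p k)(p k) r = x`. -/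
theorem lfix_of_hp (h : A1 S) (hp : ∀ s e : S, e * e = e → (s * e) * (s * e) = s * e) (x : S) : LFix x := by
  obtain ⟨p, k, r, hk, hx⟩ := h.mid x
  refine ⟨p * k, hp p k hk, ?_⟩
  rw [hx, ← mul_assoc, hp p k hk]

/-- PROOF: `H1`: let `e s t = x`.  `k' t = t` for an idempotent `k'` (`lfix_of_hp`).  `n = e s k'` is idempotent (`hp`) and
`n t = e s t = x`, `n x = n n t = x`, so `Ge n e` (`LMin`) and `Ge s e`, `Ge k' e` (`ge_mul`).  `lemK`: `e s k' = e k'`, so
`e t = e k' t = e s k' t = x`.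
`H2`: let `Ge s e`, `e t = x`.  `k' t = t`, `n = e k'` is idempotent (`idc`), `n t = x`, `n x = x`, so `Ge n e`, `Ge k' e`.
`lemK`: `e s t = e s k' t = e k' t = x`. -/
theorem rx_of_hp (h : A1 S) (hr : LocR S) (hp : ∀ s e : S, e * e = e → (s * e) * (s * e) = s * e)
    {e x : S} (hx : x * x ≠ x) (he : LMin e x) : RX e x := by
  obtain ⟨he1, he2, he3⟩ := he
  have key : ∀ s t k : S, k * k = k → k * t = t → Ge s e → Ge k e → e * s * t = e * t := by
    intro s t k hk hkt hs hke
    have h1 : e * s * k = e * k := lemK h hr he1 hk hs hke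
    calc e * s * t = e * s * (k * t) := by rw [hkt]
      _ = (e * s * k) * t := by rw [← mul_assoc]
      _ = (e * k) * t := by rw [h1]
      _ = e * (k * t) := by rw [mul_assoc]
      _ = e * t := by rw [hkt]
  refine ⟨he1, he2, hx, ?_, ?_⟩
  · intro s t hst
    obtain ⟨k, hk, hkt⟩ := lfix_of_hp h hp t
    have hn : ((e * s) * k) * ((e * s) * k) = (e * s) * k := hp (e * s) k hk
    have hnt : ((e * s) * k) * t = x := by rw [mul_assoc, hkt, hst]
    have hnx : ((e * s) * k) * x = x := by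
      rw [← hnt, ← mul_assoc, hn]
    have h1 := (ge_mul h he1).1 (he3 _ hn hnx)
    have h2 := (ge_mul h he1).1 h1.1
    refine ⟨h2.2, ?_⟩
    rw [← hst]
    exact (key s t k hk hkt h2.2 h1.2).symm
  · intro s t hs ht
    obtain ⟨k, hk, hkt⟩ := lfix_of_hp h hp t
    have hn : (e * k) * (e * k) = e * k := h.idc e k he1 hk
    have hnt : (e * k) * t = x := by rw [mul_assoc, hkt, ht]
    have hnx : (e * k) * x = x := by
      rw [← hnt, ← mul_assoc, hn]
    have h1 := (ge_mul h he1).1 (he3 _ hn hnx)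
    rw [← ht]
    exact key s t k hk hkt hs h1.2

/-- PROOF: at most `nEnd S` idempotents (`card_idem_le`).  Every nonidempotent `x` has a left identity (`lfix_of_hp`), a
smallest one (`exists_LMin`), so by `rx_of_hp` and `lemR` there is an endomorphism `φ` with `φ x = x` and all other values
idempotent; so at most `nEnd S` nonidempotents: `card_le_nEnd` with `R x φ := φ x = x ∧ ∀ s, φ s = x ∨ φ s * φ s = φ s`
(if `φ` also belongs to `y` then `φ x = x` is not idempotent, so `x = φ x = y`). -/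
theorem case21 (h : A1 S) (hr : LocR S) (hp : ∀ s e : S, e * e = e → (s * e) * (s * e) = s * e) :
    Nat.card S ≤ 2 * nEnd S := by
  classical
  have h1 : Nat.card S = Nat.card {e : S // e * e = e} + Nat.card {x : S // ¬ x * x = x} := by
    rw [← Nat.card_sum]
    exact Nat.card_congr (Equiv.sumCompl (fun e : S => e * e = e)).symm
  have h2 : Nat.card {e : S // e * e = e} ≤ nEnd S := card_idem_le
  have h3 : Nat.card {x : S // ¬ x * x = x} ≤ nEnd S := by
    apply card_le_nEnd (fun (x : {x : S // ¬ x * x = x}) (φ : S →ₙ* S) =>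
      φ x.1 = x.1 ∧ ∀ s, φ s = x.1 ∨ φ s * φ s = φ s)
    · rintro ⟨x, hx⟩
      obtain ⟨e, he⟩ := exists_LMin h (lfix_of_hp h hp x)
      exact lemR h hr (rx_of_hp h hr hp hx he)
    · rintro ⟨x, hx⟩ ⟨y, hy⟩ φ ⟨hx1, hx2⟩ ⟨hy1, hy2⟩
      apply Subtype.ext
      rcases hy2 x with h4 | h4
      · exact hx1.symm.trans h4
      · exfalso
        apply hx
        rw [show φ x = x from hx1] at h4
        exact h4
  omega

end EVS
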