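import Pool.Agent.EVA.Defs

/-!
# [EVA-N1a] a right regular band with 24 elements

`RT` consists of maps of the ten points `0, ..., 9` into itself, acting from the right: `x * y` is first `x`,
then `y`.  `k p` is the constant map with value `p`.  The maps `e, d0, ..., t2` factor through `e`.
-/

set_option autoImplicit false

namespace EVS

/-- the elements of the band -/
inductive RT : Type
  | e | d0 | d1 | s0 | w0 | t0 | s1 | s2 | r1 | r2 | w1 | w2 | t1 | t2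
  | k (p : Fin 10)
  deriving DecidableEq, Fintype

/-- the maps -/
def RT.fn : RT → Fin 10 → Fin 10
  | .e => ![0, 1, 2, 3, 4, 5, 0, 1, 2, 4]
  | .d0 => ![0, 0, 2, 2, 4, 4, 0, 0, 2, 4]
  | .d1 => ![1, 1, 3, 3, 5, 5, 1, 1, 3, 5]
  | .s0 => ![0, 1, 0, 1, 0, 1, 0, 1, 0, 0]
  | .w0 => ![6, 7, 6, 7, 6, 7, 6, 7, 6, 6]
  | .t0 => ![0, 7, 0, 7, 0, 7, 0, 7, 0, 0]
  | .s1 => ![0, 0, 2, 2, 0, 0, 0, 0, 2, 0]
  | .s2 => ![0, 0, 0, 0, 4, 4, 0, 0, 0, 4]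
  | .r1 => ![1, 1, 3, 3, 1, 1, 1, 1, 3, 1]
  | .r2 => ![1, 1, 1, 1, 5, 5, 1, 1, 1, 5]
  | .w1 => ![6, 6, 8, 8, 6, 6, 6, 6, 8, 6]
  | .w2 => ![6, 6, 6, 6, 9, 9, 6, 6, 6, 9]
  | .t1 => ![0, 0, 8, 8, 0, 0, 0, 0, 8, 0]
  | .t2 => ![0, 0, 0, 0, 9, 9, 0, 0, 0, 9]
  | .k p => fun _ => p

/-- multiplication -/
def RT.mul : RT → RT → RT
  | _, .k p => .k p
  | .k p, x => .k (x.fn p)
  | .e, .e => .e
  | .e, .d0 => .d0
  | .e, .d1 => .d1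
  | .e, .s0 => .s0
  | .e, .w0 => .w0
  | .e, .t0 => .t0
  | .e, .s1 => .s1
  | .e, .s2 => .s2
  | .e, .r1 => .r1
  | .e, .r2 => .r2
  | .e, .w1 => .w1
  | .e, .w2 => .w2
  | .e, .t1 => .t1
  | .e, .t2 => .t2
  | .d0, .e => .d0
  | .d0, .d0 => .d0
  | .d0, .d1 => .d1
  | .d0, .s0 => .k 0
  | .d0, .w0 => .k 6
  | .d0, .t0 => .k 0
  | .d0, .s1 => .s1
  | .d0, .s2 => .s2
  | .d0, .r1 => .r1
  | .d0, .r2 => .r2
  | .d0, .w1 => .w1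
  | .d0, .w2 => .w2
  | .d0, .t1 => .t1
  | .d0, .t2 => .t2
  | .d1, .e => .d1
  | .d1, .d0 => .d0
  | .d1, .d1 => .d1
  | .d1, .s0 => .k 1
  | .d1, .w0 => .k 7
  | .d1, .t0 => .k 7
  | .d1, .s1 => .s1
  | .d1, .s2 => .s2
  | .d1, .r1 => .r1
  | .d1, .r2 => .r2
  | .d1, .w1 => .w1
  | .d1, .w2 => .w2
  | .d1, .t1 => .t1
  | .d1, .t2 => .t2
  | .s0, .e => .s0
  | .s0, .d0 => .k 0
  | .s0, .d1 => .k 1
  | .s0, .s0 => .s0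
  | .s0, .w0 => .w0
  | .s0, .t0 => .t0
  | .s0, .s1 => .k 0
  | .s0, .s2 => .k 0
  | .s0, .r1 => .k 1
  | .s0, .r2 => .k 1
  | .s0, .w1 => .k 6
  | .s0, .w2 => .k 6
  | .s0, .t1 => .k 0
  | .s0, .t2 => .k 0
  | .w0, .e => .s0
  | .w0, .d0 => .k 0
  | .w0, .d1 => .k 1
  | .w0, .s0 => .s0
  | .w0, .w0 => .w0
  | .w0, .t0 => .t0
  | .w0, .s1 => .k 0
  | .w0, .s2 => .k 0
  | .w0, .r1 => .k 1
  | .w0, .r2 => .k 1
  | .w0, .w1 => .k 6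
  | .w0, .w2 => .k 6
  | .w0, .t1 => .k 0
  | .w0, .t2 => .k 0
  | .t0, .e => .s0
  | .t0, .d0 => .k 0
  | .t0, .d1 => .k 1
  | .t0, .s0 => .s0
  | .t0, .w0 => .w0
  | .t0, .t0 => .t0
  | .t0, .s1 => .k 0
  | .t0, .s2 => .k 0
  | .t0, .r1 => .k 1
  | .t0, .r2 => .k 1
  | .t0, .w1 => .k 6
  | .t0, .w2 => .k 6
  | .t0, .t1 => .k 0
  | .t0, .t2 => .k 0
  | .s1, .e => .s1
  | .s1, .d0 => .s1
  | .s1, .d1 => .r1
  | .s1, .s0 => .k 0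
  | .s1, .w0 => .k 6
  | .s1, .t0 => .k 0
  | .s1, .s1 => .s1
  | .s1, .s2 => .k 0
  | .s1, .r1 => .r1
  | .s1, .r2 => .k 1
  | .s1, .w1 => .w1
  | .s1, .w2 => .k 6
  | .s1, .t1 => .t1
  | .s1, .t2 => .k 0
  | .s2, .e => .s2
  | .s2, .d0 => .s2
  | .s2, .d1 => .r2
  | .s2, .s0 => .k 0
  | .s2, .w0 => .k 6
  | .s2, .t0 => .k 0
  | .s2, .s1 => .k 0
  | .s2, .s2 => .s2
  | .s2, .r1 => .k 1
  | .s2, .r2 => .r2
  | .s2, .w1 => .k 6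
  | .s2, .w2 => .w2
  | .s2, .t1 => .k 0
  | .s2, .t2 => .t2
  | .r1, .e => .r1
  | .r1, .d0 => .s1
  | .r1, .d1 => .r1
  | .r1, .s0 => .k 1
  | .r1, .w0 => .k 7
  | .r1, .t0 => .k 7
  | .r1, .s1 => .s1
  | .r1, .s2 => .k 0
  | .r1, .r1 => .r1
  | .r1, .r2 => .k 1
  | .r1, .w1 => .w1
  | .r1, .w2 => .k 6
  | .r1, .t1 => .t1
  | .r1, .t2 => .k 0
  | .r2, .e => .r2
  | .r2, .d0 => .s2
  | .r2, .d1 => .r2
  | .r2, .s0 => .k 1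
  | .r2, .w0 => .k 7
  | .r2, .t0 => .k 7
  | .r2, .s1 => .k 0
  | .r2, .s2 => .s2
  | .r2, .r1 => .k 1
  | .r2, .r2 => .r2
  | .r2, .w1 => .k 6
  | .r2, .w2 => .w2
  | .r2, .t1 => .k 0
  | .r2, .t2 => .t2
  | .w1, .e => .s1
  | .w1, .d0 => .s1
  | .w1, .d1 => .r1
  | .w1, .s0 => .k 0
  | .w1, .w0 => .k 6
  | .w1, .t0 => .k 0
  | .w1, .s1 => .s1
  | .w1, .s2 => .k 0
  | .w1, .r1 => .r1
  | .w1, .r2 => .k 1
  | .w1, .w1 => .w1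
  | .w1, .w2 => .k 6
  | .w1, .t1 => .t1
  | .w1, .t2 => .k 0
  | .w2, .e => .s2
  | .w2, .d0 => .s2
  | .w2, .d1 => .r2
  | .w2, .s0 => .k 0
  | .w2, .w0 => .k 6
  | .w2, .t0 => .k 0
  | .w2, .s1 => .k 0
  | .w2, .s2 => .s2
  | .w2, .r1 => .k 1
  | .w2, .r2 => .r2
  | .w2, .w1 => .k 6
  | .w2, .w2 => .w2
  | .w2, .t1 => .k 0
  | .w2, .t2 => .t2
  | .t1, .e => .s1
  | .t1, .d0 => .s1
  | .t1, .d1 => .r1
  | .t1, .s0 => .k 0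
  | .t1, .w0 => .k 6
  | .t1, .t0 => .k 0
  | .t1, .s1 => .s1
  | .t1, .s2 => .k 0
  | .t1, .r1 => .r1
  | .t1, .r2 => .k 1
  | .t1, .w1 => .w1
  | .t1, .w2 => .k 6
  | .t1, .t1 => .t1
  | .t1, .t2 => .k 0
  | .t2, .e => .s2
  | .t2, .d0 => .s2
  | .t2, .d1 => .r2
  | .t2, .s0 => .k 0
  | .t2, .w0 => .k 6
  | .t2, .t0 => .k 0
  | .t2, .s1 => .k 0
  | .t2, .s2 => .s2
  | .t2, .r1 => .k 1
  | .t2, .r2 => .r2
  | .t2, .w1 => .k 6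
  | .t2, .w2 => .w2
  | .t2, .t1 => .k 0
  | .t2, .t2 => .t2

theorem RT.fn_inj : ∀ x y : RT, x.fn = y.fn → x = y := by decide +kernel

theorem RT.fn_mul : ∀ (x y : RT) (p : Fin 10), (x.mul y).fn p = y.fn (x.fn p) := by decide +kernel

instance : Semigroup RT where
  mul := RT.mul
  mul_assoc x y z := by
    apply RT.fn_inj
    funext p
    show (RT.mul (RT.mul x y) z).fn p = (RT.mul x (RT.mul y z)).fn p
    rw [RT.fn_mul, RT.fn_mul, RT.fn_mul, RT.fn_mul]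

theorem RT.mul_def (x y : RT) : x * y = x.mul y := rfl

/-- `RT` is a right regular band -/
theorem RT.idem : ∀ x : RT, x * x = x := by decide +kernel

theorem RT.rrb : ∀ x y : RT, x * y * x = y * x := by decide +kernel

end EVS
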