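import Pool.Agent.EVA.F3

/-!
# [EVA-Z1] null elements and the ideal generated by the idempotents
-/

set_option autoImplicit false

namespace EVS

/-- `s` is in the ideal generated by the idempotents -/
def InI {S : Type} [Semigroup S] (s : S) : Prop :=
  ∃ (e : S) (a b : WithOne S), e * e = e ∧ (s : WithOne S) = a * e * b

variable {S : Type} [Semigroup S] [Finite S]

omit [Finite S] in
/-- the endomorphism `g ↦ z`, `s ↦ z z` for `s ≠ g` -/
private theorem exists_nulEnd {g z : S} (hg : Indec g) (hz : z * z * z = z * z) :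
    ∃ ψ : S →ₙ* S, ψ g = z ∧ ∀ s, s ≠ g → ψ s = z * z := by
  classical
  have h1 : z * (z * z) = z * z := by rw [← mul_assoc, hz]
  have h2 : z * z * (z * z) = z * z := by rw [← mul_assoc, hz, hz]
  refine ⟨⟨fun s => if s = g then z else z * z, ?_⟩, ?_, ?_⟩
  · intro s t
    have hst : s * t ≠ g := hg s t
    by_cases hs : s = g
    · by_cases ht : t = g
      · simp only [hs, ht, if_true]
        rw [if_neg (hg g g)]
      · simp only [if_neg hst, if_pos hs, if_neg ht]
        exact h1.symm
    · by_cases ht : t = g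
      · simp only [if_neg hst, if_neg hs, if_pos ht]
        exact hz.symm
      · simp only [if_neg hst, if_neg hs, if_neg ht]
        exact h2.symm
  · show (if g = g then z else z * z) = z
    rw [if_pos rfl]
  · intro s hs
    show (if s = g then z else z * z) = z * z
    rw [if_neg hs]

/-- PROOF: for a null element `z` the map `g ↦ z`, `s ↦ z z` for `s ≠ g` is an endomorphism: a product is never `g`, and
`z z = z * (z z) = (z z) * z = (z z)(z z)`.  It determines `z`.  `card_le_nEnd`. -/
theorem card_null_le {g : S} (hg : Indec g) : Nat.card {z : S // Nul z} ≤ nEnd S := by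
  refine card_le_nEnd (fun (z : {z : S // Nul z}) ψ => ψ g = z.1) ?_ ?_
  · rintro ⟨z, hz⟩
    obtain ⟨ψ, h1, -⟩ := exists_nulEnd hg hz.2
    exact ⟨ψ, h1⟩
  · intro a a' ψ h1 h2
    exact Subtype.ext (h1.symm.trans h2)

/-- PROOF: `e = om a`: `e a e` is idempotent (`hL`) and `e a e = e a` (`om_comm`), so all powers of `e a` are `e a`; for
`om a = pw a n`, `pw (e a) n = e * pw a n = e` (`pw_mul`, `pw_of_idem`), so `e a = e`. -/
theorem om_mul_of_loc (hL : Loc S) (a : S) : om a * a = om a ∧ a * om a = om a := by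
  have h1 : om a * a * om a = om a * a := by
    rw [mul_assoc, ← om_comm a, ← mul_assoc, om_idem]
  have h2 := hL (om a) a (om_idem a)
  rw [h1] at h2
  have h3 : om a * a = om a := by
    obtain ⟨n, hn⟩ := om_eq_pw a
    have h4 := pw_mul (om_comm a) n
    rw [pw_of_idem h2, pw_of_idem (om_idem a), ← hn, om_idem] at h4
    exact h4
  exact ⟨h3, by rw [← om_comm, h3]⟩

/-- PROOF: `om g = pw g n`; let `m` be minimal with `pw g m = om g`, `m ≠ 0`; `z = pw g (m - 1)`: `z ≠ om g`,
`z z = om g = z z z` (`pw g k = om g` for `k ≥ m` by `om_mul_of_loc`, and `2 m - 1 ≥ m`). -/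
theorem exists_nul (hL : Loc S) {g : S} (hg : g * g ≠ g) : ∃ z : S, Nul z := by
  classical
  have hex : ∃ n, om g = pw g n := om_eq_pw g
  obtain ⟨m, hm, hmin⟩ : ∃ m, om g = pw g m ∧ ∀ k, k < m → om g ≠ pw g k :=
    ⟨Nat.find hex, Nat.find_spec hex, fun k hk => Nat.find_min hex hk⟩
  have hk : ∀ j, pw g (m + j) = om g := by
    intro j
    induction j with
    | zero => exact hm.symm
    | succ j ih =>
      rw [← Nat.add_assoc, pw_succ, ih]
      exact (om_mul_of_loc hL g).1
  have hm0 : m ≠ 0 := by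
    rintro rfl
    rw [pw_zero] at hm
    apply hg
    have := om_idem g
    rw [hm] at this
    exact this
  obtain ⟨l, rfl⟩ : ∃ l, m = l + 1 := ⟨m - 1, by omega⟩
  have hz : pw g l ≠ om g := fun h => hmin l (by omega) h.symm
  have hzz : pw g l * pw g l = om g := by
    rw [pw_mul_pw]
    have := hk l
    rwa [show l + 1 + l = l + l + 1 by omega] at this
  refine ⟨pw g l, ?_, ?_⟩
  · rw [hzz]
    exact fun h => hz h.symm
  · rw [hzz]
    have h1 : om g * pw g l = pw g (l + l + 1) * pw g l := by
      rw [← pw_mul_pw, hzz]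
    rw [h1, pw_mul_pw]
    have := hk (l + l + 1)
    rwa [show l + 1 + (l + l + 1) = l + l + 1 + l + 1 by omega] at this

/-- PROOF: if there is an indecomposable element `g0`, it is not idempotent, so there is a null element `z`
(`exists_nul`).  For `g` indecomposable the map `g ↦ z`, `s ↦ z z` for `s ≠ g` is an endomorphism (see `card_null_le`), and it
determines `g`.  `card_le_nEnd`. -/
theorem card_indec_le' (hL : Loc S) : Nat.card {g : S // Indec g} ≤ nEnd S := by
  by_cases hne : ∃ g0 : S, Indec g0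
  · obtain ⟨g0, hg0⟩ := hne
    obtain ⟨z, hz⟩ := exists_nul hL (hg0 g0 g0)
    refine card_le_nEnd (fun (g : {g : S // Indec g}) ψ => ψ g.1 = z ∧ ∀ s, s ≠ g.1 → ψ s = z * z)
      ?_ ?_
    · rintro ⟨g, hg⟩
      exact exists_nulEnd hg hz.2
    · rintro a a' ψ ⟨h1, -⟩ ⟨-, h2⟩
      by_contra hne
      have h3 := h2 a.1 (fun h => hne (Subtype.ext h))
      rw [h1] at h3
      exact hz.1 h3.symm
  · have : IsEmpty {g : S // Indec g} := ⟨fun g => hne ⟨g.1, g.2⟩⟩
    rw [Nat.card_of_isEmpty]
    exact Nat.zero_le _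

/-- PROOF: an element with `e x = x` or `x e = x` satisfies `x x x = x x` (`left_facts`, `right_facts`), so it is idempotent or
null.  At most `nEnd S` idempotents (`card_idem_le`) and at most `nEnd S` null elements. -/
theorem card_fix_le (hL : Loc S) {g : S} (hg : Indec g) : Nat.card {x : S // LFix x ∨ RFix x} ≤ 2 * nEnd S := by
  classical
  have h3 : ∀ x : S, (LFix x ∨ RFix x) → x * x * x = x * x := by
    rintro x (⟨e, he, hx⟩ | ⟨e, he, hx⟩)
    · exact (left_facts hL he hx).2.1
    · exact (right_facts hL he hx).2.1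
  have h4 : Nat.card {x : S // LFix x ∨ RFix x} ≤ Nat.card ({e : S // e * e = e} ⊕ {z : S // Nul z}) := by
    refine Nat.card_le_card_of_injective
      (fun x => if h : x.1 * x.1 = x.1 then Sum.inl ⟨x.1, h⟩ else Sum.inr ⟨x.1, h, h3 x.1 x.2⟩) ?_
    intro x y hxy
    by_cases hx : x.1 * x.1 = x.1
    · by_cases hy : y.1 * y.1 = y.1
      · simp only [dif_pos hx, dif_pos hy, Sum.inl.injEq, Subtype.mk.injEq] at hxy
        exact Subtype.ext hxy
      · simp only [dif_pos hx, dif_neg hy] at hxy
        exact absurd hxy (by simp)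
    · by_cases hy : y.1 * y.1 = y.1
      · simp only [dif_neg hx, dif_pos hy] at hxy
        exact absurd hxy (by simp)
      · simp only [dif_neg hx, dif_neg hy, Sum.inr.injEq, Subtype.mk.injEq] at hxy
        exact Subtype.ext hxy
  refine h4.trans ?_
  rw [Nat.card_sum, two_mul]
  exact Nat.add_le_add card_idem_le (card_null_le hg)

omit [Finite S] in
private theorem exists_coe_mul (a : WithOne S) (e : S) : ∃ x : S, (x : WithOne S) = a * e := by
  rcases a with _ | a
  · exact ⟨e, (one_mul _).symm⟩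
  · exact ⟨a * e, WithOne.coe_mul _ _⟩

omit [Finite S] in
private theorem exists_mul_coe (e : S) (a : WithOne S) : ∃ x : S, (x : WithOne S) = e * a := by
  rcases a with _ | a
  · exact ⟨e, (mul_one _).symm⟩
  · exact ⟨e * a, WithOne.coe_mul _ _⟩

/-- PROOF: `s = a e b = (a e)(e b)` with `(a e) e = a e`, `e (e b) = e b`, so `s` is a product of two elements of the set in
`card_fix_le`. -/
theorem card_InI_le (hL : Loc S) {g : S} (hg : Indec g) :
    Nat.card {s : S // InI s} ≤ (2 * nEnd S) * (2 * nEnd S) := by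
  have h1 : ∀ s : {s : S // InI s}, ∃ p : {x : S // LFix x ∨ RFix x} × {x : S // LFix x ∨ RFix x},
      s.1 = p.1.1 * p.2.1 := by
    rintro ⟨s, e, a, b, he, hs⟩
    obtain ⟨x, hx⟩ := exists_coe_mul a e
    obtain ⟨y, hy⟩ := exists_mul_coe e b
    have hee : (e : WithOne S) * e = e := by rw [← WithOne.coe_mul, he]
    have hxe : x * e = x := by
      rw [← coe_inj, WithOne.coe_mul, hx, mul_assoc, hee]
    have hey : e * y = y := by
      rw [← coe_inj, WithOne.coe_mul, hy, ← mul_assoc, hee]
    refine ⟨(⟨x, Or.inr ⟨e, he, hxe⟩⟩, ⟨y, Or.inl ⟨e, he, hey⟩⟩), ?_⟩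
    show s = x * y
    rw [← coe_inj, WithOne.coe_mul, hx, hy, hs, mul_assoc a, mul_assoc a, ← mul_assoc (e : WithOne S), hee]
  choose f hf using h1
  refine (Nat.card_le_card_of_injective f ?_).trans ?_
  · intro s t hst
    exact Subtype.ext (by rw [hf s, hf t, hst])
  · rw [Nat.card_prod]
    exact Nat.mul_le_mul (card_fix_le hL hg) (card_fix_le hL hg)

omit [Finite S] in
theorem InI.mul_left {s : S} (hs : InI s) (t : S) : InI (t * s) := by
  obtain ⟨e, a, b, he, h⟩ := hs
  exact ⟨e, t * a, b, he, by rw [WithOne.coe_mul, h]; simp only [mul_assoc]⟩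

omit [Finite S] in
theorem InI.mul_right {s : S} (hs : InI s) (t : S) : InI (s * t) := by
  obtain ⟨e, a, b, he, h⟩ := hs
  exact ⟨e, a, b * t, he, by rw [WithOne.coe_mul, h]; simp only [mul_assoc]⟩

end EVS
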