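import Mathlib

/-!
# [EVA-Z2] Ramsey's theorem for pairs
-/

set_option autoImplicit false

namespace EVS

private theorem ramsey_aux (M : ℕ) (α : Type) [Finite α] (hM : Nat.card α ≤ M) (col : ℕ → ℕ → α) :
    ∀ (k : ℕ) (A : Finset ℕ), (M + 1) ^ k ≤ A.card → ∃ (x : ℕ → ℕ) (c : ℕ → α),
      (∀ i, i < k → x i ∈ A) ∧ ∀ i j, i < j → j < k → x i < x j ∧ col (x i) (x j) = c i := by
  classical
  have := Fintype.ofFinite α
  have hM' : (Finset.univ : Finset α).card ≤ M := by
    rw [Finset.card_univ, ← Nat.card_eq_fintype_card]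
    exact hM
  intro k
  induction k with
  | zero =>
    intro A _
    exact ⟨fun _ => 0, fun _ => col 0 0, fun i hi => absurd hi (Nat.not_lt_zero i),
      fun i j _ hj => absurd hj (Nat.not_lt_zero j)⟩
  | succ k ih =>
    intro A hA
    have hA0 : A.Nonempty := by
      rw [← Finset.card_pos]
      exact lt_of_lt_of_le (by positivity) hA
    obtain ⟨x0, hx0⟩ : ∃ x0, x0 = A.min' hA0 := ⟨_, rfl⟩
    have hx0A : x0 ∈ A := by
      rw [hx0]
      exact A.min'_mem hA0
    have hcard : M * (M + 1) ^ k ≤ (A.erase x0).card := by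
      rw [Finset.card_erase_of_mem hx0A]
      have h1 : (M + 1) ^ (k + 1) = M * (M + 1) ^ k + (M + 1) ^ k := by ring
      have h2 : 0 < (M + 1) ^ k := by positivity
      omega
    obtain ⟨y, _, hy⟩ := Finset.exists_le_card_fiber_of_mul_le_card_of_maps_to
      (s := A.erase x0) (t := (Finset.univ : Finset α)) (f := fun a => col x0 a)
      (n := (M + 1) ^ k) (fun a _ => Finset.mem_univ _) ⟨col 0 0, Finset.mem_univ _⟩
      ((Nat.mul_le_mul_right _ hM').trans hcard)
    obtain ⟨x, c, h1, h2⟩ := ih _ hy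
    have h3 : ∀ i, i < k → x i ∈ A ∧ x0 < x i ∧ col x0 (x i) = y := by
      intro i hi
      have h4 := h1 i hi
      rw [Finset.mem_filter, Finset.mem_erase] at h4
      refine ⟨h4.1.2, lt_of_le_of_ne ?_ (Ne.symm h4.1.1), h4.2⟩
      rw [hx0]
      exact A.min'_le _ h4.1.2
    refine ⟨fun i => Nat.casesOn i x0 x, fun i => Nat.casesOn i y c, ?_, ?_⟩
    · rintro (_ | i) hi
      · exact hx0A
      · exact (h3 i (by omega)).1
    · rintro (_ | i) (_ | j) hij hj
      · omega
      · exact (h3 j (by omega)).2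
      · omega
      · exact h2 i j (by omega) (by omega)

/-- PROOF: Claim: for all `M ≥ 1` and `k` and every finite set `A` of natural numbers with at least `(M + 1) ^ k` elements there is a
subset `x 0 < x 1 < ... < x (k-1)` of `A` and colours `c 0, ..., c (k-1)` with `col (x i) (x j) = c i` for `i < j < k`.
Induction on `k`: `x 0 = min A`; the other elements (at least `(M + 1) ^ k - 1 ≥ M * (M + 1) ^ (k-1)` many) are coloured by
`col (x 0) ·`, so at least `(M + 1) ^ (k-1)` of them have the same colour `c 0`; use the claim for these.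
Now take `k = M * K + 1` and `A = {0, ..., (M + 1) ^ k - 1}`: at least `K + 1` of the indices `i < k` have the same colour `c i = q`.
(If `α` is empty the statement is void: `col 0 0` is an element of `α`.) -/
theorem ramsey (M K : ℕ) : ∃ R : ℕ, ∀ (α : Type) [Finite α], Nat.card α ≤ M → ∀ col : ℕ → ℕ → α,
    ∃ f : ℕ → ℕ, (∀ i j, i < j → j ≤ K → f i < f j) ∧ f K ≤ R ∧
      ∃ q : α, ∀ i j, i < j → j ≤ K → col (f i) (f j) = q := by
  classical
  refine ⟨(M + 1) ^ (M * K + 1), ?_⟩
  intro α _ hM col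
  have := Fintype.ofFinite α
  have hM' : (Finset.univ : Finset α).card ≤ M := by
    rw [Finset.card_univ, ← Nat.card_eq_fintype_card]
    exact hM
  obtain ⟨x, c, h1, h2⟩ := ramsey_aux M α hM col (M * K + 1)
    (Finset.range ((M + 1) ^ (M * K + 1))) (by rw [Finset.card_range])
  obtain ⟨q, _, hq⟩ := Finset.exists_lt_card_fiber_of_mul_lt_card_of_maps_to
    (s := Finset.range (M * K + 1)) (t := (Finset.univ : Finset α)) (f := c) (n := K)
    (fun a _ => Finset.mem_univ _) (by
      rw [Finset.card_range]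
      exact Nat.lt_succ_of_le (Nat.mul_le_mul_right K hM'))
  obtain ⟨g, hg⟩ : ∃ g : Fin (K + 1) ↪o ℕ, ∀ i, g i ∈ (Finset.range (M * K + 1)).filter
      fun i => c i = q :=
    ⟨Finset.orderEmbOfCardLe _ hq, fun i => Finset.orderEmbOfCardLe_mem _ _ _⟩
  have hg2 : ∀ i : Fin (K + 1), g i < M * K + 1 ∧ c (g i) = q := by
    intro i
    have h := hg i
    rw [Finset.mem_filter, Finset.mem_range] at h
    exact h
  refine ⟨fun i => x (g ⟨min i K, by omega⟩), ?_, ?_, q, ?_⟩
  · intro i j hij hj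
    refine (h2 _ _ (g.lt_iff_lt.2 ?_) (hg2 _).1).1
    rw [Fin.mk_lt_mk]
    omega
  · have h3 := h1 (g ⟨min K K, by omega⟩) (hg2 _).1
    rw [Finset.mem_range] at h3
    exact h3.le
  · intro i j hij hj
    rw [← (hg2 ⟨min i K, by omega⟩).2]
    refine (h2 _ _ (g.lt_iff_lt.2 ?_) (hg2 _).1).2
    rw [Fin.mk_lt_mk]
    omega

end EVS
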