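import Pool.Agent.EVA.F1

/-!
# [EVA-Z4] nilpotent semigroups have many null elements]
-/

set_option autoImplicit false

namespace EVS

variable {S : Type} [Semigroup S] [Finite S]

omit [Finite S] in
private theorem nc_prd_f {Z : Set S} {f : S} (hz : ∀ z ∈ Z, z * f = f ∧ f * z = f) (l : List S)
    (hl : ∀ a ∈ l, a ∈ Z) : prd l * (f : WithOne S) = f := by
  induction l with
  | nil => rw [prd_nil, one_mul]
  | cons a l ih =>
    rw [prd_cons, mul_assoc, ih (fun b hb => hl b (List.mem_cons_of_mem _ hb)), ← WithOne.coe_mul,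
      (hz a (hl a List.mem_cons_self)).1]

omit [Finite S] in
private theorem nc_f_prd {Z : Set S} {f : S} (hz : ∀ z ∈ Z, z * f = f ∧ f * z = f) (l : List S)
    (hl : ∀ a ∈ l, a ∈ Z) : (f : WithOne S) * prd l = f := by
  induction l with
  | nil => rw [prd_nil, mul_one]
  | cons a l ih =>
    rw [prd_cons, ← mul_assoc, ← WithOne.coe_mul, (hz a (hl a List.mem_cons_self)).2,
      ih (fun b hb => hl b (List.mem_cons_of_mem _ hb))]

private theorem nc_inj {Z : Set S} {f : S} (hz : ∀ z ∈ Z, z * f = f ∧ f * z = f)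
    (hom : ∀ (l : List S) (s : S), (∀ a ∈ l, a ∈ Z) → prd l = (s : WithOne S) → om s = f)
    {l : List S} (hl : ∀ a ∈ l, a ∈ Z) (hlf : prd l ≠ (f : WithOne S)) (i j : ℕ) (hij : i < j)
    (hj : j ≤ l.length) : prd (l.take i) ≠ prd (l.take j) := by
  intro h
  have hsplit : l.take j = l.take i ++ (l.drop i).take (j - i) := by
    have : j = i + (j - i) := by omega
    conv_lhs => rw [this, List.take_add]
  have hne : (l.drop i).take (j - i) ≠ [] := by
    intro h0
    have := congrArg List.length h0
    rw [List.length_take, List.length_drop, List.length_nil] at this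
    omega
  obtain ⟨v, hv⟩ := exists_prd hne
  have hvZ : ∀ a ∈ (l.drop i).take (j - i), a ∈ Z := fun a ha =>
    hl a (List.mem_of_mem_drop (List.mem_of_mem_take ha))
  have h1 : prd (l.take i) * (v : WithOne S) = prd (l.take i) := by
    rw [← hv, ← prd_append, ← hsplit, ← h]
  have h2 : ∀ k : ℕ, prd (l.take i) * (v : WithOne S) ^ k = prd (l.take i) := by
    intro k
    induction k with
    | zero => simp
    | succ k ih => rw [pow_succ, ← mul_assoc, ih, h1]
  obtain ⟨k, hk⟩ := om_eq_pw v
  have h3 : prd (l.take i) = (f : WithOne S) := by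
    rw [← h2 (k + 1), ← coe_pw, ← hk, hom _ v hvZ hv]
    exact nc_prd_f hz _ fun a ha => hl a (List.mem_of_mem_take ha)
  apply hlf
  rw [← List.take_append_drop i l, prd_append, h3]
  exact nc_f_prd hz _ fun a ha => hl a (List.mem_of_mem_drop ha)

private theorem nc_len {Z : Set S} {f : S} (hz : ∀ z ∈ Z, z * f = f ∧ f * z = f)
    (hom : ∀ (l : List S) (s : S), (∀ a ∈ l, a ∈ Z) → prd l = (s : WithOne S) → om s = f)
    {l : List S} (hl : ∀ a ∈ l, a ∈ Z) (hlf : prd l ≠ (f : WithOne S)) :
    l.length ≤ Nat.card (WithOne S) := by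
  have : Finite (WithOne S) := inferInstanceAs (Finite (Option S))
  have hinj : Function.Injective (fun i : Fin l.length => prd (l.take i.val)) := by
    intro i j h
    by_contra hne
    rcases lt_or_gt_of_ne (fun h' => hne (Fin.ext h') : i.val ≠ j.val) with hlt | hlt
    · exact nc_inj hz hom hl hlf i j hlt j.isLt.le h
    · exact nc_inj hz hom hl hlf j i hlt i.isLt.le h.symm
  have h := Nat.card_le_card_of_injective _ hinj
  rwa [Nat.card_eq_fintype_card, Fintype.card_fin] at h

/-- PROOF: let `n` be the largest length of a list `l'` of elements of `Z` with `prd l' ≠ f`.  It exists: if `l'` has more than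
`Nat.card S` elements, two nonempty prefixes have the same product `p`, `p = p v` with `v` the product of the elements between,
so `p = p * om v = p f` (induction on powers), and `p f = f` (`hz`), so `prd l' = f * ... = f` (`hz`).
Let `l'` have length `n` and `prd l' ≠ f`, and let `y j` be the product of the first `j` elements.  For `n < 2 j`, `1 ≤ j ≤ n`:
`y j * y j = f` (a product of `2 j > n` elements of `Z`), `y j ≠ f` (otherwise `prd l' = f`, by `hz`), and
`y j * y j * y j = f * y j = f`; so `y j` is null.  `y i ≠ y j` for `i < j`: otherwise `y i = y i * v`, `y i = y i * om v = y i * f = f`.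
There are at least `n - n / 2` such `j`, so `n ≤ 2 * Nat.card {z // Nul z}`, and `l.length ≤ n`. -/
theorem nil_count {Z : Set S} {f : S} (hf : f * f = f) (hz : ∀ z ∈ Z, z * f = f ∧ f * z = f)
    (hom : ∀ (l : List S) (s : S), (∀ a ∈ l, a ∈ Z) → prd l = (s : WithOne S) → om s = f)
    {l : List S} (hl : ∀ a ∈ l, a ∈ Z) (hlf : prd l ≠ (f : WithOne S)) :
    l.length ≤ 2 * Nat.card {z : S // Nul z} := by
  classical
  -- the maximal length
  obtain ⟨n, ⟨l', hl', hlf', hn'⟩, hmax⟩ : ∃ n, (∃ l' : List S, (∀ a ∈ l', a ∈ Z) ∧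
      prd l' ≠ (f : WithOne S) ∧ l'.length = n) ∧
      ∀ m, (∃ l' : List S, (∀ a ∈ l', a ∈ Z) ∧ prd l' ≠ (f : WithOne S) ∧ l'.length = m) → m ≤ n := by
    have hb : ∀ m, (∃ l' : List S, (∀ a ∈ l', a ∈ Z) ∧ prd l' ≠ (f : WithOne S) ∧ l'.length = m) →
        m ≤ Nat.card (WithOne S) := by
      rintro m ⟨l', h1, h2, h3⟩
      rw [← h3]
      exact nc_len hz hom h1 h2
    refine ⟨Nat.findGreatest (fun m => ∃ l' : List S, (∀ a ∈ l', a ∈ Z) ∧ prd l' ≠ (f : WithOne S) ∧
      l'.length = m) (Nat.card (WithOne S)), ?_, ?_⟩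
    · exact Nat.findGreatest_spec (P := fun m => ∃ l' : List S, (∀ a ∈ l', a ∈ Z) ∧
        prd l' ≠ (f : WithOne S) ∧ l'.length = m) (hb l.length ⟨l, hl, hlf, rfl⟩) ⟨l, hl, hlf, rfl⟩
    · intro m hm
      exact Nat.le_findGreatest (hb m hm) hm
  have hln : l.length ≤ n := hmax _ ⟨l, hl, hlf, rfl⟩
  -- the prefixes
  have htZ : ∀ j, ∀ a ∈ l'.take j, a ∈ Z := fun j a ha => hl' a (List.mem_of_mem_take ha)
  have hex : ∀ j : Fin (n - n / 2), ∃ z : S, prd (l'.take (n / 2 + 1 + j.val)) = (z : WithOne S) ∧ Nul z := by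
    intro j
    have hj := j.isLt
    have hlen : (l'.take (n / 2 + 1 + j.val)).length = n / 2 + 1 + j.val := by
      rw [List.length_take, hn']
      omega
    have hne : l'.take (n / 2 + 1 + j.val) ≠ [] := by
      intro h0
      have := congrArg List.length h0
      rw [hlen, List.length_nil] at this
      omega
    obtain ⟨z, hzz⟩ := exists_prd hne
    refine ⟨z, hzz, ?_⟩
    have h2 : z * z = f := by
      by_contra hc
      have h3 : prd (l'.take (n / 2 + 1 + j.val) ++ l'.take (n / 2 + 1 + j.val)) ≠ (f : WithOne S) := by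
        rw [prd_append, hzz, ← WithOne.coe_mul]
        intro h
        exact hc (WithOne.coe_inj.1 h)
      have h4 := hmax _ ⟨_, fun a ha => by
        rcases List.mem_append.1 ha with ha | ha
        · exact htZ _ a ha
        · exact htZ _ a ha, h3, rfl⟩
      rw [List.length_append, hlen] at h4
      omega
    have h5 : z ≠ f := by
      rintro rfl
      apply hlf'
      rw [← List.take_append_drop (n / 2 + 1 + j.val) l', prd_append, hzz]
      exact nc_f_prd hz _ fun a ha => hl' a (List.mem_of_mem_drop ha)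
    have h6 : f * z = f := by
      have := nc_f_prd hz _ (htZ (n / 2 + 1 + j.val))
      rw [hzz, ← WithOne.coe_mul] at this
      exact WithOne.coe_inj.1 this
    exact ⟨by rw [h2]; exact h5.symm, by rw [h2, h6]⟩
  choose z hz1 hz2 using hex
  have hinj : Function.Injective (fun j : Fin (n - n / 2) => (⟨z j, hz2 j⟩ : {z : S // Nul z})) := by
    intro i j h
    have h' : z i = z j := congrArg Subtype.val h
    by_contra hne
    have hi := i.isLt
    have hj := j.isLt
    have h7 : prd (l'.take (n / 2 + 1 + i.val)) = prd (l'.take (n / 2 + 1 + j.val)) := by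
      rw [hz1, hz1, h']
    rcases lt_or_gt_of_ne (fun h' => hne (Fin.ext h') : i.val ≠ j.val) with hlt | hlt
    · exact nc_inj hz hom hl' hlf' _ _ (by omega) (by omega) h7
    · exact nc_inj hz hom hl' hlf' _ _ (by omega) (by omega) h7.symm
  have h := Nat.card_le_card_of_injective _ hinj
  rw [Nat.card_eq_fintype_card, Fintype.card_fin] at h
  omega

end EVS
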