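import Pool.Agent.EVA.Z1
import Pool.Agent.EVA.Z2
import Pool.Agent.EVA.Z4

/-!
# [EVA-Z3] semigroups with indecomposable elements
-/

set_option autoImplicit false

namespace EVS

section
variable {S : Type} [Semigroup S]

private theorem z3_split (l : List S) {i j k : ℕ} (hij : i ≤ j) (hjk : j ≤ k) :
    prd ((l.drop i).take (j - i)) * prd ((l.drop j).take (k - j)) =
      prd ((l.drop i).take (k - i)) := by
  rw [← prd_append]
  congr 1
  have h1 : k - i = (j - i) + (k - j) := by omega
  rw [h1, List.take_add, List.drop_drop]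
  have h2 : i + (j - i) = j := by omega
  rw [h2]

private theorem z3_total (l : List S) {i j : ℕ} (hij : i ≤ j) :
    prd l = prd (l.take i) * prd ((l.drop i).take (j - i)) * prd (l.drop j) := by
  have h1 := z3_split l (Nat.zero_le i) hij
  rw [List.drop_zero, Nat.sub_zero, Nat.sub_zero] at h1
  rw [h1, ← prd_append, List.take_append_drop]

end

/-- PROOF: we may assume `1 ≤ c` (`nEnd_pos`).  Let `N = (2 c)(2 c)`, `M = (N ^ N) * (N ^ N)` and `K = 2 c + 2`; `R` from `ramsey M K`.
Let `l` have length at least `R`, `prd l = s`, and suppose `s` is not in `I = {s | InI s}`, an ideal with at most `N` elements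
(`card_InI_le`) and nonempty (`om g`).  For `i < j ≤ l.length` let `w i j : S` be the product of `(l.drop i).take (j - i)`;
`w i j * w j k = w i k`, and `w i j` is not in `I` (`prd l` is in the ideal generated by it).
Colour `(i, j)` by the pair of maps `I → I`, `x ↦ w i j * x`, `x ↦ x * w i j` (for other `i, j` by any value).  There are at most
`M` colours.  So there are `f 0 < ... < f K ≤ R` such that all `w (f i) (f j)` have the same colour `q = (λ, ρ)`.
Let `Z = {w (f i) (f (i+1)) | i < K}`.  As `w (f 0) (f 1) * w (f 1) (f 2) = w (f 0) (f 2)`, `λ ∘ λ = λ` and `ρ ∘ ρ = ρ`; so all products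
`u` of nonempty lists in `Z` satisfy `u x = λ x`, `x u = ρ x` for `x ∈ I`, and so does `om u` (a power of `u`).
`om u` is idempotent, in `I`.  For two such products `u`, `u'`, `e = om u`, `e' = om u'`: `e e' = λ e' = e' e' = e'` and
`e e' = ρ e = e e = e`, so `e = e'`.  Let `f` be the common value: `u f = λ f = f f = f`, `f u = f`.
The list of the `w (f i) (f (i+1))`, `i < K`, has product `w (f 0) (f K)`, not in `I`, so different from `f`.
By `nil_count` (and `card_null_le`) `K ≤ 2 c`, a contradiction. -/
theorem long_inI (c : ℕ) : ∃ R : ℕ, ∀ (S : Type) [Semigroup S] [Finite S], Loc S → (∃ g : S, Indec g) →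
    nEnd S ≤ c → ∀ (l : List S) (s : S), R ≤ l.length → prd l = (s : WithOne S) → InI s := by
  obtain ⟨R, hR⟩ := ramsey ((((2 * c) * (2 * c)) ^ ((2 * c) * (2 * c))) *
    (((2 * c) * (2 * c)) ^ ((2 * c) * (2 * c)))) (2 * c + 2)
  refine ⟨R, ?_⟩
  intro S _ _ hL hgex hc l s hl hs
  obtain ⟨g, hg⟩ := hgex
  by_contra hsI
  have hpos : 0 < nEnd S := nEnd_pos
  have hc1 : 1 ≤ c := by omega
  -- the colours
  have hcardI : Nat.card {x : S // InI x} ≤ (2 * c) * (2 * c) := by
    refine (card_InI_le hL hg).trans ?_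
    exact Nat.mul_le_mul (by omega) (by omega)
  have hN1 : 1 ≤ (2 * c) * (2 * c) := Nat.one_le_iff_ne_zero.2 (by positivity)
  have hpow : Nat.card {x : S // InI x} ^ Nat.card {x : S // InI x} ≤
      ((2 * c) * (2 * c)) ^ ((2 * c) * (2 * c)) :=
    (Nat.pow_le_pow_left hcardI _).trans (Nat.pow_le_pow_right hN1 hcardI)
  have hcard : Nat.card (({x : S // InI x} → {x : S // InI x}) ×
      ({x : S // InI x} → {x : S // InI x})) ≤
      (((2 * c) * (2 * c)) ^ ((2 * c) * (2 * c))) * (((2 * c) * (2 * c)) ^ ((2 * c) * (2 * c))) := by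
    rw [Nat.card_prod, Nat.card_fun]
    exact Nat.mul_le_mul hpow hpow
  -- the products of intervals
  have hex : ∀ i j : ℕ, ∃ x : S, i < j → j ≤ l.length →
      prd ((l.drop i).take (j - i)) = (x : WithOne S) := by
    intro i j
    by_cases hij : i < j ∧ j ≤ l.length
    · have hne : (l.drop i).take (j - i) ≠ [] := by
        intro h
        have := congrArg List.length h
        rw [List.length_take, List.length_drop, List.length_nil] at this
        omega
      obtain ⟨x, hx⟩ := exists_prd hne
      exact ⟨x, fun _ _ => hx⟩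
    · exact ⟨g, fun h1 h2 => absurd ⟨h1, h2⟩ hij⟩
  choose w hw using hex
  have hwI : ∀ i j, i < j → j ≤ l.length → ¬ InI (w i j) := by
    intro i j h1 h2 h3
    apply hsI
    obtain ⟨e, a, b, he, hab⟩ := h3
    refine ⟨e, prd (l.take i) * a, b * prd (l.drop j), he, ?_⟩
    rw [← hs, z3_total l h1.le, hw i j h1 h2, hab]
    simp only [mul_assoc]
  obtain ⟨f, hf1, hf2, q, hq⟩ := hR _ hcard
    (fun i j => (fun x => ⟨w i j * x.1, x.2.mul_left (w i j)⟩,
      fun x => ⟨x.1 * w i j, x.2.mul_right (w i j)⟩))
  set K := 2 * c + 2 with hK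
  have hfl : ∀ i, i ≤ K → f i ≤ l.length := by
    intro i hi
    rcases eq_or_lt_of_le hi with h | h
    · rw [h]; exact hf2.trans hl
    · exact (hf1 i K h le_rfl).le.trans (hf2.trans hl)
  obtain ⟨z0, hz0⟩ : ∃ z0, z0 = w (f 0) (f 1) := ⟨_, rfl⟩
  have hlam : ∀ i j, i < j → j ≤ K → ∀ (x : S), InI x → w (f i) (f j) * x = z0 * x := by
    intro i j h1 h2 x hx
    have h3 := (hq i j h1 h2).trans (hq 0 1 (by omega) (by omega)).symm
    have h4 := congrArg (fun p => (p.1 ⟨x, hx⟩).1) h3
    rw [hz0]
    exact h4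
  have hrho : ∀ i j, i < j → j ≤ K → ∀ (x : S), InI x → x * w (f i) (f j) = x * z0 := by
    intro i j h1 h2 x hx
    have h3 := (hq i j h1 h2).trans (hq 0 1 (by omega) (by omega)).symm
    have h4 := congrArg (fun p => (p.2 ⟨x, hx⟩).1) h3
    rw [hz0]
    exact h4
  have hww : w (f 0) (f 1) * w (f 1) (f 2) = w (f 0) (f 2) := by
    have h01 := hf1 0 1 (by omega) (by omega)
    have h12 := hf1 1 2 (by omega) (by omega)
    rw [← WithOne.coe_inj, WithOne.coe_mul, ← hw _ _ h01 (hfl 1 (by omega)),
      ← hw _ _ h12 (hfl 2 (by omega)), ← hw _ _ (h01.trans h12) (hfl 2 (by omega))]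
    exact z3_split l h01.le h12.le
  have hlam2 : ∀ (x : S), InI x → z0 * (z0 * x) = z0 * x := by
    intro x hx
    calc z0 * (z0 * x) = w (f 0) (f 1) * (w (f 1) (f 2) * x) := by
          rw [hlam 1 2 (by omega) (by omega) x hx, ← hz0]
      _ = z0 * x := by rw [← mul_assoc, hww, hlam 0 2 (by omega) (by omega) x hx]
  have hrho2 : ∀ (x : S), InI x → (x * z0) * z0 = x * z0 := by
    intro x hx
    calc (x * z0) * z0 = (x * w (f 0) (f 1)) * w (f 1) (f 2) := by
          rw [← hz0, hrho 1 2 (by omega) (by omega) (x * z0) (hx.mul_right z0)]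
      _ = x * z0 := by rw [mul_assoc, hww, hrho 0 2 (by omega) (by omega) x hx]
  -- products of elements of `Z`
  let Z : Set S := {z | (∀ x, InI x → z * x = z0 * x) ∧ ∀ x, InI x → x * z = x * z0}
  have hprod : ∀ (l' : List S) (u : S), (∀ a ∈ l', a ∈ Z) → prd l' = (u : WithOne S) → u ∈ Z := by
    intro l'
    induction l' with
    | nil => intro u _ h; exact absurd rfl (ne_nil_of_prd h)
    | cons a l' ih =>
      intro u ha h
      by_cases hne : l' = []
      · rw [hne, prd_singleton, WithOne.coe_inj] at h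
        rw [← h]
        exact ha a (by simp)
      · obtain ⟨u', hu'⟩ := exists_prd hne
        have h1 := ih u' (fun b hb => ha b (List.mem_cons_of_mem a hb)) hu'
        have h2 := ha a (by simp)
        rw [prd_cons, hu', ← WithOne.coe_mul, WithOne.coe_inj] at h
        rw [← h]
        constructor
        · intro x hx
          rw [mul_assoc, h1.1 x hx, h2.1 _ (hx.mul_left z0), hlam2 x hx]
        · intro x hx
          rw [← mul_assoc, h2.2 x hx, h1.2 _ (hx.mul_right z0), hrho2 x hx]
  have hpwZ : ∀ (u : S), u ∈ Z → ∀ n, pw u n ∈ Z := by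
    intro u hu n
    induction n with
    | zero => exact hu
    | succ n ih =>
      rw [pw_succ]
      constructor
      · intro x hx
        rw [mul_assoc, hu.1 x hx, ih.1 _ (hx.mul_left z0), hlam2 x hx]
      · intro x hx
        rw [← mul_assoc, ih.2 x hx, hu.2 _ (hx.mul_right z0), hrho2 x hx]
  have homZ : ∀ u ∈ Z, om u ∈ Z := by
    intro u hu
    obtain ⟨n, hn⟩ := om_eq_pw u
    rw [hn]
    exact hpwZ u hu n
  have homI : ∀ u : S, InI (om u) := fun u => ⟨om u, 1, 1, om_idem u, by simp⟩
  have homeq : ∀ u ∈ Z, ∀ u' ∈ Z, om u = om u' := by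
    intro u hu u' hu'
    have h1 : om u * om u' = om u' := by
      rw [(homZ u hu).1 _ (homI u'), ← (homZ u' hu').1 _ (homI u'), om_idem]
    have h2 : om u * om u' = om u := by
      rw [(homZ u' hu').2 _ (homI u), ← (homZ u hu).2 _ (homI u), om_idem]
    rw [← h1, h2]
  have hz0Z : z0 ∈ Z := ⟨fun _ _ => rfl, fun _ _ => rfl⟩
  -- the long list
  have hlist : ∀ k, k ≤ K → prd ((List.range k).map (fun i => w (f i) (f (i + 1)))) =
      prd ((l.drop (f 0)).take (f k - f 0)) := by
    intro k
    induction k with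
    | zero => intro _; simp
    | succ k ih =>
      intro hk
      have h1 := hf1 k (k + 1) (by omega) hk
      have h0 : f 0 ≤ f k := by
        rcases Nat.eq_zero_or_pos k with h | h
        · rw [h]
        · exact (hf1 0 k h (by omega)).le
      rw [List.range_succ, List.map_append, prd_append, ih (by omega), List.map_singleton,
        prd_singleton, ← hw _ _ h1 (hfl (k + 1) hk)]
      exact z3_split l h0 h1.le
  have h0K : f 0 < f K := hf1 0 K (by omega) le_rfl
  have hnil := nil_count (Z := Z) (f := om z0) (om_idem z0) (by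
      intro z hz
      constructor
      · rw [hz.1 _ (homI z0), ← (homZ z0 hz0Z).1 _ (homI z0), om_idem]
      · rw [hz.2 _ (homI z0), ← (homZ z0 hz0Z).2 _ (homI z0), om_idem])
    (by
      intro l' u hl' hu
      exact homeq u (hprod l' u hl' hu) z0 hz0Z)
    (l := (List.range K).map (fun i => w (f i) (f (i + 1)))) (by
      intro a ha
      rw [List.mem_map] at ha
      obtain ⟨i, hi, rfl⟩ := ha
      rw [List.mem_range] at hi
      exact ⟨fun x hx => hlam i (i + 1) (by omega) (by omega) x hx,
        fun x hx => hrho i (i + 1) (by omega) (by omega) x hx⟩)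
    (by
      intro h
      rw [hlist K le_rfl, hw _ _ h0K (hfl K le_rfl), WithOne.coe_inj] at h
      exact hwI _ _ h0K (hfl K le_rfl) (by rw [h]; exact homI z0))
  rw [List.length_map, List.length_range] at hnil
  have := card_null_le hg
  omega

end EVS
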